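import Pool.Agent.Helper22.Rev.IetFacts

/-!
# Orientation preserving homeomorphisms commuting with a symmetric interval exchange map
-/

set_option autoImplicit false

open Set Filter Topology MeasureTheory

namespace Pool.Agent.Helper22.Rev

theorem commute_leave_countable {n : ℕ} {l : Fin (n + 2) → ℝ} (hl : ∀ i, 0 < l i) {T0 : ℝ → ℝ}
    (hT : IsStd l T0) :
    {x : ℝ | x ∈ Ioo (-half l) (half l) ∧ ¬ ∀ i, T0^[i] x ∈ Dom l}.Countable := by
  classical
  have h1 : {x : ℝ | x ∈ Ioo (-half l) (half l) ∧ ¬ ∀ i, T0^[i] x ∈ Dom l} ⊆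
      Set.range (fun s : Fin (n + 2) × (Fin (n + 2) → ℤ) => left l s.1 - ∑ j, (s.2 j : ℝ) * l j) := by
    rintro x ⟨hx, hn⟩
    push Not at hn
    have h1 := Nat.find_spec hn
    have h2 : ∀ j < Nat.find hn, T0^[j] x ∈ Dom l := by
      intro j hj
      have := Nat.find_min hn hj
      push Not at this
      exact this
    obtain ⟨v, h3, h4, h5⟩ := iet_orbit hT (Nat.find hn) h2
    have h6 : T0^[Nat.find hn] x ∈ Ioo (-half l) (half l) := by
      rcases Nat.eq_zero_or_pos (Nat.find hn) with h | h
      · rw [h]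
        exact hx
      · have h7 : Nat.find hn = (Nat.find hn - 1) + 1 := by omega
        rw [h7, Function.iterate_succ_apply']
        exact iet_maps hl hT (h2 _ (by omega))
    obtain ⟨k, hk, h7⟩ := iet_cover h6 h1
    refine ⟨(k, v), ?_⟩
    simp only
    rw [← h7, h3]
    ring
  exact (Set.countable_range _).mono h1

theorem commute_id {n : ℕ} {l : Fin (n + 2) → ℝ} (hl : ∀ i, 0 < l i) (hi : Indep l) {T0 : ℝ → ℝ}
    (hT : IsStd l T0) {d : ℕ} (P : ℕ → Tow d T0 (Dom l) (half l))
    (hP : Tendsto (fun n => (P n).eps) atTop (𝓝 0))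
    (φ : ℝ → ℝ) (hφc : ContinuousOn φ (Icc (-half l) (half l)))
    (hφm : StrictMonoOn φ (Icc (-half l) (half l)))
    (hφb : BijOn φ (Icc (-half l) (half l)) (Icc (-half l) (half l)))
    (hφ : ∀ x ∈ Dom l, φ x ∈ Dom l ∧ φ (T0 x) = T0 (φ x)) :
    ∀ x ∈ Icc (-half l) (half l), φ x = x := by
  classical
  have hhalf := iet_half_pos hl
  have hm1 : -half l ∈ Icc (-half l) (half l) := ⟨le_rfl, by linarith⟩
  have hm2 : half l ∈ Icc (-half l) (half l) := ⟨by linarith, le_rfl⟩
  -- the end points are fixed
  have hend1 : φ (-half l) = -half l := by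
    obtain ⟨z, hz, hz2⟩ := hφb.surjOn hm1
    have h1 := hφb.mapsTo hm1
    have h2 := hφm.monotoneOn hm1 hz hz.1
    exact le_antisymm (h2.trans hz2.le) h1.1
  have hend2 : φ (half l) = half l := by
    obtain ⟨z, hz, hz2⟩ := hφb.surjOn hm2
    have h1 := hφb.mapsTo hm2
    have h2 := hφm.monotoneOn hz hm2 hz.2
    exact le_antisymm h1.2 (hz2.ge.trans h2)
  have hleft : ∀ k, left l k ∈ Icc (-half l) (half l) := by
    intro k
    have h1 := iet_left_ge hl k
    have h2 := iet_left_le hl k
    have h3 := hl k
    exact ⟨h1, by linarith⟩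
  -- the preimages of the break points
  have hpre : ∀ k : Fin (n + 2), ∃ k' : Fin (n + 2), φ (left l k') = left l k := by
    intro k
    by_cases hk : k = 0
    · exact ⟨0, by rw [hk, iet_left_zero, hend1]⟩
    · obtain ⟨z, hz, hz2⟩ := hφb.surjOn (hleft k)
      have hk0 : left l 0 < left l k := iet_left_strictMono hl (Fin.pos_iff_ne_zero.mpr hk)
      rw [iet_left_zero] at hk0
      have hk1 : left l k < half l := by
        have h2 := iet_left_le hl k
        have h3 := hl k
        linarith
      have hz3 : z ∈ Ioo (-half l) (half l) := by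
        constructor
        · apply lt_of_le_of_ne hz.1
          intro h
          rw [← h, hend1] at hz2
          linarith
        · apply lt_of_le_of_ne hz.2
          intro h
          rw [h, hend2] at hz2
          linarith
      have hz4 : z ∉ Dom l := by
        intro h
        have := (hφ z h).1
        rw [hz2] at this
        exact iet_left_notMem hl k this
      obtain ⟨k', _, h6⟩ := iet_cover hz3 hz4
      exact ⟨k', by rw [← h6, hz2]⟩
  choose σ hσ using hpre
  have hσm : StrictMono σ := by
    intro k k' hkk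
    have h1 := iet_left_strictMono hl hkk
    rw [← hσ k, ← hσ k'] at h1
    have h2 := (hφm.lt_iff_lt (hleft _) (hleft _)).mp h1
    exact (iet_left_strictMono hl).lt_iff_lt.mp h2
  have hσid : σ = id := by
    apply (StrictMono.range_inj hσm strictMono_id).mp
    rw [(Finite.injective_iff_surjective.mp hσm.injective).range_eq, Set.range_id]
  have hfix : ∀ k, φ (left l k) = left l k := by
    intro k
    have := hσ k
    rw [hσid] at this
    exact this
  have hdomI : ∀ x ∈ Dom l, x ∈ Icc (-half l) (half l) := fun x hx =>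
    Ioo_subset_Icc_self (iet_dom_subset hl hx)
  -- components are preserved
  have hcomp : ∀ α, ∀ x ∈ Ioo (left l α) (left l α + l α), φ x ∈ Ioo (left l α) (left l α + l α) := by
    intro α x hx
    have hxD : x ∈ Dom l := by
      unfold Dom
      rw [mem_iUnion]
      exact ⟨α, hx⟩
    have h1 := (hφ x hxD).1
    have h1' := h1
    unfold Dom at h1'
    rw [mem_iUnion] at h1'
    obtain ⟨β, hβ⟩ := h1'
    have h2 : β = α := by
      rcases lt_trichotomy β α with h | h | h
      · exfalso
        have h3 := iet_left_lt hl h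
        have h4 := (hφm.lt_iff_lt (hleft α) (hdomI x hxD)).mpr hx.1
        rw [hfix] at h4
        linarith [hβ.2]
      · exact h
      · exfalso
        have h3 := iet_left_lt hl h
        have h4 := (hφm.lt_iff_lt (hdomI x hxD) (hleft β)).mpr (by linarith [hx.2])
        rw [hfix] at h4
        linarith [hβ.1]
    rw [h2] at hβ
    exact hβ
  -- the displacement is invariant
  have hinv : ∀ x ∈ Dom l, φ (T0 x) - T0 x = φ x - x := by
    intro x hx
    have hx' := hx
    unfold Dom at hx'
    rw [mem_iUnion] at hx'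
    obtain ⟨α, hα⟩ := hx'
    rw [(hφ x hx).2, hT α x hα, hT α (φ x) (hcomp α x hα)]
    ring
  have hinv2 : ∀ x, (∀ i, T0^[i] x ∈ Dom l) → ∀ i, φ (T0^[i] x) - T0^[i] x = φ x - x := by
    intro x hx i
    induction i with
    | zero => rfl
    | succ i ih =>
      rw [Function.iterate_succ_apply', hinv _ (hx i), ih]
  have hDc : ContinuousOn (fun x => φ x - x) (Icc (-half l) (half l)) := hφc.sub continuousOn_id
  have h0mem : (0 : ℝ) ∈ Ioo (-half l) (half l) := ⟨by linarith, hhalf⟩
  have hconst : ∀ x, (∀ i, T0^[i] x ∈ Dom l) → φ x - x = φ 0 - 0 := by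
    intro x hx
    have h1 : ∀ m, ∃ i, T0^[i] x ∈ Ioo (-(P m).eps) (P m).eps := fun m => hit hl hi hT (P m) x hx
    choose ι hι using h1
    have h2 : Tendsto (fun m => T0^[ι m] x) atTop (𝓝 0) := by
      have h3 : Tendsto (fun m => -(P m).eps) atTop (𝓝 0) := by
        simpa using hP.neg
      exact tendsto_of_tendsto_of_tendsto_of_le_of_le h3 hP (fun m => (hι m).1.le)
        (fun m => (hι m).2.le)
    have h3 : ContinuousAt (fun x => φ x - x) 0 :=
      hDc.continuousAt (Icc_mem_nhds h0mem.1 h0mem.2)
    have h4 := h3.tendsto.comp h2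
    have h5 : (fun x => φ x - x) ∘ (fun m => T0^[ι m] x) = fun _ => φ x - x := by
      funext m
      exact hinv2 x hx (ι m)
    rw [h5] at h4
    exact tendsto_nhds_unique tendsto_const_nhds h4
  -- density
  have hcount := commute_leave_countable hl hT
  have hdense := hcount.dense_compl ℝ
  have hsub : Icc (-half l) (half l) ⊆ closure (Ioo (-half l) (half l) ∩
      {x : ℝ | x ∈ Ioo (-half l) (half l) ∧ ¬ ∀ i, T0^[i] x ∈ Dom l}ᶜ) := by
    have h1 := hdense.open_subset_closure_inter (isOpen_Ioo (a := -half l) (b := half l))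
    have h2 := closure_mono h1
    rw [closure_closure, closure_Ioo (by linarith)] at h2
    exact h2
  have heq : EqOn (fun x => φ x - x) (fun _ => φ 0 - 0) (Icc (-half l) (half l)) := by
    apply Set.EqOn.of_subset_closure (s := Ioo (-half l) (half l) ∩
      {x : ℝ | x ∈ Ioo (-half l) (half l) ∧ ¬ ∀ i, T0^[i] x ∈ Dom l}ᶜ) _ hDc continuousOn_const
      (inter_subset_left.trans Ioo_subset_Icc_self) hsub
    rintro x ⟨hx1, hx2⟩
    apply hconst
    by_contra hcon
    exact hx2 ⟨hx1, hcon⟩
  have h0 : φ 0 - 0 = 0 := by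
    have := heq hm2
    simp only at this
    rw [hend2, sub_self] at this
    exact this.symm
  intro x hx
  have := heq hx
  simp only at this
  rw [h0] at this
  linarith

end Pool.Agent.Helper22.Rev
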