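import Mathlib

/-!
# Reversible generalised interval exchange maps: shared definitions (MP_2efe30_an)

* `Tow`     : symmetric towers of a piecewise translation `T0` over an interval `(-eps, eps)`
* `Refine`  : a finer tower inside a coarser one, with its itineraries
* `TSide`   : a nonlinear map `T`, conjugated to `T0` by an increasing homeomorphism `G`
* `TowerSeq`: a sequence of towers with infinitely many good refinements
* `St`, `next`: the symmetric induction algorithm on lengths and heights
-/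

set_option autoImplicit false

open Set

namespace Pool.Agent.Helper22.Rev

/-- A symmetric tower for `T0` (a piecewise translation, regular on `U0 ⊆ (-a, a)`): `d` disjoint
intervals `(lo α, hi α)` filling `(-eps, eps)`; `T0 ^ i` is the translation by `sh α i` on
`(lo α, hi α)`; the first return to `(-eps, eps)` happens at time `r α` and flips the interval
`(lo α, hi α)` to `(-hi α, -lo α)` by the translation by `-(lo α + hi α)`; the levels are disjoint
and fill `(-a, a)`. -/
structure Tow (d : ℕ) (T0 : ℝ → ℝ) (U0 : Set ℝ) (a : ℝ) where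
  lo : Fin d → ℝ
  hi : Fin d → ℝ
  r : Fin d → ℕ
  sh : Fin d → ℕ → ℝ
  eps : ℝ
  lt : ∀ α, lo α < hi α
  lo_ge : ∀ α, -eps ≤ lo α
  hi_le : ∀ α, hi α ≤ eps
  eps_le : eps ≤ a
  total : ∑ α, (hi α - lo α) = 2 * eps
  full : ∑ α, (r α : ℝ) * (hi α - lo α) = 2 * a
  r_pos : ∀ α, 0 < r α
  sh_zero : ∀ α, sh α 0 = 0
  sh_ret : ∀ α, sh α (r α) = -(lo α + hi α)
  reg : ∀ α, ∀ i < r α, ∀ x ∈ Ioo (lo α) (hi α), x + sh α i ∈ U0
  step : ∀ α, ∀ i < r α, ∀ x ∈ Ioo (lo α) (hi α), T0 (x + sh α i) = x + sh α (i + 1)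
  disj : ∀ α β i j, i < r α → j < r β → (α, i) ≠ (β, j) →
    Disjoint (Ioo (lo α + sh α i) (hi α + sh α i)) (Ioo (lo β + sh β j) (hi β + sh β j))

namespace Tow

variable {d : ℕ} {T0 : ℝ → ℝ} {U0 : Set ℝ} {a : ℝ}

/-- the first return to `(-eps, eps)` is `x ↦ x - s α` on the interval `α` -/
def s (P : Tow d T0 U0 a) (α : Fin d) : ℝ := P.lo α + P.hi α

/-- the interval `(l, h)` follows the itinerary `w` under the first return map -/
def Follows (P : Tow d T0 U0 a) : ℝ → ℝ → List (Fin d) → Prop
  | _, _, [] => True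
  | l, h, α :: w => P.lo α ≤ l ∧ h ≤ P.hi α ∧ P.Follows (l - P.s α) (h - P.s α) w

/-- Birkhoff sums of `g` along the tower `α`, up to height `i` -/
def S (P : Tow d T0 U0 a) (g : ℝ → ℝ) (α : Fin d) (i : ℕ) (x : ℝ) : ℝ :=
  ∑ l ∈ Finset.range i, g (x + P.sh α l)

/-- Birkhoff sum of `g` along the whole tower `α` -/
def F (P : Tow d T0 U0 a) (g : ℝ → ℝ) (α : Fin d) (x : ℝ) : ℝ := P.S g α (P.r α) x

/-- all levels have `G`-length at most `δ` -/
def Small (P : Tow d T0 U0 a) (G : ℝ → ℝ) (δ : ℝ) : Prop :=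
  ∀ α, ∀ i < P.r α, G (P.hi α + P.sh α i) - G (P.lo α + P.sh α i) ≤ δ

end Tow

/-- The tower `Q` refines the tower `P`; `it β` is the itinerary of the interval `β` of `Q` under
the first return map of `P`, up to its return to the base of `Q`. -/
structure Refine {d : ℕ} {T0 : ℝ → ℝ} {U0 : Set ℝ} {a : ℝ} (P Q : Tow d T0 U0 a) where
  it : Fin d → List (Fin d)
  follows : ∀ β, P.Follows (Q.lo β) (Q.hi β) (it β)
  rsum : ∀ β, Q.r β = ((it β).map P.r).sum

/-- A map `T` whose derivative is `exp f`, conjugated to `T0` by the increasing homeomorphism `G`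
of `[-a, a]` onto `[G (-a), G a]`. -/
structure TSide (T0 : ℝ → ℝ) (U0 : Set ℝ) (a : ℝ) (G T f f1 f2 : ℝ → ℝ) (C : ℝ) : Prop where
  ha : 0 < a
  hC : 0 ≤ C
  sub : U0 ⊆ Ioo (-a) a
  opn : IsOpen U0
  gcont : ContinuousOn G (Icc (-a) a)
  gmono : StrictMonoOn G (Icc (-a) a)
  conj : ∀ x ∈ U0, T (G x) = G (T0 x)
  fcont : ContinuousOn f (Icc (G (-a)) (G a))
  fend : f (G a) = f (G (-a))
  dT : ∀ x ∈ U0, HasDerivAt T (Real.exp (f (G x))) (G x)
  df : ∀ x ∈ U0, HasDerivAt f (f1 (G x)) (G x)
  df1 : ∀ x ∈ U0, HasDerivAt f1 (f2 (G x)) (G x)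
  b1 : ∀ x ∈ U0, |f1 (G x)| ≤ C
  b2 : ∀ x ∈ U0, |f2 (G x)| ≤ C

/-- A sequence of towers; the steps with even index are good, the others have controlled length. -/
structure TowerSeq (d : ℕ) (T0 : ℝ → ℝ) (U0 : Set ℝ) (a : ℝ) where
  P : ℕ → Tow d T0 U0 a
  R : ∀ n, Refine (P n) (P (n + 1))
  B : ℕ
  good : ∀ n, Even n → ∀ β, (∀ α, 2 ≤ ((R n).it β).count α) ∧ ((R n).it β).length ≤ B
  rho : ℕ → ℝ
  len : ∀ n β, (((R n).it β).length : ℝ) ≤ rho n
  summ : ∀ θ : ℝ, 0 < θ → θ < 1 → Summable fun n => rho n * θ ^ n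

section Path

variable {n : ℕ} {K : Type*}

/-- keep position `0`, move the last position to position `1` -/
def rot (v : Fin (n + 2) → K) : Fin (n + 2) → K :=
  Fin.cons (v 0) (Fin.cons (v (Fin.last (n + 1))) fun j : Fin n => v j.castSucc.succ)

/-- reverse the order of the positions -/
def rev (v : Fin (n + 2) → K) : Fin (n + 2) → K := fun i => v (Fin.rev i)

/-- rearrangement after a comparison: `m = true` is the mode `A`, `m = false` the mode `B`;
`o = true` if the first position wins -/
def arr (m o : Bool) (v : Fin (n + 2) → K) : Fin (n + 2) → K :=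
  match m, o with
  | true, true => v
  | true, false => rev v
  | false, false => v
  | false, true => rot v

/-- mode after a comparison -/
def nextMode (m o : Bool) : Bool := !m && o

/-- heights: the loser gets the sum -/
def qstep (m o : Bool) (q : Fin (n + 2) → ℕ) : Fin (n + 2) → ℕ :=
  arr m o (if o then Function.update q (Fin.last (n + 1)) (q (Fin.last (n + 1)) + q 0)
    else Function.update q 0 (q 0 + q (Fin.last (n + 1))))

/-- lengths: the winner gets the difference -/
def lstep (m o : Bool) (l : Fin (n + 2) → ℝ) : Fin (n + 2) → ℝ :=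
  arr m o (if o then Function.update l 0 (l 0 - l (Fin.last (n + 1)))
    else Function.update l (Fin.last (n + 1)) (l (Fin.last (n + 1)) - l 0))

/-- the first position wins -/
noncomputable def outc (l : Fin (n + 2) → ℝ) : Bool := by
  classical exact decide (l (Fin.last (n + 1)) < l 0)

/-- largest height -/
def Mx (q : Fin (n + 2) → ℕ) : ℕ := Finset.univ.sup q

end Path

/-- states of the algorithm -/
structure St (n : ℕ) where
  m : Bool
  l : Fin (n + 2) → ℝ
  q : Fin (n + 2) → ℕ

namespace St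

variable {n : ℕ}

/-- one comparison -/
noncomputable def next (X : St n) : St n :=
  ⟨nextMode X.m (outc X.l), lstep X.m (outc X.l) X.l, qstep X.m (outc X.l) X.q⟩

/-- the next outcomes are `w` -/
def Runs : St n → List Bool → Prop
  | _, [] => True
  | X, o :: w => outc X.l = o ∧ Runs X.next w

/-- starting state -/
def init (l : Fin (n + 2) → ℝ) : St n := ⟨true, l, fun _ => 1⟩

end St

/-- scales -/
def scale (k : ℕ) : ℕ := ∑ j ∈ Finset.range k, (Nat.sqrt j + 1)

section IET

variable {n : ℕ}

/-- half of the total length -/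
noncomputable def half (l : Fin (n + 2) → ℝ) : ℝ := (∑ i, l i) / 2

/-- left end of the interval with index `α` -/
noncomputable def left (l : Fin (n + 2) → ℝ) (α : Fin (n + 2)) : ℝ :=
  -half l + ∑ i ∈ Finset.Iio α, l i

/-- the union of the open intervals of the partition -/
def Dom (l : Fin (n + 2) → ℝ) : Set ℝ := ⋃ α, Ioo (left l α) (left l α + l α)

/-- `T0` is the standard interval exchange map with the symmetric permutation and lengths `l`, on
the interval centred at `0`: it maps the interval `α`, that is `(left l α, left l α + l α)`, onto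
`(-(left l α + l α), -left l α)` by a translation -/
def IsStd (l : Fin (n + 2) → ℝ) (T0 : ℝ → ℝ) : Prop :=
  ∀ α, ∀ x ∈ Ioo (left l α) (left l α + l α), T0 x = x - (2 * left l α + l α)

/-- no integral linear relation between the lengths -/
def Indep (l : Fin (n + 2) → ℝ) : Prop :=
  ∀ m : Fin (n + 2) → ℤ, ∑ i, (m i : ℝ) * l i = 0 → m = 0

end IET

end Pool.Agent.Helper22.Rev
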