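import Mathlib
import Pool.Agent.Helper22.Rev.Defs

/-!
# RV-1: local estimates on towers (auxiliary file)
-/

set_option autoImplicit false

open Set Filter Topology

namespace Pool.Agent.Helper22.Rev

namespace Local

/-! ### General facts -/

/-- Extension of an inequality to the closed interval. -/
theorem ext_le {lo hi : ℝ} (h : lo < hi) {A B : ℝ × ℝ → ℝ}
    (hA : ContinuousOn A (Icc lo hi ×ˢ Icc lo hi)) (hB : ContinuousOn B (Icc lo hi ×ˢ Icc lo hi))
    (hle : ∀ x y, lo < x → x ≤ y → y < hi → A (x, y) ≤ B (x, y)) :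
    ∀ x y, lo ≤ x → x ≤ y → y ≤ hi → A (x, y) ≤ B (x, y) := by
  intro x y hx hxy hy
  set c := (lo + hi) / 2 with hc
  have hc1 : lo < c := by rw [hc]; linarith
  have hc2 : c < hi := by rw [hc]; linarith
  let φ : ℝ → ℝ × ℝ := fun t => (x + t * (c - x), y + t * (c - y))
  have hφ : Tendsto φ (𝓝[>] 0) (𝓝[Icc lo hi ×ˢ Icc lo hi] (x, y)) := by
    rw [tendsto_nhdsWithin_iff]
    constructor
    · have h1 : Continuous φ := by fun_prop
      have h2 : φ 0 = (x, y) := by simp [φ]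
      rw [← h2]
      exact h1.continuousAt.tendsto.mono_left nhdsWithin_le_nhds
    · have h3 : ∀ᶠ t in 𝓝[>] (0 : ℝ), t ∈ Ioo (0 : ℝ) 1 :=
        Ioo_mem_nhdsGT one_pos
      filter_upwards [h3] with t ht
      obtain ⟨ht0, ht1⟩ := ht
      constructor
      · constructor
        · change lo ≤ x + t * (c - x)
          nlinarith
        · change x + t * (c - x) ≤ hi
          nlinarith
      · constructor
        · change lo ≤ y + t * (c - y)
          nlinarith
        · change y + t * (c - y) ≤ hi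
          nlinarith
  have hmem : (x, y) ∈ Icc lo hi ×ˢ Icc lo hi := ⟨⟨hx, hxy.trans hy⟩, ⟨hx.trans hxy, hy⟩⟩
  have h1 : Tendsto (fun t => A (φ t)) (𝓝[>] 0) (𝓝 (A (x, y))) := (hA _ hmem).tendsto.comp hφ
  have h2 : Tendsto (fun t => B (φ t)) (𝓝[>] 0) (𝓝 (B (x, y))) := (hB _ hmem).tendsto.comp hφ
  refine le_of_tendsto_of_tendsto h1 h2 ?_
  have h3 : ∀ᶠ t in 𝓝[>] (0 : ℝ), t ∈ Ioo (0 : ℝ) 1 := Ioo_mem_nhdsGT one_pos
  filter_upwards [h3] with t ht
  obtain ⟨ht0, ht1⟩ := ht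
  apply hle
  · nlinarith
  · nlinarith
  · nlinarith

/-- Sum of the lengths of non-overlapping intervals. -/
theorem sum_len_le {ι : Type*} (s : Finset ι) (u v : ι → ℝ) (A B : ℝ) (hAB : A ≤ B)
    (huv : ∀ i ∈ s, u i ≤ v i) (hA : ∀ i ∈ s, A ≤ u i) (hB : ∀ i ∈ s, v i ≤ B)
    (hd : ∀ i ∈ s, ∀ j ∈ s, i ≠ j → v i ≤ u j ∨ v j ≤ u i) :
    ∑ i ∈ s, (v i - u i) ≤ B - A := by
  classical
  have h1 : MeasureTheory.volume (⋃ i ∈ s, Ioo (u i) (v i)) =
      ∑ i ∈ s, MeasureTheory.volume (Ioo (u i) (v i)) := by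
    apply MeasureTheory.measure_biUnion_finset
    · intro i hi j hj hij
      change Disjoint (Ioo (u i) (v i)) (Ioo (u j) (v j))
      rw [Set.disjoint_left]
      rintro x ⟨hx1, hx2⟩ ⟨hx3, hx4⟩
      rcases hd i hi j hj hij with h | h <;> linarith
    · exact fun i _ => measurableSet_Ioo
  have h2 : MeasureTheory.volume (⋃ i ∈ s, Ioo (u i) (v i)) ≤ MeasureTheory.volume (Icc A B) := by
    apply MeasureTheory.measure_mono
    intro x hx
    simp only [mem_iUnion] at hx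
    obtain ⟨i, hi, hx1, hx2⟩ := hx
    exact ⟨(hA i hi).trans hx1.le, hx2.le.trans (hB i hi)⟩
  rw [h1, Real.volume_Icc] at h2
  simp only [Real.volume_Ioo] at h2
  rw [← ENNReal.ofReal_sum_of_nonneg (fun i hi => sub_nonneg.2 (huv i hi)),
    ENNReal.ofReal_le_ofReal_iff (sub_nonneg.2 hAB)] at h2
  exact h2

/-- Gronwall, forward. -/
theorem gron_fwd {φ φ' : ℝ → ℝ} {y z κ e : ℝ} (hκ : 0 ≤ κ) (he : 0 ≤ e) (hyz : y ≤ z)
    (hφ : ∀ t ∈ Icc y z, HasDerivAt φ (φ' t) t) (hb : ∀ t ∈ Icc y z, |φ' t| ≤ κ * |φ t| + e) :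
    |φ z| ≤ (|φ y| + e * (z - y)) * Real.exp (κ * (z - y)) := by
  have h := norm_le_gronwallBound_of_norm_deriv_right_le (f := φ) (f' := φ') (δ := |φ y|)
    (K := κ) (ε := e) (a := y) (b := z)
    (fun t ht => (hφ t ht).continuousAt.continuousWithinAt)
    (fun t ht => (hφ t ⟨ht.1, ht.2.le⟩).hasDerivWithinAt) le_rfl
    (fun t ht => hb t ⟨ht.1, ht.2.le⟩) z ⟨hyz, le_rfl⟩
  rw [Real.norm_eq_abs] at h
  refine h.trans ?_
  rcases eq_or_lt_of_le hκ with hκ0 | hκ0
  · rw [← hκ0, gronwallBound_K0]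
    simp
  · rw [gronwallBound_of_K_ne_0 hκ0.ne']
    have h1 : Real.exp (κ * (z - y)) - 1 ≤ κ * (z - y) * Real.exp (κ * (z - y)) := by
      have h2 := Real.add_one_le_exp (-(κ * (z - y)))
      have h3 : Real.exp (-(κ * (z - y))) * Real.exp (κ * (z - y)) = 1 := by
        rw [← Real.exp_add]
        simp
      have h4 := Real.exp_pos (κ * (z - y))
      nlinarith
    have h5 : e / κ * (Real.exp (κ * (z - y)) - 1) ≤ e * (z - y) * Real.exp (κ * (z - y)) := by
      calc e / κ * (Real.exp (κ * (z - y)) - 1)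
          ≤ e / κ * (κ * (z - y) * Real.exp (κ * (z - y))) :=
            mul_le_mul_of_nonneg_left h1 (div_nonneg he hκ0.le)
        _ = e * (z - y) * Real.exp (κ * (z - y)) := by
            field_simp
    linarith

theorem gron {φ φ' : ℝ → ℝ} {u v κ e : ℝ} (hκ : 0 ≤ κ) (he : 0 ≤ e)
    (hφ : ∀ t ∈ Ioo u v, HasDerivAt φ (φ' t) t) (hb : ∀ t ∈ Ioo u v, |φ' t| ≤ κ * |φ t| + e)
    {y z : ℝ} (hy : y ∈ Ioo u v) (hz : z ∈ Ioo u v) :
    |φ y| ≤ (|φ z| + e * (v - u)) * Real.exp (κ * (v - u)) := by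
  have key : ∀ (φ φ' : ℝ → ℝ) (y z : ℝ), y ≤ z → z - y ≤ v - u →
      (∀ t ∈ Icc y z, HasDerivAt φ (φ' t) t) → (∀ t ∈ Icc y z, |φ' t| ≤ κ * |φ t| + e) →
      |φ z| ≤ (|φ y| + e * (v - u)) * Real.exp (κ * (v - u)) := by
    intro φ φ' y z hyz hlen h1 h2
    refine (gron_fwd hκ he hyz h1 h2).trans ?_
    apply mul_le_mul
    · have := mul_le_mul_of_nonneg_left hlen he
      linarith
    · exact Real.exp_le_exp.2 (mul_le_mul_of_nonneg_left hlen hκ)
    · exact (Real.exp_pos _).le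
    · have : 0 ≤ e * (v - u) := mul_nonneg he ((sub_nonneg.2 hyz).trans hlen)
      positivity
  obtain ⟨hy1, hy2⟩ := hy
  obtain ⟨hz1, hz2⟩ := hz
  rcases le_total z y with h | h
  · refine key φ φ' z y h (by linarith) (fun t ht => hφ t ⟨?_, ?_⟩) (fun t ht => hb t ⟨?_, ?_⟩)
    · linarith [ht.1]
    · linarith [ht.2]
    · linarith [ht.1]
    · linarith [ht.2]
  · -- reflect
    have h3 := key (fun t => φ (-t)) (fun t => -φ' (-t)) (-z) (-y) (by linarith) (by linarith)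
      (fun t ht => by
        have h4 : HasDerivAt φ (φ' (-t)) (-t) := hφ (-t) ⟨by linarith [ht.2], by linarith [ht.1]⟩
        have h5 := h4.comp t (hasDerivAt_neg t)
        have h6 : φ' (-t) * -1 = -φ' (-t) := by ring
        rw [h6] at h5
        exact h5)
      (fun t ht => by
        rw [abs_neg]
        exact hb (-t) ⟨by linarith [ht.2], by linarith [ht.1]⟩)
    simpa using h3

/-! ### The tower -/

section

variable {T0 : ℝ → ℝ} {U0 : Set ℝ} {a : ℝ} {G T f f1 f2 : ℝ → ℝ} {C : ℝ}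
  {d : ℕ} (P : Tow d T0 U0 a) (α : Fin d)

include P in
theorem base_sub {x : ℝ} (hx : x ∈ Icc (P.lo α) (P.hi α)) : x ∈ Icc (-a) a :=
  ⟨by linarith [P.lo_ge α, P.eps_le, hx.1], by linarith [P.hi_le α, P.eps_le, hx.2]⟩

theorem level_sub (TS : TSide T0 U0 a G T f f1 f2 C) {i : ℕ} (hi : i ≤ P.r α) {x : ℝ}
    (hx : x ∈ Icc (P.lo α) (P.hi α)) : x + P.sh α i ∈ Icc (-a) a := by
  rcases hi.lt_or_eq with h | rfl
  · have h1 : Ioo (P.lo α + P.sh α i) (P.hi α + P.sh α i) ⊆ Ioo (-a) a := by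
      intro z hz
      have h2 := P.reg α i h (z - P.sh α i) ⟨by linarith [hz.1], by linarith [hz.2]⟩
      rw [sub_add_cancel] at h2
      exact TS.sub h2
    have h3 := (Ioo_subset_Ioo_iff (by linarith [P.lt α])).1 h1
    exact ⟨by linarith [h3.1, hx.1], by linarith [h3.2, hx.2]⟩
  · rw [P.sh_ret α]
    exact ⟨by linarith [P.hi_le α, P.eps_le, hx.1], by linarith [P.lo_ge α, P.eps_le, hx.2]⟩

theorem level_in (TS : TSide T0 U0 a G T f f1 f2 C) {i : ℕ} (hi : i < P.r α) {x y z : ℝ}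
    (hx : x ∈ Icc (P.lo α) (P.hi α)) (hy : y ∈ Icc (P.lo α) (P.hi α))
    (hz : z ∈ Ioo (G (x + P.sh α i)) (G (y + P.sh α i))) : ∃ w ∈ U0, z = G w ∧
      ∃ w' ∈ Ioo (P.lo α) (P.hi α), w = w' + P.sh α i := by
  have hxa := level_sub P α TS hi.le hx
  have hya := level_sub P α TS hi.le hy
  have hlt : x + P.sh α i < y + P.sh α i := by
    by_contra hcon
    have := TS.gmono.monotoneOn hya hxa (not_lt.1 hcon)
    linarith [hz.1, hz.2]
  have hcont : ContinuousOn G (Icc (x + P.sh α i) (y + P.sh α i)) :=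
    TS.gcont.mono (Icc_subset_Icc hxa.1 hya.2)
  obtain ⟨w, hw, rfl⟩ := intermediate_value_Ioo hlt.le hcont hz
  have hw' : w - P.sh α i ∈ Ioo (P.lo α) (P.hi α) :=
    ⟨by linarith [hw.1, hx.1], by linarith [hw.2, hy.2]⟩
  refine ⟨w, ?_, rfl, w - P.sh α i, hw', by ring⟩
  have h2 := P.reg α i hi _ hw'
  rwa [sub_add_cancel] at h2

/-- Lipschitz estimate on one level. -/
theorem level_lip (TS : TSide T0 U0 a G T f f1 f2 C) {i : ℕ} (hi : i < P.r α) {x y : ℝ}
    (hx : x ∈ Icc (P.lo α) (P.hi α)) (hy : y ∈ Icc (P.lo α) (P.hi α)) (hxy : x ≤ y) :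
    |f (G (y + P.sh α i)) - f (G (x + P.sh α i))| ≤ C * (G (y + P.sh α i) - G (x + P.sh α i)) := by
  have hxa := level_sub P α TS hi.le hx
  have hya := level_sub P α TS hi.le hy
  rcases eq_or_lt_of_le hxy with rfl | hlt
  · simp
  have hG : G (x + P.sh α i) < G (y + P.sh α i) := TS.gmono hxa hya (by linarith)
  have ha := TS.ha
  have hend1 : (-a : ℝ) ∈ Icc (-a) a := ⟨le_rfl, by linarith⟩
  have hend2 : (a : ℝ) ∈ Icc (-a) a := ⟨by linarith, le_rfl⟩
  have hcont : ContinuousOn f (Icc (G (x + P.sh α i)) (G (y + P.sh α i))) :=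
    TS.fcont.mono (Icc_subset_Icc (TS.gmono.monotoneOn hend1 hxa hxa.1)
      (TS.gmono.monotoneOn hya hend2 hya.2))
  obtain ⟨c, hc, hc'⟩ := exists_hasDerivAt_eq_slope f f1 hG hcont (fun z hz => by
    obtain ⟨w, hw, rfl, -⟩ := level_in P α TS hi hx hy hz
    exact TS.df w hw)
  obtain ⟨w, hw, rfl, -⟩ := level_in P α TS hi hx hy hc
  have hpos : 0 < G (y + P.sh α i) - G (x + P.sh α i) := sub_pos.2 hG
  have h1 : f (G (y + P.sh α i)) - f (G (x + P.sh α i)) =
      f1 (G w) * (G (y + P.sh α i) - G (x + P.sh α i)) := by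
    rw [hc', div_mul_cancel₀ _ hpos.ne']
  rw [h1, abs_mul, abs_of_pos hpos]
  exact mul_le_mul_of_nonneg_right (TS.b1 w hw) hpos.le

/-- Total length of the levels. -/
theorem sum_levels (TS : TSide T0 U0 a G T f f1 f2 C) :
    ∑ i ∈ Finset.range (P.r α), (G (P.hi α + P.sh α i) - G (P.lo α + P.sh α i)) ≤
      G a - G (-a) := by
  have ha := TS.ha
  have hend1 : (-a : ℝ) ∈ Icc (-a) a := ⟨le_rfl, by linarith⟩
  have hend2 : (a : ℝ) ∈ Icc (-a) a := ⟨by linarith, le_rfl⟩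
  have hlo : P.lo α ∈ Icc (P.lo α) (P.hi α) := ⟨le_rfl, (P.lt α).le⟩
  have hhi : P.hi α ∈ Icc (P.lo α) (P.hi α) := ⟨(P.lt α).le, le_rfl⟩
  have hm := TS.gmono.monotoneOn
  apply sum_len_le
  · exact hm hend1 hend2 (by linarith)
  · intro i hi
    have hi' := Finset.mem_range.1 hi
    exact hm (level_sub P α TS hi'.le hlo) (level_sub P α TS hi'.le hhi) (by linarith [P.lt α])
  · intro i hi
    have hi' := Finset.mem_range.1 hi
    have h1 := level_sub P α TS hi'.le hlo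
    exact hm hend1 h1 h1.1
  · intro i hi
    have hi' := Finset.mem_range.1 hi
    have h1 := level_sub P α TS hi'.le hhi
    exact hm h1 hend2 h1.2
  · intro i hi j hj hij
    have hi' := Finset.mem_range.1 hi
    have hj' := Finset.mem_range.1 hj
    have hdis := P.disj α α i j hi' hj' (fun h => hij (Prod.ext_iff.1 h).2)
    have hlt := P.lt α
    have h0 : P.hi α + P.sh α i ≤ P.lo α + P.sh α j ∨ P.hi α + P.sh α j ≤ P.lo α + P.sh α i := by
      by_contra hcon
      push Not at hcon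
      obtain ⟨h1, h2⟩ := hcon
      -- a common point
      set m := max (P.lo α + P.sh α i) (P.lo α + P.sh α j) with hm
      set M := min (P.hi α + P.sh α i) (P.hi α + P.sh α j) with hM
      have hmM : m < M := by
        rw [hm, hM, max_lt_iff, lt_min_iff, lt_min_iff]
        exact ⟨⟨by linarith, h2⟩, ⟨h1, by linarith⟩⟩
      have hc1 : (m + M) / 2 ∈ Ioo (P.lo α + P.sh α i) (P.hi α + P.sh α i) :=
        ⟨by linarith [le_max_left (P.lo α + P.sh α i) (P.lo α + P.sh α j)],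
          by linarith [min_le_left (P.hi α + P.sh α i) (P.hi α + P.sh α j)]⟩
      have hc2 : (m + M) / 2 ∈ Ioo (P.lo α + P.sh α j) (P.hi α + P.sh α j) :=
        ⟨by linarith [le_max_right (P.lo α + P.sh α i) (P.lo α + P.sh α j)],
          by linarith [min_le_right (P.hi α + P.sh α i) (P.hi α + P.sh α j)]⟩
      exact Set.disjoint_left.1 hdis hc1 hc2
    rcases h0 with h | h
    · exact Or.inl (hm (level_sub P α TS hi'.le hhi) (level_sub P α TS hj'.le hlo) h)
    · exact Or.inr (hm (level_sub P α TS hj'.le hhi) (level_sub P α TS hi'.le hlo) h)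

/-- Distortion. -/
theorem distortion (TS : TSide T0 U0 a G T f f1 f2 C) {i : ℕ} (hi : i ≤ P.r α) {x y : ℝ}
    (hx : x ∈ Icc (P.lo α) (P.hi α)) (hy : y ∈ Icc (P.lo α) (P.hi α)) :
    |P.S (fun z => f (G z)) α i x - P.S (fun z => f (G z)) α i y| ≤ C * (G a - G (-a)) := by
  have hlo : P.lo α ∈ Icc (P.lo α) (P.hi α) := ⟨le_rfl, (P.lt α).le⟩
  have hhi : P.hi α ∈ Icc (P.lo α) (P.hi α) := ⟨(P.lt α).le, le_rfl⟩
  have hm := TS.gmono.monotoneOn
  have hC := TS.hC
  have key : ∀ l < P.r α, |f (G (x + P.sh α l)) - f (G (y + P.sh α l))| ≤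
      C * (G (P.hi α + P.sh α l) - G (P.lo α + P.sh α l)) := by
    intro l hl
    have e1 := hm (level_sub P α TS hl.le hlo) (level_sub P α TS hl.le hx) (by linarith [hx.1])
    have e2 := hm (level_sub P α TS hl.le hlo) (level_sub P α TS hl.le hy) (by linarith [hy.1])
    have e3 := hm (level_sub P α TS hl.le hx) (level_sub P α TS hl.le hhi) (by linarith [hx.2])
    have e4 := hm (level_sub P α TS hl.le hy) (level_sub P α TS hl.le hhi) (by linarith [hy.2])
    rcases le_total x y with h | h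
    · rw [abs_sub_comm]
      refine (level_lip P α TS hl hx hy h).trans (mul_le_mul_of_nonneg_left ?_ hC)
      linarith
    · refine (level_lip P α TS hl hy hx h).trans (mul_le_mul_of_nonneg_left ?_ hC)
      linarith
  have h1 : P.S (fun z => f (G z)) α i x - P.S (fun z => f (G z)) α i y =
      ∑ l ∈ Finset.range i, (f (G (x + P.sh α l)) - f (G (y + P.sh α l))) := by
    rw [Finset.sum_sub_distrib]
    rfl
  rw [h1]
  calc |∑ l ∈ Finset.range i, (f (G (x + P.sh α l)) - f (G (y + P.sh α l)))|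
      ≤ ∑ l ∈ Finset.range i, |f (G (x + P.sh α l)) - f (G (y + P.sh α l))| :=
        Finset.abs_sum_le_sum_abs _ _
    _ ≤ ∑ l ∈ Finset.range i, C * (G (P.hi α + P.sh α l) - G (P.lo α + P.sh α l)) :=
        Finset.sum_le_sum fun l hl => key l ((Finset.mem_range.1 hl).trans_le hi)
    _ ≤ ∑ l ∈ Finset.range (P.r α), C * (G (P.hi α + P.sh α l) - G (P.lo α + P.sh α l)) := by
        apply Finset.sum_le_sum_of_subset_of_nonneg
        · intro l hl
          exact Finset.mem_range.2 ((Finset.mem_range.1 hl).trans_le hi)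
        · intro l hl _
          have hl' := Finset.mem_range.1 hl
          apply mul_nonneg hC
          have := hm (level_sub P α TS hl'.le hlo) (level_sub P α TS hl'.le hhi)
            (by linarith [P.lt α])
          linarith
    _ ≤ C * (G a - G (-a)) := by
        rw [← Finset.mul_sum]
        exact mul_le_mul_of_nonneg_left (sum_levels P α TS) hC

/-- Continuity of `G` on the levels. -/
theorem G_cont (TS : TSide T0 U0 a G T f f1 f2 C) {i : ℕ} (hi : i ≤ P.r α) :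
    ContinuousOn (fun x => G (x + P.sh α i)) (Icc (P.lo α) (P.hi α)) :=
  TS.gcont.comp (by fun_prop) fun _ hx => level_sub P α TS hi hx

theorem f_cont (TS : TSide T0 U0 a G T f f1 f2 C) {i : ℕ} (hi : i ≤ P.r α) :
    ContinuousOn (fun x => f (G (x + P.sh α i))) (Icc (P.lo α) (P.hi α)) := by
  have ha := TS.ha
  have hend1 : (-a : ℝ) ∈ Icc (-a) a := ⟨le_rfl, by linarith⟩
  have hend2 : (a : ℝ) ∈ Icc (-a) a := ⟨by linarith, le_rfl⟩
  refine TS.fcont.comp (G_cont P α TS hi) fun x hx => ?_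
  have h1 := level_sub P α TS hi hx
  exact ⟨TS.gmono.monotoneOn hend1 h1 h1.1, TS.gmono.monotoneOn h1 hend2 h1.2⟩

theorem S_cont (TS : TSide T0 U0 a G T f f1 f2 C) {i : ℕ} (hi : i ≤ P.r α) :
    ContinuousOn (P.S (fun z => f (G z)) α i) (Icc (P.lo α) (P.hi α)) := by
  unfold Tow.S
  refine continuousOn_finsetSum _ fun l hl => ?_
  exact f_cont P α TS ((Finset.mem_range.1 hl).le.trans hi)

/-- The iterates of `T`. -/
theorem iter_eq (TS : TSide T0 U0 a G T f f1 f2 C) {i : ℕ} (hi : i ≤ P.r α) {x : ℝ}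
    (hx : x ∈ Ioo (P.lo α) (P.hi α)) : T^[i] (G x) = G (x + P.sh α i) := by
  induction i with
  | zero => rw [P.sh_zero α, add_zero, Function.iterate_zero_apply]
  | succ i ih =>
    have hi' : i < P.r α := hi
    rw [Function.iterate_succ_apply', ih hi'.le, TS.conj _ (P.reg α i hi' x hx),
      P.step α i hi' x hx]

theorem iter_deriv (TS : TSide T0 U0 a G T f f1 f2 C) {i : ℕ} (hi : i ≤ P.r α) {x : ℝ}
    (hx : x ∈ Ioo (P.lo α) (P.hi α)) :
    HasDerivAt T^[i] (Real.exp (P.S (fun z => f (G z)) α i x)) (G x) := by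
  induction i with
  | zero =>
    have h1 : Real.exp (P.S (fun z => f (G z)) α 0 x) = 1 := by simp [Tow.S]
    rw [h1]
    exact hasDerivAt_id (G x)
  | succ i ih =>
    have hi' : i < P.r α := hi
    rw [Function.iterate_succ']
    have h1 := TS.dT _ (P.reg α i hi' x hx)
    rw [← iter_eq P α TS hi'.le hx] at h1
    have h2 := h1.comp (G x) (ih hi'.le)
    have h3 : Real.exp (P.S (fun z => f (G z)) α (i + 1) x) =
        Real.exp (f (T^[i] (G x))) * Real.exp (P.S (fun z => f (G z)) α i x) := by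
      rw [← Real.exp_add, iter_eq P α TS hi'.le hx]
      congr 1
      unfold Tow.S
      rw [Finset.sum_range_succ, add_comm]
    rw [h3]
    exact h2

/-- Points between values of `G`. -/
theorem exists_pt (TS : TSide T0 U0 a G T f f1 f2 C) {x y z : ℝ}
    (hx : x ∈ Icc (P.lo α) (P.hi α)) (hy : y ∈ Icc (P.lo α) (P.hi α))
    (hz : z ∈ Ioo (G x) (G y)) : ∃ w ∈ Ioo x y, z = G w := by
  have hxa := base_sub P α hx
  have hya := base_sub P α hy
  have hlt : x < y := by
    by_contra hcon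
    have := TS.gmono.monotoneOn hya hxa (not_lt.1 hcon)
    linarith [hz.1, hz.2]
  have hcont : ContinuousOn G (Icc x y) := TS.gcont.mono (Icc_subset_Icc hxa.1 hya.2)
  obtain ⟨w, hw, rfl⟩ := intermediate_value_Ioo hlt.le hcont hz
  exact ⟨w, hw, rfl⟩

/-- Lengths. -/
theorem lengths (TS : TSide T0 U0 a G T f f1 f2 C) {i : ℕ} (hi : i ≤ P.r α) {x y : ℝ}
    (hx : P.lo α ≤ x) (hxy : x ≤ y) (hy : y ≤ P.hi α) (m M : ℝ)
    (hmM : ∀ z ∈ Icc (P.lo α) (P.hi α), m ≤ P.S (fun z => f (G z)) α i z ∧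
      P.S (fun z => f (G z)) α i z ≤ M) :
    Real.exp m * (G y - G x) ≤ G (y + P.sh α i) - G (x + P.sh α i) ∧
      G (y + P.sh α i) - G (x + P.sh α i) ≤ Real.exp M * (G y - G x) := by
  -- interior points
  have hint : ∀ x y, P.lo α < x → x ≤ y → y < P.hi α →
      Real.exp m * (G y - G x) ≤ G (y + P.sh α i) - G (x + P.sh α i) ∧
      G (y + P.sh α i) - G (x + P.sh α i) ≤ Real.exp M * (G y - G x) := by
    intro x y hx hxy hy
    rcases eq_or_lt_of_le hxy with rfl | hlt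
    · simp
    have hxI : x ∈ Ioo (P.lo α) (P.hi α) := ⟨hx, hlt.trans hy⟩
    have hyI : y ∈ Ioo (P.lo α) (P.hi α) := ⟨hx.trans hlt, hy⟩
    have hxa := base_sub P α (Ioo_subset_Icc_self hxI)
    have hya := base_sub P α (Ioo_subset_Icc_self hyI)
    have hG : G x < G y := TS.gmono hxa hya hlt
    have hpt : ∀ z ∈ Icc (G x) (G y), ∃ w ∈ Icc x y, z = G w := by
      intro z hz
      obtain ⟨w, hw, rfl⟩ := intermediate_value_Icc hlt.le
        (TS.gcont.mono (Icc_subset_Icc hxa.1 hya.2)) hz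
      exact ⟨w, hw, rfl⟩
    have hIcc : ∀ w ∈ Icc x y, w ∈ Ioo (P.lo α) (P.hi α) := fun w hw =>
      ⟨hx.trans_le hw.1, hw.2.trans_lt hy⟩
    have hcont : ContinuousOn T^[i] (Icc (G x) (G y)) := by
      intro z hz
      obtain ⟨w, hw, rfl⟩ := hpt z hz
      exact (iter_deriv P α TS hi (hIcc w hw)).continuousAt.continuousWithinAt
    obtain ⟨c, hc, hc'⟩ := exists_deriv_eq_slope T^[i] hG hcont (fun z hz => by
      obtain ⟨w, hw, rfl⟩ := hpt z (Ioo_subset_Icc_self hz)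
      exact (iter_deriv P α TS hi (hIcc w hw)).differentiableAt.differentiableWithinAt)
    obtain ⟨w, hw, rfl⟩ := hpt c (Ioo_subset_Icc_self hc)
    rw [(iter_deriv P α TS hi (hIcc w hw)).deriv, iter_eq P α TS hi hxI,
      iter_eq P α TS hi hyI] at hc'
    have hpos : 0 < G y - G x := sub_pos.2 hG
    have h1 : G (y + P.sh α i) - G (x + P.sh α i) =
        Real.exp (P.S (fun z => f (G z)) α i w) * (G y - G x) := by
      rw [hc', div_mul_cancel₀ _ hpos.ne']
    obtain ⟨h2, h3⟩ := hmM w (Ioo_subset_Icc_self (hIcc w hw))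
    rw [h1]
    exact ⟨mul_le_mul_of_nonneg_right (Real.exp_le_exp.2 h2) hpos.le,
      mul_le_mul_of_nonneg_right (Real.exp_le_exp.2 h3) hpos.le⟩
  have hGc : ContinuousOn G (Icc (P.lo α) (P.hi α)) :=
    TS.gcont.mono fun x hx => base_sub P α hx
  have c1 : ContinuousOn (fun q : ℝ × ℝ => G q.2 - G q.1)
      (Icc (P.lo α) (P.hi α) ×ˢ Icc (P.lo α) (P.hi α)) :=
    (hGc.comp continuousOn_snd fun q hq => hq.2).sub (hGc.comp continuousOn_fst fun q hq => hq.1)
  have c2 : ContinuousOn (fun q : ℝ × ℝ => G (q.2 + P.sh α i) - G (q.1 + P.sh α i))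
      (Icc (P.lo α) (P.hi α) ×ˢ Icc (P.lo α) (P.hi α)) :=
    ((G_cont P α TS hi).comp continuousOn_snd fun q hq => hq.2).sub
      ((G_cont P α TS hi).comp continuousOn_fst fun q hq => hq.1)
  exact ⟨ext_le (P.lt α) (c1.const_smul (Real.exp m)) c2
      (fun x y h1 h2 h3 => (hint x y h1 h2 h3).1) x y hx hxy hy,
    ext_le (P.lt α) c2 (c1.const_smul (Real.exp M))
      (fun x y h1 h2 h3 => (hint x y h1 h2 h3).2) x y hx hxy hy⟩

end

end Local

end Pool.Agent.Helper22.Rev
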