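import Mathlib
import Pool.Agent.Helper22.Rev.Defs
import Pool.Agent.Helper22.Rev.LocalA

/-!
# RV-1: distortion and Riccati comparison on towers
-/

set_option autoImplicit false

open Set Filter Topology

namespace Pool.Agent.Helper22.Rev

namespace Local

/-- Derivative of the iterates. -/
noncomputable def E (T f : ℝ → ℝ) (l : ℕ) (y : ℝ) : ℝ :=
  Real.exp (∑ k ∈ Finset.range l, f (T^[k] y))

/-- Logarithmic derivative of the iterates. -/
noncomputable def Φ (T f f1 : ℝ → ℝ) (i : ℕ) (y : ℝ) : ℝ :=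
  ∑ l ∈ Finset.range i, f1 (T^[l] y) * E T f l y

/-- The Schwarzian part of the derivative of `Φ`. -/
noncomputable def Sch (T f f1 f2 : ℝ → ℝ) (i : ℕ) (y : ℝ) : ℝ :=
  ∑ l ∈ Finset.range i, (f2 (T^[l] y) - f1 (T^[l] y) ^ 2 / 2) * E T f l y ^ 2

theorem Φ_identity (T f f1 f2 : ℝ → ℝ) (i : ℕ) (y : ℝ) :
    ∑ l ∈ Finset.range i, (f2 (T^[l] y) * E T f l y ^ 2 + f1 (T^[l] y) * (E T f l y * Φ T f f1 l y)) =
      Φ T f f1 i y ^ 2 / 2 + Sch T f f1 f2 i y := by
  induction i with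
  | zero => simp [Φ, Sch]
  | succ i ih =>
    have h1 : Φ T f f1 (i + 1) y = Φ T f f1 i y + f1 (T^[i] y) * E T f i y :=
      Finset.sum_range_succ _ _
    have h2 : Sch T f f1 f2 (i + 1) y =
        Sch T f f1 f2 i y + (f2 (T^[i] y) - f1 (T^[i] y) ^ 2 / 2) * E T f i y ^ 2 :=
      Finset.sum_range_succ _ _
    rw [Finset.sum_range_succ, ih, h1, h2]
    ring

section

variable {T0 : ℝ → ℝ} {U0 : Set ℝ} {a : ℝ} {G T f f1 f2 : ℝ → ℝ} {C : ℝ}
  {d : ℕ} (P : Tow d T0 U0 a) (α : Fin d)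

theorem sum_eq (TS : TSide T0 U0 a G T f f1 f2 C) {i : ℕ} (hi : i ≤ P.r α) {x : ℝ}
    (hx : x ∈ Ioo (P.lo α) (P.hi α)) :
    ∑ k ∈ Finset.range i, f (T^[k] (G x)) = P.S (fun z => f (G z)) α i x := by
  unfold Tow.S
  refine Finset.sum_congr rfl fun k hk => ?_
  rw [iter_eq P α TS ((Finset.mem_range.1 hk).le.trans hi) hx]

theorem E_eq (TS : TSide T0 U0 a G T f f1 f2 C) {i : ℕ} (hi : i ≤ P.r α) {x : ℝ}
    (hx : x ∈ Ioo (P.lo α) (P.hi α)) :
    E T f i (G x) = Real.exp (P.S (fun z => f (G z)) α i x) := by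
  rw [E, sum_eq P α TS hi hx]

theorem hasDerivAt_sum (TS : TSide T0 U0 a G T f f1 f2 C) {i : ℕ} (hi : i ≤ P.r α) {x : ℝ}
    (hx : x ∈ Ioo (P.lo α) (P.hi α)) :
    HasDerivAt (fun y => ∑ k ∈ Finset.range i, f (T^[k] y)) (Φ T f f1 i (G x)) (G x) := by
  unfold Φ
  refine HasDerivAt.fun_sum fun k hk => ?_
  have hk' : k < P.r α := (Finset.mem_range.1 hk).trans_le hi
  have h1 := TS.df _ (P.reg α k hk' x hx)
  rw [← iter_eq P α TS hk'.le hx] at h1
  have h2 := h1.comp (G x) (iter_deriv P α TS hk'.le hx)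
  rw [← E_eq P α TS hk'.le hx] at h2
  exact h2

theorem hasDerivAt_E (TS : TSide T0 U0 a G T f f1 f2 C) {i : ℕ} (hi : i ≤ P.r α) {x : ℝ}
    (hx : x ∈ Ioo (P.lo α) (P.hi α)) :
    HasDerivAt (E T f i) (E T f i (G x) * Φ T f f1 i (G x)) (G x) :=
  (hasDerivAt_sum P α TS hi hx).exp

theorem hasDerivAt_Φ (TS : TSide T0 U0 a G T f f1 f2 C) {i : ℕ} (hi : i ≤ P.r α) {x : ℝ}
    (hx : x ∈ Ioo (P.lo α) (P.hi α)) :
    HasDerivAt (Φ T f f1 i) (Φ T f f1 i (G x) ^ 2 / 2 + Sch T f f1 f2 i (G x)) (G x) := by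
  rw [← Φ_identity]
  unfold Φ
  refine HasDerivAt.fun_sum fun k hk => ?_
  have hk' : k < P.r α := (Finset.mem_range.1 hk).trans_le hi
  have h1 := TS.df1 _ (P.reg α k hk' x hx)
  rw [← iter_eq P α TS hk'.le hx] at h1
  have h2 := h1.comp (G x) (iter_deriv P α TS hk'.le hx)
  rw [← E_eq P α TS hk'.le hx] at h2
  have h3 := h2.mul (hasDerivAt_E P α TS hk'.le hx)
  have h4 : f2 (T^[k] (G x)) * E T f k (G x) ^ 2 +
      f1 (T^[k] (G x)) * (E T f k (G x) * Φ T f f1 k (G x)) =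
      f2 (T^[k] (G x)) * E T f k (G x) * E T f k (G x) +
      (f1 ∘ T^[k]) (G x) * (E T f k (G x) * Φ T f f1 k (G x)) := by
    simp only [Function.comp_apply]
    ring
  change HasDerivAt _ (f2 (T^[k] (G x)) * E T f k (G x) ^ 2 +
      f1 (T^[k] (G x)) * (E T f k (G x) * Φ T f f1 k (G x))) _
  rw [h4]
  exact h3

/-- Bound for the derivative of the iterates. -/
theorem E_le (TS : TSide T0 U0 a G T f f1 f2 C) {i : ℕ} (hi : i < P.r α) {x : ℝ}
    (hx : x ∈ Ioo (P.lo α) (P.hi α)) :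
    E T f i (G x) * (G (P.hi α) - G (P.lo α)) ≤ Real.exp (C * (G a - G (-a))) *
      (G (P.hi α + P.sh α i) - G (P.lo α + P.sh α i)) := by
  have hx' := Ioo_subset_Icc_self hx
  have h1 := (lengths P α TS hi.le le_rfl (P.lt α).le le_rfl
    (P.S (fun z => f (G z)) α i x - C * (G a - G (-a)))
    (P.S (fun z => f (G z)) α i x + C * (G a - G (-a))) (fun z hz => by
      have h2 := distortion P α TS hi.le hz hx'
      rw [abs_le] at h2
      constructor <;> linarith [h2.1, h2.2])).1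
  rw [E_eq P α TS hi.le hx]
  have h3 : Real.exp (P.S (fun z => f (G z)) α i x) = Real.exp (C * (G a - G (-a))) *
      Real.exp (P.S (fun z => f (G z)) α i x - C * (G a - G (-a))) := by
    rw [← Real.exp_add]
    congr 1
    ring
  rw [h3, mul_assoc]
  exact mul_le_mul_of_nonneg_left h1 (Real.exp_pos _).le

end

/-- The constants. -/
theorem main_bounds {T0 : ℝ → ℝ} {U0 : Set ℝ} {a : ℝ} {G T f f1 f2 : ℝ → ℝ} {C : ℝ}
    (TS : TSide T0 U0 a G T f f1 f2 C) {d : ℕ} (P : Tow d T0 U0 a) (α : Fin d) (δ : ℝ)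
    (hδ : 0 ≤ δ) (hS : P.Small G δ) {x z : ℝ} (hx : x ∈ Ioo (P.lo α) (P.hi α))
    (hz : z ∈ Ioo (P.lo α) (P.hi α)) :
    |Φ T f f1 (P.r α) (G x)| * (G (P.hi α) - G (P.lo α)) ≤
      (|Φ T f f1 (P.r α) (G z)| * (G (P.hi α) - G (P.lo α)) +
        (C + C ^ 2 / 2) * (Real.exp (C * (G a - G (-a)))) ^ 2 * (G a - G (-a)) * δ) *
      Real.exp (C * Real.exp (C * (G a - G (-a))) * (G a - G (-a)) / 2) := by
  have hlo : P.lo α ∈ Icc (P.lo α) (P.hi α) := ⟨le_rfl, (P.lt α).le⟩
  have hhi : P.hi α ∈ Icc (P.lo α) (P.hi α) := ⟨(P.lt α).le, le_rfl⟩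
  set L := G a - G (-a) with hL
  set K := G (P.hi α) - G (P.lo α) with hK
  set X := Real.exp (C * L) with hX
  have hXpos : 0 < X := Real.exp_pos _
  have hC := TS.hC
  have hm := TS.gmono.monotoneOn
  have hKpos : 0 < K := sub_pos.2 (TS.gmono (base_sub P α hlo) (base_sub P α hhi) (P.lt α))
  have hL0 : 0 ≤ L := by
    have ha := TS.ha
    exact sub_nonneg.2 (hm ⟨le_rfl, by linarith⟩ ⟨by linarith, le_rfl⟩ (by linarith))
  let len : ℕ → ℝ := fun l => G (P.hi α + P.sh α l) - G (P.lo α + P.sh α l)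
  have hlen0 : ∀ l < P.r α, 0 ≤ len l := fun l hl =>
    sub_nonneg.2 (hm (level_sub P α TS hl.le hlo) (level_sub P α TS hl.le hhi)
      (by linarith [P.lt α]))
  have hlens : ∑ l ∈ Finset.range (P.r α), len l ≤ L := sum_levels P α TS
  have hlenδ : ∀ l < P.r α, len l ≤ δ := fun l hl => hS α l hl
  have hE : ∀ w ∈ Ioo (P.lo α) (P.hi α), ∀ l < P.r α, 0 ≤ E T f l (G w) ∧
      E T f l (G w) ≤ X * len l / K := by
    intro w hw l hl
    refine ⟨(Real.exp_pos _).le, ?_⟩
    rw [le_div_iff₀ hKpos]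
    exact E_le P α TS hl hw
  have hT : ∀ w ∈ Ioo (P.lo α) (P.hi α), ∀ l < P.r α, |f1 (T^[l] (G w))| ≤ C ∧
      |f2 (T^[l] (G w))| ≤ C := by
    intro w hw l hl
    rw [iter_eq P α TS hl.le hw]
    exact ⟨TS.b1 _ (P.reg α l hl w hw), TS.b2 _ (P.reg α l hl w hw)⟩
  -- bound for `Φ`
  have hΦ : ∀ w ∈ Ioo (P.lo α) (P.hi α), |Φ T f f1 (P.r α) (G w)| ≤ C * X * L / K := by
    intro w hw
    calc |Φ T f f1 (P.r α) (G w)|
        ≤ ∑ l ∈ Finset.range (P.r α), |f1 (T^[l] (G w)) * E T f l (G w)| :=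
          Finset.abs_sum_le_sum_abs _ _
      _ ≤ ∑ l ∈ Finset.range (P.r α), C * (X * len l / K) := by
          refine Finset.sum_le_sum fun l hl => ?_
          have hl' := Finset.mem_range.1 hl
          rw [abs_mul, abs_of_nonneg (hE w hw l hl').1]
          exact mul_le_mul (hT w hw l hl').1 (hE w hw l hl').2 (hE w hw l hl').1 hC
      _ = C * X / K * ∑ l ∈ Finset.range (P.r α), len l := by
          rw [Finset.mul_sum]
          refine Finset.sum_congr rfl fun l _ => ?_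
          ring
      _ ≤ C * X / K * L := mul_le_mul_of_nonneg_left hlens (by positivity)
      _ = C * X * L / K := by ring
  have hSch : ∀ w ∈ Ioo (P.lo α) (P.hi α), |Sch T f f1 f2 (P.r α) (G w)| ≤
      (C + C ^ 2 / 2) * X ^ 2 * L * δ / K ^ 2 := by
    intro w hw
    calc |Sch T f f1 f2 (P.r α) (G w)|
        ≤ ∑ l ∈ Finset.range (P.r α),
          |(f2 (T^[l] (G w)) - f1 (T^[l] (G w)) ^ 2 / 2) * E T f l (G w) ^ 2| :=
          Finset.abs_sum_le_sum_abs _ _
      _ ≤ ∑ l ∈ Finset.range (P.r α), (C + C ^ 2 / 2) * (X ^ 2 * (len l * δ) / K ^ 2) := by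
          refine Finset.sum_le_sum fun l hl => ?_
          have hl' := Finset.mem_range.1 hl
          rw [abs_mul, abs_of_nonneg (sq_nonneg (E T f l (G w)))]
          have h1 : |f2 (T^[l] (G w)) - f1 (T^[l] (G w)) ^ 2 / 2| ≤ C + C ^ 2 / 2 := by
            obtain ⟨h2, h3⟩ := hT w hw l hl'
            have h4 : f1 (T^[l] (G w)) ^ 2 ≤ C ^ 2 := by
              rw [← sq_abs]
              exact pow_le_pow_left₀ (abs_nonneg _) h2 2
            have h5 := abs_le.1 h3
            rw [abs_le]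
            constructor <;> nlinarith [sq_nonneg (f1 (T^[l] (G w))), sq_nonneg C]
          have h6 : E T f l (G w) ^ 2 ≤ X ^ 2 * (len l * δ) / K ^ 2 := by
            have h7 : E T f l (G w) ^ 2 ≤ (X * len l / K) ^ 2 :=
              pow_le_pow_left₀ (hE w hw l hl').1 (hE w hw l hl').2 2
            refine h7.trans ?_
            rw [div_pow, mul_pow]
            apply div_le_div_of_nonneg_right _ (by positivity)
            apply mul_le_mul_of_nonneg_left _ (by positivity)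
            rw [sq]
            exact mul_le_mul_of_nonneg_left (hlenδ l hl') (hlen0 l hl')
          exact mul_le_mul h1 h6 (sq_nonneg _) (by positivity)
      _ = (C + C ^ 2 / 2) * X ^ 2 * δ / K ^ 2 * ∑ l ∈ Finset.range (P.r α), len l := by
          rw [Finset.mul_sum]
          refine Finset.sum_congr rfl fun l _ => ?_
          ring
      _ ≤ (C + C ^ 2 / 2) * X ^ 2 * δ / K ^ 2 * L :=
          mul_le_mul_of_nonneg_left hlens (by positivity)
      _ = (C + C ^ 2 / 2) * X ^ 2 * L * δ / K ^ 2 := by ring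
  set A2 := (C + C ^ 2 / 2) * X ^ 2 * L with hA2
  have hA20 : 0 ≤ A2 := by positivity
  have hpt : ∀ y ∈ Ioo (G (P.lo α)) (G (P.hi α)), ∃ w ∈ Ioo (P.lo α) (P.hi α), y = G w :=
    fun y hy => exists_pt P α TS hlo hhi hy
  have hGI : ∀ w ∈ Ioo (P.lo α) (P.hi α), G w ∈ Ioo (G (P.lo α)) (G (P.hi α)) := fun w hw =>
    ⟨TS.gmono (base_sub P α hlo) (base_sub P α (Ioo_subset_Icc_self hw)) hw.1,
      TS.gmono (base_sub P α (Ioo_subset_Icc_self hw)) (base_sub P α hhi) hw.2⟩
  have h := gron (φ := Φ T f f1 (P.r α))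
    (φ' := fun y => Φ T f f1 (P.r α) y ^ 2 / 2 + Sch T f f1 f2 (P.r α) y)
    (u := G (P.lo α)) (v := G (P.hi α)) (κ := C * X * L / K / 2) (e := A2 * δ / K ^ 2)
    (by positivity) (by positivity) (fun t ht => by
      obtain ⟨w, hw, rfl⟩ := hpt t ht
      exact hasDerivAt_Φ P α TS le_rfl hw) (fun t ht => by
      obtain ⟨w, hw, rfl⟩ := hpt t ht
      have h1 := hΦ w hw
      have h2 := hSch w hw
      calc |Φ T f f1 (P.r α) (G w) ^ 2 / 2 + Sch T f f1 f2 (P.r α) (G w)|
          ≤ |Φ T f f1 (P.r α) (G w) ^ 2 / 2| + |Sch T f f1 f2 (P.r α) (G w)| := abs_add_le _ _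
        _ ≤ C * X * L / K / 2 * |Φ T f f1 (P.r α) (G w)| + A2 * δ / K ^ 2 := by
            apply add_le_add _ h2
            rw [abs_div, abs_pow, abs_two, sq]
            have h3 := mul_le_mul_of_nonneg_right h1 (abs_nonneg (Φ T f f1 (P.r α) (G w)))
            linarith) (hGI x hx) (hGI z hz)
  have hKL : C * X * L / K / 2 * K = C * X * L / 2 := by
    field_simp
  have hδK : A2 * δ / K ^ 2 * K * K = A2 * δ := by
    field_simp
  rw [← hK, hKL] at h
  calc |Φ T f f1 (P.r α) (G x)| * K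
      ≤ ((|Φ T f f1 (P.r α) (G z)| + A2 * δ / K ^ 2 * K) * Real.exp (C * X * L / 2)) * K :=
        mul_le_mul_of_nonneg_right h hKpos.le
    _ = (|Φ T f f1 (P.r α) (G z)| * K + A2 * δ / K ^ 2 * K * K) * Real.exp (C * X * L / 2) := by
        ring
    _ = _ := by rw [hδK]

/-- Mean value theorem for the Birkhoff sums. -/
theorem mvt {T0 : ℝ → ℝ} {U0 : Set ℝ} {a : ℝ} {G T f f1 f2 : ℝ → ℝ} {C : ℝ}
    (TS : TSide T0 U0 a G T f f1 f2 C) {d : ℕ} (P : Tow d T0 U0 a) (α : Fin d) {x y : ℝ}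
    (hx : P.lo α < x) (hxy : x ≤ y) (hy : y < P.hi α) :
    ∃ w ∈ Ioo (P.lo α) (P.hi α), P.F (fun z => f (G z)) α y - P.F (fun z => f (G z)) α x =
      Φ T f f1 (P.r α) (G w) * (G y - G x) := by
  rcases eq_or_lt_of_le hxy with rfl | hlt
  · exact ⟨x, ⟨hx, hy⟩, by simp⟩
  have hxI : x ∈ Ioo (P.lo α) (P.hi α) := ⟨hx, hlt.trans hy⟩
  have hyI : y ∈ Ioo (P.lo α) (P.hi α) := ⟨hx.trans hlt, hy⟩
  have hxa := base_sub P α (Ioo_subset_Icc_self hxI)
  have hya := base_sub P α (Ioo_subset_Icc_self hyI)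
  have hG : G x < G y := TS.gmono hxa hya hlt
  have hpt : ∀ z ∈ Icc (G x) (G y), ∃ w ∈ Icc x y, z = G w := by
    intro z hz
    obtain ⟨w, hw, rfl⟩ := intermediate_value_Icc hlt.le
      (TS.gcont.mono (Icc_subset_Icc hxa.1 hya.2)) hz
    exact ⟨w, hw, rfl⟩
  have hIcc : ∀ w ∈ Icc x y, w ∈ Ioo (P.lo α) (P.hi α) := fun w hw =>
    ⟨hx.trans_le hw.1, hw.2.trans_lt hy⟩
  obtain ⟨c, hc, hc'⟩ := exists_hasDerivAt_eq_slope
    (fun y => ∑ k ∈ Finset.range (P.r α), f (T^[k] y)) (Φ T f f1 (P.r α)) hG (by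
      intro z hz
      obtain ⟨w, hw, rfl⟩ := hpt z hz
      exact (hasDerivAt_sum P α TS le_rfl (hIcc w hw)).continuousAt.continuousWithinAt) (by
      intro z hz
      obtain ⟨w, hw, rfl⟩ := hpt z (Ioo_subset_Icc_self hz)
      exact hasDerivAt_sum P α TS le_rfl (hIcc w hw))
  obtain ⟨w, hw, rfl⟩ := hpt c (Ioo_subset_Icc_self hc)
  refine ⟨w, hIcc w hw, ?_⟩
  rw [sum_eq P α TS le_rfl hxI, sum_eq P α TS le_rfl hyI] at hc'
  rw [hc', div_mul_cancel₀ _ (sub_pos.2 hG).ne']
  rfl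

end Local

open Local in
theorem local_main {T0 : ℝ → ℝ} {U0 : Set ℝ} {a : ℝ} {G T f f1 f2 : ℝ → ℝ} {C : ℝ}
    (TS : TSide T0 U0 a G T f f1 f2 C) :
    ∃ C0 : ℝ, 1 ≤ C0 ∧ ∀ {d : ℕ} (P : Tow d T0 U0 a) (α : Fin d),
      -- distortion
      (∀ i ≤ P.r α, ∀ x ∈ Icc (P.lo α) (P.hi α), ∀ y ∈ Icc (P.lo α) (P.hi α),
        |P.S (fun z => f (G z)) α i x - P.S (fun z => f (G z)) α i y| ≤ C0) ∧
      -- lengths
      (∀ i ≤ P.r α, ∀ x y : ℝ, P.lo α ≤ x → x ≤ y → y ≤ P.hi α → ∀ m M : ℝ,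
        (∀ z ∈ Icc (P.lo α) (P.hi α), m ≤ P.S (fun z => f (G z)) α i z ∧
          P.S (fun z => f (G z)) α i z ≤ M) →
        Real.exp m * (G y - G x) ≤ G (y + P.sh α i) - G (x + P.sh α i) ∧
        G (y + P.sh α i) - G (x + P.sh α i) ≤ Real.exp M * (G y - G x)) ∧
      -- comparison
      (∀ δ : ℝ, 0 ≤ δ → P.Small G δ →
        (∀ x ∈ Icc (P.lo α) (P.hi α), ∀ y ∈ Icc (P.lo α) (P.hi α),
          |P.F (fun z => f (G z)) α y - P.F (fun z => f (G z)) α x| *
            (G (P.hi α) - G (P.lo α)) ≤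
          C0 * (|P.F (fun z => f (G z)) α (P.hi α) - P.F (fun z => f (G z)) α (P.lo α)| + δ) *
            |G y - G x|) ∧
        (∀ s : ℝ, s = 1 ∨ s = -1 →
          0 < s * (P.F (fun z => f (G z)) α (P.hi α) - P.F (fun z => f (G z)) α (P.lo α)) →
          C0 * δ ≤ s * (P.F (fun z => f (G z)) α (P.hi α) - P.F (fun z => f (G z)) α (P.lo α)) →
          ∀ x y : ℝ, P.lo α ≤ x → x ≤ y → y ≤ P.hi α →
          s * (P.F (fun z => f (G z)) α (P.hi α) - P.F (fun z => f (G z)) α (P.lo α)) *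
              (G y - G x) ≤
            C0 * (G (P.hi α) - G (P.lo α)) *
              (s * (P.F (fun z => f (G z)) α y - P.F (fun z => f (G z)) α x)))) := by
  have ha := TS.ha
  have hC := TS.hC
  have hm := TS.gmono.monotoneOn
  set L := G a - G (-a) with hL
  have hL0 : 0 ≤ L := sub_nonneg.2 (hm ⟨le_rfl, by linarith⟩ ⟨by linarith, le_rfl⟩ (by linarith))
  set X := Real.exp (C * L) with hX
  have hXpos : 0 < X := Real.exp_pos _
  set A2 := (C + C ^ 2 / 2) * X ^ 2 * L with hA2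
  have hA20 : 0 ≤ A2 := by positivity
  set Q := Real.exp (C * X * L / 2) with hQ
  have hQ1 : 1 ≤ Q := Real.one_le_exp (by positivity)
  have hQA : 0 ≤ Q * A2 := by positivity
  have hCL : 0 ≤ C * L := by positivity
  refine ⟨1 + C * L + 2 * Q * (1 + A2), by nlinarith, ?_⟩
  intro d P α
  refine ⟨?_, ?_, ?_⟩
  · intro i hi x hx y hy
    refine (distortion P α TS hi hx hy).trans ?_
    nlinarith
  · intro i hi x y hx hxy hy m M hmM
    exact lengths P α TS hi hx hxy hy m M hmM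
  · intro δ hδ hS
    have hlo : P.lo α ∈ Icc (P.lo α) (P.hi α) := ⟨le_rfl, (P.lt α).le⟩
    have hhi : P.hi α ∈ Icc (P.lo α) (P.hi α) := ⟨(P.lt α).le, le_rfl⟩
    set K := G (P.hi α) - G (P.lo α) with hK
    have hKpos : 0 < K := sub_pos.2 (TS.gmono (base_sub P α hlo) (base_sub P α hhi) (P.lt α))
    set F := P.F (fun z => f (G z)) α with hF
    set N := F (P.hi α) - F (P.lo α) with hN
    have hb : ∀ {x z : ℝ}, x ∈ Ioo (P.lo α) (P.hi α) → z ∈ Ioo (P.lo α) (P.hi α) →
        |Φ T f f1 (P.r α) (G x)| * K ≤ (|Φ T f f1 (P.r α) (G z)| * K + A2 * δ) * Q :=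
      fun hx hz => main_bounds TS P α δ hδ hS hx hz
    have hGc : ContinuousOn G (Icc (P.lo α) (P.hi α)) :=
      TS.gcont.mono fun x hx => base_sub P α hx
    have hFc : ContinuousOn F (Icc (P.lo α) (P.hi α)) := S_cont P α TS le_rfl
    have c1 : ContinuousOn (fun q : ℝ × ℝ => G q.2 - G q.1)
        (Icc (P.lo α) (P.hi α) ×ˢ Icc (P.lo α) (P.hi α)) :=
      (hGc.comp continuousOn_snd fun q hq => hq.2).sub (hGc.comp continuousOn_fst fun q hq => hq.1)
    have c2 : ContinuousOn (fun q : ℝ × ℝ => F q.2 - F q.1)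
        (Icc (P.lo α) (P.hi α) ×ˢ Icc (P.lo α) (P.hi α)) :=
      (hFc.comp continuousOn_snd fun q hq => hq.2).sub (hFc.comp continuousOn_fst fun q hq => hq.1)
    have hGmono : ∀ x y, P.lo α ≤ x → x ≤ y → y ≤ P.hi α → 0 ≤ G y - G x := fun x y h1 h2 h3 =>
      sub_nonneg.2 (hm (base_sub P α ⟨h1, h2.trans h3⟩) (base_sub P α ⟨h1.trans h2, h3⟩) h2)
    -- upper bound for `Φ` by the total variation
    have hup : ∀ z ∈ Ioo (P.lo α) (P.hi α), |Φ T f f1 (P.r α) (G z)| * K ≤ (|N| + A2 * δ) * Q := by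
      intro z hz
      have h1 := ext_le (P.lt α)
        (A := fun q => (|Φ T f f1 (P.r α) (G z)| * K - A2 * δ * Q) * (G q.2 - G q.1))
        (B := fun q => Q * K * |F q.2 - F q.1|)
        (continuousOn_const.mul c1) (continuousOn_const.mul c2.abs) (by
          intro x y hx hxy hy
          obtain ⟨w, hw, h2⟩ := mvt TS P α hx hxy hy
          have h3 := hGmono x y hx.le hxy hy.le
          change _ * (G y - G x) ≤ Q * K * |F y - F x|
          rw [h2, abs_mul, abs_of_nonneg h3]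
          have h4 := mul_le_mul_of_nonneg_right (hb hz hw) h3
          nlinarith) (P.lo α) (P.hi α) le_rfl (P.lt α).le le_rfl
      change (|Φ T f f1 (P.r α) (G z)| * K - A2 * δ * Q) * K ≤ Q * K * |N| at h1
      have h2 : (|Φ T f f1 (P.r α) (G z)| * K - A2 * δ * Q) * K ≤ (Q * |N|) * K := by linarith
      have h3 := le_of_mul_le_mul_right h2 hKpos
      linarith
    have hlow : ∀ z ∈ Ioo (P.lo α) (P.hi α),
        |N| ≤ (|Φ T f f1 (P.r α) (G z)| * K + A2 * δ) * Q := by
      intro z hz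
      have h1 := ext_le (P.lt α)
        (A := fun q => K * |F q.2 - F q.1|)
        (B := fun q => ((|Φ T f f1 (P.r α) (G z)| * K + A2 * δ) * Q) * (G q.2 - G q.1))
        (continuousOn_const.mul c2.abs) (continuousOn_const.mul c1) (by
          intro x y hx hxy hy
          obtain ⟨w, hw, h2⟩ := mvt TS P α hx hxy hy
          have h3 := hGmono x y hx.le hxy hy.le
          change K * |F y - F x| ≤ _ * (G y - G x)
          rw [h2, abs_mul, abs_of_nonneg h3]
          have h4 := mul_le_mul_of_nonneg_right (hb hw hz) h3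
          nlinarith) (P.lo α) (P.hi α) le_rfl (P.lt α).le le_rfl
      change K * |N| ≤ ((|Φ T f f1 (P.r α) (G z)| * K + A2 * δ) * Q) * K at h1
      rw [mul_comm K] at h1
      exact le_of_mul_le_mul_right h1 hKpos
    refine ⟨?_, ?_⟩
    · have hfirst : ∀ x y, P.lo α ≤ x → x ≤ y → y ≤ P.hi α →
          |F y - F x| * K ≤ ((|N| + A2 * δ) * Q) * (G y - G x) := by
        intro x y hx hxy hy
        exact ext_le (P.lt α) (A := fun q => |F q.2 - F q.1| * K)
          (B := fun q => ((|N| + A2 * δ) * Q) * (G q.2 - G q.1))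
          (c2.abs.mul continuousOn_const) (continuousOn_const.mul c1) (by
            intro x y hx hxy hy
            obtain ⟨w, hw, h2⟩ := mvt TS P α hx hxy hy
            have h3 := hGmono x y hx.le hxy hy.le
            change |F y - F x| * K ≤ _ * (G y - G x)
            rw [h2, abs_mul, abs_of_nonneg h3]
            have h4 := mul_le_mul_of_nonneg_right (hup w hw) h3
            nlinarith) x y hx hxy hy
      have hconst : (|N| + A2 * δ) * Q ≤ (1 + C * L + 2 * Q * (1 + A2)) * (|N| + δ) := by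
        have h1 : (1 + C * L + 2 * Q * (1 + A2)) * (|N| + δ) - (|N| + A2 * δ) * Q =
            (1 + C * L) * (|N| + δ) + Q * |N| + 2 * (Q * A2 * |N|) + 2 * (Q * δ) +
              Q * A2 * δ := by ring
        have h2 : 0 ≤ (1 + C * L) * (|N| + δ) + Q * |N| + 2 * (Q * A2 * |N|) + 2 * (Q * δ) +
              Q * A2 * δ := by positivity
        linarith
      intro x hx y hy
      rcases le_total x y with h | h
      · rw [abs_of_nonneg (hGmono x y hx.1 h hy.2)]
        exact (hfirst x y hx.1 h hy.2).trans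
          (mul_le_mul_of_nonneg_right hconst (hGmono x y hx.1 h hy.2))
      · rw [abs_sub_comm (F y), abs_sub_comm (G y), abs_of_nonneg (hGmono y x hy.1 h hx.2)]
        exact (hfirst y x hy.1 h hx.2).trans
          (mul_le_mul_of_nonneg_right hconst (hGmono y x hy.1 h hx.2))
    · intro s hs hsN hsδ
      have habs : |N| = s * N := by
        rcases hs with rfl | rfl
        · rw [one_mul] at hsN ⊢
          exact abs_of_pos hsN
        · rw [neg_one_mul] at hsN ⊢
          exact abs_of_neg (by linarith)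
      have hsabs : ∀ t : ℝ, 0 < s * t → s * t = |t| := by
        intro t ht
        rcases hs with rfl | rfl
        · rw [one_mul] at ht ⊢
          exact (abs_of_pos ht).symm
        · rw [neg_one_mul] at ht ⊢
          exact (abs_of_neg (by linarith)).symm
      have hlow2 : ∀ z ∈ Ioo (P.lo α) (P.hi α),
          s * N ≤ 2 * Q * (|Φ T f f1 (P.r α) (G z)| * K) := by
        intro z hz
        have h1 := hlow z hz
        rw [habs] at h1
        have hc : 2 * Q * A2 ≤ 1 + C * L + 2 * Q * (1 + A2) := by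
          have e1 : 2 * Q * (1 + A2) = 2 * Q + 2 * Q * A2 := by ring
          linarith
        have h2 : 2 * Q * A2 * δ ≤ s * N := (mul_le_mul_of_nonneg_right hc hδ).trans hsδ
        have e2 : (|Φ T f f1 (P.r α) (G z)| * K + A2 * δ) * Q =
            Q * (|Φ T f f1 (P.r α) (G z)| * K) + Q * A2 * δ := by ring
        rw [e2] at h1
        have e3 : 2 * Q * A2 * δ = 2 * (Q * A2 * δ) := by ring
        have e4 : 2 * Q * (|Φ T f f1 (P.r α) (G z)| * K) =
            2 * (Q * (|Φ T f f1 (P.r α) (G z)| * K)) := by ring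
        rw [e3] at h2
        rw [e4]
        linarith
      have hne : ∀ z ∈ Ioo (P.lo α) (P.hi α), Φ T f f1 (P.r α) (G z) ≠ 0 := by
        intro z hz h0
        have h1 := hlow2 z hz
        rw [h0, abs_zero, zero_mul, mul_zero] at h1
        exact absurd hsN (not_lt.2 h1)
      -- constant sign
      have hs0 : s ≠ 0 := by
        rcases hs with rfl | rfl <;> norm_num
      have hcontΦ : ContinuousOn (fun y => s * Φ T f f1 (P.r α) y)
          (Ioo (G (P.lo α)) (G (P.hi α))) := by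
        intro y hy
        obtain ⟨w, hw, rfl⟩ := exists_pt P α TS hlo hhi hy
        exact ((hasDerivAt_Φ P α TS le_rfl hw).continuousAt.continuousWithinAt).const_mul s
      have hGI : ∀ w ∈ Ioo (P.lo α) (P.hi α), G w ∈ Ioo (G (P.lo α)) (G (P.hi α)) := fun w hw =>
        ⟨TS.gmono (base_sub P α hlo) (base_sub P α (Ioo_subset_Icc_self hw)) hw.1,
          TS.gmono (base_sub P α (Ioo_subset_Icc_self hw)) (base_sub P α hhi) hw.2⟩
      have hsame : ∀ z ∈ Ioo (P.lo α) (P.hi α), ∀ z' ∈ Ioo (P.lo α) (P.hi α),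
          s * Φ T f f1 (P.r α) (G z) < 0 → s * Φ T f f1 (P.r α) (G z') < 0 := by
        intro z hz z' hz' hneg
        by_contra hcon
        rw [not_lt] at hcon
        have h1 := isPreconnected_Ioo.intermediate_value (hGI z hz) (hGI z' hz') hcontΦ
        obtain ⟨y, hy, hy0⟩ := h1 (show (0 : ℝ) ∈ Icc _ _ from ⟨hneg.le, hcon⟩)
        obtain ⟨w, hw, rfl⟩ := exists_pt P α TS hlo hhi hy
        exact hne w hw ((mul_eq_zero.1 hy0).resolve_left hs0)
      have hpos : ∀ z ∈ Ioo (P.lo α) (P.hi α), 0 < s * Φ T f f1 (P.r α) (G z) := by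
        intro z hz
        by_contra hcon
        have hneg : s * Φ T f f1 (P.r α) (G z) < 0 :=
          lt_of_le_of_ne (not_lt.1 hcon) (mul_ne_zero hs0 (hne z hz))
        have h1 := ext_le (P.lt α) (A := fun q => s * (F q.2 - F q.1)) (B := fun _ => (0 : ℝ))
          (continuousOn_const.mul c2) continuousOn_const (by
            intro x y hx hxy hy
            obtain ⟨w, hw, h2⟩ := mvt TS P α hx hxy hy
            have h3 := hGmono x y hx.le hxy hy.le
            change s * (F y - F x) ≤ 0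
            rw [h2]
            have h4 := hsame z hz w hw hneg
            nlinarith) (P.lo α) (P.hi α) le_rfl (P.lt α).le le_rfl
        exact absurd hsN (not_lt.2 h1)
      intro x y hx hxy hy
      exact ext_le (P.lt α) (A := fun q => s * N * (G q.2 - G q.1))
        (B := fun q => (1 + C * L + 2 * Q * (1 + A2)) * K * (s * (F q.2 - F q.1)))
        (continuousOn_const.mul c1) (continuousOn_const.mul (continuousOn_const.mul c2)) (by
          intro x y hx hxy hy
          obtain ⟨w, hw, h2⟩ := mvt TS P α hx hxy hy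
          have h3 := hGmono x y hx.le hxy hy.le
          change s * N * (G y - G x) ≤ (1 + C * L + 2 * Q * (1 + A2)) * K * (s * (F y - F x))
          rw [h2]
          have h4 := hlow2 w hw
          have h5 := hsabs _ (hpos w hw)
          have h6 : s * (Φ T f f1 (P.r α) (G w) * (G y - G x)) =
              |Φ T f f1 (P.r α) (G w)| * (G y - G x) := by
            rw [← mul_assoc, h5]
          rw [h6]
          have h7 : 0 ≤ |Φ T f f1 (P.r α) (G w)| * K := by positivity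
          have h8 : 2 * Q * (|Φ T f f1 (P.r α) (G w)| * K) ≤
              (1 + C * L + 2 * Q * (1 + A2)) * (|Φ T f f1 (P.r α) (G w)| * K) := by
            have e1 : 2 * Q * (1 + A2) = 2 * Q + 2 * (Q * A2) := by ring
            have e2 : 2 * Q ≤ 1 + C * L + 2 * Q * (1 + A2) := by linarith
            exact mul_le_mul_of_nonneg_right e2 h7
          have h9 := mul_le_mul_of_nonneg_right (h4.trans h8) h3
          calc s * N * (G y - G x)
              ≤ (1 + C * L + 2 * Q * (1 + A2)) * (|Φ T f f1 (P.r α) (G w)| * K) * (G y - G x) := h9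
            _ = _ := by ring) x y hx hxy hy

end Pool.Agent.Helper22.Rev
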