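import Mathlib
import Pool.Agent.Helper22.Rev.Defs

/-!
# Basic facts on towers and refinements
-/

set_option autoImplicit false

open Set

namespace Pool.Agent.Helper22.Rev

/-! ### sums over disjoint intervals -/

theorem le_of_disjoint_Ioo {l1 h1 l2 h2 : ℝ} (_ : l1 < h1) (hl2 : l2 < h2) (h12 : l1 ≤ l2)
    (hd : Disjoint (Ioo l1 h1) (Ioo l2 h2)) : h1 ≤ l2 := by
  by_contra hcon
  push Not at hcon
  rw [Set.disjoint_left] at hd
  have hm : l2 < min h1 h2 := lt_min hcon hl2
  obtain ⟨x, hx1, hx2⟩ := exists_between hm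
  exact hd (a := x) ⟨by linarith, lt_of_lt_of_le hx2 (min_le_left _ _)⟩
    ⟨hx1, lt_of_lt_of_le hx2 (min_le_right _ _)⟩

theorem sum_le_of_disjoint {ι : Type*} [DecidableEq ι] (s : Finset ι) (l h : ι → ℝ) (A B : ℝ)
    (hAB : A ≤ B) (hlt : ∀ i ∈ s, l i < h i) (hA : ∀ i ∈ s, A ≤ l i) (hB : ∀ i ∈ s, h i ≤ B)
    (hd : ∀ i ∈ s, ∀ j ∈ s, i ≠ j → Disjoint (Ioo (l i) (h i)) (Ioo (l j) (h j)))
    (F : ℝ → ℝ) (hF : MonotoneOn F (Icc A B)) :
    ∑ i ∈ s, (F (h i) - F (l i)) ≤ F B - F A := by
  induction hn : s.card generalizing s A with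
  | zero =>
    rw [Finset.card_eq_zero] at hn
    subst hn
    have := hF ⟨le_rfl, hAB⟩ ⟨hAB, le_rfl⟩ hAB
    simpa using this
  | succ n ih =>
    have hne : s.Nonempty := by
      rw [← Finset.card_pos]; omega
    obtain ⟨i, his, hmin⟩ := s.exists_min_image l hne
    have h1 : ∑ j ∈ s.erase i, (F (h j) - F (l j)) ≤ F B - F (h i) := by
      refine ih (s.erase i) (h i) (hB i his) ?_ ?_ ?_ ?_ ?_ ?_
      · exact fun j hj => hlt j (Finset.mem_of_mem_erase hj)
      · intro j hj
        have hj' := Finset.mem_of_mem_erase hj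
        exact le_of_disjoint_Ioo (hlt i his) (hlt j hj') (hmin j hj')
          (hd i his j hj' (Finset.ne_of_mem_erase hj).symm)
      · exact fun j hj => hB j (Finset.mem_of_mem_erase hj)
      · exact fun j hj k hk => hd j (Finset.mem_of_mem_erase hj) k (Finset.mem_of_mem_erase hk)
      · exact hF.mono (Icc_subset_Icc ((hA i his).trans (hlt i his).le) le_rfl)
      · rw [Finset.card_erase_of_mem his, hn]; rfl
    rw [← Finset.add_sum_erase s _ his]
    have h2 : F A ≤ F (l i) := hF ⟨le_rfl, hAB⟩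
      ⟨hA i his, (hlt i his).le.trans (hB i his)⟩ (hA i his)
    linarith

theorem sum_tile {ι : Type*} [DecidableEq ι] (s : Finset ι) (l h : ι → ℝ) (A B : ℝ)
    (hAB : A ≤ B) (hlt : ∀ i ∈ s, l i < h i) (hA : ∀ i ∈ s, A ≤ l i) (hB : ∀ i ∈ s, h i ≤ B)
    (hd : ∀ i ∈ s, ∀ j ∈ s, i ≠ j → Disjoint (Ioo (l i) (h i)) (Ioo (l j) (h j)))
    (hs : ∑ i ∈ s, (h i - l i) = B - A) (F : ℝ → ℝ) :
    ∑ i ∈ s, (F (h i) - F (l i)) = F B - F A := by
  induction hn : s.card generalizing s A with
  | zero =>
    rw [Finset.card_eq_zero] at hn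
    subst hn
    have : B = A := by simp at hs; linarith
    simp [this]
  | succ n ih =>
    have hne : s.Nonempty := by
      rw [← Finset.card_pos]; omega
    obtain ⟨i, his, hmin⟩ := s.exists_min_image l hne
    have h0 : ∑ j ∈ s, (h j - l j) ≤ B - l i := by
      have := sum_le_of_disjoint s l h (l i) B ((hlt i his).le.trans (hB i his)) hlt hmin hB hd id
        (monotone_id.monotoneOn _)
      simpa using this
    have hAi : l i = A := le_antisymm (by linarith) (hA i his)
    have h1 : ∑ j ∈ s.erase i, (F (h j) - F (l j)) = F B - F (h i) := by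
      refine ih (s.erase i) (h i) (hB i his) ?_ ?_ ?_ ?_ ?_ ?_
      · exact fun j hj => hlt j (Finset.mem_of_mem_erase hj)
      · intro j hj
        have hj' := Finset.mem_of_mem_erase hj
        exact le_of_disjoint_Ioo (hlt i his) (hlt j hj') (hmin j hj')
          (hd i his j hj' (Finset.ne_of_mem_erase hj).symm)
      · exact fun j hj => hB j (Finset.mem_of_mem_erase hj)
      · exact fun j hj k hk => hd j (Finset.mem_of_mem_erase hj) k (Finset.mem_of_mem_erase hk)
      · have := Finset.add_sum_erase s (fun j => h j - l j) his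
        rw [hs] at this
        linarith
      · rw [Finset.card_erase_of_mem his, hn]; rfl
    rw [← Finset.add_sum_erase s _ his, h1, hAi]
    ring

namespace Tow

variable {d : ℕ} {T0 : ℝ → ℝ} {U0 : Set ℝ} {a : ℝ}

/-- index set of the levels -/
def levels (P : Tow d T0 U0 a) : Finset (Σ _ : Fin d, ℕ) :=
  Finset.univ.sigma fun α => Finset.range (P.r α)

theorem mem_levels (P : Tow d T0 U0 a) (p : Σ _ : Fin d, ℕ) : p ∈ P.levels ↔ p.2 < P.r p.1 := by
  simp [levels]

theorem level_mem {P : Tow d T0 U0 a} (hU : U0 ⊆ Ioo (-a) a) {α : Fin d} {i : ℕ}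
    (hi : i < P.r α) : -a ≤ P.lo α + P.sh α i ∧ P.hi α + P.sh α i ≤ a := by
  have key : ∀ x ∈ Ioo (P.lo α) (P.hi α), -a < x + P.sh α i ∧ x + P.sh α i < a :=
    fun x hx => hU (P.reg α i hi x hx)
  have hlt := P.lt α
  constructor
  · by_contra hcon
    push Not at hcon
    obtain ⟨x, hx1, hx2⟩ := exists_between
      (show P.lo α < min (P.hi α) (-a - P.sh α i) from lt_min hlt (by linarith))
    have h1 := key x ⟨hx1, lt_of_lt_of_le hx2 (min_le_left _ _)⟩
    have h2 := lt_of_lt_of_le hx2 (min_le_right _ _)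
    linarith [h1.1]
  · by_contra hcon
    push Not at hcon
    obtain ⟨x, hx1, hx2⟩ := exists_between
      (show max (P.lo α) (a - P.sh α i) < P.hi α from max_lt hlt (by linarith))
    have h1 := key x ⟨lt_of_le_of_lt (le_max_left _ _) hx1, hx2⟩
    have h2 := lt_of_le_of_lt (le_max_right _ _) hx1
    linarith [h1.2]

theorem level_mem' {P : Tow d T0 U0 a} (hU : U0 ⊆ Ioo (-a) a) {α : Fin d} {i : ℕ}
    (hi : i ≤ P.r α) : -a ≤ P.lo α + P.sh α i ∧ P.hi α + P.sh α i ≤ a := by
  rcases hi.lt_or_eq with h | h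
  · exact level_mem hU h
  · subst h
    rw [P.sh_ret]
    have h1 := P.lo_ge α
    have h2 := P.hi_le α
    have h3 := P.eps_le
    constructor <;> linarith

/-- the levels tile `[-a, a]` -/
theorem sum_levels (P : Tow d T0 U0 a) (hU : U0 ⊆ Ioo (-a) a) (ha : 0 ≤ a) (F : ℝ → ℝ) :
    ∑ α, ∑ i ∈ Finset.range (P.r α), (F (P.hi α + P.sh α i) - F (P.lo α + P.sh α i)) =
      F a - F (-a) := by
  classical
  have h := sum_tile P.levels (fun p => P.lo p.1 + P.sh p.1 p.2)
    (fun p => P.hi p.1 + P.sh p.1 p.2) (-a) a (by linarith)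
    (fun p _ => by have := P.lt p.1; linarith)
    (fun p hp => (level_mem hU ((P.mem_levels p).1 hp)).1)
    (fun p hp => (level_mem hU ((P.mem_levels p).1 hp)).2)
    (fun p hp p' hp' hne => P.disj p.1 p'.1 p.2 p'.2 ((P.mem_levels p).1 hp)
      ((P.mem_levels p').1 hp') (fun he => hne (by
        have h1 := congrArg Prod.fst he
        have h2 := congrArg Prod.snd he
        exact Sigma.ext h1 (heq_of_eq h2))))
    (by
      rw [levels, Finset.sum_sigma]
      have : ∀ α, ∑ i ∈ Finset.range (P.r α), (P.hi α + P.sh α i - (P.lo α + P.sh α i)) =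
          (P.r α : ℝ) * (P.hi α - P.lo α) := by
        intro α
        rw [Finset.sum_congr rfl (fun i _ => show P.hi α + P.sh α i - (P.lo α + P.sh α i) =
          P.hi α - P.lo α by ring)]
        rw [Finset.sum_const, Finset.card_range, nsmul_eq_mul]
      rw [Finset.sum_congr rfl (fun α _ => this α), P.full]
      ring) F
  rw [levels, Finset.sum_sigma] at h
  exact h

/-- the `G`-lengths of the levels of one tower -/
theorem sum_tower_le (P : Tow d T0 U0 a) (hU : U0 ⊆ Ioo (-a) a) (ha : 0 ≤ a) {G : ℝ → ℝ}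
    (hG : MonotoneOn G (Icc (-a) a)) (α : Fin d) :
    ∑ i ∈ Finset.range (P.r α), (G (P.hi α + P.sh α i) - G (P.lo α + P.sh α i)) ≤
      G a - G (-a) := by
  classical
  refine sum_le_of_disjoint (Finset.range (P.r α)) (fun i => P.lo α + P.sh α i)
    (fun i => P.hi α + P.sh α i) (-a) a (by linarith) ?_ ?_ ?_ ?_ G hG
  · intro i _
    have := P.lt α
    linarith
  · exact fun i hi => (level_mem hU (Finset.mem_range.1 hi)).1
  · exact fun i hi => (level_mem hU (Finset.mem_range.1 hi)).2
  · intro i hi j hj hne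
    exact P.disj α α i j (Finset.mem_range.1 hi) (Finset.mem_range.1 hj)
      (fun he => hne (congrArg Prod.snd he))

theorem base_disj (P : Tow d T0 U0 a) {α β : Fin d} (h : α ≠ β) :
    Disjoint (Ioo (P.lo α) (P.hi α)) (Ioo (P.lo β) (P.hi β)) := by
  have := P.disj α β 0 0 (P.r_pos α) (P.r_pos β) (fun he => h (congrArg Prod.fst he))
  simpa [P.sh_zero] using this

theorem eps_nonneg (P : Tow d T0 U0 a) : 0 ≤ P.eps := by
  have h1 : 0 ≤ ∑ α, (P.hi α - P.lo α) := Finset.sum_nonneg fun α _ => by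
    have := P.lt α; linarith
  rw [P.total] at h1
  linarith

theorem eps_pos (P : Tow d T0 U0 a) (hd : 0 < d) : 0 < P.eps := by
  have h1 : 0 < ∑ α, (P.hi α - P.lo α) := Finset.sum_pos (fun α _ => by
    have := P.lt α; linarith) ⟨⟨0, hd⟩, Finset.mem_univ _⟩
  rw [P.total] at h1
  linarith

/-- the base intervals tile `[-eps, eps]` -/
theorem sum_base (P : Tow d T0 U0 a) (F : ℝ → ℝ) :
    ∑ α, (F (P.hi α) - F (P.lo α)) = F P.eps - F (-P.eps) := by
  classical
  refine sum_tile Finset.univ P.lo P.hi (-P.eps) P.eps (by linarith [P.eps_nonneg])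
    (fun α _ => P.lt α) (fun α _ => P.lo_ge α) (fun α _ => P.hi_le α)
    (fun α _ β _ hne => P.base_disj hne) (by rw [P.total]; ring) F

/-- iterates of `T0` along the tower -/
theorem iterate (P : Tow d T0 U0 a) (α : Fin d) {x : ℝ} (hx : x ∈ Ioo (P.lo α) (P.hi α)) :
    ∀ i ≤ P.r α, T0^[i] x = x + P.sh α i := by
  intro i
  induction i with
  | zero => intro _; simp [P.sh_zero]
  | succ i ih =>
    intro hi
    rw [Function.iterate_succ_apply', ih (by omega), P.step α i (by omega) x hx]

theorem iterate_ret (P : Tow d T0 U0 a) (α : Fin d) {x : ℝ} (hx : x ∈ Ioo (P.lo α) (P.hi α)) :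
    T0^[P.r α] x = x - P.s α := by
  rw [P.iterate α hx _ le_rfl, P.sh_ret, s]
  ring

/-- displacement after `j` letters of the itinerary `w` -/
def disp (P : Tow d T0 U0 a) (w : List (Fin d)) (j : ℕ) : ℝ := ((w.take j).map P.s).sum

/-- height after `j` letters of the itinerary `w` -/
def ht (P : Tow d T0 U0 a) (w : List (Fin d)) (j : ℕ) : ℕ := ((w.take j).map P.r).sum

@[simp] theorem disp_zero (P : Tow d T0 U0 a) (w : List (Fin d)) : P.disp w 0 = 0 := by
  simp [disp]

@[simp] theorem ht_zero (P : Tow d T0 U0 a) (w : List (Fin d)) : P.ht w 0 = 0 := by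
  simp [ht]

theorem disp_succ (P : Tow d T0 U0 a) (w : List (Fin d)) {j : ℕ} (hj : j < w.length) :
    P.disp w (j + 1) = P.disp w j + P.s w[j] := by
  rw [disp, disp, List.map_take, List.map_take, List.sum_take_succ _ _ (by simpa using hj),
    List.getElem_map]

theorem ht_succ (P : Tow d T0 U0 a) (w : List (Fin d)) {j : ℕ} (hj : j < w.length) :
    P.ht w (j + 1) = P.ht w j + P.r w[j] := by
  rw [ht, ht, List.map_take, List.map_take, List.sum_take_succ _ _ (by simpa using hj),
    List.getElem_map]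

theorem disp_cons (P : Tow d T0 U0 a) (α : Fin d) (w : List (Fin d)) (j : ℕ) :
    P.disp (α :: w) (j + 1) = P.s α + P.disp w j := by
  simp [disp]

theorem ht_lt (P : Tow d T0 U0 a) (w : List (Fin d)) {j k : ℕ} (hjk : j < k)
    (hk : k ≤ w.length) : P.ht w j < P.ht w k := by
  induction k with
  | zero => omega
  | succ k ih =>
    rw [P.ht_succ w (by omega)]
    have h2 := P.r_pos w[k]
    rcases Nat.lt_or_ge j k with h | h
    · have := ih h (by omega)
      omega
    · have : j = k := by omega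
      subst this
      omega

theorem follows_get (P : Tow d T0 U0 a) {l h : ℝ} {w : List (Fin d)} (hw : P.Follows l h w)
    {j : ℕ} (hj : j < w.length) :
    P.lo w[j] ≤ l - P.disp w j ∧ h - P.disp w j ≤ P.hi w[j] := by
  induction w generalizing l h j with
  | nil => simp at hj
  | cons α w ih =>
    rw [Follows] at hw
    obtain ⟨h1, h2, h3⟩ := hw
    cases j with
    | zero => simp [h1, h2]
    | succ j =>
      have := ih h3 (j := j) (by simpa using hj)
      rw [P.disp_cons, List.getElem_cons_succ]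
      constructor <;> linarith [this.1, this.2]

theorem follows_of_get (P : Tow d T0 U0 a) {l h : ℝ} {w : List (Fin d)}
    (hw : ∀ j (hj : j < w.length), P.lo w[j] ≤ l - P.disp w j ∧ h - P.disp w j ≤ P.hi w[j]) :
    P.Follows l h w := by
  induction w generalizing l h with
  | nil => trivial
  | cons α w ih =>
    rw [Follows]
    have h0 := hw 0 (by simp)
    simp only [List.getElem_cons_zero, disp_zero, sub_zero] at h0
    refine ⟨h0.1, h0.2, ih fun j hj => ?_⟩
    have := hw (j + 1) (by simpa using hj)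
    rw [P.disp_cons, List.getElem_cons_succ] at this
    constructor <;> linarith [this.1, this.2]

end Tow

namespace Refine

variable {d : ℕ} {T0 : ℝ → ℝ} {U0 : Set ℝ} {a : ℝ} {P Q : Tow d T0 U0 a}

/-- letters of the itineraries -/
def ltr (R : Refine P Q) (p : Σ β : Fin d, Fin (R.it β).length) : Fin d := (R.it p.1).get p.2

theorem ht_length (R : Refine P Q) (β : Fin d) : P.ht (R.it β) (R.it β).length = Q.r β := by
  rw [R.rsum, Tow.ht, List.take_length]

theorem it_ne_nil (R : Refine P Q) (β : Fin d) : R.it β ≠ [] := by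
  intro h
  have h1 := R.rsum β
  have h2 := Q.r_pos β
  rw [h] at h1
  simp at h1
  omega

/-- the pieces lie in the intervals of the coarse tower -/
theorem piece_sub (R : Refine P Q) (β : Fin d) {j : ℕ} (hj : j < (R.it β).length) :
    P.lo (R.it β)[j] ≤ Q.lo β - P.disp (R.it β) j ∧
      Q.hi β - P.disp (R.it β) j ≤ P.hi (R.it β)[j] :=
  P.follows_get (R.follows β) hj

theorem piece_mem (R : Refine P Q) (β : Fin d) {j : ℕ} (hj : j < (R.it β).length) {x : ℝ}
    (hx : x ∈ Ioo (Q.lo β) (Q.hi β)) :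
    x - P.disp (R.it β) j ∈ Ioo (P.lo (R.it β)[j]) (P.hi (R.it β)[j]) := by
  have h := R.piece_sub β hj
  exact ⟨by linarith [h.1, hx.1], by linarith [h.2, hx.2]⟩

theorem iterate_ht (R : Refine P Q) (β : Fin d) {x : ℝ} (hx : x ∈ Ioo (Q.lo β) (Q.hi β)) :
    ∀ j ≤ (R.it β).length, T0^[P.ht (R.it β) j] x = x - P.disp (R.it β) j := by
  intro j
  induction j with
  | zero => intro _; simp
  | succ j ih =>
    intro hj
    have hj' : j < (R.it β).length := by omega
    rw [P.ht_succ _ hj', Nat.add_comm, Function.iterate_add_apply, ih hj'.le,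
      P.iterate_ret _ (R.piece_mem β hj' hx), P.disp_succ _ hj']
    ring

/-- the shift of the fine tower in terms of the coarse one -/
theorem sh_eq (R : Refine P Q) (β : Fin d) {j : ℕ} (hj : j < (R.it β).length) {i : ℕ}
    (hi : i ≤ P.r (R.it β)[j]) :
    P.ht (R.it β) j + i ≤ Q.r β ∧
      Q.sh β (P.ht (R.it β) j + i) = P.sh (R.it β)[j] i - P.disp (R.it β) j := by
  have h1 : P.ht (R.it β) j + i ≤ Q.r β := by
    have h2 : P.ht (R.it β) (j + 1) ≤ P.ht (R.it β) (R.it β).length := by
      rcases Nat.lt_or_ge (j + 1) (R.it β).length with h | h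
      · exact (P.ht_lt _ h le_rfl).le
      · rw [show j + 1 = (R.it β).length by omega]
    rw [R.ht_length, P.ht_succ _ hj] at h2
    omega
  refine ⟨h1, ?_⟩
  obtain ⟨x, hx⟩ := exists_between (Q.lt β)
  have hx' : x ∈ Ioo (Q.lo β) (Q.hi β) := hx
  have h3 := Q.iterate β hx' _ h1
  rw [Nat.add_comm, Function.iterate_add_apply, R.iterate_ht β hx' j hj.le,
    P.iterate _ (R.piece_mem β hj hx') i hi, Nat.add_comm] at h3
  linarith

theorem disp_length (R : Refine P Q) (β : Fin d) :
    P.disp (R.it β) (R.it β).length = Q.s β := by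
  obtain ⟨x, hx⟩ := exists_between (Q.lt β)
  have hx' : x ∈ Ioo (Q.lo β) (Q.hi β) := hx
  have h1 := R.iterate_ht β hx' _ le_rfl
  rw [R.ht_length, Q.iterate_ret β hx'] at h1
  linarith

/-- every height of the fine tower -/
theorem exists_split (R : Refine P Q) (β : Fin d) {i : ℕ} (hi : i < Q.r β) :
    ∃ j, ∃ hj : j < (R.it β).length, ∃ i' < P.r (R.it β)[j], i = P.ht (R.it β) j + i' := by
  have key : ∀ k ≤ (R.it β).length, ∀ i < P.ht (R.it β) k,
      ∃ j, ∃ hj : j < (R.it β).length, ∃ i' < P.r (R.it β)[j], i = P.ht (R.it β) j + i' := by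
    intro k
    induction k with
    | zero => intro _ i hi; simp at hi
    | succ k ih =>
      intro hk i hi
      have hk' : k < (R.it β).length := by omega
      rw [P.ht_succ _ hk'] at hi
      rcases Nat.lt_or_ge i (P.ht (R.it β) k) with h | h
      · exact ih hk'.le i h
      · exact ⟨k, hk', i - P.ht (R.it β) k, by omega, by omega⟩
  refine key _ le_rfl i ?_
  rwa [R.ht_length]

/-- the pieces are disjoint -/
theorem piece_disj (R : Refine P Q) {p p' : Σ β : Fin d, Fin (R.it β).length} (h : p ≠ p') :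
    Disjoint (Ioo (Q.lo p.1 - P.disp (R.it p.1) p.2) (Q.hi p.1 - P.disp (R.it p.1) p.2))
      (Ioo (Q.lo p'.1 - P.disp (R.it p'.1) p'.2) (Q.hi p'.1 - P.disp (R.it p'.1) p'.2)) := by
  obtain ⟨β, j, hj⟩ := p
  obtain ⟨β', j', hj'⟩ := p'
  have h1 := R.sh_eq β hj (i := 0) (Nat.zero_le _)
  have h2 := R.sh_eq β' hj' (i := 0) (Nat.zero_le _)
  rw [P.sh_zero, Nat.add_zero] at h1 h2
  have l1 : P.ht (R.it β) j < Q.r β := by
    rw [← R.ht_length]; exact P.ht_lt _ hj le_rfl
  have l2 : P.ht (R.it β') j' < Q.r β' := by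
    rw [← R.ht_length]; exact P.ht_lt _ hj' le_rfl
  have h3 := Q.disj β β' _ _ l1 l2 (by
    intro he
    have e1 : β = β' := congrArg Prod.fst he
    subst e1
    have e2 : P.ht (R.it β) j = P.ht (R.it β) j' := congrArg Prod.snd he
    apply h
    have e3 : j = j' := by
      rcases Nat.lt_trichotomy j j' with hlt | heq | hlt
      · have := P.ht_lt _ hlt hj'.le; omega
      · exact heq
      · have := P.ht_lt _ hlt hj.le; omega
    subst e3
    rfl)
  rw [h1.2, h2.2] at h3
  simp only [zero_sub, ← sub_eq_add_neg] at h3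
  exact h3

theorem card_get_eq (w : List (Fin d)) (α : Fin d) :
    (Finset.univ.filter fun j : Fin w.length => w.get j = α).card = w.count α := by
  exact Fin.card_filter_univ_eq_vector_get_eq_count α (⟨w, rfl⟩ : List.Vector (Fin d) w.length)

/-- the set of pieces in the interval `α` of the coarse tower -/
def pieces (R : Refine P Q) (α : Fin d) : Finset (Σ β : Fin d, Fin (R.it β).length) :=
  Finset.univ.filter fun p => R.ltr p = α

theorem mem_pieces (R : Refine P Q) (α : Fin d) (p : Σ β : Fin d, Fin (R.it β).length) :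
    p ∈ R.pieces α ↔ R.ltr p = α := by
  simp [pieces]

theorem piece_sub' (R : Refine P Q) (p : Σ β : Fin d, Fin (R.it β).length) :
    P.lo (R.ltr p) ≤ Q.lo p.1 - P.disp (R.it p.1) p.2 ∧
      Q.hi p.1 - P.disp (R.it p.1) p.2 ≤ P.hi (R.ltr p) :=
  R.piece_sub p.1 p.2.2

theorem sum_pieces_weight (R : Refine P Q) (v : Fin d → ℝ) :
    ∑ α, ∑ p ∈ R.pieces α, (P.r α : ℝ) * v p.1 = ∑ β, (Q.r β : ℝ) * v β := by
  classical
  have h1 : ∀ α, ∑ p ∈ R.pieces α, (P.r α : ℝ) * v p.1 =
      ∑ p ∈ R.pieces α, (P.r (R.ltr p) : ℝ) * v p.1 := by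
    intro α
    refine Finset.sum_congr rfl fun p hp => ?_
    rw [(R.mem_pieces α p).1 hp]
  rw [Finset.sum_congr rfl fun α _ => h1 α]
  have h2 := Finset.sum_fiberwise (s := (Finset.univ : Finset (Σ β : Fin d, Fin (R.it β).length)))
    (g := R.ltr) (f := fun p => (P.r (R.ltr p) : ℝ) * v p.1)
  unfold pieces
  rw [h2, Fintype.sum_sigma]
  refine Finset.sum_congr rfl fun β _ => ?_
  have h3 : ((R.it β).map P.r).sum = ∑ j : Fin (R.it β).length, P.r ((R.it β).get j) := by
    have h4 : (R.it β).map P.r = List.ofFn fun j : Fin (R.it β).length => P.r ((R.it β).get j) := by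
      conv_lhs => rw [← List.ofFn_get (R.it β)]
      rw [List.map_ofFn]
      rfl
    rw [h4, List.sum_ofFn]
  rw [R.rsum, h3, Nat.cast_sum, Finset.sum_mul]
  rfl

/-- the pieces in the interval `α` tile it -/
theorem sum_pieces (R : Refine P Q) (α : Fin d) (F : ℝ → ℝ) :
    ∑ p ∈ R.pieces α, (F (Q.hi p.1 - P.disp (R.it p.1) p.2) -
      F (Q.lo p.1 - P.disp (R.it p.1) p.2)) = F (P.hi α) - F (P.lo α) := by
  classical
  have hle : ∀ α, ∑ p ∈ R.pieces α, (Q.hi p.1 - Q.lo p.1) ≤ P.hi α - P.lo α := by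
    intro α
    have := sum_le_of_disjoint (R.pieces α) (fun p => Q.lo p.1 - P.disp (R.it p.1) p.2)
      (fun p => Q.hi p.1 - P.disp (R.it p.1) p.2) (P.lo α) (P.hi α) (P.lt α).le
      (fun p _ => by have := Q.lt p.1; linarith)
      (fun p hp => by rw [← (R.mem_pieces α p).1 hp]; exact (R.piece_sub' p).1)
      (fun p hp => by rw [← (R.mem_pieces α p).1 hp]; exact (R.piece_sub' p).2)
      (fun p _ p' _ h => R.piece_disj h) id (monotone_id.monotoneOn _)
    simpa using this
  have heq : ∑ p ∈ R.pieces α, (Q.hi p.1 - Q.lo p.1) = P.hi α - P.lo α := by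
    have h1 := R.sum_pieces_weight fun β => Q.hi β - Q.lo β
    rw [Q.full, ← P.full] at h1
    have h2 : ∀ α ∈ (Finset.univ : Finset (Fin d)),
        ∑ p ∈ R.pieces α, (P.r α : ℝ) * (Q.hi p.1 - Q.lo p.1) ≤
          (P.r α : ℝ) * (P.hi α - P.lo α) := by
      intro α _
      rw [← Finset.mul_sum]
      exact mul_le_mul_of_nonneg_left (hle α) (Nat.cast_nonneg _)
    have h3 := (Finset.sum_eq_sum_iff_of_le h2).1 h1 α (Finset.mem_univ _)
    rw [← Finset.mul_sum] at h3
    have h4 : (P.r α : ℝ) ≠ 0 := by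
      have := P.r_pos α
      positivity
    exact mul_left_cancel₀ h4 h3
  refine sum_tile (R.pieces α) (fun p => Q.lo p.1 - P.disp (R.it p.1) p.2)
      (fun p => Q.hi p.1 - P.disp (R.it p.1) p.2) (P.lo α) (P.hi α) (P.lt α).le
      (fun p _ => by have := Q.lt p.1; linarith)
      (fun p hp => by rw [← (R.mem_pieces α p).1 hp]; exact (R.piece_sub' p).1)
      (fun p hp => by rw [← (R.mem_pieces α p).1 hp]; exact (R.piece_sub' p).2)
      (fun p _ p' _ h => R.piece_disj h) ?_ F
  rw [← heq]
  exact Finset.sum_congr rfl fun p _ => by ring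

/-- Birkhoff sums of the fine tower -/
theorem F_eq (R : Refine P Q) (g : ℝ → ℝ) (β : Fin d) (x : ℝ) :
    Q.F g β x = ∑ j : Fin (R.it β).length,
      P.F g ((R.it β).get j) (x - P.disp (R.it β) j) := by
  have key : ∀ k (hk : k ≤ (R.it β).length), Q.S g β (P.ht (R.it β) k) x =
      ∑ j : Fin k, P.F g ((R.it β).get ⟨j, by omega⟩) (x - P.disp (R.it β) j) := by
    intro k
    induction k with
    | zero => intro _; simp [Tow.S]
    | succ k ih =>
      intro hk
      have hk' : k < (R.it β).length := by omega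
      rw [Fin.sum_univ_castSucc, P.ht_succ _ hk', Tow.S, Finset.sum_range_add]
      rw [show ∑ l ∈ Finset.range (P.ht (R.it β) k), g (x + Q.sh β l) =
        Q.S g β (P.ht (R.it β) k) x from rfl, ih hk'.le]
      congr 1
      rw [Tow.F, Tow.S]
      refine Finset.sum_congr rfl fun i hi => ?_
      have := (R.sh_eq β hk' (i := i) (Finset.mem_range.1 hi).le).2
      rw [this]
      congr 1
      have h5 : (R.it β).get ⟨((Fin.last k : Fin (k + 1)) : ℕ), by simpa using hk'⟩ =
        (R.it β)[k] := rfl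
      rw [h5, Fin.val_last]
      ring
  have := key _ le_rfl
  rw [R.ht_length] at this
  exact this

theorem pieces_card (R : Refine P Q) (α : Fin d) (v : Fin d → ℝ) :
    ∑ p ∈ R.pieces α, v p.1 = ∑ β, ((R.it β).count α : ℝ) * v β := by
  classical
  unfold pieces
  rw [Finset.sum_filter, Fintype.sum_sigma]
  refine Finset.sum_congr rfl fun β _ => ?_
  rw [← card_get_eq, ← Finset.sum_filter]
  have : ∀ j ∈ Finset.univ.filter fun j : Fin (R.it β).length => R.ltr ⟨β, j⟩ = α,
      v (⟨β, j⟩ : Σ β : Fin d, Fin (R.it β).length).1 = v β := fun _ _ => rfl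
  rw [Finset.sum_congr rfl this, Finset.sum_const, nsmul_eq_mul]
  rfl

/-- lengths of the coarse intervals -/
theorem length_eq (R : Refine P Q) (α : Fin d) :
    P.hi α - P.lo α = ∑ β, ((R.it β).count α : ℝ) * (Q.hi β - Q.lo β) := by
  rw [← R.pieces_card α fun β => Q.hi β - Q.lo β]
  have := R.sum_pieces α id
  simp only [id] at this
  rw [← this]
  exact Finset.sum_congr rfl fun p _ => by ring

/-- good refinements halve the base -/
theorem eps_le_half (R : Refine P Q) (hd : 0 < d) (h : ∀ β α, 2 ≤ (R.it β).count α) :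
    2 * Q.eps ≤ P.eps := by
  have h1 : ∀ α, 2 * (2 * Q.eps) ≤ P.hi α - P.lo α := by
    intro α
    rw [R.length_eq, ← Q.total, Finset.mul_sum]
    refine Finset.sum_le_sum fun β _ => ?_
    have h2 : (2 : ℝ) ≤ ((R.it β).count α : ℝ) := by exact_mod_cast h β α
    have h3 := Q.lt β
    nlinarith
  have h2 : ∑ _α : Fin d, 2 * (2 * Q.eps) ≤ 2 * P.eps := by
    rw [← P.total]
    exact Finset.sum_le_sum fun α _ => h1 α
  rw [Finset.sum_const, Finset.card_univ, Fintype.card_fin, nsmul_eq_mul] at h2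
  have h3 : (1 : ℝ) ≤ d := by exact_mod_cast hd
  have h4 := Q.eps_nonneg
  nlinarith

end Refine

namespace Tow

variable {d : ℕ} {T0 : ℝ → ℝ} {U0 : Set ℝ} {a : ℝ}

theorem Follows.mono {P : Tow d T0 U0 a} {w : List (Fin d)} :
    ∀ {l h l' h' : ℝ}, P.Follows l h w → l ≤ l' → h' ≤ h → P.Follows l' h' w := by
  induction w with
  | nil => intros; trivial
  | cons α w ih =>
    intro l h l' h' hw hl hh
    rw [Follows] at hw ⊢
    exact ⟨hw.1.trans hl, hh.trans hw.2.1, ih hw.2.2 (by linarith) (by linarith)⟩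

theorem follows_append {P : Tow d T0 U0 a} (u v : List (Fin d)) :
    ∀ {l h : ℝ}, P.Follows l h (u ++ v) ↔
      P.Follows l h u ∧ P.Follows (l - (u.map P.s).sum) (h - (u.map P.s).sum) v := by
  induction u with
  | nil => intro l h; simp [Follows]
  | cons α u ih =>
    intro l h
    rw [List.cons_append, Follows, Follows, ih, List.map_cons, List.sum_cons]
    constructor
    · rintro ⟨h1, h2, h3, h4⟩
      refine ⟨⟨h1, h2, h3⟩, ?_⟩
      rwa [sub_sub, sub_sub] at h4
    · rintro ⟨⟨h1, h2, h3⟩, h4⟩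
      refine ⟨h1, h2, h3, ?_⟩
      rwa [sub_sub, sub_sub]

end Tow

namespace Refine

variable {d : ℕ} {T0 : ℝ → ℝ} {U0 : Set ℝ} {a : ℝ} {P Q W : Tow d T0 U0 a}

theorem s_sum (R : Refine P Q) (β : Fin d) : ((R.it β).map P.s).sum = Q.s β := by
  rw [← R.disp_length β, Tow.disp, List.take_length]

theorem s_sum_flatMap (R : Refine P Q) (w : List (Fin d)) :
    ((w.flatMap R.it).map P.s).sum = (w.map Q.s).sum := by
  induction w with
  | nil => simp
  | cons β w ih =>
    rw [List.flatMap_cons, List.map_append, List.sum_append, ih, R.s_sum, List.map_cons,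
      List.sum_cons]

theorem r_sum_flatMap (R : Refine P Q) (w : List (Fin d)) :
    ((w.flatMap R.it).map P.r).sum = (w.map Q.r).sum := by
  induction w with
  | nil => simp
  | cons β w ih =>
    rw [List.flatMap_cons, List.map_append, List.sum_append, ih, ← R.rsum, List.map_cons,
      List.sum_cons]

theorem follows_flatMap (R : Refine P Q) {w : List (Fin d)} :
    ∀ {l h : ℝ}, Q.Follows l h w → P.Follows l h (w.flatMap R.it) := by
  induction w with
  | nil => intros; trivial
  | cons β w ih =>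
    intro l h hw
    rw [Tow.Follows] at hw
    rw [List.flatMap_cons, Tow.follows_append, R.s_sum]
    exact ⟨(R.follows β).mono hw.1 hw.2.1, ih hw.2.2⟩

/-- composition of refinements -/
def trans (R : Refine P Q) (R' : Refine Q W) : Refine P W where
  it := fun γ => (R'.it γ).flatMap R.it
  follows := fun γ => R.follows_flatMap (R'.follows γ)
  rsum := fun γ => by rw [R.r_sum_flatMap, R'.rsum]

end Refine

end Pool.Agent.Helper22.Rev
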