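import Pool.Agent.Helper22.Rev.Defs
import Pool.Agent.Helper22.Rev.TowB
import Pool.Agent.Helper22.Rev.Local

/-!
# RV-7: exponential decay of the nonlinearity and of the sizes of the levels
-/

set_option autoImplicit false

open Set Filter Topology

namespace Pool.Agent.Helper22.Rev

namespace Decay

variable {d : ℕ} {T0 : ℝ → ℝ} {U0 : Set ℝ} {a : ℝ}

/-- increment of the Birkhoff sum over a base interval -/
def N (P : Tow d T0 U0 a) (g : ℝ → ℝ) (α : Fin d) : ℝ := P.F g α (P.hi α) - P.F g α (P.lo α)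

/-- length of a base interval -/
def len (P : Tow d T0 U0 a) (G : ℝ → ℝ) (α : Fin d) : ℝ := G (P.hi α) - G (P.lo α)

/-- the local properties of a tower -/
structure LM (G g : ℝ → ℝ) (C0 : ℝ) (P : Tow d T0 U0 a) : Prop where
  dist : ∀ α, ∀ i ≤ P.r α, ∀ x ∈ Icc (P.lo α) (P.hi α), ∀ y ∈ Icc (P.lo α) (P.hi α),
        |P.S g α i x - P.S g α i y| ≤ C0
  length : ∀ α, ∀ i ≤ P.r α, ∀ x y : ℝ, P.lo α ≤ x → x ≤ y → y ≤ P.hi α → ∀ m M : ℝ,
        (∀ z ∈ Icc (P.lo α) (P.hi α), m ≤ P.S g α i z ∧ P.S g α i z ≤ M) →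
        Real.exp m * (G y - G x) ≤ G (y + P.sh α i) - G (x + P.sh α i) ∧
        G (y + P.sh α i) - G (x + P.sh α i) ≤ Real.exp M * (G y - G x)
  c1 : ∀ α, ∀ δ : ℝ, 0 ≤ δ → P.Small G δ → ∀ x ∈ Icc (P.lo α) (P.hi α),
      ∀ y ∈ Icc (P.lo α) (P.hi α),
        |P.F g α y - P.F g α x| * len P G α ≤ C0 * (|N P g α| + δ) * |G y - G x|
  c2 : ∀ α, ∀ δ : ℝ, 0 ≤ δ → P.Small G δ → ∀ s : ℝ, s = 1 ∨ s = -1 →
      0 < s * N P g α → C0 * δ ≤ s * N P g α → ∀ x y : ℝ, P.lo α ≤ x → x ≤ y → y ≤ P.hi α →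
        s * N P g α * (G y - G x) ≤ C0 * len P G α * (s * (P.F g α y - P.F g α x))

section One

variable {P Q : Tow d T0 U0 a} {G g : ℝ → ℝ}

theorem lo_mem (P : Tow d T0 U0 a) (α : Fin d) : P.lo α ∈ Icc (-a) a := by
  have h1 := P.lo_ge α
  have h2 := P.hi_le α
  have h3 := P.eps_le
  have h4 := P.lt α
  constructor <;> linarith

theorem hi_mem (P : Tow d T0 U0 a) (α : Fin d) : P.hi α ∈ Icc (-a) a := by
  have h1 := P.lo_ge α
  have h2 := P.hi_le α
  have h3 := P.eps_le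
  have h4 := P.lt α
  constructor <;> linarith

theorem len_pos (hG : StrictMonoOn G (Icc (-a) a)) (P : Tow d T0 U0 a) (α : Fin d) :
    0 < len P G α := by
  unfold len
  have := hG (lo_mem P α) (hi_mem P α) (P.lt α)
  linarith

/-- left end of a piece -/
def plo (R : Refine P Q) (p : Σ β : Fin d, Fin (R.it β).length) : ℝ :=
  Q.lo p.1 - P.disp (R.it p.1) p.2

/-- right end of a piece -/
def phi (R : Refine P Q) (p : Σ β : Fin d, Fin (R.it β).length) : ℝ :=
  Q.hi p.1 - P.disp (R.it p.1) p.2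

theorem plo_le_phi (R : Refine P Q) (p : Σ β : Fin d, Fin (R.it β).length) :
    plo R p ≤ phi R p := by
  unfold plo phi
  linarith [Q.lt p.1]

theorem plo_ge (R : Refine P Q) (p : Σ β : Fin d, Fin (R.it β).length) :
    P.lo (R.ltr p) ≤ plo R p := (R.piece_sub' p).1

theorem phi_le (R : Refine P Q) (p : Σ β : Fin d, Fin (R.it β).length) :
    phi R p ≤ P.hi (R.ltr p) := (R.piece_sub' p).2

/-- length of a piece -/
def plen (R : Refine P Q) (G : ℝ → ℝ) (p : Σ β : Fin d, Fin (R.it β).length) : ℝ :=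
  G (phi R p) - G (plo R p)

/-- increment over a piece -/
def pN (R : Refine P Q) (g : ℝ → ℝ) (p : Σ β : Fin d, Fin (R.it β).length) : ℝ :=
  P.F g (R.ltr p) (phi R p) - P.F g (R.ltr p) (plo R p)

theorem plen_nonneg (hG : StrictMonoOn G (Icc (-a) a)) (R : Refine P Q)
    (p : Σ β : Fin d, Fin (R.it β).length) : 0 ≤ plen R G p := by
  unfold plen
  have h1 := lo_mem P (R.ltr p)
  have h2 := hi_mem P (R.ltr p)
  have h3 := plo_ge R p
  have h4 := phi_le R p
  have h5 := plo_le_phi R p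
  have := hG.monotoneOn (a := plo R p) (b := phi R p) ⟨by linarith [h1.1], by linarith [h2.2]⟩
    ⟨by linarith [h1.1], by linarith [h2.2]⟩ h5
  linarith

theorem sum_plen (R : Refine P Q) (α : Fin d) :
    ∑ p ∈ R.pieces α, plen R G p = len P G α := R.sum_pieces α G

theorem sum_pN (R : Refine P Q) (α : Fin d) :
    ∑ p ∈ R.pieces α, pN R g p = N P g α := by
  have h := R.sum_pieces α (P.F g α)
  unfold N
  rw [← h]
  refine Finset.sum_congr rfl fun p hp => ?_
  unfold pN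
  rw [(R.mem_pieces α p).1 hp]
  rfl

theorem N_eq (R : Refine P Q) (β : Fin d) : N Q g β = ∑ j, pN R g ⟨β, j⟩ := by
  unfold N
  rw [R.F_eq, R.F_eq, ← Finset.sum_sub_distrib]
  rfl

theorem sum_N (P : Tow d T0 U0 a) (hU : U0 ⊆ Ioo (-a) a) (ha : 0 ≤ a) (hg : g a = g (-a)) :
    ∑ α, N P g α = 0 := by
  have h := P.sum_levels hU ha g
  rw [hg, sub_self] at h
  rw [← h]
  refine Finset.sum_congr rfl fun α _ => ?_
  unfold N Tow.F Tow.S
  rw [← Finset.sum_sub_distrib]

theorem sum_fiber (R : Refine P Q) (v : (Σ β : Fin d, Fin (R.it β).length) → ℝ) :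
    ∑ α, ∑ p ∈ R.pieces α, v p = ∑ β, ∑ j, v ⟨β, j⟩ := by
  classical
  rw [← Fintype.sum_sigma (f := v)]
  exact Finset.sum_fiberwise (s := (Finset.univ : Finset (Σ β : Fin d, Fin (R.it β).length)))
    (g := R.ltr) (f := v)

/-- lengths of the pieces of one type -/
theorem plen_bd {C0 V : ℝ} (lm : LM G g C0 P)
    (hV : ∀ α, ∀ x ∈ Icc (P.lo α) (P.hi α), |P.F g α x| ≤ V) (R : Refine P Q) (β : Fin d) :
    ∀ j < (R.it β).length,
      Real.exp (-(j * V)) * len Q G β ≤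
        G (Q.hi β - P.disp (R.it β) j) - G (Q.lo β - P.disp (R.it β) j) ∧
      G (Q.hi β - P.disp (R.it β) j) - G (Q.lo β - P.disp (R.it β) j) ≤
        Real.exp (j * V) * len Q G β := by
  intro j
  induction j with
  | zero => intro _; simp [len]
  | succ j ih =>
    intro hj
    have hj' : j < (R.it β).length := by omega
    obtain ⟨h1, h2⟩ := ih hj'
    have hp := R.piece_sub β hj'
    have hl := lm.length ((R.it β)[j]) _ le_rfl (Q.lo β - P.disp (R.it β) j)
      (Q.hi β - P.disp (R.it β) j) hp.1 (by linarith [Q.lt β]) hp.2 (-V) V (fun z hz => by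
        have := hV _ z hz
        rw [abs_le] at this
        exact this)
    rw [P.sh_ret] at hl
    have e1 : Q.hi β - P.disp (R.it β) (j + 1) =
        Q.hi β - P.disp (R.it β) j + -(P.lo (R.it β)[j] + P.hi (R.it β)[j]) := by
      rw [P.disp_succ _ hj', Tow.s]; ring
    have e2 : Q.lo β - P.disp (R.it β) (j + 1) =
        Q.lo β - P.disp (R.it β) j + -(P.lo (R.it β)[j] + P.hi (R.it β)[j]) := by
      rw [P.disp_succ _ hj', Tow.s]; ring
    rw [e1, e2]
    constructor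
    · refine le_trans ?_ hl.1
      calc Real.exp (-(((j + 1 : ℕ) : ℝ) * V)) * len Q G β
          = Real.exp (-V) * (Real.exp (-(j * V)) * len Q G β) := by
            rw [← mul_assoc, ← Real.exp_add]
            congr 2
            push_cast
            ring
        _ ≤ _ := mul_le_mul_of_nonneg_left h1 (Real.exp_pos _).le
    · refine hl.2.trans ?_
      calc Real.exp V * (G (Q.hi β - P.disp (R.it β) j) - G (Q.lo β - P.disp (R.it β) j))
          ≤ Real.exp V * (Real.exp (j * V) * len Q G β) :=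
            mul_le_mul_of_nonneg_left h2 (Real.exp_pos _).le
        _ = _ := by
            rw [← mul_assoc, ← Real.exp_add]
            congr 2
            push_cast
            ring

theorem plen_bd' (hG : StrictMonoOn G (Icc (-a) a)) {C0 V : ℝ} (lm : LM G g C0 P) (hV0 : 0 ≤ V)
    (hV : ∀ α, ∀ x ∈ Icc (P.lo α) (P.hi α), |P.F g α x| ≤ V) (R : Refine P Q) {B : ℕ}
    (p : Σ β : Fin d, Fin (R.it β).length) (hB : (R.it p.1).length ≤ B) :
    Real.exp (-(B * V)) * len Q G p.1 ≤ plen R G p ∧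
      plen R G p ≤ Real.exp (B * V) * len Q G p.1 := by
  obtain ⟨h1, h2⟩ := plen_bd lm hV R p.1 p.2 p.2.2
  have hl := (len_pos hG Q p.1).le
  have hjB : ((p.2 : ℕ) : ℝ) ≤ B := by
    have := p.2.2
    exact_mod_cast (this.le.trans hB)
  have hm : ((p.2 : ℕ) : ℝ) * V ≤ B * V := mul_le_mul_of_nonneg_right hjB hV0
  constructor
  · refine le_trans (mul_le_mul_of_nonneg_right (Real.exp_le_exp.2 ?_) hl) h1
    linarith
  · exact h2.trans (mul_le_mul_of_nonneg_right (Real.exp_le_exp.2 hm) hl)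

theorem two_disj {G : ℝ → ℝ} {A B l1 h1 l2 h2 : ℝ} (hG : MonotoneOn G (Icc A B))
    (hl1 : A ≤ l1) (hlt1 : l1 < h1) (hh1 : h1 ≤ B) (hl2 : A ≤ l2) (hlt2 : l2 < h2) (hh2 : h2 ≤ B)
    (hd : Disjoint (Ioo l1 h1) (Ioo l2 h2)) :
    (G h1 - G l1) + (G h2 - G l2) ≤ G B - G A := by
  have key : ∀ {l1 h1 l2 h2 : ℝ}, A ≤ l1 → l1 < h1 → h1 ≤ B → A ≤ l2 → l2 < h2 → h2 ≤ B →
      Disjoint (Ioo l1 h1) (Ioo l2 h2) → l1 ≤ l2 →
      (G h1 - G l1) + (G h2 - G l2) ≤ G B - G A := by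
    intro l1 h1 l2 h2 hl1 hlt1 hh1 hl2 hlt2 hh2 hd hle
    have h12 := le_of_disjoint_Ioo hlt1 hlt2 hle hd
    have e1 : G A ≤ G l1 := hG ⟨le_rfl, by linarith⟩ ⟨hl1, by linarith⟩ hl1
    have e2 : G h1 ≤ G l2 := hG ⟨by linarith, hh1⟩ ⟨hl2, by linarith⟩ h12
    have e3 : G h2 ≤ G B := hG ⟨by linarith, hh2⟩ ⟨by linarith, le_rfl⟩ hh2
    linarith
  rcases le_total l1 l2 with h | h
  · exact key hl1 hlt1 hh1 hl2 hlt2 hh2 hd h
  · have := key hl2 hlt2 hh2 hl1 hlt1 hh1 hd.symm h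
    linarith

theorem small_mono (hU : U0 ⊆ Ioo (-a) a) (hG : StrictMonoOn G (Icc (-a) a)) (R : Refine P Q)
    {δ : ℝ} (hδ : P.Small G δ) : Q.Small G δ := by
  intro β i hi
  obtain ⟨j, hj, i', hi', rfl⟩ := R.exists_split β hi
  rw [(R.sh_eq β hj hi'.le).2]
  have hs := R.piece_sub β hj
  have hm := Tow.level_mem hU hi'
  have hd := hδ _ i' hi'
  have hlt := Q.lt β
  have e1 : G (P.lo (R.it β)[j] + P.sh (R.it β)[j] i') ≤
      G (Q.lo β + (P.sh (R.it β)[j] i' - P.disp (R.it β) j)) :=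
    hG.monotoneOn ⟨hm.1, by linarith [hm.2]⟩ ⟨by linarith [hm.1], by linarith [hm.2]⟩
      (by linarith [hs.1])
  have e2 : G (Q.hi β + (P.sh (R.it β)[j] i' - P.disp (R.it β) j)) ≤
      G (P.hi (R.it β)[j] + P.sh (R.it β)[j] i') :=
    hG.monotoneOn ⟨by linarith [hm.1], by linarith [hm.2]⟩ ⟨by linarith [hm.1], hm.2⟩
      (by linarith [hs.2])
  linarith

theorem exists_other {w : List (Fin d)} {α : Fin d} (h : 2 ≤ w.count α) (j : Fin w.length) :
    ∃ j' : Fin w.length, j' ≠ j ∧ w.get j' = α := by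
  classical
  rw [← Refine.card_get_eq] at h
  obtain ⟨j', hj', hne⟩ := Finset.exists_mem_ne
    (s := Finset.univ.filter fun j : Fin w.length => w.get j = α) (by omega) j
  exact ⟨j', hne, by simpa using hj'⟩

theorem small_good (hU : U0 ⊆ Ioo (-a) a) (hG : StrictMonoOn G (Icc (-a) a))
    {C0 V : ℝ} (lm : LM G g C0 P) (hV0 : 0 ≤ V)
    (hV : ∀ α, ∀ x ∈ Icc (P.lo α) (P.hi α), |P.F g α x| ≤ V) (R : Refine P Q) {B : ℕ}
    (hc : ∀ β α, 2 ≤ (R.it β).count α) (hB : ∀ β, (R.it β).length ≤ B)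
    {δ : ℝ} (hδ : P.Small G δ) :
    Q.Small G ((1 + Real.exp (-(2 * C0 + 2 * (B * V))))⁻¹ * δ) := by
  intro β i hi
  obtain ⟨j, hj, i', hi', rfl⟩ := R.exists_split β hi
  obtain ⟨j', hne, hj'⟩ := exists_other (hc β (R.it β)[j]) ⟨j, hj⟩
  set α := (R.it β)[j] with hα
  rw [(R.sh_eq β hj hi'.le).2]
  have hlen := lm.length α i' hi'.le
  obtain ⟨x0, hx0⟩ : ∃ x0, x0 ∈ Icc (P.lo α) (P.hi α) := ⟨P.lo α, le_rfl, (P.lt α).le⟩
  set S0 := P.S g α i' x0 with hS0
  have hb : ∀ z ∈ Icc (P.lo α) (P.hi α), S0 - C0 ≤ P.S g α i' z ∧ P.S g α i' z ≤ S0 + C0 := by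
    intro z hz
    have := lm.dist α i' hi'.le z hz x0 hx0
    rw [abs_le] at this
    constructor <;> linarith [this.1, this.2]
  have hp : R.ltr ⟨β, ⟨j, hj⟩⟩ = α := rfl
  have hp' : R.ltr ⟨β, j'⟩ = α := hj'
  have s1 := plo_ge R ⟨β, ⟨j, hj⟩⟩
  have s2 := phi_le R ⟨β, ⟨j, hj⟩⟩
  have s1' := plo_ge R ⟨β, j'⟩
  have s2' := phi_le R ⟨β, j'⟩
  rw [hp] at s1 s2
  rw [hp'] at s1' s2'
  have b1 := (plen_bd' hG lm hV0 hV R ⟨β, ⟨j, hj⟩⟩ (hB β)).2
  have b2 := (plen_bd' hG lm hV0 hV R ⟨β, j'⟩ (hB β)).1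
  have l1 := (hlen _ _ s1 (plo_le_phi R _) s2 _ _ hb).2
  have l2 := (hlen _ _ s1' (plo_le_phi R _) s2' _ _ hb).1
  have hm := Tow.level_mem hU hi'
  have lt1 : plo R ⟨β, ⟨j, hj⟩⟩ < phi R ⟨β, ⟨j, hj⟩⟩ := by
    unfold plo phi
    linarith [Q.lt β]
  have lt2 : plo R ⟨β, j'⟩ < phi R ⟨β, j'⟩ := by
    unfold plo phi
    linarith [Q.lt β]
  have hdisj := R.piece_disj (p := ⟨β, ⟨j, hj⟩⟩) (p' := ⟨β, j'⟩) (by
    intro he
    apply hne
    have := eq_of_heq (Sigma.mk.inj he).2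
    exact this.symm)
  have hdisj' : Disjoint (Ioo (plo R ⟨β, ⟨j, hj⟩⟩ + P.sh α i') (phi R ⟨β, ⟨j, hj⟩⟩ + P.sh α i'))
      (Ioo (plo R ⟨β, j'⟩ + P.sh α i') (phi R ⟨β, j'⟩ + P.sh α i')) := by
    rw [Set.disjoint_left] at hdisj ⊢
    intro x hx hx'
    exact hdisj (a := x - P.sh α i') ⟨by have := hx.1; unfold plo at this; linarith,
      by have := hx.2; unfold phi at this; linarith⟩
      ⟨by have := hx'.1; unfold plo at this; linarith,
      by have := hx'.2; unfold phi at this; linarith⟩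
  have hsum := two_disj (G := G) (A := P.lo α + P.sh α i') (B := P.hi α + P.sh α i')
    (hG.monotoneOn.mono (Icc_subset_Icc hm.1 hm.2))
    (l1 := plo R ⟨β, ⟨j, hj⟩⟩ + P.sh α i') (h1 := phi R ⟨β, ⟨j, hj⟩⟩ + P.sh α i')
    (l2 := plo R ⟨β, j'⟩ + P.sh α i') (h2 := phi R ⟨β, j'⟩ + P.sh α i')
    (by linarith) (by linarith) (by linarith) (by linarith) (by linarith) (by linarith) hdisj'
  have hδ' := hδ α i' hi'
  set Y := G (phi R ⟨β, ⟨j, hj⟩⟩ + P.sh α i') - G (plo R ⟨β, ⟨j, hj⟩⟩ + P.sh α i') with hY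
  set Y' := G (phi R ⟨β, j'⟩ + P.sh α i') - G (plo R ⟨β, j'⟩ + P.sh α i') with hY'
  have hgoal : G (Q.hi β + (P.sh α i' - P.disp (R.it β) j)) -
      G (Q.lo β + (P.sh α i' - P.disp (R.it β) j)) = Y := by
    rw [hY]
    unfold plo phi
    simp only
    congr 2 <;> ring
  rw [hgoal]
  set ℓ := len Q G β with hℓ
  have hℓ0 : 0 < ℓ := len_pos hG Q β
  set κ := Real.exp (-(2 * C0 + 2 * (B * V))) with hκ
  have hκ0 : 0 < κ := Real.exp_pos _
  -- Y ≤ exp (S0 + C0) * exp (B V) * ℓ,  Y' ≥ exp (S0 - C0) * exp (- B V) * ℓ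
  have u1 : Y ≤ Real.exp (S0 + C0) * (Real.exp (B * V) * ℓ) :=
    l1.trans (mul_le_mul_of_nonneg_left b1 (Real.exp_pos _).le)
  have u2 : Real.exp (S0 - C0) * (Real.exp (-(B * V)) * ℓ) ≤ Y' :=
    (mul_le_mul_of_nonneg_left b2 (Real.exp_pos _).le).trans l2
  have u3 : κ * Y ≤ Y' := by
    refine le_trans (mul_le_mul_of_nonneg_left u1 hκ0.le) (le_trans (le_of_eq ?_) u2)
    have e : κ * Real.exp (S0 + C0) * Real.exp (B * V) =
        Real.exp (S0 - C0) * Real.exp (-(B * V)) := by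
      rw [hκ, ← Real.exp_add, ← Real.exp_add, ← Real.exp_add]
      congr 1
      ring
    calc κ * (Real.exp (S0 + C0) * (Real.exp (B * V) * ℓ))
        = κ * Real.exp (S0 + C0) * Real.exp (B * V) * ℓ := by ring
      _ = _ := by rw [e]; ring
  rw [inv_mul_eq_div, le_div_iff₀ (by linarith)]
  nlinarith

end One

section Step

variable {P Q : Tow d T0 U0 a} {G g : ℝ → ℝ}

theorem sum_abs_pN (hG : StrictMonoOn G (Icc (-a) a)) {C0 : ℝ} (hC0 : 1 ≤ C0)
    (lm : LM G g C0 P) (R : Refine P Q) {δ : ℝ} (hδ0 : 0 ≤ δ) (hδ : P.Small G δ) (α : Fin d) :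
    ∑ p ∈ R.pieces α, |pN R g p| ≤ |N P g α| + C0 * (C0 + 1) * δ := by
  have hmem : ∀ p ∈ R.pieces α, P.lo α ≤ plo R p ∧ plo R p ≤ phi R p ∧ phi R p ≤ P.hi α := by
    intro p hp
    have hp' := (R.mem_pieces α p).1 hp
    have h1 := plo_ge R p
    have h2 := phi_le R p
    rw [hp'] at h1 h2
    exact ⟨h1, plo_le_phi R p, h2⟩
  have hpN : ∀ p ∈ R.pieces α, pN R g p = P.F g α (phi R p) - P.F g α (plo R p) := by
    intro p hp
    unfold pN
    rw [(R.mem_pieces α p).1 hp]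
  have hlen := len_pos hG P α
  have hnn : 0 ≤ C0 * (C0 + 1) * δ := by positivity
  rcases le_or_gt |N P g α| (C0 * δ) with hsm | hbig
  · have h1 : ∀ p ∈ R.pieces α, |pN R g p| * len P G α ≤ C0 * (C0 + 1) * δ * plen R G p := by
      intro p hp
      obtain ⟨m1, m2, m3⟩ := hmem p hp
      have := lm.c1 α δ hδ0 hδ (plo R p) ⟨m1, m2.trans m3⟩ (phi R p) ⟨m1.trans m2, m3⟩
      rw [hpN p hp]
      have hpl := plen_nonneg hG R p
      have e : |G (phi R p) - G (plo R p)| = plen R G p := abs_of_nonneg hpl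
      rw [e] at this
      refine this.trans (mul_le_mul_of_nonneg_right ?_ hpl)
      nlinarith
    have h2 : (∑ p ∈ R.pieces α, |pN R g p|) * len P G α ≤
        C0 * (C0 + 1) * δ * len P G α := by
      calc (∑ p ∈ R.pieces α, |pN R g p|) * len P G α
          = ∑ p ∈ R.pieces α, |pN R g p| * len P G α := Finset.sum_mul _ _ _
        _ ≤ ∑ p ∈ R.pieces α, C0 * (C0 + 1) * δ * plen R G p := Finset.sum_le_sum h1
        _ = C0 * (C0 + 1) * δ * len P G α := by rw [← Finset.mul_sum, sum_plen]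
    have h3 := le_of_mul_le_mul_right h2 hlen
    linarith [abs_nonneg (N P g α)]
  · obtain ⟨s, hs, hsN⟩ : ∃ s : ℝ, (s = 1 ∨ s = -1) ∧ s * N P g α = |N P g α| := by
      rcases le_total 0 (N P g α) with h | h
      · exact ⟨1, Or.inl rfl, by rw [abs_of_nonneg h, one_mul]⟩
      · exact ⟨-1, Or.inr rfl, by rw [abs_of_nonpos h]; ring⟩
    have hpos : 0 < |N P g α| := lt_of_le_of_lt (by positivity) hbig
    have h1 : ∀ p ∈ R.pieces α, |pN R g p| = s * pN R g p := by
      intro p hp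
      obtain ⟨m1, m2, m3⟩ := hmem p hp
      have := lm.c2 α δ hδ0 hδ s hs (by rw [hsN]; exact hpos) (by rw [hsN]; exact hbig.le)
        (plo R p) (phi R p) m1 m2 m3
      rw [← hpN p hp, hsN] at this
      have h0 : 0 ≤ C0 * len P G α * (s * pN R g p) :=
        le_trans (mul_nonneg hpos.le (plen_nonneg hG R p)) this
      have h0' : 0 ≤ s * pN R g p := by
        have hc : 0 < C0 * len P G α := by positivity
        exact nonneg_of_mul_nonneg_right h0 hc
      rcases hs with rfl | rfl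
      · rw [one_mul] at h0' ⊢
        exact abs_of_nonneg h0'
      · have : pN R g p ≤ 0 := by linarith
        rw [abs_of_nonpos this]; ring
    rw [Finset.sum_congr rfl h1, ← Finset.mul_sum, sum_pN, hsN]
    linarith

/-- total variation of the increments -/
noncomputable def MM (P : Tow d T0 U0 a) (g : ℝ → ℝ) : ℝ := ∑ α, |N P g α|

theorem total_pN (hG : StrictMonoOn G (Icc (-a) a)) {C0 : ℝ} (hC0 : 1 ≤ C0)
    (lm : LM G g C0 P) (R : Refine P Q) {δ : ℝ} (hδ0 : 0 ≤ δ) (hδ : P.Small G δ) :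
    ∑ β, ∑ j, |pN R g ⟨β, j⟩| ≤ MM P g + d * (C0 * (C0 + 1)) * δ := by
  rw [← sum_fiber R fun p => |pN R g p|]
  calc ∑ α, ∑ p ∈ R.pieces α, |pN R g p| ≤ ∑ α, (|N P g α| + C0 * (C0 + 1) * δ) :=
        Finset.sum_le_sum fun α _ => sum_abs_pN hG hC0 lm R hδ0 hδ α
    _ = _ := by
        rw [Finset.sum_add_distrib, Finset.sum_const, Finset.card_univ, Fintype.card_fin,
          nsmul_eq_mul, MM]
        ring

theorem MM_mono (hG : StrictMonoOn G (Icc (-a) a)) {C0 : ℝ} (hC0 : 1 ≤ C0)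
    (lm : LM G g C0 P) (R : Refine P Q) {δ : ℝ} (hδ0 : 0 ≤ δ) (hδ : P.Small G δ) :
    MM Q g ≤ MM P g + d * (C0 * (C0 + 1)) * δ := by
  refine le_trans ?_ (total_pN hG hC0 lm R hδ0 hδ)
  refine Finset.sum_le_sum fun β _ => ?_
  rw [N_eq R β]
  exact Finset.abs_sum_le_sum_abs _ _

theorem MM_nonneg (P : Tow d T0 U0 a) : 0 ≤ MM P g :=
  Finset.sum_nonneg fun _ _ => abs_nonneg _

theorem MM_good (hd : 0 < d) (hU : U0 ⊆ Ioo (-a) a) (ha : 0 ≤ a) (hg : g a = g (-a))
    (hG : StrictMonoOn G (Icc (-a) a)) {C0 V : ℝ} (hC0 : 1 ≤ C0) (lm : LM G g C0 P) (hV0 : 0 ≤ V)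
    (hV : ∀ α, ∀ x ∈ Icc (P.lo α) (P.hi α), |P.F g α x| ≤ V) (R : Refine P Q) {B : ℕ}
    (hc : ∀ β α, 2 ≤ (R.it β).count α) (hB : ∀ β, (R.it β).length ≤ B)
    {δ : ℝ} (hδ0 : 0 ≤ δ) (hδ : P.Small G δ) :
    MM Q g ≤ (1 - (Real.exp (2 * (B * V)) * d ^ 2 * B * C0)⁻¹) * MM P g +
      d * (2 * C0 + C0 * (C0 + 1)) * δ := by
  have hd1 : (1 : ℝ) ≤ d := by exact_mod_cast hd
  have hB1 : (1 : ℝ) ≤ B := by
    have h1 := hc ⟨0, hd⟩ ⟨0, hd⟩
    have h2 := hB ⟨0, hd⟩
    have h3 := List.count_le_length (a := (⟨0, hd⟩ : Fin d)) (l := R.it ⟨0, hd⟩)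
    have : 1 ≤ B := by omega
    exact_mod_cast this
  set E := Real.exp (B * V) with hE
  have hE1 : 1 ≤ E := Real.one_le_exp (by positivity)
  have hEE : Real.exp (2 * (B * V)) = E * E := by
    rw [hE, ← Real.exp_add]; congr 1; ring
  rw [hEE]
  set q := E * E * (d : ℝ) ^ 2 * B * C0 with hq
  have hq1 : 1 ≤ q := by
    have h1 : 1 ≤ E * E := by nlinarith
    have h2 : (1 : ℝ) ≤ (d : ℝ) ^ 2 := by nlinarith
    have h3 : 1 ≤ E * E * (d : ℝ) ^ 2 := by nlinarith
    have h4 : 1 ≤ E * E * (d : ℝ) ^ 2 * B := by nlinarith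
    rw [hq]
    nlinarith
  have hq0 : 0 < q := by linarith
  have hqi : q⁻¹ ≤ 1 := inv_le_one_of_one_le₀ hq1
  have hqp : 0 < q⁻¹ := inv_pos.2 hq0
  have hM0 : 0 ≤ MM P g := MM_nonneg P
  have hmono := MM_mono hG hC0 lm R hδ0 hδ
  rcases le_or_gt (MM P g) (2 * d * C0 * δ) with hsm | hbig
  · have h1 : q⁻¹ * MM P g ≤ 2 * d * C0 * δ :=
      le_trans (mul_le_of_le_one_left hM0 hqi) hsm
    calc MM Q g ≤ MM P g + d * (C0 * (C0 + 1)) * δ := hmono
      _ ≤ _ := by nlinarith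
  · -- the longest interval of the fine tower
    have hne : (Finset.univ : Finset (Fin d)).Nonempty := ⟨⟨0, hd⟩, Finset.mem_univ _⟩
    obtain ⟨γ, _, hγ⟩ := Finset.exists_max_image Finset.univ (fun β => len Q G β) hne
    have hγ' : ∀ β, len Q G β ≤ len Q G γ := fun β => hγ β (Finset.mem_univ _)
    have hlenP : ∀ α, len P G α ≤ d * B * E * len Q G γ := by
      intro α
      rw [← sum_plen R α]
      have h1 : ∑ p ∈ R.pieces α, plen R G p ≤ ∑ p, plen R G p :=
        Finset.sum_le_sum_of_subset_of_nonneg (Finset.subset_univ _)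
          (fun p _ _ => plen_nonneg hG R p)
      refine h1.trans ?_
      rw [Fintype.sum_sigma]
      have h2 : ∀ β : Fin d, ∑ j : Fin (R.it β).length, plen R G ⟨β, j⟩ ≤
          B * (E * len Q G γ) := by
        intro β
        have h3 : ∀ j : Fin (R.it β).length, plen R G ⟨β, j⟩ ≤ E * len Q G γ := by
          intro j
          refine (plen_bd' hG lm hV0 hV R ⟨β, j⟩ (hB β)).2.trans ?_
          exact mul_le_mul_of_nonneg_left (hγ' β) (by linarith)
        refine (Finset.sum_le_sum fun j _ => h3 j).trans ?_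
        rw [Finset.sum_const, Finset.card_univ, Fintype.card_fin, nsmul_eq_mul]
        have h4 : ((R.it β).length : ℝ) ≤ B := by exact_mod_cast hB β
        have h5 : 0 ≤ E * len Q G γ := mul_nonneg (by linarith) (len_pos hG Q γ).le
        exact mul_le_mul_of_nonneg_right h4 h5
      refine (Finset.sum_le_sum fun β _ => h2 β).trans ?_
      rw [Finset.sum_const, Finset.card_univ, Fintype.card_fin, nsmul_eq_mul]
      apply le_of_eq
      ring
    -- visits with both signs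
    have hvisit : ∀ s : ℝ, s = 1 ∨ s = -1 → ∃ j : Fin (R.it γ).length,
        (2 * q)⁻¹ * MM P g ≤ s * pN R g ⟨γ, j⟩ := by
      intro s hs
      have hMpos : 0 < MM P g := lt_of_le_of_lt (by positivity) hbig
      obtain ⟨α, hα⟩ : ∃ α, MM P g / d ≤ |N P g α| + s * N P g α := by
        have hsum : ∑ α, (|N P g α| + s * N P g α) = MM P g := by
          rw [Finset.sum_add_distrib, ← Finset.mul_sum, sum_N P hU ha hg, mul_zero, add_zero, MM]
        by_contra hcon
        push Not at hcon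
        have : ∑ α, (|N P g α| + s * N P g α) < ∑ _α : Fin d, MM P g / d :=
          Finset.sum_lt_sum_of_nonempty hne fun α _ => hcon α
        rw [hsum, Finset.sum_const, Finset.card_univ, Fintype.card_fin, nsmul_eq_mul] at this
        have h0 : (d : ℝ) * (MM P g / d) = MM P g := by field_simp
        rw [h0] at this
        exact lt_irrefl _ this
      have hdpos : 0 < MM P g / d := by positivity
      have hsN : MM P g / (2 * d) ≤ s * N P g α := by
        have h1 : |N P g α| = |s * N P g α| := by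
          rcases hs with rfl | rfl
          · rw [one_mul]
          · rw [neg_one_mul, abs_neg]
        rw [h1] at hα
        have h2 : 0 < s * N P g α := by
          by_contra hcon
          push Not at hcon
          rw [abs_of_nonpos hcon] at hα
          linarith
        rw [abs_of_pos h2] at hα
        have h3 : MM P g / (2 * d) = (MM P g / d) / 2 := by field_simp
        rw [h3]
        linarith
      have hsNpos : 0 < s * N P g α := lt_of_lt_of_le (by positivity) hsN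
      have hbig' : C0 * δ ≤ s * N P g α := by
        refine le_trans ?_ hsN
        rw [le_div_iff₀ (by positivity)]
        linarith
      have hcount := hc γ α
      have hmem : α ∈ R.it γ := by
        rw [← List.count_pos_iff]
        omega
      obtain ⟨j, hj⟩ := List.get_of_mem hmem
      refine ⟨j, ?_⟩
      have hltr : R.ltr ⟨γ, j⟩ = α := hj
      have m1 := plo_ge R ⟨γ, j⟩
      have m3 := phi_le R ⟨γ, j⟩
      rw [hltr] at m1 m3
      have h2 := lm.c2 α δ hδ0 hδ s hs hsNpos hbig' _ _ m1 (plo_le_phi R _) m3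
      have hpN : pN R g ⟨γ, j⟩ = P.F g α (phi R ⟨γ, j⟩) - P.F g α (plo R ⟨γ, j⟩) := by
        unfold pN
        rw [hltr]
      rw [← hpN] at h2
      have h3 := (plen_bd' hG lm hV0 hV R ⟨γ, j⟩ (hB γ)).1
      have hEinv : Real.exp (-(B * V)) = E⁻¹ := by rw [hE, Real.exp_neg]
      rw [hEinv] at h3
      have hlq := len_pos hG Q γ
      have hlp := len_pos hG P α
      -- len P α ≤ d B E * E * plen
      have h4 : len Q G γ ≤ E * plen R G ⟨γ, j⟩ := by
        have h5 : E * (E⁻¹ * len Q G γ) ≤ E * plen R G ⟨γ, j⟩ :=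
          mul_le_mul_of_nonneg_left h3 (by linarith)
        rwa [← mul_assoc, mul_inv_cancel₀ (by positivity), one_mul] at h5
      have h5 : len P G α ≤ d * B * E * (E * plen R G ⟨γ, j⟩) :=
        (hlenP α).trans (mul_le_mul_of_nonneg_left h4 (by positivity))
      have h6 : MM P g / (2 * d) * plen R G ⟨γ, j⟩ ≤ C0 * len P G α * (s * pN R g ⟨γ, j⟩) :=
        le_trans (mul_le_mul_of_nonneg_right hsN (plen_nonneg hG R _)) h2
      have hplpos : 0 < plen R G ⟨γ, j⟩ := by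
        have : 0 < d * B * E * (E * plen R G ⟨γ, j⟩) := lt_of_lt_of_le hlp h5
        by_contra hcon
        have h0 : plen R G ⟨γ, j⟩ = 0 := le_antisymm (not_lt.1 hcon) (plen_nonneg hG R _)
        rw [h0] at this
        simp at this
      have hsp : 0 ≤ s * pN R g ⟨γ, j⟩ := by
        have h7 : 0 < C0 * len P G α * (s * pN R g ⟨γ, j⟩) :=
          lt_of_lt_of_le (by positivity) h6
        exact ((mul_pos_iff_of_pos_left (by positivity)).1 h7).le
      have h8 : MM P g / (2 * d) * plen R G ⟨γ, j⟩ ≤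
          (C0 * (d * B * E * E) * (s * pN R g ⟨γ, j⟩)) * plen R G ⟨γ, j⟩ := by
        refine h6.trans ?_
        calc C0 * len P G α * (s * pN R g ⟨γ, j⟩)
            ≤ C0 * (d * B * E * (E * plen R G ⟨γ, j⟩)) * (s * pN R g ⟨γ, j⟩) := by
              gcongr
          _ = _ := by ring
      have h9 := le_of_mul_le_mul_right h8 hplpos
      rw [inv_mul_le_iff₀ (by positivity)]
      rw [div_le_iff₀ (by positivity)] at h9
      refine h9.trans (le_of_eq ?_)
      rw [hq]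
      ring
    have hγN : |N Q g γ| ≤ ∑ j, |pN R g ⟨γ, j⟩| - q⁻¹ * MM P g := by
      have hside : ∀ s : ℝ, s = 1 ∨ s = -1 →
          s * N Q g γ ≤ ∑ j, |pN R g ⟨γ, j⟩| - q⁻¹ * MM P g := by
        intro s hs
        obtain ⟨j, hj⟩ := hvisit (-s) (by rcases hs with rfl | rfl <;> simp)
        have hle : ∀ i : Fin (R.it γ).length, s * pN R g ⟨γ, i⟩ ≤ |pN R g ⟨γ, i⟩| := by
          intro i
          rcases hs with rfl | rfl
          · rw [one_mul]; exact le_abs_self _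
          · rw [neg_one_mul]; exact neg_le_abs _
        have hj' : s * pN R g ⟨γ, j⟩ ≤ |pN R g ⟨γ, j⟩| - q⁻¹ * MM P g := by
          have h1 : -s * pN R g ⟨γ, j⟩ ≤ |pN R g ⟨γ, j⟩| := by
            rcases hs with rfl | rfl
            · rw [neg_one_mul]; exact neg_le_abs _
            · rw [neg_neg, one_mul]; exact le_abs_self _
          have h2 : (2 * q)⁻¹ * MM P g = q⁻¹ * MM P g / 2 := by
            rw [mul_inv]; ring
          rw [h2] at hj
          linarith
        rw [N_eq R γ, Finset.mul_sum, ← Finset.add_sum_erase _ _ (Finset.mem_univ j),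
          ← Finset.add_sum_erase (Finset.univ) (fun j => |pN R g ⟨γ, j⟩|) (Finset.mem_univ j)]
        have := Finset.sum_le_sum (s := Finset.univ.erase j) fun i _ => hle i
        linarith
      rw [abs_le]
      have h1 := hside 1 (Or.inl rfl)
      have h2 := hside (-1) (Or.inr rfl)
      constructor <;> linarith
    have htot := total_pN hG hC0 lm R hδ0 hδ
    have hQ : MM Q g ≤ ∑ β, ∑ j, |pN R g ⟨β, j⟩| - q⁻¹ * MM P g := by
      unfold MM
      rw [← Finset.add_sum_erase Finset.univ (fun α => |N Q g α|) (Finset.mem_univ γ),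
        ← Finset.add_sum_erase Finset.univ (fun β => ∑ j, |pN R g ⟨β, j⟩|) (Finset.mem_univ γ)]
      have h1 : ∑ β ∈ Finset.univ.erase γ, |N Q g β| ≤
          ∑ β ∈ Finset.univ.erase γ, ∑ j, |pN R g ⟨β, j⟩| := by
        refine Finset.sum_le_sum fun β _ => ?_
        rw [N_eq R β]
        exact Finset.abs_sum_le_sum_abs _ _
      have h2 := hγN
      unfold MM at h2
      linarith
    have hx : 0 ≤ d * (2 * C0) * δ := by positivity
    calc MM Q g ≤ (MM P g + d * (C0 * (C0 + 1)) * δ) - q⁻¹ * MM P g := by linarith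
      _ ≤ _ := by nlinarith

end Step

/-- a sequence which contracts every second step, up to an exponentially small error -/
theorem seq_decay (M : ℕ → ℝ) (c D θ : ℝ) (hc0 : 0 < c) (hc1 : c ≤ 1) (hD : 0 ≤ D)
    (hθ0 : 0 < θ) (hθ1 : θ < 1) (hM : ∀ n, 0 ≤ M n)
    (h1 : ∀ n, M (n + 1) ≤ M n + D * θ ^ n)
    (h2 : ∀ n, Even n → M (n + 1) ≤ (1 - c) * M n + D * θ ^ n) :
    ∃ K q : ℝ, 0 < K ∧ 0 < q ∧ q < 1 ∧ ∀ n, M n ≤ K * q ^ n := by
  obtain ⟨q, hq1, hq2⟩ := exists_between (show max (1 - c) θ < 1 from max_lt (by linarith) hθ1)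
  have hqc : 1 - c < q := lt_of_le_of_lt (le_max_left _ _) hq1
  have hqθ : θ < q := lt_of_le_of_lt (le_max_right _ _) hq1
  have hq0 : 0 < q := lt_trans hθ0 hqθ
  set r := Real.sqrt q with hr
  have hr0 : 0 < r := Real.sqrt_pos.2 hq0
  have hrr : r * r = q := Real.mul_self_sqrt hq0.le
  have hr1 : r < 1 := by
    rw [hr, Real.sqrt_lt' one_pos]
    simpa using hq2
  set A := M 0 + 2 * D / (q - (1 - c)) with hA
  have hqc' : 0 < q - (1 - c) := by linarith
  have hA0 : 0 ≤ A := by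
    have := hM 0
    positivity
  have hAD : 2 * D ≤ A * (q - (1 - c)) := by
    rw [hA, add_mul, div_mul_cancel₀ _ hqc'.ne']
    have := mul_nonneg (hM 0) hqc'.le
    linarith
  have hpow : ∀ k, θ ^ (2 * k) ≤ q ^ k := by
    intro k
    rw [pow_mul]
    apply pow_le_pow_left₀ (by positivity)
    nlinarith
  have hev : ∀ k, M (2 * k) ≤ A * q ^ k := by
    intro k
    induction k with
    | zero =>
      simp only [mul_zero, pow_zero, mul_one]
      rw [hA]
      have : 0 ≤ 2 * D / (q - (1 - c)) := by positivity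
      linarith
    | succ k ih =>
      have e1 := h2 (2 * k) (even_two_mul k)
      have e2 := h1 (2 * k + 1)
      have e3 : θ ^ (2 * k + 1) ≤ q ^ k := by
        rw [pow_succ]
        have := hpow k
        have h0 : 0 ≤ θ ^ (2 * k) := by positivity
        nlinarith
      have e4 : D * θ ^ (2 * k + 1) ≤ D * q ^ k := mul_le_mul_of_nonneg_left e3 hD
      have e5 : D * θ ^ (2 * k) ≤ D * q ^ k := mul_le_mul_of_nonneg_left (hpow k) hD
      have e6 : (1 - c) * M (2 * k) ≤ (1 - c) * (A * q ^ k) :=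
        mul_le_mul_of_nonneg_left ih (by linarith)
      have e7 : 2 * D * q ^ k ≤ A * (q - (1 - c)) * q ^ k :=
        mul_le_mul_of_nonneg_right hAD (by positivity)
      calc M (2 * (k + 1)) = M (2 * k + 1 + 1) := by ring_nf
        _ ≤ (1 - c) * (A * q ^ k) + 2 * D * q ^ k := by linarith
        _ ≤ (1 - c) * (A * q ^ k) + A * (q - (1 - c)) * q ^ k := by linarith
        _ = A * q ^ (k + 1) := by ring
  refine ⟨(A + D + 1) / r, r, by positivity, hr0, hr1, ?_⟩
  intro n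
  have hK : A + D ≤ (A + D + 1) / r * r := by
    rw [div_mul_cancel₀ _ hr0.ne']
    linarith
  have hK' : A ≤ (A + D + 1) / r := by
    rw [le_div_iff₀ hr0]
    nlinarith
  rcases Nat.even_or_odd' n with ⟨k, rfl | rfl⟩
  · refine (hev k).trans ?_
    rw [pow_mul, pow_two, hrr]
    exact mul_le_mul_of_nonneg_right hK' (by positivity)
  · have e1 := h1 (2 * k)
    have e5 : D * θ ^ (2 * k) ≤ D * q ^ k := mul_le_mul_of_nonneg_left (hpow k) hD
    have e6 := hev k
    calc M (2 * k + 1) ≤ (A + D) * q ^ k := by linarith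
      _ ≤ (A + D + 1) / r * r * q ^ k := mul_le_mul_of_nonneg_right hK (by positivity)
      _ = (A + D + 1) / r * r ^ (2 * k + 1) := by
        rw [pow_succ, pow_mul, pow_two, hrr]; ring

end Decay

open Decay in
theorem decay {T0 : ℝ → ℝ} {U0 : Set ℝ} {a : ℝ} {G T f f1 f2 : ℝ → ℝ} {C : ℝ}
    (TS : TSide T0 U0 a G T f f1 f2 C) {d : ℕ} (hd : 0 < d) (Q : TowerSeq d T0 U0 a)
    (Cm τ : ℝ) (hCm : 0 ≤ Cm) (hτ : 0 < τ)
    (hmid : ∀ n α, |(Q.P n).F (fun z => f (G z)) α (((Q.P n).lo α + (Q.P n).hi α) / 2)| ≤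
      Cm * (G (Q.P n).eps - G (-(Q.P n).eps)) ^ τ) :
    ∃ K θ : ℝ, 0 < K ∧ 0 < θ ∧ θ < 1 ∧ ∀ n, (Q.P n).Small G (K * θ ^ n) ∧
      ∀ α, ∀ x ∈ Icc ((Q.P n).lo α) ((Q.P n).hi α),
        |(Q.P n).F (fun z => f (G z)) α x| ≤ K * θ ^ n := by
  obtain ⟨C0, hC0, hloc⟩ := local_main TS
  set g : ℝ → ℝ := fun z => f (G z) with hgdef
  have ha : 0 < a := TS.ha
  have hG := TS.gmono
  have hU := TS.sub
  have hgend : g a = g (-a) := TS.fend
  have lm : ∀ n, LM G g C0 (Q.P n) := by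
    intro n
    refine ⟨fun α => (hloc (Q.P n) α).1, fun α => (hloc (Q.P n) α).2.1, ?_, ?_⟩
    · exact fun α δ h0 hs => ((hloc (Q.P n) α).2.2 δ h0 hs).1
    · exact fun α δ h0 hs => ((hloc (Q.P n) α).2.2 δ h0 hs).2
  set L := G a - G (-a) with hL
  have hL0 : 0 < L := by
    have := hG (left_mem_Icc.2 (by linarith)) (right_mem_Icc.2 (by linarith))
      (show -a < a by linarith)
    rw [hL]; linarith
  have heps : ∀ n, 0 ≤ G (Q.P n).eps - G (-(Q.P n).eps) ∧
      G (Q.P n).eps - G (-(Q.P n).eps) ≤ L := by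
    intro n
    have h1 := (Q.P n).eps_nonneg
    have h2 := (Q.P n).eps_le
    have m1 : -(Q.P n).eps ∈ Icc (-a) a := ⟨by linarith, by linarith⟩
    have m2 : (Q.P n).eps ∈ Icc (-a) a := ⟨by linarith, by linarith⟩
    have e1 := hG.monotoneOn m1 m2 (by linarith)
    have e2 := hG.monotoneOn m2 (right_mem_Icc.2 (by linarith)) h2
    have e3 := hG.monotoneOn (left_mem_Icc.2 (by linarith)) m1 (by linarith)
    rw [hL]
    constructor <;> linarith
  set V := Cm * L ^ τ + C0 with hVdef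
  have hV0 : 0 ≤ V := by positivity
  have hmidmem : ∀ n α, ((Q.P n).lo α + (Q.P n).hi α) / 2 ∈
      Icc ((Q.P n).lo α) ((Q.P n).hi α) := by
    intro n α
    have := (Q.P n).lt α
    constructor <;> linarith
  have hV : ∀ n, ∀ α, ∀ x ∈ Icc ((Q.P n).lo α) ((Q.P n).hi α), |(Q.P n).F g α x| ≤ V := by
    intro n α x hx
    have h1 := hmid n α
    have h2 := (lm n).dist α _ le_rfl x hx _ (hmidmem n α)
    have h3 : Cm * (G (Q.P n).eps - G (-(Q.P n).eps)) ^ τ ≤ Cm * L ^ τ :=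
      mul_le_mul_of_nonneg_left (Real.rpow_le_rpow (heps n).1 (heps n).2 hτ.le) hCm
    have h4 : (Q.P n).F g α x = (Q.P n).F g α (((Q.P n).lo α + (Q.P n).hi α) / 2) +
        ((Q.P n).S g α ((Q.P n).r α) x -
          (Q.P n).S g α ((Q.P n).r α) (((Q.P n).lo α + (Q.P n).hi α) / 2)) := by
      unfold Tow.F; ring
    rw [h4]
    refine (abs_add_le _ _).trans ?_
    rw [hVdef]
    linarith
  -- sizes of the levels
  set κ := (1 + Real.exp (-(2 * C0 + 2 * (Q.B * V))))⁻¹ with hκ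
  have hκ0 : 0 < κ := by positivity
  have hκ1 : κ < 1 := by
    rw [hκ]
    apply inv_lt_one_of_one_lt₀
    linarith [Real.exp_pos (-(2 * C0 + 2 * (Q.B * V)))]
  set θ1 := Real.sqrt κ with hθ1
  have hθ10 : 0 < θ1 := Real.sqrt_pos.2 hκ0
  have hθ11 : θ1 < 1 := by
    rw [hθ1, Real.sqrt_lt' one_pos]
    simpa using hκ1
  have hθθ : θ1 * θ1 = κ := Real.mul_self_sqrt hκ0.le
  have small_le : ∀ n (δ δ' : ℝ), δ ≤ δ' → (Q.P n).Small G δ → (Q.P n).Small G δ' :=
    fun n δ δ' h hs α i hi => (hs α i hi).trans h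
  have hsmall_even : ∀ k, (Q.P (2 * k)).Small G (κ ^ k * L) := by
    intro k
    induction k with
    | zero =>
      intro α i hi
      simp only [pow_zero, one_mul]
      have hm := Tow.level_mem hU hi
      have hlt := (Q.P (2 * 0)).lt α
      have e1 := hG.monotoneOn (a := (Q.P (2 * 0)).hi α + (Q.P (2 * 0)).sh α i)
        (b := a) ⟨by linarith [hm.1], hm.2⟩ (right_mem_Icc.2 (by linarith)) hm.2
      have e2 := hG.monotoneOn (a := -a) (b := (Q.P (2 * 0)).lo α + (Q.P (2 * 0)).sh α i)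
        (left_mem_Icc.2 (by linarith)) ⟨hm.1, by linarith [hm.2]⟩ hm.1
      rw [hL]
      linarith
    | succ k ih =>
      have hgood := Q.good (2 * k) (even_two_mul k)
      have h1 := small_good hU hG (lm (2 * k)) hV0 (hV (2 * k)) (Q.R (2 * k))
        (fun β α => (hgood β).1 α) (fun β => (hgood β).2) ih
      have h2 := small_mono hU hG (Q.R (2 * k + 1)) h1
      have e : 2 * (k + 1) = 2 * k + 1 + 1 := by ring
      rw [e]
      refine small_le _ _ _ (le_of_eq ?_) h2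
      rw [← hκ, pow_succ]
      ring
  have hsmall : ∀ n, (Q.P n).Small G (L * θ1 ^ n) := by
    intro n
    rcases Nat.even_or_odd' n with ⟨k, rfl | rfl⟩
    · refine small_le _ _ _ (le_of_eq ?_) (hsmall_even k)
      rw [pow_mul, pow_two, hθθ]; ring
    · have hgood := Q.good (2 * k) (even_two_mul k)
      have h1 := small_good hU hG (lm (2 * k)) hV0 (hV (2 * k)) (Q.R (2 * k))
        (fun β α => (hgood β).1 α) (fun β => (hgood β).2) (hsmall_even k)
      refine small_le _ _ _ ?_ h1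
      rw [← hκ, pow_succ, pow_mul, pow_two, hθθ]
      have h3 : κ ≤ θ1 := by
        rw [← hθθ]
        nlinarith
      calc κ * (κ ^ k * L) = L * κ ^ k * κ := by ring
        _ ≤ L * κ ^ k * θ1 := mul_le_mul_of_nonneg_left h3 (by positivity)
        _ = L * (κ ^ k * θ1) := by ring
  have hδ0 : ∀ n, 0 ≤ L * θ1 ^ n := fun n => by positivity
  -- decay of the increments
  set D := d * (2 * C0 + C0 * (C0 + 1)) * L with hD
  have hd1 : (1 : ℝ) ≤ d := by exact_mod_cast hd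
  have hD0 : 0 ≤ D := by positivity
  set c := (Real.exp (2 * (Q.B * V)) * d ^ 2 * Q.B * C0)⁻¹ with hc
  have hgood0 := Q.good 0 (by simp)
  have hB1 : (1 : ℝ) ≤ Q.B := by
    have h1 := (hgood0 ⟨0, hd⟩).1 ⟨0, hd⟩
    have h2 := (hgood0 ⟨0, hd⟩).2
    have h3 := List.count_le_length (a := (⟨0, hd⟩ : Fin d)) (l := (Q.R 0).it ⟨0, hd⟩)
    have : 1 ≤ Q.B := by omega
    exact_mod_cast this
  have hc0 : 0 < c := by
    rw [hc]
    positivity
  have hc1 : c ≤ 1 := by
    rw [hc]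
    apply inv_le_one_of_one_le₀
    have h1 : 1 ≤ Real.exp (2 * (Q.B * V)) := Real.one_le_exp (by positivity)
    have h2 : (1 : ℝ) ≤ (d : ℝ) ^ 2 := by nlinarith
    have h3 : 1 ≤ Real.exp (2 * (Q.B * V)) * (d : ℝ) ^ 2 := by nlinarith
    have h4 : 1 ≤ Real.exp (2 * (Q.B * V)) * (d : ℝ) ^ 2 * Q.B := by nlinarith
    nlinarith
  obtain ⟨K2, q, hK2, hq0, hq1, hMq⟩ := seq_decay (fun n => MM (Q.P n) g) c D θ1 hc0 hc1 hD0
    hθ10 hθ11 (fun n => MM_nonneg _) (by
      intro n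
      refine (MM_mono hG hC0 (lm n) (Q.R n) (hδ0 n) (hsmall n)).trans ?_
      have h1 : 0 ≤ d * (2 * C0) * (L * θ1 ^ n) := by positivity
      rw [hD]
      have h2 : d * (2 * C0 + C0 * (C0 + 1)) * L * θ1 ^ n =
        d * (2 * C0) * (L * θ1 ^ n) + d * (C0 * (C0 + 1)) * (L * θ1 ^ n) := by ring
      rw [h2]
      linarith) (by
      intro n hn
      have hgood := Q.good n hn
      refine (MM_good hd hU ha.le hgend hG hC0 (lm n) hV0 (hV n) (Q.R n)
        (fun β α => (hgood β).1 α) (fun β => (hgood β).2) (hδ0 n) (hsmall n)).trans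
        (le_of_eq ?_)
      rw [← hc, hD]
      ring)
  -- conclusion
  set θ := max (max θ1 (θ1 ^ τ)) q with hθ
  have hθτ0 : 0 < θ1 ^ τ := Real.rpow_pos_of_pos hθ10 τ
  have hθτ1 : θ1 ^ τ < 1 := Real.rpow_lt_one hθ10.le hθ11 hτ
  have hθ0 : 0 < θ := lt_of_lt_of_le hq0 (le_max_right _ _)
  have hθlt : θ < 1 := max_lt (max_lt hθ11 hθτ1) hq1
  have hp1 : ∀ n, θ1 ^ n ≤ θ ^ n := fun n =>
    pow_le_pow_left₀ hθ10.le ((le_max_left _ _).trans (le_max_left _ _)) n
  have hp2 : ∀ n, (θ1 ^ τ) ^ n ≤ θ ^ n := fun n =>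
    pow_le_pow_left₀ hθτ0.le ((le_max_right _ _).trans (le_max_left _ _)) n
  have hp3 : ∀ n, q ^ n ≤ θ ^ n := fun n => pow_le_pow_left₀ hq0.le (le_max_right _ _) n
  set K := L + (Cm * (d * L) ^ τ + C0 * (K2 + L)) with hK
  have hrest : 0 ≤ Cm * (d * L) ^ τ + C0 * (K2 + L) := by positivity
  refine ⟨K, θ, by positivity, hθ0, hθlt, ?_⟩
  intro n
  constructor
  · refine small_le n _ _ ?_ (hsmall n)
    calc L * θ1 ^ n ≤ L * θ ^ n := mul_le_mul_of_nonneg_left (hp1 n) hL0.le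
      _ ≤ K * θ ^ n := mul_le_mul_of_nonneg_right (by rw [hK]; linarith) (by positivity)
  · intro α x hx
    have hbase : G (Q.P n).eps - G (-(Q.P n).eps) ≤ d * L * θ1 ^ n := by
      rw [← (Q.P n).sum_base G]
      have h1 : ∀ β, G ((Q.P n).hi β) - G ((Q.P n).lo β) ≤ L * θ1 ^ n := by
        intro β
        have := hsmall n β 0 ((Q.P n).r_pos β)
        simpa [(Q.P n).sh_zero] using this
      refine (Finset.sum_le_sum fun β _ => h1 β).trans ?_
      rw [Finset.sum_const, Finset.card_univ, Fintype.card_fin, nsmul_eq_mul]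
      apply le_of_eq
      ring
    have h1 : |(Q.P n).F g α (((Q.P n).lo α + (Q.P n).hi α) / 2)| ≤
        Cm * (d * L) ^ τ * (θ1 ^ τ) ^ n := by
      refine (hmid n α).trans ?_
      rw [mul_assoc]
      refine mul_le_mul_of_nonneg_left ?_ hCm
      refine (Real.rpow_le_rpow (heps n).1 hbase hτ.le).trans (le_of_eq ?_)
      rw [Real.mul_rpow (by positivity) (by positivity)]
      congr 1
      rw [← Real.rpow_natCast, ← Real.rpow_natCast, ← Real.rpow_mul hθ10.le,
        ← Real.rpow_mul hθ10.le, mul_comm]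
    have hlen := len_pos hG (Q.P n) α
    have h2 : |(Q.P n).F g α x - (Q.P n).F g α (((Q.P n).lo α + (Q.P n).hi α) / 2)| ≤
        C0 * (K2 * q ^ n + L * θ1 ^ n) := by
      have h3 := (lm n).c1 α _ (hδ0 n) (hsmall n) _ (hmidmem n α) x hx
      have h4 : |G x - G (((Q.P n).lo α + (Q.P n).hi α) / 2)| ≤ len (Q.P n) G α := by
        have ml := lo_mem (Q.P n) α
        have mh := hi_mem (Q.P n) α
        have hm := hmidmem n α
        have bd : ∀ y ∈ Icc ((Q.P n).lo α) ((Q.P n).hi α),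
            G ((Q.P n).lo α) ≤ G y ∧ G y ≤ G ((Q.P n).hi α) := by
          intro y hy
          have my : y ∈ Icc (-a) a := ⟨ml.1.trans hy.1, hy.2.trans mh.2⟩
          exact ⟨hG.monotoneOn ml my hy.1, hG.monotoneOn my mh hy.2⟩
        have b1 := bd x hx
        have b2 := bd _ hm
        unfold len
        rw [abs_le]
        constructor <;> linarith [b1.1, b1.2, b2.1, b2.2]
      have h5 : |N (Q.P n) g α| ≤ K2 * q ^ n := by
        refine le_trans ?_ (hMq n)
        exact Finset.single_le_sum (f := fun α => |N (Q.P n) g α|) (fun _ _ => abs_nonneg _)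
          (Finset.mem_univ α)
      have h6 : |(Q.P n).F g α x - (Q.P n).F g α (((Q.P n).lo α + (Q.P n).hi α) / 2)| *
          len (Q.P n) G α ≤ C0 * (K2 * q ^ n + L * θ1 ^ n) * len (Q.P n) G α := by
        refine h3.trans ?_
        have hnn : 0 ≤ |N (Q.P n) g α| := abs_nonneg _
        gcongr
      exact le_of_mul_le_mul_right h6 hlen
    have h3 : (Q.P n).F g α x = (Q.P n).F g α (((Q.P n).lo α + (Q.P n).hi α) / 2) +
        ((Q.P n).F g α x - (Q.P n).F g α (((Q.P n).lo α + (Q.P n).hi α) / 2)) := by ring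
    rw [h3]
    refine (abs_add_le _ _).trans ((add_le_add h1 h2).trans ?_)
    have e1 : Cm * (d * L) ^ τ * (θ1 ^ τ) ^ n ≤ Cm * (d * L) ^ τ * θ ^ n :=
      mul_le_mul_of_nonneg_left (hp2 n) (by positivity)
    have e2 : K2 * q ^ n ≤ K2 * θ ^ n := mul_le_mul_of_nonneg_left (hp3 n) hK2.le
    have e3 : L * θ1 ^ n ≤ L * θ ^ n := mul_le_mul_of_nonneg_left (hp1 n) hL0.le
    have e4 : C0 * (K2 * q ^ n + L * θ1 ^ n) ≤ C0 * (K2 * θ ^ n + L * θ ^ n) :=
      mul_le_mul_of_nonneg_left (add_le_add e2 e3) (by linarith)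
    have e5 : 0 ≤ L * θ ^ n := by positivity
    calc Cm * (d * L) ^ τ * (θ1 ^ τ) ^ n + C0 * (K2 * q ^ n + L * θ1 ^ n)
        ≤ Cm * (d * L) ^ τ * θ ^ n + C0 * (K2 * θ ^ n + L * θ ^ n) := add_le_add e1 e4
      _ ≤ L * θ ^ n + (Cm * (d * L) ^ τ * θ ^ n + C0 * (K2 * θ ^ n + L * θ ^ n)) := by linarith
      _ = K * θ ^ n := by rw [hK]; ring

end Pool.Agent.Helper22.Rev
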