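import Mathlib
import Pool.Agent.Helper22.Rev.Defs

/-!
# Generalised interval exchange maps, conjugacies, reversibility (definitions for the main theorem)
-/

set_option autoImplicit false

open Set

namespace Pool.Agent.Helper22.Rev

variable {n : ℕ}

/-- `T` is a generalised interval exchange map of class `C^3` with the symmetric permutation, on
the interval `[-half l, half l]`, whose partitions are those of the standard map with lengths `l`:
on the interval `α` it is the restriction of a `C^3` function `g α` which is an increasing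
diffeomorphism of `[left l α, left l α + l α]` onto `[-(left l α + l α), -left l α]`; the
derivative of `T` has no jump at the singularities, and the same value at the two end points. -/
def IsGiet (l : Fin (n + 2) → ℝ) (T : ℝ → ℝ) : Prop :=
  ∃ g : Fin (n + 2) → ℝ → ℝ,
    (∀ α, ContDiff ℝ 3 (g α)) ∧
    (∀ α, ∀ x ∈ Ioo (left l α) (left l α + l α), T x = g α x) ∧
    (∀ α, ∀ x ∈ Icc (left l α) (left l α + l α), 0 < deriv (g α) x) ∧
    (∀ α, g α (left l α) = -(left l α + l α) ∧ g α (left l α + l α) = -left l α) ∧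
    (∀ α β, left l β = left l α + l α →
      deriv (g β) (left l β) = deriv (g α) (left l β)) ∧
    deriv (g 0) (-half l) = deriv (g (Fin.last (n + 1))) (half l)

/-- `T` is topologically conjugate to `T0`. -/
def TopConj (l : Fin (n + 2) → ℝ) (T T0 : ℝ → ℝ) : Prop :=
  ∃ h : ℝ → ℝ, ContinuousOn h (Icc (-half l) (half l)) ∧
    BijOn h (Icc (-half l) (half l)) (Icc (-half l) (half l)) ∧
    ∀ x ∈ Dom l, h x ∈ Dom l ∧ h (T x) = T0 (h x)

/-- `T` is conjugate to `T0` by a `C^1` diffeomorphism of `[-half l, half l]`. -/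
def C1Conj (l : Fin (n + 2) → ℝ) (T T0 : ℝ → ℝ) : Prop :=
  ∃ h k : ℝ → ℝ, ContDiffOn ℝ 1 h (Icc (-half l) (half l)) ∧
    ContDiffOn ℝ 1 k (Icc (-half l) (half l)) ∧
    MapsTo h (Icc (-half l) (half l)) (Icc (-half l) (half l)) ∧
    MapsTo k (Icc (-half l) (half l)) (Icc (-half l) (half l)) ∧
    (∀ x ∈ Icc (-half l) (half l), k (h x) = x ∧ h (k x) = x) ∧
    ∀ x ∈ Dom l, h x ∈ Dom l ∧ h (T x) = T0 (h x)

/-- `σ` is an orientation reversing `C^{1+τ}` diffeomorphism of `[-half l, half l]` which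
conjugates `T` to its inverse. -/
structure IsReversor (l : Fin (n + 2) → ℝ) (T σ σ' : ℝ → ℝ) (C τ : ℝ) : Prop where
  pos : 0 < τ
  bij : BijOn σ (Icc (-half l) (half l)) (Icc (-half l) (half l))
  der : ∀ x ∈ Icc (-half l) (half l), HasDerivWithinAt σ (σ' x) (Icc (-half l) (half l)) x
  neg : ∀ x ∈ Icc (-half l) (half l), σ' x < 0
  hol : ∀ x ∈ Icc (-half l) (half l), ∀ y ∈ Icc (-half l) (half l),
    |σ' x - σ' y| ≤ C * |x - y| ^ τ
  conj : ∀ x ∈ Dom l, σ (T x) ∈ Dom l ∧ T (σ (T x)) = σ x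

/-- `T` is conjugate to its inverse by an orientation reversing `C^{1+τ}` diffeomorphism, for some
`τ > 0`. -/
def Reversible (l : Fin (n + 2) → ℝ) (T : ℝ → ℝ) : Prop :=
  ∃ (σ σ' : ℝ → ℝ) (C τ : ℝ), IsReversor l T σ σ' C τ

/-- increasing conjugacy `G` from the standard map `T0'` (lengths `l'`) to `T` -/
structure IncConj (l l' : Fin (n + 2) → ℝ) (T0' T G : ℝ → ℝ) : Prop where
  hl : ∀ i, 0 < l i
  hl' : ∀ i, 0 < l' i
  hh : half l' = half l
  std : IsStd l' T0'
  giet : IsGiet l T
  cont : ContinuousOn G (Icc (-half l) (half l))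
  mono : StrictMonoOn G (Icc (-half l) (half l))
  bij : BijOn G (Icc (-half l) (half l)) (Icc (-half l) (half l))
  conj : ∀ x ∈ Dom l', G x ∈ Dom l ∧ T (G x) = G (T0' x)

end Pool.Agent.Helper22.Rev
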