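import Mathlib
import Pool.Agent.Helper22.Rev.Defs
import Pool.Agent.Helper22.Rev.FinalDefs
import Pool.Agent.Helper22.Rev.LocalA

/-!
# Slopes at the centres of the base intervals (module RV-10b)
-/

set_option autoImplicit false

open Set Filter Topology MeasureTheory

namespace Pool.Agent.Helper22.Rev

namespace Mid

/-- an elementary bound for the logarithm -/
theorem log_bound {u M : ℝ} (hu : 0 < u) (hM : 1 ≤ M) (h : 1 ≤ M * u) :
    |Real.log u| ≤ M * |u - 1| := by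
  have h1 : Real.log u ≤ M * |u - 1| := by
    have h2 := Real.log_le_sub_one_of_pos hu
    have h3 : u - 1 ≤ |u - 1| := le_abs_self _
    have h4 : |u - 1| ≤ M * |u - 1| := le_mul_of_one_le_left (abs_nonneg _) hM
    linarith
  have h2 : -Real.log u ≤ M * |u - 1| := by
    have h3 := Real.log_le_sub_one_of_pos (inv_pos.2 hu)
    rw [Real.log_inv] at h3
    have h4 : u⁻¹ - 1 = (1 - u) * u⁻¹ := by field_simp
    have h5 : u⁻¹ ≤ M := by
      rw [inv_le_comm₀ hu (by linarith)]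
      rw [inv_le_iff_one_le_mul₀ (by linarith)]
      linarith
    have h6 : (1 - u) * u⁻¹ ≤ |u - 1| * M := by
      have h7 : 1 - u ≤ |u - 1| := by rw [abs_sub_comm]; exact le_abs_self _
      calc (1 - u) * u⁻¹ ≤ |u - 1| * u⁻¹ :=
            mul_le_mul_of_nonneg_right h7 (inv_nonneg.2 hu.le)
        _ ≤ |u - 1| * M := mul_le_mul_of_nonneg_left h5 (abs_nonneg _)
    linarith [mul_comm (|u - 1|) M]
  exact abs_le.2 ⟨by linarith, h1⟩

section

variable {n : ℕ} {l l' : Fin (n + 2) → ℝ} {T0' T G f f1 f2 : ℝ → ℝ} {K : ℝ}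
  {σ σ' : ℝ → ℝ} {C τ : ℝ}

theorem sigma_inv (hG0 : BijOn G (Icc (-half l) (half l)) (Icc (-half l) (half l)))
    (hG : ∀ x ∈ Icc (-half l) (half l), σ (G x) = G (-x)) :
    ∀ y ∈ Icc (-half l) (half l), σ (σ y) = y := by
  intro y hy
  obtain ⟨x, hx, rfl⟩ := hG0.surjOn hy
  rw [hG x hx, hG (-x) ⟨by linarith [hx.2], by linarith [hx.1]⟩, neg_neg]

theorem sigma_prod (ha : 0 < half l)
    (hG0 : BijOn G (Icc (-half l) (half l)) (Icc (-half l) (half l)))
    (hσ : IsReversor l T σ σ' C τ)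
    (hG : ∀ x ∈ Icc (-half l) (half l), σ (G x) = G (-x)) :
    ∀ y ∈ Icc (-half l) (half l), σ' (σ y) * σ' y = 1 := by
  intro y hy
  have h1 := hσ.der y hy
  have hσy := hσ.bij.mapsTo hy
  have h2 := hσ.der (σ y) hσy
  have h3 := h2.comp y h1 hσ.bij.mapsTo
  have h4 : HasDerivWithinAt (fun z : ℝ => z) 1 (Icc (-half l) (half l)) y :=
    hasDerivWithinAt_id _ _
  have h5 : HasDerivWithinAt (σ ∘ σ) 1 (Icc (-half l) (half l)) y := by
    refine h4.congr (fun z hz => ?_) ?_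
    · exact sigma_inv hG0 hG z hz
    · exact sigma_inv hG0 hG y hy
  have h6 : UniqueDiffWithinAt ℝ (Icc (-half l) (half l)) y :=
    uniqueDiffOn_Icc (by linarith) y hy
  exact h6.eq_deriv _ h3 h5

end

end Mid

open Mid in
theorem mid_bound {n : ℕ} {l l' : Fin (n + 2) → ℝ} {T0' T G f f1 f2 : ℝ → ℝ} {K : ℝ}
    (h : IncConj l l' T0' T G) (TS : TSide T0' (Dom l') (half l') G T f f1 f2 K)
    {σ σ' : ℝ → ℝ} {C τ : ℝ} (hσ : IsReversor l T σ σ' C τ)
    (hG : ∀ x ∈ Icc (-half l) (half l), σ (G x) = G (-x)) :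
    ∃ Cm : ℝ, 0 ≤ Cm ∧ ∀ {d : ℕ} (P : Tow d T0' (Dom l') (half l')) (α : Fin d),
      |P.F (fun z => f (G z)) α ((P.lo α + P.hi α) / 2)| ≤
        Cm * (G P.eps - G (-P.eps)) ^ τ := by
  have hhh := h.hh
  have ha : 0 < half l := by rw [← hhh]; exact TS.ha
  set a := half l with hadef
  have hM0 : (0 : ℝ) ≤ |C| * (2 * a) ^ τ := by positivity
  set M : ℝ := 1 + |C| * (2 * a) ^ τ with hM
  have hM1 : 1 ≤ M := by linarith
  have h0I : (0 : ℝ) ∈ Icc (-a) a := ⟨by linarith, by linarith⟩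
  have hprod := sigma_prod ha h.bij hσ hG
  have hGI : ∀ x ∈ Icc (-a) a, G x ∈ Icc (-a) a := fun x hx => h.bij.mapsTo hx
  -- the slope at the fixed point
  have hs0 : σ' (G 0) = -1 := by
    have h1 := hprod (G 0) (hGI 0 h0I)
    rw [hG 0 h0I, neg_zero] at h1
    have h2 := hσ.neg (G 0) (hGI 0 h0I)
    nlinarith
  have hhol : ∀ y ∈ Icc (-a) a, |σ' y + 1| ≤ |C| * |y - G 0| ^ τ := by
    intro y hy
    have h1 := hσ.hol y hy (G 0) (hGI 0 h0I)
    rw [hs0, sub_neg_eq_add] at h1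
    exact h1.trans (mul_le_mul_of_nonneg_right (le_abs_self C)
      (Real.rpow_nonneg (abs_nonneg _) _))
  have hup : ∀ y ∈ Icc (-a) a, |σ' y| ≤ M := by
    intro y hy
    have h1 := hhol y hy
    have h2 : |y - G 0| ≤ 2 * a := by
      have h3 := hGI 0 h0I
      rw [abs_le]
      constructor <;> linarith [hy.1, hy.2, h3.1, h3.2]
    have h3 : |y - G 0| ^ τ ≤ (2 * a) ^ τ :=
      Real.rpow_le_rpow (abs_nonneg _) h2 hσ.pos.le
    have h4 : |C| * |y - G 0| ^ τ ≤ |C| * (2 * a) ^ τ :=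
      mul_le_mul_of_nonneg_left h3 (abs_nonneg _)
    have h5 : |σ' y| ≤ |σ' y + 1| + 1 := by
      have h6 := abs_add_le (σ' y + 1) (-1)
      have h7 : σ' y + 1 + -1 = σ' y := by ring
      rw [h7, abs_neg, abs_one] at h6
      exact h6
    linarith
  have hlow : ∀ y ∈ Icc (-a) a, 1 ≤ M * (-σ' y) := by
    intro y hy
    have h1 := hprod y hy
    have h2 := hup (σ y) (hσ.bij.mapsTo hy)
    have h3 := hσ.neg y hy
    have h4 : -σ' (σ y) ≤ M := (neg_le_abs _).trans h2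
    nlinarith
  refine ⟨M * |C|, mul_nonneg (by linarith) (abs_nonneg _), ?_⟩
  intro d P α
  set m : ℝ := (P.lo α + P.hi α) / 2 with hm
  have hlt := P.lt α
  have hlo := P.lo_ge α
  have hhi := P.hi_le α
  have heps : P.eps ≤ a := by rw [← hhh]; exact P.eps_le
  have hmI : m ∈ Ioo (P.lo α) (P.hi α) := ⟨by rw [hm]; linarith, by rw [hm]; linarith⟩
  have hiter : ∀ x ∈ Ioo (P.lo α) (P.hi α), T^[P.r α] (G x) = G (x - (P.lo α + P.hi α)) := by
    intro x hx
    rw [Local.iter_eq P α TS le_rfl hx, P.sh_ret α]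
    rfl
  have hpsi : ∀ x ∈ Ioo (P.lo α) (P.hi α),
      σ (T^[P.r α] (G x)) = G (P.lo α + P.hi α - x) := by
    intro x hx
    rw [hiter x hx, hG _ ⟨by linarith [hx.1, hx.2], by linarith [hx.1, hx.2]⟩]
    congr 1
    ring
  have hmm : P.lo α + P.hi α - m = m := by rw [hm]; ring
  have hq : σ (T^[P.r α] (G m)) = G m := by rw [hpsi m hmI, hmm]
  have hTq : T^[P.r α] (G m) = G (-m) := by
    rw [hiter m hmI]; congr 1; rw [hm]; ring
  have hnm : -m ∈ Ioo (-a) a := by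
    constructor <;> linarith [hmI.1, hmI.2]
  have hGnm : G (-m) ∈ Ioo (-a) a := by
    have hmono := h.mono
    have h1 := hmono (left_mem_Icc.2 (by linarith)) ⟨hnm.1.le, hnm.2.le⟩ hnm.1
    have h2 := hmono ⟨hnm.1.le, hnm.2.le⟩ (right_mem_Icc.2 (by linarith)) hnm.2
    have h3 := hGI (-a) (left_mem_Icc.2 (by linarith))
    have h4 := hGI a (right_mem_Icc.2 (by linarith))
    exact ⟨lt_of_le_of_lt h3.1 h1, lt_of_lt_of_le h2 h4.2⟩
  have hd1 := Local.iter_deriv P α TS le_rfl hmI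
  have hd2 : HasDerivAt σ (σ' (G (-m))) (T^[P.r α] (G m)) := by
    rw [hTq]
    exact (hσ.der _ ⟨hGnm.1.le, hGnm.2.le⟩).hasDerivAt (Icc_mem_nhds hGnm.1 hGnm.2)
  have hd3 : HasDerivAt (fun z => σ (T^[P.r α] z))
      (σ' (G (-m)) * Real.exp (P.S (fun z => f (G z)) α (P.r α) m)) (G m) :=
    hd2.comp (G m) hd1
  set D : ℝ := σ' (G (-m)) * Real.exp (P.S (fun z => f (G z)) α (P.r α) m) with hD
  have hd4 : HasDerivAt (fun z => σ (T^[P.r α] (σ (T^[P.r α] z)))) (D * D) (G m) := by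
    have h5 : HasDerivAt (fun z => σ (T^[P.r α] z)) D (σ (T^[P.r α] (G m))) := by
      rw [hq]; exact hd3
    exact HasDerivAt.comp (h₂ := fun z => σ (T^[P.r α] z)) (h := fun z => σ (T^[P.r α] z))
      (G m) h5 hd3
  have hev : (fun z => σ (T^[P.r α] (σ (T^[P.r α] z)))) =ᶠ[𝓝 (G m)] fun z => z := by
    have hsub : ∀ x ∈ Icc (P.lo α) (P.hi α), x ∈ Icc (-a) a := fun x hx =>
      ⟨by linarith [hx.1, hx.2], by linarith [hx.1, hx.2]⟩
    have h1 : G (P.lo α) < G m := h.mono (hsub _ (left_mem_Icc.2 hlt.le))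
      (hsub _ ⟨hmI.1.le, hmI.2.le⟩) hmI.1
    have h2 : G m < G (P.hi α) := h.mono (hsub _ ⟨hmI.1.le, hmI.2.le⟩)
      (hsub _ (right_mem_Icc.2 hlt.le)) hmI.2
    filter_upwards [Ioo_mem_nhds h1 h2] with z hz
    obtain ⟨w, hw, rfl⟩ := Local.exists_pt P α TS (left_mem_Icc.2 hlt.le) (right_mem_Icc.2 hlt.le) hz
    have hw' : P.lo α + P.hi α - w ∈ Ioo (P.lo α) (P.hi α) :=
      ⟨by linarith [hw.2], by linarith [hw.1]⟩
    rw [hpsi w hw, hpsi _ hw']
    congr 1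
    ring
  have hd5 : D * D = 1 := by
    have h1 : HasDerivAt (fun z : ℝ => z) (D * D) (G m) := hd4.congr_of_eventuallyEq hev.symm
    exact h1.unique (hasDerivAt_id _)
  have hneg := hσ.neg (G (-m)) ⟨hGnm.1.le, hGnm.2.le⟩
  have hexp := Real.exp_pos (P.S (fun z => f (G z)) α (P.r α) m)
  have hDneg : D < 0 := mul_neg_of_neg_of_pos hneg hexp
  have hD1 : D = -1 := by nlinarith
  set u : ℝ := -σ' (G (-m)) with hu
  have hu0 : 0 < u := by rw [hu]; linarith
  have hue : u * Real.exp (P.S (fun z => f (G z)) α (P.r α) m) = 1 := by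
    rw [hu, neg_mul, ← hD, hD1, neg_neg]
  have hlog : Real.log u = -P.S (fun z => f (G z)) α (P.r α) m := by
    have h1 : u = Real.exp (-P.S (fun z => f (G z)) α (P.r α) m) := by
      rw [Real.exp_neg]
      exact eq_inv_of_mul_eq_one_left hue
    rw [h1, Real.log_exp]
  have hb := log_bound hu0 hM1 (hlow (G (-m)) ⟨hGnm.1.le, hGnm.2.le⟩)
  rw [hlog, abs_neg] at hb
  have hb2 : |u - 1| ≤ |C| * |G (-m) - G 0| ^ τ := by
    have h1 := hhol (G (-m)) ⟨hGnm.1.le, hGnm.2.le⟩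
    have h2 : u - 1 = -(σ' (G (-m)) + 1) := by rw [hu]; ring
    rw [h2, abs_neg]
    exact h1
  have hb3 : |G (-m) - G 0| ≤ G P.eps - G (-P.eps) := by
    have hmono := h.mono.monotoneOn
    have e1 : P.eps ∈ Icc (-a) a := ⟨by linarith, heps⟩
    have e2 : -P.eps ∈ Icc (-a) a := ⟨by linarith, by linarith⟩
    have e3 : -m ∈ Icc (-a) a := ⟨hnm.1.le, hnm.2.le⟩
    have i1 := hmono e2 e3 (by linarith [hmI.2])
    have i2 := hmono e3 e1 (by linarith [hmI.1])
    have i3 := hmono e2 h0I (by linarith)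
    have i4 := hmono h0I e1 (by linarith)
    rw [abs_le]
    constructor <;> linarith
  have hb4 : |G (-m) - G 0| ^ τ ≤ (G P.eps - G (-P.eps)) ^ τ :=
    Real.rpow_le_rpow (abs_nonneg _) hb3 hσ.pos.le
  have hb5 : |C| * |G (-m) - G 0| ^ τ ≤ |C| * (G P.eps - G (-P.eps)) ^ τ :=
    mul_le_mul_of_nonneg_left hb4 (abs_nonneg _)
  have hMpos : 0 ≤ M := by linarith
  calc |P.F (fun z => f (G z)) α m| ≤ M * |u - 1| := hb
    _ ≤ M * (|C| * (G P.eps - G (-P.eps)) ^ τ) :=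
        mul_le_mul_of_nonneg_left (hb2.trans hb5) hMpos
    _ = M * |C| * (G P.eps - G (-P.eps)) ^ τ := by ring

end Pool.Agent.Helper22.Rev
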