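import Pool.Agent.Helper22.Rev.Defs

/-!
# RV-2: the conjugacy is continuously differentiable on the open interval
-/

set_option autoImplicit false

open Set Filter Topology

namespace Pool.Agent.Helper22.Rev

private theorem Regular.mvt {G H D : ℝ → ℝ} {x : ℝ}
    (hcont : ∀ᶠ y in 𝓝 x, ContinuousAt G y)
    (hmono : ∃ δ > 0, ∀ y z, |y - x| < δ → |z - x| < δ → y < z → G y < G z)
    (hH : ∀ᶠ y in 𝓝 x, HasDerivAt H (D y) (G y))
    (hD : ContinuousAt D x) (hD0 : 0 < D x) (h : ℝ) (hh : 0 < h) :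
    ∃ δ > 0, ∀ y z, |y - x| < δ → |z - x| < δ → y ≤ z →
      Real.exp (-h) * D x * (G z - G y) ≤ H (G z) - H (G y) ∧
      H (G z) - H (G y) ≤ Real.exp h * D x * (G z - G y) := by
  have h1 : ∀ᶠ y in 𝓝 x, Real.exp (-h) * D x < D y := by
    apply hD.eventually (lt_mem_nhds _)
    have : Real.exp (-h) < 1 := by
      rw [← Real.exp_zero]
      exact Real.exp_lt_exp.2 (by linarith)
    nlinarith
  have h2 : ∀ᶠ y in 𝓝 x, D y < Real.exp h * D x := by
    apply hD.eventually (gt_mem_nhds _)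
    have : 1 < Real.exp h := by
      rw [← Real.exp_zero]
      exact Real.exp_lt_exp.2 (by linarith)
    nlinarith
  obtain ⟨δ0, hδ0, hm⟩ := hmono
  obtain ⟨δ1, hδ1, hall⟩ := Metric.eventually_nhds_iff.1 ((hcont.and hH).and (h1.and h2))
  refine ⟨min δ0 δ1, lt_min hδ0 hδ1, ?_⟩
  intro y z hy hz hyz
  rcases hyz.eq_or_lt with rfl | hlt
  · simp
  have hy0 : |y - x| < δ0 := lt_of_lt_of_le hy (min_le_left _ _)
  have hy1 : |y - x| < δ1 := lt_of_lt_of_le hy (min_le_right _ _)
  have hz0 : |z - x| < δ0 := lt_of_lt_of_le hz (min_le_left _ _)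
  have hz1 : |z - x| < δ1 := lt_of_lt_of_le hz (min_le_right _ _)
  have hin : ∀ w ∈ Icc y z, |w - x| < δ1 := by
    intro w hw
    rw [abs_lt] at *
    exact ⟨by linarith [hw.1], by linarith [hw.2]⟩
  have hG : G y < G z := hm y z hy0 hz0 hlt
  have hcG : ContinuousOn G (Icc y z) := by
    intro w hw
    have := (hall (y := w) (by rw [Real.dist_eq]; exact hin w hw)).1.1
    exact this.continuousWithinAt
  have hsurj : Icc (G y) (G z) ⊆ G '' Icc y z := intermediate_value_Icc hlt.le hcG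
  have hder : ∀ v ∈ Icc (G y) (G z), ∃ w, HasDerivAt H (D w) v ∧
      Real.exp (-h) * D x < D w ∧ D w < Real.exp h * D x := by
    intro v hv
    obtain ⟨w, hw, rfl⟩ := hsurj hv
    have := hall (y := w) (by rw [Real.dist_eq]; exact hin w hw)
    exact ⟨w, this.1.2, this.2.1, this.2.2⟩
  choose! w hw using hder
  obtain ⟨v, hv, hvv⟩ := exists_hasDerivAt_eq_slope H (fun v => D (w v)) hG
    (fun v hv => ((hw v hv).1).continuousAt.continuousWithinAt)
    (fun v hv => (hw v (Ioo_subset_Icc_self hv)).1)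
  have hv' := hw v (Ioo_subset_Icc_self hv)
  have hpos : 0 < G z - G y := by linarith
  have hEq : H (G z) - H (G y) = D (w v) * (G z - G y) := by
    have : D (w v) = (H (G z) - H (G y)) / (G z - G y) := hvv
    rw [this]
    field_simp
  rw [hEq]
  exact ⟨by nlinarith [hv'.2.1], by nlinarith [hv'.2.2]⟩

/-- strict points -/
private def Regular.Strict (G : ℝ → ℝ) (x : ℝ) : Prop :=
  ∀ e > 0, ∃ c > 0, ∃ δ > 0, ∀ y z, |y - x| < δ → |z - x| < δ → y ≤ z →
    c * (z - y) ≤ G z - G y ∧ G z - G y ≤ c * Real.exp e * (z - y)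

private theorem Regular.limit {G : ℝ → ℝ} {x : ℝ} (hs : Regular.Strict G x) :
    ∃ L > 0, ∀ e > 0, ∃ δ > 0, ∀ y z, |y - x| < δ → |z - x| < δ → y ≤ z →
      Real.exp (-e) * L * (z - y) ≤ G z - G y ∧ G z - G y ≤ Real.exp e * L * (z - y) := by
  choose! c hc δ hδ hw using hs
  have hcomp : ∀ e > 0, ∀ e' > 0, c e ≤ c e' * Real.exp e' := by
    intro e he e' he'
    have hm : 0 < min (δ e) (δ e') := lt_min (hδ e he) (hδ e' he')
    set z := x + min (δ e) (δ e') / 2 with hz
    have hz1 : |z - x| < δ e := by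
      rw [hz, add_sub_cancel_left, abs_of_pos (by linarith)]
      linarith [min_le_left (δ e) (δ e')]
    have hz2 : |z - x| < δ e' := by
      rw [hz, add_sub_cancel_left, abs_of_pos (by linarith)]
      linarith [min_le_right (δ e) (δ e')]
    have hzx : 0 < z - x := by rw [hz]; linarith
    have h1 := (hw e he x z (by simpa using hδ e he) hz1 (by linarith)).1
    have h2 := (hw e' he' x z (by simpa using hδ e' he') hz2 (by linarith)).2
    have h3 : c e * (z - x) ≤ c e' * Real.exp e' * (z - x) := h1.trans h2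
    exact le_of_mul_le_mul_right h3 hzx
  set S : Set ℝ := c '' Ioi 0 with hS
  have hbdd : BddAbove S := ⟨c 1 * Real.exp 1, by
    rintro _ ⟨e, he, rfl⟩
    exact hcomp e he 1 one_pos⟩
  have hne : S.Nonempty := ⟨c 1, 1, mem_Ioi.2 one_pos, rfl⟩
  have hle : ∀ e > 0, c e ≤ sSup S := fun e he => le_csSup hbdd ⟨e, he, rfl⟩
  have hge : ∀ e > 0, sSup S ≤ c e * Real.exp e := by
    intro e he
    apply csSup_le hne
    rintro _ ⟨e', he', rfl⟩
    exact hcomp e' he' e he
  refine ⟨sSup S, lt_of_lt_of_le (hc 1 one_pos) (hle 1 one_pos), ?_⟩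
  intro e he
  refine ⟨δ e, hδ e he, ?_⟩
  intro y z hy hz hyz
  obtain ⟨h1, h2⟩ := hw e he y z hy hz hyz
  have hyz' : 0 ≤ z - y := by linarith
  have ha := hge e he
  have hb := hle e he
  constructor
  · refine le_trans ?_ h1
    apply mul_le_mul_of_nonneg_right _ hyz'
    calc Real.exp (-e) * sSup S ≤ Real.exp (-e) * (c e * Real.exp e) :=
          mul_le_mul_of_nonneg_left ha (Real.exp_pos _).le
      _ = c e * (Real.exp (-e) * Real.exp e) := by ring
      _ = c e := by rw [← Real.exp_add]; simp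
  · refine h2.trans ?_
    apply mul_le_mul_of_nonneg_right _ hyz'
    rw [mul_comm]
    exact mul_le_mul_of_nonneg_left hb (Real.exp_pos _).le

private theorem Regular.deriv {G : ℝ → ℝ} {x L : ℝ} (hL : 0 < L)
    (hw : ∀ e > 0, ∃ δ > 0, ∀ y z, |y - x| < δ → |z - x| < δ → y ≤ z →
      Real.exp (-e) * L * (z - y) ≤ G z - G y ∧ G z - G y ≤ Real.exp e * L * (z - y)) :
    HasDerivAt G L x := by
  rw [hasDerivAt_iff_isLittleO, Asymptotics.isLittleO_iff]
  intro c hc
  -- choose e with (exp e - 1) * L ≤ c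
  have hlim : ∀ᶠ e in 𝓝[>] (0 : ℝ), (Real.exp e - 1) * L < c := by
    apply Filter.Eventually.filter_mono nhdsWithin_le_nhds
    have hcont : ContinuousAt (fun e : ℝ => (Real.exp e - 1) * L) 0 := by fun_prop
    apply hcont.eventually (gt_mem_nhds _)
    simpa using hc
  obtain ⟨e, he, he0⟩ := (hlim.and self_mem_nhdsWithin).exists
  have he0' : (0 : ℝ) < e := he0
  obtain ⟨δ, hδ, hall⟩ := hw e he0'
  rw [Metric.eventually_nhds_iff]
  refine ⟨δ, hδ, ?_⟩
  intro y hy
  rw [Real.dist_eq] at hy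
  have hex : 1 - Real.exp (-e) ≤ Real.exp e - 1 := by
    have h1 : Real.exp (-e) * Real.exp e = 1 := by rw [← Real.exp_add]; simp
    nlinarith [Real.exp_pos (-e), Real.exp_pos e, sq_nonneg (Real.exp e - 1)]
  have key : ∀ u v : ℝ, 0 ≤ u → Real.exp (-e) * L * u ≤ v → v ≤ Real.exp e * L * u →
      |v - L * u| ≤ c * u := by
    intro u v hu h1 h2
    rw [abs_le]
    constructor
    · have : (1 - Real.exp (-e)) * L ≤ c := by nlinarith
      nlinarith
    · nlinarith
  rw [Real.norm_eq_abs, Real.norm_eq_abs, smul_eq_mul]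
  rcases le_total x y with hxy | hxy
  · obtain ⟨h1, h2⟩ := hall x y (by simpa using hδ) hy hxy
    have := key (y - x) (G y - G x) (by linarith) h1 h2
    rw [abs_of_nonneg (show 0 ≤ y - x by linarith)]
    rwa [mul_comm (y - x) L]
  · obtain ⟨h1, h2⟩ := hall y x hy (by simpa using hδ) hxy
    have := key (x - y) (G x - G y) (by linarith) h1 h2
    rw [abs_of_nonpos (show y - x ≤ 0 by linarith)]
    have e1 : G y - G x - (y - x) * L = -(G x - G y - L * (x - y)) := by ring
    rw [e1, abs_neg]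
    have e2 : -(y - x) = x - y := by ring
    rwa [e2]

theorem regular {T0 : ℝ → ℝ} {U0 : Set ℝ} {a : ℝ} {G T f f1 f2 : ℝ → ℝ} {C : ℝ}
    (TS : TSide T0 U0 a G T f f1 f2 C)
    (htr : ∀ x ∈ U0, ∃ e : ℝ, ∀ᶠ y in 𝓝 x, T0 y = y + e)
    (eps κ η : ℕ → ℝ) (heps : ∀ n, eps n ≤ a) (hη : Tendsto η atTop (𝓝 0)) (hη0 : ∀ n, 0 ≤ η n)
    (hq : ∀ n, ∀ x y : ℝ, -(eps n) ≤ x → x ≤ y → y ≤ eps n →
        Real.exp (κ n - η n) * (y - x) ≤ G y - G x ∧
        G y - G x ≤ Real.exp (κ n + η n) * (y - x))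
    (hhit : ∀ x ∈ Ioo (-a) a, (∀ i, T0^[i] x ∈ U0) → ∀ n, ∃ i, T0^[i] x ∈ Ioo (-(eps n)) (eps n))
    (hreg : ∀ x ∈ Ioo (-a) a, (∀ i, T0^[i] x ∈ U0) ∨ (∀ i, T0^[i] (-x) ∈ U0))
    (σ σ' : ℝ → ℝ) (hσ : ∀ x ∈ Icc (-a) a, σ (G x) = G (-x))
    (hσd : ∀ y ∈ Ioo (G (-a)) (G a), HasDerivAt σ (σ' y) y)
    (hσc : ContinuousOn σ' (Ioo (G (-a)) (G a)))
    (hσ0 : ∀ y ∈ Ioo (G (-a)) (G a), σ' y < 0) :
    ∃ g : ℝ → ℝ, ContinuousOn g (Ioo (-a) a) ∧
      ∀ x ∈ Ioo (-a) a, 0 < g x ∧ HasDerivAt G (g x) x := by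
  have ha := TS.ha
  have hcontG : ∀ x ∈ Ioo (-a) a, ContinuousAt G x := fun x hx =>
    (TS.gcont x (Ioo_subset_Icc_self hx)).continuousAt (Icc_mem_nhds hx.1 hx.2)
  have hcontE : ∀ x ∈ Ioo (-a) a, ∀ᶠ y in 𝓝 x, ContinuousAt G y := by
    intro x hx
    filter_upwards [Ioo_mem_nhds hx.1 hx.2] with y hy using hcontG y hy
  have hmonoE : ∀ x ∈ Ioo (-a) a,
      ∃ δ > 0, ∀ y z, |y - x| < δ → |z - x| < δ → y < z → G y < G z := by
    intro x hx
    obtain ⟨δ, hδ, hb⟩ := Metric.mem_nhds_iff.1 (Ioo_mem_nhds hx.1 hx.2)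
    refine ⟨δ, hδ, fun y z hy hz hyz => ?_⟩
    have h1 : y ∈ Ioo (-a) a := hb (by rw [Metric.mem_ball, Real.dist_eq]; exact hy)
    have h2 : z ∈ Ioo (-a) a := hb (by rw [Metric.mem_ball, Real.dist_eq]; exact hz)
    exact TS.gmono (Ioo_subset_Icc_self h1) (Ioo_subset_Icc_self h2) hyz
  have hGm : ∀ x ∈ Ioo (-a) a, G x ∈ Ioo (G (-a)) (G a) := by
    intro x hx
    exact ⟨TS.gmono (left_mem_Icc.2 (by linarith)) (Ioo_subset_Icc_self hx) hx.1,
      TS.gmono (Ioo_subset_Icc_self hx) (right_mem_Icc.2 (by linarith)) hx.2⟩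
  have hfG : ∀ x ∈ Ioo (-a) a, ContinuousAt (fun y => f (G y)) x := by
    intro x hx
    have h1 : ContinuousAt f (G x) :=
      (TS.fcont (G x) (Ioo_subset_Icc_self (hGm x hx))).continuousAt
        (Icc_mem_nhds (hGm x hx).1 (hGm x hx).2)
    exact ContinuousAt.comp (f := G) (g := f) h1 (hcontG x hx)
  -- iterates
  have iter : ∀ x, (∀ i, T0^[i] x ∈ U0) → ∀ i, ∃ t : ℝ, ∃ D : ℝ → ℝ,
      (∀ᶠ y in 𝓝 x, T0^[i] y = y + t ∧ T^[i] (G y) = G (y + t) ∧
        HasDerivAt (T^[i]) (D y) (G y)) ∧ ContinuousAt D x ∧ 0 < D x := by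
    intro x hx i
    induction i with
    | zero =>
      refine ⟨0, fun _ => 1, ?_, continuousAt_const, one_pos⟩
      filter_upwards with y
      simp only [Function.iterate_zero, id_eq, add_zero, true_and]
      exact hasDerivAt_id _
    | succ i ih =>
      obtain ⟨t, D, hev, hDc, hD0⟩ := ih
      have hxt : T0^[i] x = x + t := hev.self_of_nhds.1
      have hmem : x + t ∈ U0 := hxt ▸ hx i
      obtain ⟨e, he⟩ := htr _ hmem
      have hcont : Tendsto (fun y => y + t) (𝓝 x) (𝓝 (x + t)) := by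
        have : ContinuousAt (fun y : ℝ => y + t) x := by fun_prop
        exact this
      have he' : ∀ᶠ y in 𝓝 x, T0 (y + t) = y + t + e := hcont.eventually he
      have hU : ∀ᶠ y in 𝓝 x, y + t ∈ U0 := hcont.eventually (TS.opn.mem_nhds hmem)
      refine ⟨t + e, fun y => Real.exp (f (G (y + t))) * D y, ?_, ?_, ?_⟩
      · filter_upwards [hev, he', hU] with y hy hye hyU
        refine ⟨?_, ?_, ?_⟩
        · rw [Function.iterate_succ_apply', hy.1, hye, add_assoc]
        · rw [Function.iterate_succ_apply', hy.2.1, TS.conj _ hyU, hye, add_assoc]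
        · rw [Function.iterate_succ']
          apply HasDerivAt.comp
          · rw [hy.2.1]
            exact TS.dT _ hyU
          · exact hy.2.2
      · apply ContinuousAt.mul _ hDc
        apply Real.continuous_exp.continuousAt.comp
        exact ContinuousAt.comp (f := fun y : ℝ => y + t) (g := fun y => f (G y))
          (hfG _ (TS.sub hmem)) (by fun_prop)
      · exact mul_pos (Real.exp_pos _) hD0
  -- strictness for regular points
  have strict1 : ∀ x ∈ Ioo (-a) a, (∀ i, T0^[i] x ∈ U0) → Regular.Strict G x := by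
    intro x hx hor e he
    have hη' : ∀ᶠ n in atTop, η n < e / 4 := hη.eventually (gt_mem_nhds (by linarith))
    obtain ⟨n, hn⟩ := hη'.exists
    obtain ⟨i, hi⟩ := hhit x hx hor n
    obtain ⟨t, D, hev, hDc, hD0⟩ := iter x hor i
    have hxt : T0^[i] x = x + t := hev.self_of_nhds.1
    rw [hxt] at hi
    have hcont : Tendsto (fun y => y + t) (𝓝 x) (𝓝 (x + t)) := by
      have : ContinuousAt (fun y : ℝ => y + t) x := by fun_prop
      exact this
    have hin : ∀ᶠ y in 𝓝 x, y + t ∈ Ioo (-(eps n)) (eps n) :=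
      hcont.eventually (Ioo_mem_nhds hi.1 hi.2)
    obtain ⟨δ1, hδ1, h1⟩ := Regular.mvt (hcontE x hx) (hmonoE x hx)
      (hev.mono fun y hy => hy.2.2) hDc hD0 (e / 4) (by linarith)
    obtain ⟨δ2, hδ2, h2⟩ := Metric.eventually_nhds_iff.1 (hev.and hin)
    refine ⟨Real.exp (κ n - η n - e / 4) / D x, by positivity, min δ1 δ2, lt_min hδ1 hδ2, ?_⟩
    intro y z hy hz hyz
    have hy1 : |y - x| < δ1 := lt_of_lt_of_le hy (min_le_left _ _)
    have hy2 : |y - x| < δ2 := lt_of_lt_of_le hy (min_le_right _ _)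
    have hz1 : |z - x| < δ1 := lt_of_lt_of_le hz (min_le_left _ _)
    have hz2 : |z - x| < δ2 := lt_of_lt_of_le hz (min_le_right _ _)
    obtain ⟨m1, m2⟩ := h1 y z hy1 hz1 hyz
    have y2 := h2 (y := y) (by rw [Real.dist_eq]; exact hy2)
    have z2 := h2 (y := z) (by rw [Real.dist_eq]; exact hz2)
    rw [y2.1.2.1, z2.1.2.1] at m1 m2
    obtain ⟨q1, q2⟩ := hq n (y + t) (z + t) y2.2.1.le (by linarith) z2.2.2.le
    have hd : z + t - (y + t) = z - y := by ring
    rw [hd] at q1 q2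
    have hzy : 0 ≤ z - y := by linarith
    constructor
    · -- exp (κ-η-e/4)/D x (z-y) ≤ G z - G y
      rw [div_mul_eq_mul_div, div_le_iff₀ hD0]
      have e1 : Real.exp (κ n - η n - e / 4) * Real.exp (e / 4) = Real.exp (κ n - η n) := by
        rw [← Real.exp_add]; ring_nf
      have e2 : Real.exp (κ n - η n - e / 4) * Real.exp (e / 4) * (z - y) ≤
          Real.exp (e / 4) * D x * (G z - G y) := by
        rw [e1]; exact q1.trans m2
      have e3 : Real.exp (e / 4) * (Real.exp (κ n - η n - e / 4) * (z - y)) ≤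
          Real.exp (e / 4) * ((G z - G y) * D x) := by
        calc _ = Real.exp (κ n - η n - e / 4) * Real.exp (e / 4) * (z - y) := by ring
          _ ≤ _ := e2
          _ = _ := by ring
      exact le_of_mul_le_mul_left e3 (Real.exp_pos _)
    · have e1 : Real.exp (-(e / 4)) * D x * (G z - G y) ≤ Real.exp (κ n + η n) * (z - y) :=
        m1.trans q2
      have e2 : Real.exp (κ n + η n) ≤ Real.exp (-(e / 4)) * (Real.exp (κ n - η n - e / 4) *
          Real.exp e) := by
        rw [← Real.exp_add, ← Real.exp_add]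
        apply Real.exp_le_exp.2
        linarith
      have e3 : Real.exp (-(e / 4)) * ((G z - G y) * D x) ≤
          Real.exp (-(e / 4)) * (Real.exp (κ n - η n - e / 4) * Real.exp e * (z - y)) := by
        calc _ = Real.exp (-(e / 4)) * D x * (G z - G y) := by ring
          _ ≤ Real.exp (κ n + η n) * (z - y) := e1
          _ ≤ Real.exp (-(e / 4)) * (Real.exp (κ n - η n - e / 4) * Real.exp e) * (z - y) :=
            mul_le_mul_of_nonneg_right e2 hzy
          _ = _ := by ring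
      have e4 := le_of_mul_le_mul_left e3 (Real.exp_pos _)
      rw [div_mul_eq_mul_div, div_mul_eq_mul_div, le_div_iff₀ hD0]
      exact e4
  -- reflection
  have strict2 : ∀ x ∈ Ioo (-a) a, Regular.Strict G (-x) → Regular.Strict G x := by
    intro x hx hs e he
    have hx' : -x ∈ Ioo (-a) a := ⟨by linarith [hx.2], by linarith [hx.1]⟩
    obtain ⟨c, hc, δ1, hδ1, h1⟩ := hs (e / 3) (by linarith)
    have hD : ContinuousAt (fun y => -σ' (G y)) (-x) := by
      apply ContinuousAt.neg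
      have : ContinuousAt σ' (G (-x)) :=
        (hσc _ (hGm _ hx')).continuousAt (Ioo_mem_nhds (hGm _ hx').1 (hGm _ hx').2)
      exact ContinuousAt.comp (f := G) (g := σ') this (hcontG _ hx')
    have hev : ∀ᶠ y in 𝓝 (-x), HasDerivAt (fun u => -σ u) (-σ' (G y)) (G y) := by
      filter_upwards [Ioo_mem_nhds hx'.1 hx'.2] with y hy
      exact (hσd _ (hGm y hy)).neg
    have hpos : 0 < -σ' (G (-x)) := by
      have := hσ0 _ (hGm _ hx')
      linarith
    obtain ⟨δ2, hδ2, h2⟩ := Regular.mvt (hcontE _ hx') (hmonoE _ hx') hev hD hpos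
      (e / 3) (by linarith)
    obtain ⟨δ3, hδ3, h3⟩ := Metric.mem_nhds_iff.1 (Ioo_mem_nhds hx.1 hx.2)
    set s := -σ' (G (-x)) with hs_def
    refine ⟨Real.exp (-(e / 3)) * s * c, by positivity, min δ1 (min δ2 δ3),
      lt_min hδ1 (lt_min hδ2 hδ3), ?_⟩
    intro y z hy hz hyz
    have hny : |(-y) - (-x)| = |y - x| := by
      rw [show (-y) - (-x) = -(y - x) by ring, abs_neg]
    have hnz : |(-z) - (-x)| = |z - x| := by
      rw [show (-z) - (-x) = -(z - x) by ring, abs_neg]
    have hy1 := lt_of_lt_of_le hy (min_le_left _ _)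
    have hy2 := lt_of_lt_of_le hy ((min_le_right _ _).trans (min_le_left _ _))
    have hy3 := lt_of_lt_of_le hy ((min_le_right _ _).trans (min_le_right _ _))
    have hz1 := lt_of_lt_of_le hz (min_le_left _ _)
    have hz2 := lt_of_lt_of_le hz ((min_le_right _ _).trans (min_le_left _ _))
    have hz3 := lt_of_lt_of_le hz ((min_le_right _ _).trans (min_le_right _ _))
    obtain ⟨a1, a2⟩ := h1 (-z) (-y) (by rw [hnz]; exact hz1) (by rw [hny]; exact hy1)
      (by linarith)
    obtain ⟨b1, b2⟩ := h2 (-z) (-y) (by rw [hnz]; exact hz2) (by rw [hny]; exact hy2)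
      (by linarith)
    have hyI : y ∈ Ioo (-a) a := h3 (by rw [Metric.mem_ball, Real.dist_eq]; exact hy3)
    have hzI : z ∈ Ioo (-a) a := h3 (by rw [Metric.mem_ball, Real.dist_eq]; exact hz3)
    have sy : σ (G (-y)) = G y := by
      have := hσ (-y) ⟨by linarith [hyI.2], by linarith [hyI.1]⟩
      rwa [neg_neg] at this
    have sz : σ (G (-z)) = G z := by
      have := hσ (-z) ⟨by linarith [hzI.2], by linarith [hzI.1]⟩
      rwa [neg_neg] at this
    simp only [sy, sz] at b1 b2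
    have e0 : -G y - -G z = G z - G y := by ring
    rw [e0] at b1 b2
    have e1 : -y - -z = z - y := by ring
    rw [e1] at a1 a2
    constructor
    · refine le_trans ?_ b1
      rw [mul_assoc (Real.exp (-(e / 3)) * s) c]
      exact mul_le_mul_of_nonneg_left a1 (by positivity)
    · refine b2.trans ?_
      calc Real.exp (e / 3) * s * (G (-y) - G (-z))
          ≤ Real.exp (e / 3) * s * (c * Real.exp (e / 3) * (z - y)) :=
            mul_le_mul_of_nonneg_left a2 (by positivity)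
        _ = s * c * (Real.exp (e / 3) * Real.exp (e / 3)) * (z - y) := by ring
        _ = s * c * (Real.exp (-(e / 3)) * Real.exp e) * (z - y) := by
            rw [← Real.exp_add, ← Real.exp_add]
            ring_nf
        _ = Real.exp (-(e / 3)) * s * c * Real.exp e * (z - y) := by ring
  have strict : ∀ x ∈ Ioo (-a) a, Regular.Strict G x := by
    intro x hx
    rcases hreg x hx with h | h
    · exact strict1 x hx h
    · exact strict2 x hx (strict1 (-x) ⟨by linarith [hx.2], by linarith [hx.1]⟩ h)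
  have hlim := fun x (hx : x ∈ Ioo (-a) a) => Regular.limit (strict x hx)
  choose! g hg0 hg using hlim
  have hder : ∀ x ∈ Ioo (-a) a, HasDerivAt G (g x) x := fun x hx =>
    Regular.deriv (hg0 x hx) (hg x hx)
  refine ⟨g, ?_, fun x hx => ⟨hg0 x hx, hder x hx⟩⟩
  intro x hx
  have hL := hg0 x hx
  -- window for the values of g
  have hwin : ∀ e > 0, ∀ᶠ x' in 𝓝[Ioo (-a) a] x,
      Real.exp (-e) * g x ≤ g x' ∧ g x' ≤ Real.exp e * g x := by
    intro e he
    obtain ⟨δ, hδ, hall⟩ := hg x hx e he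
    have hball : Metric.ball x δ ∈ 𝓝[Ioo (-a) a] x := mem_nhdsWithin_of_mem_nhds
      (Metric.ball_mem_nhds x hδ)
    filter_upwards [hball, self_mem_nhdsWithin] with x' hx' hxI
    have hslope := hasDerivAt_iff_tendsto_slope.1 (hder x' hxI)
    have hslope' : Tendsto (slope G x') (𝓝[>] x') (𝓝 (g x')) :=
      hslope.mono_left (nhdsWithin_mono _ (fun y hy => (ne_of_gt hy)))
    have hev : ∀ᶠ y in 𝓝[>] x', Real.exp (-e) * g x ≤ slope G x' y ∧
        slope G x' y ≤ Real.exp e * g x := by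
      have h1 : ∀ᶠ y in 𝓝[>] x', y ∈ Metric.ball x δ :=
        mem_nhdsWithin_of_mem_nhds (Metric.isOpen_ball.mem_nhds hx')
      filter_upwards [h1, self_mem_nhdsWithin] with y hy hyx
      have hyx' : x' < y := hyx
      rw [Metric.mem_ball, Real.dist_eq] at hy hx'
      obtain ⟨h1, h2⟩ := hall x' y hx' hy hyx'.le
      rw [slope_def_field]
      have hp : 0 < y - x' := by linarith
      rw [le_div_iff₀ hp, div_le_iff₀ hp]
      exact ⟨h1, h2⟩
    exact ⟨ge_of_tendsto hslope' (hev.mono fun y hy => hy.1),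
      le_of_tendsto hslope' (hev.mono fun y hy => hy.2)⟩
  rw [ContinuousWithinAt, Metric.tendsto_nhds]
  intro ε hε
  have hlim : ∀ᶠ e in 𝓝[>] (0 : ℝ), (Real.exp e - 1) * g x < ε := by
    apply Filter.Eventually.filter_mono nhdsWithin_le_nhds
    have hcont : ContinuousAt (fun e : ℝ => (Real.exp e - 1) * g x) 0 := by fun_prop
    apply hcont.eventually (gt_mem_nhds _)
    simpa using hε
  obtain ⟨e, he, he0⟩ := (hlim.and self_mem_nhdsWithin).exists
  have he0' : (0 : ℝ) < e := he0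
  filter_upwards [hwin e he0'] with x' hx'
  have hex : 1 - Real.exp (-e) ≤ Real.exp e - 1 := by
    have h1 : Real.exp (-e) * Real.exp e = 1 := by rw [← Real.exp_add]; simp
    nlinarith [Real.exp_pos (-e), Real.exp_pos e, sq_nonneg (Real.exp e - 1)]
  rw [Real.dist_eq, abs_lt]
  constructor
  · nlinarith [hx'.1]
  · nlinarith [hx'.2]

end Pool.Agent.Helper22.Rev
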