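import Mathlib
import Pool.Agent.Helper22.Rev.Defs
import Pool.Agent.Helper22.Rev.TowB
import Pool.Agent.Helper22.Rev.Local

/-!
# RV-8: difference quotients of the conjugacy on the bases of the towers
-/

set_option autoImplicit false

open Set Filter Topology

namespace Pool.Agent.Helper22.Rev

namespace Spread

/-! ### numerical part -/

theorem sp_iter {u : ℕ → ℝ} {A q E : ℝ} {N : ℕ} (hA : ∀ n, u n ≤ A) (hq0 : 0 ≤ q) (hq1 : q < 1)
    (h : ∀ n, N ≤ n → ∃ m, n ≤ m ∧ u n ≤ q * u m + E) (n : ℕ) (hn : N ≤ n) :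
    u n ≤ E / (1 - q) := by
  have hpos : 0 < 1 - q := by linarith
  have key : ∀ k : ℕ, ∀ n, N ≤ n → u n ≤ q ^ k * (A - E / (1 - q)) + E / (1 - q) := by
    intro k
    induction k with
    | zero => intro n _; simpa using hA n
    | succ k ih =>
      intro n hn
      obtain ⟨m, hm, h1⟩ := h n hn
      have h2 := mul_le_mul_of_nonneg_left (ih m (hn.trans hm)) hq0
      have h3 : q * (E / (1 - q)) + E = E / (1 - q) := by
        field_simp
        ring
      have h4 : q * (q ^ k * (A - E / (1 - q)) + E / (1 - q)) + E =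
          q ^ (k + 1) * (A - E / (1 - q)) + (q * (E / (1 - q)) + E) := by ring
      rw [h3] at h4
      linarith
  have hlim : Tendsto (fun k : ℕ => q ^ k * (A - E / (1 - q)) + E / (1 - q)) atTop
      (𝓝 (0 * (A - E / (1 - q)) + E / (1 - q))) :=
    ((tendsto_pow_atTop_nhds_zero_of_lt_one hq0 hq1).mul_const _).add_const _
  have := ge_of_tendsto' hlim fun k => key k n hn
  simpa using this

theorem sp_ratio {M m b : ℕ → ℝ} {c D : ℝ} (hc0 : 0 < c) (hc1 : c ≤ 1) (hD : 1 ≤ D)
    (hm : ∀ n, 0 < m n) (hmM : ∀ n, m n ≤ M n) (hb0 : ∀ n, 0 ≤ b n)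
    (hb : Tendsto b atTop (𝓝 0))
    (hM1 : ∀ n, M n ≤ Real.exp (b n) * M (n + 1))
    (hm1 : ∀ n, Real.exp (-b n) * m (n + 1) ≤ m n)
    (hgood : ∀ n, Even n → ∃ p, m (n + 1) ≤ p ∧ M n ≤ Real.exp (b n) * (c * p + (1 - c) * M (n + 1)) ∧
      Real.exp (-b n) * (c * p + (1 - c) * m (n + 1)) ≤ m n ∧ M n ≤ Real.exp (b n) * (D * p) ∧
      Real.exp (-b n) * (p / D) ≤ m n) :
    Tendsto (fun n => M n / m n) atTop (𝓝 1) := by
  have hM : ∀ n, 0 < M n := fun n => (hm n).trans_le (hmM n)
  -- combining an upper bound for `M` and a lower bound for `m`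
  have comb : ∀ n U V Y : ℝ, ∀ k : ℕ, M k ≤ Real.exp (b k) * U → Real.exp (-b k) * V ≤ m k →
      0 < V → U ≤ Y * V → M k / m k ≤ Real.exp (2 * b k) * Y := by
    intro _ U V Y k h1 h2 hV hUV
    rw [div_le_iff₀ (hm k)]
    have h3 : Real.exp (2 * b k) = Real.exp (b k) * Real.exp (b k) := by
      rw [← Real.exp_add]; congr 1; ring
    have h4 : Real.exp (b k) * Real.exp (-b k) = 1 := by
      rw [← Real.exp_add, add_neg_cancel, Real.exp_zero]
    have hY : 0 ≤ Y := by
      by_contra hneg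
      rw [not_le] at hneg
      have h5 := mul_neg_of_neg_of_pos hneg hV
      have h6 := mul_neg_of_pos_of_neg (Real.exp_pos (b k)) (lt_of_le_of_lt hUV h5)
      linarith [hM k]
    calc M k ≤ Real.exp (b k) * U := h1
      _ ≤ Real.exp (b k) * (Y * V) := mul_le_mul_of_nonneg_left hUV (Real.exp_pos _).le
      _ = Real.exp (b k) * Real.exp (b k) * Y * (Real.exp (-b k) * V) := by
        rw [show Real.exp (b k) * Real.exp (b k) * Y * (Real.exp (-b k) * V) =
          Real.exp (b k) * (Y * V) * (Real.exp (b k) * Real.exp (-b k)) by ring, h4, mul_one]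
      _ ≤ Real.exp (b k) * Real.exp (b k) * Y * m k :=
        mul_le_mul_of_nonneg_left h2 (by positivity)
      _ = Real.exp (2 * b k) * Y * m k := by rw [h3]
  have hX1 : ∀ n, 1 ≤ M n / m n := fun n => (one_le_div₀ (hm n)).2 (hmM n)
  have hall : ∀ n, M n / m n ≤ Real.exp (2 * b n) * (M (n + 1) / m (n + 1)) := by
    intro n
    refine comb 0 (M (n + 1)) (m (n + 1)) _ n (hM1 n) (hm1 n) (hm _) ?_
    rw [div_mul_cancel₀ _ (hm (n + 1)).ne']
  have heven : ∀ n, Even n → M n / m n ≤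
      Real.exp (2 * b n) * (1 + (1 - c) * (M (n + 1) / m (n + 1) - 1)) := by
    intro n hn
    obtain ⟨p, hp, h1, h2, -, -⟩ := hgood n hn
    have hmp := hm (n + 1)
    refine comb 0 _ _ _ n h1 h2 ?_ ?_
    · have := mul_nonneg (show 0 ≤ 1 - c by linarith) hmp.le
      have := mul_pos hc0 (hmp.trans_le hp)
      linarith
    · set X := M (n + 1) / m (n + 1) with hX
      have hMX : M (n + 1) = X * m (n + 1) := by rw [hX, div_mul_cancel₀ _ hmp.ne']
      have hX1' := hX1 (n + 1)
      rw [hMX]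
      have h3 : (1 + (1 - c) * (X - 1)) * (c * p + (1 - c) * m (n + 1)) -
          (c * p + (1 - c) * (X * m (n + 1))) = (1 - c) * c * (X - 1) * (p - m (n + 1)) := by ring
      have h4 : 0 ≤ (1 - c) * c * (X - 1) * (p - m (n + 1)) :=
        mul_nonneg (mul_nonneg (mul_nonneg (by linarith) hc0.le) (by linarith)) (by linarith)
      linarith
  have hbd : ∀ n, Even n → M n / m n ≤ Real.exp (2 * b n) * D ^ 2 := by
    intro n hn
    obtain ⟨p, hp, -, -, h1, h2⟩ := hgood n hn
    have hp0 : 0 < p := (hm (n + 1)).trans_le hp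
    have hD0 : 0 < D := by linarith
    refine comb 0 _ _ _ n h1 h2 (by positivity) ?_
    have : D ^ 2 * (p / D) = D * p := by field_simp
    rw [this]
  obtain ⟨b0, hb0'⟩ := hb.bddAbove_range
  have hbb : ∀ n, b n ≤ b0 := fun n => hb0' ⟨n, rfl⟩
  have hb00 : 0 ≤ b0 := (hb0 0).trans (hbb 0)
  set A := Real.exp (4 * b0) * D ^ 2 with hA
  have hXA : ∀ n, M n / m n ≤ A := by
    intro n
    rcases Nat.even_or_odd n with h | h
    · refine (hbd n h).trans (mul_le_mul_of_nonneg_right ?_ (by positivity))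
      exact Real.exp_le_exp.2 (by linarith [hbb n])
    · refine (hall n).trans ?_
      have h1 := hbd (n + 1) h.add_one
      have h2 : Real.exp (2 * b n) * (M (n + 1) / m (n + 1)) ≤
          Real.exp (2 * b0) * (Real.exp (2 * b0) * D ^ 2) := by
        refine mul_le_mul (Real.exp_le_exp.2 (by linarith [hbb n])) (h1.trans
          (mul_le_mul_of_nonneg_right (Real.exp_le_exp.2 (by linarith [hbb (n + 1)]))
            (by positivity))) (by linarith [hX1 (n + 1)]) (Real.exp_pos _).le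
      refine h2.trans (le_of_eq ?_)
      rw [hA, ← mul_assoc, ← Real.exp_add]
      congr 2
      ring
  have hA1 : 1 ≤ A := (hX1 0).trans (hXA 0)
  -- the errors
  set e : ℕ → ℝ := fun n => (Real.exp (2 * b n) - 1) * A with he
  have he0 : ∀ n, 0 ≤ e n := by
    intro n
    refine mul_nonneg ?_ (by linarith)
    have := Real.one_le_exp (show 0 ≤ 2 * b n by linarith [hb0 n])
    linarith
  have helim : Tendsto e atTop (𝓝 0) := by
    have h1 : Tendsto (fun n => (Real.exp (2 * b n) - 1) * A) atTop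
        (𝓝 ((Real.exp (2 * 0) - 1) * A)) :=
      (((Real.continuous_exp.tendsto _).comp (hb.const_mul 2)).sub_const 1).mul_const A
    simpa using h1
  have hu_all : ∀ n, M n / m n - 1 ≤ (M (n + 1) / m (n + 1) - 1) + e n := by
    intro n
    have h1 := hall n
    have h2 := hXA (n + 1)
    have h3 : 0 ≤ Real.exp (2 * b n) - 1 := by
      have := Real.one_le_exp (show 0 ≤ 2 * b n by linarith [hb0 n])
      linarith
    have h4 := mul_le_mul_of_nonneg_left h2 h3
    simp only [he]
    nlinarith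
  have hu_even : ∀ n, Even n → M n / m n - 1 ≤ (1 - c) * (M (n + 1) / m (n + 1) - 1) + e n := by
    intro n hn
    have h1 := heven n hn
    have h2 := hXA (n + 1)
    have h2' := hX1 (n + 1)
    have h3 : 0 ≤ Real.exp (2 * b n) - 1 := by
      have := Real.one_le_exp (show 0 ≤ 2 * b n by linarith [hb0 n])
      linarith
    have h4 : 1 + (1 - c) * (M (n + 1) / m (n + 1) - 1) ≤ A := by
      have : (1 - c) * (M (n + 1) / m (n + 1) - 1) ≤ 1 * (M (n + 1) / m (n + 1) - 1) :=
        mul_le_mul_of_nonneg_right (by linarith) (by linarith)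
      linarith
    have h5 := mul_le_mul_of_nonneg_left h4 h3
    simp only [he]
    nlinarith
  rw [Metric.tendsto_atTop]
  intro ε hε
  have hεc : 0 < ε * c / 4 := by positivity
  obtain ⟨N, hN⟩ := (Metric.tendsto_atTop.1 helim) (ε * c / 4) hεc
  have heN : ∀ n, N ≤ n → e n ≤ ε * c / 4 := by
    intro n hn
    have := hN n hn
    rw [Real.dist_eq, sub_zero, abs_of_nonneg (he0 n)] at this
    exact this.le
  refine ⟨N, fun n hn => ?_⟩
  have h1 := sp_iter (u := fun n => M n / m n - 1) (A := A) (q := 1 - c) (E := ε * c / 2) (N := N)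
    (fun n => by have := hXA n; linarith) (by linarith) (by linarith) (by
      intro n hn
      rcases Nat.even_or_odd n with h | h
      · refine ⟨n + 1, Nat.le_succ n, ?_⟩
        have h2 := hu_even n h
        have h3 := heN n hn
        linarith
      · refine ⟨n + 2, by omega, ?_⟩
        have h2 := hu_all n
        have h3 := hu_even (n + 1) h.add_one
        have h4 := heN n hn
        have h5 := heN (n + 1) (by omega)
        linarith) n hn
  have h6 : ε * c / 2 / (1 - (1 - c)) = ε / 2 := by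
    rw [sub_sub_cancel]
    field_simp
  rw [h6] at h1
  have h7 := hX1 n
  rw [Real.dist_eq, abs_of_nonneg (by linarith)]
  linarith

/-! ### partitions of the bases -/

section part

variable {d : ℕ} {T0 : ℝ → ℝ} {U0 : Set ℝ} {a : ℝ} {G T f f1 f2 : ℝ → ℝ} {C : ℝ}

theorem glen_pos (TS : TSide T0 U0 a G T f f1 f2 C) (P : Tow d T0 U0 a) (α : Fin d) :
    0 < G (P.hi α) - G (P.lo α) :=
  sub_pos.2 (TS.gmono (Local.base_sub P α ⟨le_rfl, (P.lt α).le⟩)
    (Local.base_sub P α ⟨(P.lt α).le, le_rfl⟩) (P.lt α))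

/-- A partition of the base intervals of `P` into translates of base intervals of `W`, of cost
`c`: `(β, δ)` stands for the interval `β` of `W` translated by `-δ`. -/
structure Part (G : ℝ → ℝ) (P W : Tow d T0 U0 a) (c : ℝ) where
  L : Fin d → List (Fin d × ℝ)
  tile : ∀ (α : Fin d) (F : ℝ → ℝ),
    ((L α).map fun p => F (W.hi p.1 - p.2) - F (W.lo p.1 - p.2)).sum = F (P.hi α) - F (P.lo α)
  sub : ∀ α, ∀ p ∈ L α, P.lo α ≤ W.lo p.1 - p.2 ∧ W.hi p.1 - p.2 ≤ P.hi α
  cost : ∀ α, ∀ p ∈ L α, ∀ x y : ℝ, W.lo p.1 ≤ x → x ≤ y → y ≤ W.hi p.1 →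
    Real.exp (-c) * (G y - G x) ≤ G (y - p.2) - G (x - p.2) ∧
      G (y - p.2) - G (x - p.2) ≤ Real.exp c * (G y - G x)

/-- the trivial partition -/
def Part.one (G : ℝ → ℝ) (P : Tow d T0 U0 a) : Part G P P 0 where
  L := fun α => [(α, 0)]
  tile := fun α F => by simp
  sub := fun α p hp => by
    rw [List.mem_singleton] at hp
    subst hp
    simp
  cost := fun α p hp x y _ _ _ => by
    rw [List.mem_singleton] at hp
    subst hp
    simp

/-- composition of partitions -/
def Part.comp {P W W' : Tow d T0 U0 a} {c c' : ℝ}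
    (p : Part G P W c) (p' : Part G W W' c') : Part G P W' (c + c') where
  L := fun α => (p.L α).flatMap fun x => (p'.L x.1).map fun y => (y.1, y.2 + x.2)
  tile := fun α F => by
    rw [← p.tile α F, List.map_flatMap]
    have h1 : ∀ x ∈ p.L α, (((p'.L x.1).map fun y => (y.1, y.2 + x.2)).map
        fun q : Fin d × ℝ => F (W'.hi q.1 - q.2) - F (W'.lo q.1 - q.2)).sum =
        F (W.hi x.1 - x.2) - F (W.lo x.1 - x.2) := by
      intro x _
      rw [← p'.tile x.1 fun z => F (z - x.2), List.map_map]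
      congr 1
      refine List.map_congr_left fun y _ => ?_
      simp only [Function.comp_apply, sub_sub]
    rw [List.flatMap, List.sum_flatten, List.map_map]
    congr 1
    exact List.map_congr_left h1
  sub := fun α q hq => by
    rw [List.mem_flatMap] at hq
    obtain ⟨x, hx, hq⟩ := hq
    rw [List.mem_map] at hq
    obtain ⟨y, hy, rfl⟩ := hq
    have h1 := p.sub α x hx
    have h2 := p'.sub x.1 y hy
    simp only
    constructor <;> linarith [h1.1, h1.2, h2.1, h2.2]
  cost := fun α q hq => by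
    rw [List.mem_flatMap] at hq
    obtain ⟨x, hx, hq⟩ := hq
    rw [List.mem_map] at hq
    obtain ⟨y, hy, rfl⟩ := hq
    intro u v hu huv hv
    have h2 := p'.sub x.1 y hy
    have h3 := p'.cost x.1 y hy u v hu huv hv
    have h4 := p.cost α x hx (u - y.2) (v - y.2) (by linarith [h2.1]) (by linarith)
      (by linarith [h2.2])
    simp only
    have e1 : v - (y.2 + x.2) = v - y.2 - x.2 := by ring
    have e2 : u - (y.2 + x.2) = u - y.2 - x.2 := by ring
    rw [e1, e2]
    constructor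
    · refine le_trans ?_ h4.1
      rw [show -(c + c') = -c + -c' by ring, Real.exp_add, mul_assoc]
      exact mul_le_mul_of_nonneg_left h3.1 (Real.exp_pos _).le
    · refine h4.2.trans ?_
      rw [Real.exp_add, mul_assoc]
      exact mul_le_mul_of_nonneg_left h3.2 (Real.exp_pos _).le

theorem step_cost (TS : TSide T0 U0 a G T f f1 f2 C) (P : Tow d T0 U0 a) {b : ℝ}
    (hF : ∀ α, ∀ x ∈ Icc (P.lo α) (P.hi α), |P.F (fun z => f (G z)) α x| ≤ b)
    (α : Fin d) {x y : ℝ} (hx : P.lo α ≤ x) (hxy : x ≤ y) (hy : y ≤ P.hi α) :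
    Real.exp (-b) * (G y - G x) ≤ G (y - P.s α) - G (x - P.s α) ∧
      G (y - P.s α) - G (x - P.s α) ≤ Real.exp b * (G y - G x) := by
  have h := Local.lengths P α TS (le_refl (P.r α)) hx hxy hy (-b) b
    (fun z hz => abs_le.1 (hF α z hz))
  have e : P.sh α (P.r α) = -P.s α := P.sh_ret α
  rw [e, ← sub_eq_add_neg, ← sub_eq_add_neg] at h
  exact h

theorem iter_cost (TS : TSide T0 U0 a G T f f1 f2 C) {P W : Tow d T0 U0 a} (R : Refine P W)
    {b : ℝ} (hF : ∀ α, ∀ x ∈ Icc (P.lo α) (P.hi α), |P.F (fun z => f (G z)) α x| ≤ b)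
    (β : Fin d) : ∀ j ≤ (R.it β).length, ∀ x y : ℝ, W.lo β ≤ x → x ≤ y → y ≤ W.hi β →
      Real.exp (-(j * b)) * (G y - G x) ≤
        G (y - P.disp (R.it β) j) - G (x - P.disp (R.it β) j) ∧
      G (y - P.disp (R.it β) j) - G (x - P.disp (R.it β) j) ≤ Real.exp (j * b) * (G y - G x) := by
  intro j
  induction j with
  | zero =>
    intro _ x y _ _ _
    simp
  | succ j ih =>
    intro hj x y hx hxy hy
    have hj' : j < (R.it β).length := hj
    have h1 := ih hj'.le x y hx hxy hy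
    have h2 := R.piece_sub β hj'
    have h3 := step_cost TS P hF (R.it β)[j] (x := x - P.disp (R.it β) j)
      (y := y - P.disp (R.it β) j) (by linarith [h2.1]) (by linarith) (by linarith [h2.2])
    rw [P.disp_succ _ hj', ← sub_sub, ← sub_sub]
    push_cast
    constructor
    · refine le_trans ?_ h3.1
      rw [show -((j + 1 : ℝ) * b) = -b + -(j * b) by ring, Real.exp_add, mul_assoc]
      exact mul_le_mul_of_nonneg_left h1.1 (Real.exp_pos _).le
    · refine h3.2.trans ?_
      rw [show (j + 1 : ℝ) * b = b + j * b by ring, Real.exp_add, mul_assoc]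
      exact mul_le_mul_of_nonneg_left h1.2 (Real.exp_pos _).le

theorem g_mono (TS : TSide T0 U0 a G T f f1 f2 C) (W : Tow d T0 U0 a) (β : Fin d) {x y : ℝ}
    (hx : W.lo β ≤ x) (hxy : x ≤ y) (hy : y ≤ W.hi β) : 0 ≤ G y - G x :=
  sub_nonneg.2 (TS.gmono.monotoneOn (Local.base_sub W β ⟨hx, hxy.trans hy⟩)
    (Local.base_sub W β ⟨hx.trans hxy, hy⟩) hxy)

/-- one refinement -/
noncomputable def Part.single (TS : TSide T0 U0 a G T f f1 f2 C) {P W : Tow d T0 U0 a}
    (R : Refine P W) {b c : ℝ} (hb : 0 ≤ b)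
    (hF : ∀ α, ∀ x ∈ Icc (P.lo α) (P.hi α), |P.F (fun z => f (G z)) α x| ≤ b)
    (hc : ∀ β, ((R.it β).length : ℝ) * b ≤ c) : Part G P W c where
  L := fun α => (R.pieces α).toList.map fun p => (p.1, P.disp (R.it p.1) p.2)
  tile := fun α F => by
    rw [← R.sum_pieces α F, List.map_map, ← Finset.sum_map_toList]
    rfl
  sub := fun α q hq => by
    rw [List.mem_map] at hq
    obtain ⟨p, hp, rfl⟩ := hq
    rw [Finset.mem_toList] at hp
    rw [← (R.mem_pieces α p).1 hp]
    exact R.piece_sub' p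
  cost := fun α q hq => by
    rw [List.mem_map] at hq
    obtain ⟨p, hp, rfl⟩ := hq
    intro x y hx hxy hy
    have h1 := iter_cost TS R hF p.1 p.2 p.2.2.le x y hx hxy hy
    have h2 := g_mono TS W p.1 hx hxy hy
    have h3 : ((p.2 : ℕ) : ℝ) * b ≤ c := by
      refine le_trans (mul_le_mul_of_nonneg_right ?_ hb) (hc p.1)
      exact_mod_cast p.2.2.le
    constructor
    · exact le_trans (mul_le_mul_of_nonneg_right (Real.exp_le_exp.2 (by linarith)) h2) h1.1
    · exact h1.2.trans (mul_le_mul_of_nonneg_right (Real.exp_le_exp.2 h3) h2)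

theorem Part.piece_bounds {P W : Tow d T0 U0 a} {c m M : ℝ} (p : Part G P W c)
    (h : ∀ β, m * (W.hi β - W.lo β) ≤ G (W.hi β) - G (W.lo β) ∧
      G (W.hi β) - G (W.lo β) ≤ M * (W.hi β - W.lo β)) (α : Fin d) (q : Fin d × ℝ)
    (hq : q ∈ p.L α) :
    Real.exp (-c) * m * ((W.hi q.1 - q.2) - (W.lo q.1 - q.2)) ≤
      G (W.hi q.1 - q.2) - G (W.lo q.1 - q.2) ∧
    G (W.hi q.1 - q.2) - G (W.lo q.1 - q.2) ≤
      Real.exp c * M * ((W.hi q.1 - q.2) - (W.lo q.1 - q.2)) := by
  have h1 := p.cost α q hq (W.lo q.1) (W.hi q.1) le_rfl (W.lt q.1).le le_rfl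
  have h2 := h q.1
  have e : (W.hi q.1 - q.2) - (W.lo q.1 - q.2) = W.hi q.1 - W.lo q.1 := by ring
  rw [e]
  constructor
  · refine le_trans ?_ h1.1
    rw [mul_assoc]
    exact mul_le_mul_of_nonneg_left h2.1 (Real.exp_pos _).le
  · refine h1.2.trans ?_
    rw [mul_assoc]
    exact mul_le_mul_of_nonneg_left h2.2 (Real.exp_pos _).le

theorem Part.bounds {P W : Tow d T0 U0 a} {c m M : ℝ} (p : Part G P W c)
    (h : ∀ β, m * (W.hi β - W.lo β) ≤ G (W.hi β) - G (W.lo β) ∧
      G (W.hi β) - G (W.lo β) ≤ M * (W.hi β - W.lo β)) (α : Fin d) :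
    Real.exp (-c) * m * (P.hi α - P.lo α) ≤ G (P.hi α) - G (P.lo α) ∧
    G (P.hi α) - G (P.lo α) ≤ Real.exp c * M * (P.hi α - P.lo α) := by
  constructor
  · have h1 := p.tile α fun z => Real.exp (-c) * m * z
    have e : Real.exp (-c) * m * (P.hi α - P.lo α) =
      Real.exp (-c) * m * P.hi α - Real.exp (-c) * m * P.lo α := by ring
    rw [e, ← h1, ← p.tile α G]
    refine List.sum_le_sum fun q hq => ?_
    rw [← mul_sub]
    exact (p.piece_bounds h α q hq).1
  · have h1 := p.tile α fun z => Real.exp c * M * z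
    have e : Real.exp c * M * (P.hi α - P.lo α) =
      Real.exp c * M * P.hi α - Real.exp c * M * P.lo α := by ring
    rw [e, ← h1, ← p.tile α G]
    refine List.sum_le_sum fun q hq => ?_
    rw [← mul_sub]
    exact (p.piece_bounds h α q hq).2

/-- clamping to the interval `[u, v]` -/
def cl (u v z : ℝ) : ℝ := max u (min v z)

theorem cl_mono (u v : ℝ) : Monotone (cl u v) := fun _ _ h =>
  max_le_max le_rfl (min_le_min le_rfl h)

theorem cl_left {u v z : ℝ} (h : z ≤ u) : cl u v z = u :=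
  max_eq_left ((min_le_right _ _).trans h)

theorem cl_right {u v z : ℝ} (huv : u ≤ v) (h : v ≤ z) : cl u v z = v := by
  rw [cl, min_eq_left h, max_eq_right huv]

theorem cl_mid {u v z : ℝ} (h1 : u ≤ z) (h2 : z ≤ v) : cl u v z = z := by
  rw [cl, min_eq_right h2, max_eq_right h1]

theorem cl_mem {u v : ℝ} (huv : u ≤ v) (z : ℝ) : u ≤ cl u v z ∧ cl u v z ≤ v :=
  ⟨le_max_left _ _, max_le huv (min_le_left _ _)⟩

theorem cl_le {u v z : ℝ} (h : u ≤ z) : cl u v z ≤ z := max_le h (min_le_right _ _)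

theorem le_cl {u v z : ℝ} (h : z ≤ v) : z ≤ cl u v z := by
  rw [cl, min_eq_right h]
  exact le_max_right _ _

theorem Part.cover {P W : Tow d T0 U0 a} {c : ℝ} (p : Part G P W c)
    (hG : MonotoneOn G (Icc (-P.eps) P.eps)) {D ρ ρ' : ℝ} (hD : ∀ β, W.hi β - W.lo β ≤ D)
    (hD0 : 0 ≤ D) (hρ : 0 ≤ ρ) (hρ' : 0 ≤ ρ')
    (hp : ∀ α, ∀ q ∈ p.L α, ρ' * ((W.hi q.1 - q.2) - (W.lo q.1 - q.2)) ≤
      G (W.hi q.1 - q.2) - G (W.lo q.1 - q.2) ∧
      G (W.hi q.1 - q.2) - G (W.lo q.1 - q.2) ≤ ρ * ((W.hi q.1 - q.2) - (W.lo q.1 - q.2)))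
    {x y : ℝ} (hx : -P.eps ≤ x) (hxy : x ≤ y) (hy : y ≤ P.eps) :
    ρ' * (y - x - 2 * D) ≤ G y - G x ∧ G y - G x ≤ ρ * (y - x + 2 * D) := by
  have htot : ∀ F : ℝ → ℝ, ∑ α, ((p.L α).map fun q => F (W.hi q.1 - q.2) - F (W.lo q.1 - q.2)).sum =
      F P.eps - F (-P.eps) := by
    intro F
    rw [← P.sum_base F]
    exact Finset.sum_congr rfl fun α _ => p.tile α F
  have hcl1 : cl x y P.eps = y := cl_right hxy hy
  have hcl2 : cl x y (-P.eps) = x := cl_left hx
  have hGtot := htot fun z => G (cl x y z)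
  rw [hcl1, hcl2] at hGtot
  have hmem : ∀ z, cl x y z ∈ Icc (-P.eps) P.eps := fun z =>
    ⟨hx.trans (cl_mem hxy z).1, (cl_mem hxy z).2.trans hy⟩
  constructor
  · rcases lt_or_ge (y - D) (x + D) with h | h
    · have h1 : 0 ≤ G y - G x := sub_nonneg.2 (hG ⟨hx, hxy.trans hy⟩ ⟨hx.trans hxy, hy⟩ hxy)
      have h2 : ρ' * (y - x - 2 * D) ≤ 0 := mul_nonpos_of_nonneg_of_nonpos hρ' (by linarith)
      linarith
    · have h3 := htot fun z => ρ' * cl (x + D) (y - D) z
      rw [cl_right h (by linarith), cl_left (by linarith)] at h3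
      have e : ρ' * (y - x - 2 * D) = ρ' * (y - D) - ρ' * (x + D) := by ring
      rw [e, ← h3, ← hGtot]
      refine Finset.sum_le_sum fun α _ => List.sum_le_sum fun q hq => ?_
      have hsub := p.sub α q hq
      have hlo := P.lo_ge α
      have hhi := P.hi_le α
      have hlt := W.lt q.1
      have hDq := hD q.1
      have hpq := (hp α q hq).1
      set l := W.lo q.1 - q.2 with hl
      set u := W.hi q.1 - q.2 with hu
      have hlu : l ≤ u := by rw [hl, hu]; linarith
      have hluD : u - l ≤ D := by rw [hl, hu]; linarith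
      have hnn : 0 ≤ G (cl x y u) - G (cl x y l) :=
        sub_nonneg.2 (hG (hmem l) (hmem u) (cl_mono x y hlu))
      rcases le_or_gt u (x + D) with h4 | h4
      · rw [cl_left h4, cl_left (hlu.trans h4), sub_self]
        exact hnn
      rcases le_or_gt (y - D) l with h5 | h5
      · rw [cl_right h h5, cl_right h (h5.trans hlu), sub_self]
        exact hnn
      rw [cl_mid (show x ≤ u by linarith) (show u ≤ y by linarith),
        cl_mid (show x ≤ l by linarith) (show l ≤ y by linarith), ← mul_sub]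
      refine le_trans (mul_le_mul_of_nonneg_left ?_ hρ') hpq
      have h6 : cl (x + D) (y - D) u ≤ u := cl_le h4.le
      have h7 : l ≤ cl (x + D) (y - D) l := le_cl h5.le
      linarith
  · have h3 := htot fun z => ρ * cl (x - D) (y + D) z
    have h8 : ρ * cl (x - D) (y + D) P.eps - ρ * cl (x - D) (y + D) (-P.eps) ≤
        ρ * (y - x + 2 * D) := by
      rw [← mul_sub]
      refine mul_le_mul_of_nonneg_left ?_ hρ
      have h9 := cl_mem (show x - D ≤ y + D by linarith) P.eps
      have h10 := cl_mem (show x - D ≤ y + D by linarith) (-P.eps)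
      linarith [h9.2, h10.1]
    refine le_trans ?_ h8
    rw [← h3, ← hGtot]
    refine Finset.sum_le_sum fun α _ => List.sum_le_sum fun q hq => ?_
    have hsub := p.sub α q hq
    have hlo := P.lo_ge α
    have hhi := P.hi_le α
    have hlt := W.lt q.1
    have hDq := hD q.1
    have hpq := (hp α q hq).2
    set l := W.lo q.1 - q.2 with hl
    set u := W.hi q.1 - q.2 with hu
    have hlu : l ≤ u := by rw [hl, hu]; linarith
    have hluD : u - l ≤ D := by rw [hl, hu]; linarith
    have hnn : 0 ≤ ρ * cl (x - D) (y + D) u - ρ * cl (x - D) (y + D) l := by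
      rw [← mul_sub]
      exact mul_nonneg hρ (sub_nonneg.2 (cl_mono _ _ hlu))
    rcases le_or_gt u x with h4 | h4
    · rw [cl_left h4, cl_left (hlu.trans h4), sub_self]
      exact hnn
    rcases le_or_gt y l with h5 | h5
    · rw [cl_right hxy h5, cl_right hxy (h5.trans hlu), sub_self]
      exact hnn
    rw [cl_mid (show x - D ≤ u by linarith) (show u ≤ y + D by linarith),
      cl_mid (show x - D ≤ l by linarith) (show l ≤ y + D by linarith), ← mul_sub]
    refine le_trans ?_ hpq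
    have hlm : l ∈ Icc (-P.eps) P.eps := ⟨by linarith [hsub.1], by linarith [hsub.2]⟩
    have hum : u ∈ Icc (-P.eps) P.eps := ⟨by linarith [hsub.1], by linarith [hsub.2]⟩
    have h6 : G (cl x y u) ≤ G u := hG (hmem u) hum (cl_le h4.le)
    have h7 : G l ≤ G (cl x y l) := hG hlm (hmem l) (le_cl h5.le)
    linarith

/-- the bases decrease -/
theorem eps_anti {P W : Tow d T0 U0 a} (R : Refine P W) : W.eps ≤ P.eps := by
  classical
  have h := sum_le_of_disjoint Finset.univ W.lo W.hi (-P.eps) P.eps (by linarith [P.eps_nonneg])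
    (fun α _ => W.lt α) (fun β _ => by
      have h0 : 0 < (R.it β).length := List.length_pos_of_ne_nil (R.it_ne_nil β)
      have h1 := R.piece_sub β h0
      have h2 := P.lo_ge (R.it β)[0]
      rw [Tow.disp_zero] at h1
      linarith [h1.1]) (fun β _ => by
      have h0 : 0 < (R.it β).length := List.length_pos_of_ne_nil (R.it_ne_nil β)
      have h1 := R.piece_sub β h0
      have h2 := P.hi_le (R.it β)[0]
      rw [Tow.disp_zero] at h1
      linarith [h1.2])
    (fun α _ β _ hne => W.base_disj hne) id (monotone_id.monotoneOn _)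
  simp only [id] at h
  rw [W.total] at h
  linarith

/-- lengths of the coarse intervals in terms of the fine ones -/
theorem glen_count {P W : Tow d T0 U0 a} (R : Refine P W) {c : ℝ}
    (hcost : ∀ p : Σ β : Fin d, Fin (R.it β).length,
      Real.exp (-c) * (G (W.hi p.1) - G (W.lo p.1)) ≤
        G (W.hi p.1 - P.disp (R.it p.1) p.2) - G (W.lo p.1 - P.disp (R.it p.1) p.2) ∧
      G (W.hi p.1 - P.disp (R.it p.1) p.2) - G (W.lo p.1 - P.disp (R.it p.1) p.2) ≤
        Real.exp c * (G (W.hi p.1) - G (W.lo p.1))) (α : Fin d) :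
    Real.exp (-c) * ∑ β, ((R.it β).count α : ℝ) * (G (W.hi β) - G (W.lo β)) ≤
      G (P.hi α) - G (P.lo α) ∧
    G (P.hi α) - G (P.lo α) ≤
      Real.exp c * ∑ β, ((R.it β).count α : ℝ) * (G (W.hi β) - G (W.lo β)) := by
  rw [← R.sum_pieces α G, ← R.pieces_card α fun β => G (W.hi β) - G (W.lo β), Finset.mul_sum,
    Finset.mul_sum]
  exact ⟨Finset.sum_le_sum fun p _ => (hcost p).1, Finset.sum_le_sum fun p _ => (hcost p).2⟩

/-- weighted sums with weights between `2` and `B` -/
theorem count_sum (B : ℝ) (hd : 0 < d) (k : Fin d → ℝ) (hk2 : ∀ β, 2 ≤ k β) (hkB : ∀ β, k β ≤ B)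
    (l g : Fin d → ℝ) (hl : ∀ β, 0 < l β) (m M : ℝ) (hg0 : ∀ β, 0 ≤ g β)
    (hm : ∀ β, m * l β ≤ g β) (hM : ∀ β, g β ≤ M * l β) :
    m ≤ (∑ β, g β) / ∑ β, l β ∧
    ∑ β, k β * g β ≤ (2 / B * ((∑ β, g β) / ∑ β, l β) + (1 - 2 / B) * M) * ∑ β, k β * l β ∧
    (2 / B * ((∑ β, g β) / ∑ β, l β) + (1 - 2 / B) * m) * ∑ β, k β * l β ≤ ∑ β, k β * g β ∧
    ∑ β, k β * g β ≤ (B / 2 * ((∑ β, g β) / ∑ β, l β)) * ∑ β, k β * l β ∧
    (((∑ β, g β) / ∑ β, l β) / (B / 2)) * ∑ β, k β * l β ≤ ∑ β, k β * g β := by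
  have hB : 2 ≤ B := (hk2 ⟨0, hd⟩).trans (hkB ⟨0, hd⟩)
  have hB0 : 0 < B := by linarith
  set Λ := ∑ β, l β with hΛ
  set Γ := ∑ β, g β with hΓ
  have hΛ0 : 0 < Λ := Finset.sum_pos (fun β _ => hl β) ⟨⟨0, hd⟩, Finset.mem_univ _⟩
  have hΓ0 : 0 ≤ Γ := Finset.sum_nonneg fun β _ => hg0 β
  set Y := ∑ β, k β * l β with hY
  have hY2 : 2 * Λ ≤ Y := by
    rw [hΛ, hY, Finset.mul_sum]
    exact Finset.sum_le_sum fun β _ => mul_le_mul_of_nonneg_right (hk2 β) (hl β).le
  have hYB : Y ≤ B * Λ := by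
    rw [hΛ, hY, Finset.mul_sum]
    exact Finset.sum_le_sum fun β _ => mul_le_mul_of_nonneg_right (hkB β) (hl β).le
  have hmΓ : m * Λ ≤ Γ := by
    rw [hΛ, hΓ, Finset.mul_sum]
    exact Finset.sum_le_sum fun β _ => hm β
  have hMΓ : Γ ≤ M * Λ := by
    rw [hΛ, hΓ, Finset.mul_sum]
    exact Finset.sum_le_sum fun β _ => hM β
  have hp : Γ / Λ * Λ = Γ := div_mul_cancel₀ _ hΛ0.ne'
  set p := Γ / Λ with hpdef
  have hp0 : 0 ≤ p := div_nonneg hΓ0 hΛ0.le
  have hmp : m ≤ p := by rw [hpdef, le_div_iff₀ hΛ0]; exact hmΓ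
  have hpM : p ≤ M := by rw [hpdef, div_le_iff₀ hΛ0]; exact hMΓ
  have hYB' : 2 / B * Y ≤ 2 * Λ := by
    rw [div_mul_eq_mul_div, div_le_iff₀ hB0]
    linarith
  refine ⟨hmp, ?_, ?_, ?_, ?_⟩
  · have h1 : ∑ β, k β * g β = M * Y + ∑ β, k β * (g β - M * l β) := by
      rw [hY, Finset.mul_sum, ← Finset.sum_add_distrib]
      exact Finset.sum_congr rfl fun β _ => by ring
    have h2 : ∑ β, k β * (g β - M * l β) ≤ 2 * (Γ - M * Λ) := by
      rw [hΓ, hΛ, Finset.mul_sum, ← Finset.sum_sub_distrib, Finset.mul_sum]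
      refine Finset.sum_le_sum fun β _ => ?_
      exact mul_le_mul_of_nonpos_right (hk2 β) (by linarith [hM β])
    have h3 : 2 * (Γ - M * Λ) ≤ (2 / B * (p - M)) * Y := by
      have h4 : (p - M) * (2 * Λ) ≤ (p - M) * (2 / B * Y) :=
        mul_le_mul_of_nonpos_left hYB' (by linarith)
      have h5 : 2 * (Γ - M * Λ) = (p - M) * (2 * Λ) := by rw [← hp]; ring
      rw [h5]
      refine h4.trans (le_of_eq ?_)
      ring
    have h6 : (2 / B * p + (1 - 2 / B) * M) * Y = M * Y + (2 / B * (p - M)) * Y := by ring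
    rw [h6, h1]
    linarith
  · have h1 : ∑ β, k β * g β = m * Y + ∑ β, k β * (g β - m * l β) := by
      rw [hY, Finset.mul_sum, ← Finset.sum_add_distrib]
      exact Finset.sum_congr rfl fun β _ => by ring
    have h2 : 2 * (Γ - m * Λ) ≤ ∑ β, k β * (g β - m * l β) := by
      rw [hΓ, hΛ, Finset.mul_sum, ← Finset.sum_sub_distrib, Finset.mul_sum]
      refine Finset.sum_le_sum fun β _ => ?_
      exact mul_le_mul_of_nonneg_right (hk2 β) (by linarith [hm β])
    have h3 : (2 / B * (p - m)) * Y ≤ 2 * (Γ - m * Λ) := by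
      have h4 : (p - m) * (2 / B * Y) ≤ (p - m) * (2 * Λ) :=
        mul_le_mul_of_nonneg_left hYB' (by linarith)
      have h5 : 2 * (Γ - m * Λ) = (p - m) * (2 * Λ) := by rw [← hp]; ring
      rw [h5]
      refine le_trans (le_of_eq ?_) h4
      ring
    have h6 : (2 / B * p + (1 - 2 / B) * m) * Y = m * Y + (2 / B * (p - m)) * Y := by ring
    rw [h6, h1]
    linarith
  · have h1 : ∑ β, k β * g β ≤ B * Γ := by
      rw [hΓ, Finset.mul_sum]
      exact Finset.sum_le_sum fun β _ => mul_le_mul_of_nonneg_right (hkB β) (hg0 β)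
    refine h1.trans ?_
    have h2 : B * Γ = B / 2 * p * (2 * Λ) := by rw [← hp]; ring
    rw [h2]
    exact mul_le_mul_of_nonneg_left hY2 (by positivity)
  · have h1 : 2 * Γ ≤ ∑ β, k β * g β := by
      rw [hΓ, Finset.mul_sum]
      exact Finset.sum_le_sum fun β _ => mul_le_mul_of_nonneg_right (hk2 β) (hg0 β)
    refine le_trans ?_ h1
    have h2 : 2 * Γ = p / (B / 2) * (B * Λ) := by rw [← hp]; field_simp
    rw [h2]
    exact mul_le_mul_of_nonneg_left hYB (by positivity)

end part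

end Spread

open Spread in
theorem spread {T0 : ℝ → ℝ} {U0 : Set ℝ} {a : ℝ} {G T f f1 f2 : ℝ → ℝ} {C : ℝ}
    (TS : TSide T0 U0 a G T f f1 f2 C) {d : ℕ} (hd : 0 < d) (Q : TowerSeq d T0 U0 a)
    {K θ : ℝ} (hK : 0 < K) (hθ0 : 0 < θ) (hθ1 : θ < 1)
    (hF : ∀ n α, ∀ x ∈ Icc ((Q.P n).lo α) ((Q.P n).hi α),
        |(Q.P n).F (fun z => f (G z)) α x| ≤ K * θ ^ n) :
    ∃ κ η : ℕ → ℝ, Tendsto η atTop (𝓝 0) ∧ (∀ n, 0 ≤ η n) ∧
      ∀ n, ∀ x y : ℝ, -(Q.P n).eps ≤ x → x ≤ y → y ≤ (Q.P n).eps →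
        Real.exp (κ n - η n) * (y - x) ≤ G y - G x ∧
        G y - G x ≤ Real.exp (κ n + η n) * (y - x) := by
  have : Nonempty (Fin d) := ⟨⟨0, hd⟩⟩
  set b : ℕ → ℝ := fun n => Q.rho n * (K * θ ^ n) with hbdef
  have hKθ : ∀ n, 0 ≤ K * θ ^ n := fun n => by positivity
  have hrho : ∀ n, 1 ≤ Q.rho n := by
    intro n
    refine le_trans ?_ (Q.len n ⟨0, hd⟩)
    have := List.length_pos_of_ne_nil ((Q.R n).it_ne_nil ⟨0, hd⟩)
    exact_mod_cast this
  have hb0 : ∀ n, 0 ≤ b n := fun n => mul_nonneg (by linarith [hrho n]) (hKθ n)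
  have hbs : Summable b := by
    refine ((Q.summ θ hθ0 hθ1).mul_left K).congr fun n => ?_
    simp only [hbdef]
    ring
  have hblim : Tendsto b atTop (𝓝 0) := hbs.tendsto_atTop_zero
  -- partitions
  have hpart : ∀ n k, Nonempty (Part G (Q.P n) (Q.P (n + k)) (∑ j ∈ Finset.range k, b (n + j))) := by
    intro n k
    induction k with
    | zero =>
      rw [Finset.sum_range_zero]
      exact ⟨Part.one G (Q.P n)⟩
    | succ k ih =>
      rw [Finset.sum_range_succ]
      exact ⟨ih.some.comp (Part.single TS (Q.R (n + k)) (hKθ (n + k)) (hF (n + k))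
        fun β => mul_le_mul_of_nonneg_right (Q.len (n + k) β) (hKθ _))⟩
  set t : ℕ → ℝ := fun n => ∑' j, b (j + n) with htdef
  have htlim : Tendsto t atTop (𝓝 0) := tendsto_sum_nat_add b
  have ht0 : ∀ n, 0 ≤ t n := fun n => tsum_nonneg fun j => hb0 _
  have hct : ∀ n k, ∑ j ∈ Finset.range k, b (n + j) ≤ t n := by
    intro n k
    have h1 : Summable fun j => b (j + n) := (summable_nat_add_iff n).2 hbs
    have h2 := h1.sum_le_tsum (Finset.range k) fun j _ => hb0 _
    refine le_trans (le_of_eq ?_) h2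
    exact Finset.sum_congr rfl fun j _ => by rw [add_comm]
  -- extreme difference quotients
  set X : ℕ → Fin d → ℝ := fun n α =>
    (G ((Q.P n).hi α) - G ((Q.P n).lo α)) / ((Q.P n).hi α - (Q.P n).lo α) with hX
  have hl : ∀ n α, 0 < (Q.P n).hi α - (Q.P n).lo α := fun n α => by
    have := (Q.P n).lt α; linarith
  choose αM hαM using fun n => Finite.exists_max (X n)
  choose αm hαm using fun n => Finite.exists_min (X n)
  set M : ℕ → ℝ := fun n => X n (αM n) with hM
  set m : ℕ → ℝ := fun n => X n (αm n) with hm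
  have hm0 : ∀ n, 0 < m n := fun n => div_pos (glen_pos TS (Q.P n) _) (hl n _)
  have hmM : ∀ n, m n ≤ M n := fun n => hαM n (αm n)
  have hbounds : ∀ n β, m n * ((Q.P n).hi β - (Q.P n).lo β) ≤
      G ((Q.P n).hi β) - G ((Q.P n).lo β) ∧
      G ((Q.P n).hi β) - G ((Q.P n).lo β) ≤ M n * ((Q.P n).hi β - (Q.P n).lo β) := by
    intro n β
    exact ⟨(le_div_iff₀ (hl n β)).1 (hαm n β), (div_le_iff₀ (hl n β)).1 (hαM n β)⟩
  have hMle : ∀ n (Y : ℝ), (∀ α, G ((Q.P n).hi α) - G ((Q.P n).lo α) ≤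
      Y * ((Q.P n).hi α - (Q.P n).lo α)) → M n ≤ Y := fun n Y h =>
    (div_le_iff₀ (hl n _)).2 (h _)
  have hmge : ∀ n (Y : ℝ), (∀ α, Y * ((Q.P n).hi α - (Q.P n).lo α) ≤
      G ((Q.P n).hi α) - G ((Q.P n).lo α)) → Y ≤ m n := fun n Y h =>
    (le_div_iff₀ (hl n _)).2 (h _)
  -- the ratio tends to one
  have hsingle : ∀ n, Nonempty (Part G (Q.P n) (Q.P (n + 1)) (b n)) := fun n =>
    ⟨Part.single TS (Q.R n) (hKθ n) (hF n)
      fun β => mul_le_mul_of_nonneg_right (Q.len n β) (hKθ _)⟩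
  have hBge : (2 : ℝ) ≤ Q.B := by
    have h1 := Q.good 0 (by decide) ⟨0, hd⟩
    have h2 := h1.1 ⟨0, hd⟩
    have h3 : ((Q.R 0).it ⟨0, hd⟩).count ⟨0, hd⟩ ≤ ((Q.R 0).it ⟨0, hd⟩).length :=
      List.count_le_length
    exact_mod_cast (h2.trans h3).trans h1.2
  have hratio : Tendsto (fun n => M n / m n) atTop (𝓝 1) := by
    refine sp_ratio (c := 2 / Q.B) (D := Q.B / 2) (b := b) (by positivity)
      ((div_le_one₀ (by linarith)).2 hBge) (by linarith) hm0 hmM hb0 hblim ?_ ?_ ?_
    · intro n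
      exact hMle n _ fun α => ((hsingle n).some.bounds (hbounds (n + 1)) α).2
    · intro n
      exact hmge n _ fun α => ((hsingle n).some.bounds (hbounds (n + 1)) α).1
    · intro n hn
      have hgd := Q.good n hn
      set R := Q.R n with hR
      have hcost : ∀ p : Σ β : Fin d, Fin (R.it β).length,
          Real.exp (-b n) * (G ((Q.P (n + 1)).hi p.1) - G ((Q.P (n + 1)).lo p.1)) ≤
            G ((Q.P (n + 1)).hi p.1 - (Q.P n).disp (R.it p.1) p.2) -
              G ((Q.P (n + 1)).lo p.1 - (Q.P n).disp (R.it p.1) p.2) ∧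
          G ((Q.P (n + 1)).hi p.1 - (Q.P n).disp (R.it p.1) p.2) -
              G ((Q.P (n + 1)).lo p.1 - (Q.P n).disp (R.it p.1) p.2) ≤
            Real.exp (b n) * (G ((Q.P (n + 1)).hi p.1) - G ((Q.P (n + 1)).lo p.1)) := by
        intro p
        have h1 := iter_cost TS R (hF n) p.1 p.2 p.2.2.le _ _ le_rfl ((Q.P (n + 1)).lt p.1).le le_rfl
        have h2 := glen_pos TS (Q.P (n + 1)) p.1
        have h3 : ((p.2 : ℕ) : ℝ) * (K * θ ^ n) ≤ b n := by
          refine mul_le_mul_of_nonneg_right (le_trans ?_ (Q.len n p.1)) (hKθ n)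
          exact_mod_cast p.2.2.le
        constructor
        · exact le_trans (mul_le_mul_of_nonneg_right (Real.exp_le_exp.2 (by linarith)) h2.le) h1.1
        · exact h1.2.trans (mul_le_mul_of_nonneg_right (Real.exp_le_exp.2 h3) h2.le)
      have hgc := glen_count R hcost
      have hcs : ∀ α, _ := fun α => count_sum (Q.B : ℝ) hd
        (fun β => ((R.it β).count α : ℝ)) (fun β => by exact_mod_cast (hgd β).1 α)
        (fun β => by
          have h1 : (R.it β).count α ≤ (R.it β).length := List.count_le_length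
          exact_mod_cast h1.trans (hgd β).2)
        (fun β => (Q.P (n + 1)).hi β - (Q.P (n + 1)).lo β)
        (fun β => G ((Q.P (n + 1)).hi β) - G ((Q.P (n + 1)).lo β)) (hl (n + 1)) (m (n + 1))
        (M (n + 1)) (fun β => (glen_pos TS _ β).le) (fun β => (hbounds (n + 1) β).1)
        (fun β => (hbounds (n + 1) β).2)
      refine ⟨(∑ β, (G ((Q.P (n + 1)).hi β) - G ((Q.P (n + 1)).lo β))) /
        ∑ β, ((Q.P (n + 1)).hi β - (Q.P (n + 1)).lo β), (hcs ⟨0, hd⟩).1, ?_, ?_, ?_, ?_⟩
      · refine hMle n _ fun α => ?_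
        rw [mul_assoc]
        refine (hgc α).2.trans (mul_le_mul_of_nonneg_left ?_ (Real.exp_pos _).le)
        rw [R.length_eq α]
        exact (hcs α).2.1
      · refine hmge n _ fun α => ?_
        rw [mul_assoc]
        refine le_trans (mul_le_mul_of_nonneg_left ?_ (Real.exp_pos _).le) (hgc α).1
        rw [R.length_eq α]
        exact (hcs α).2.2.1
      · refine hMle n _ fun α => ?_
        rw [mul_assoc]
        refine (hgc α).2.trans (mul_le_mul_of_nonneg_left ?_ (Real.exp_pos _).le)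
        rw [R.length_eq α]
        exact (hcs α).2.2.2.1
      · refine hmge n _ fun α => ?_
        rw [mul_assoc]
        refine le_trans (mul_le_mul_of_nonneg_left ?_ (Real.exp_pos _).le) (hgc α).1
        rw [R.length_eq α]
        exact (hcs α).2.2.2.2
  -- the bases shrink
  have heps : Tendsto (fun n => (Q.P n).eps) atTop (𝓝 0) := by
    have h1 : ∀ n, (Q.P (n + 1)).eps ≤ (Q.P n).eps := fun n => eps_anti (Q.R n)
    have h2 : ∀ k, (Q.P (2 * k)).eps ≤ (1 / 2) ^ k * (Q.P 0).eps := by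
      intro k
      induction k with
      | zero => simp
      | succ k ih =>
        have h3 := h1 (2 * k + 1)
        have h4 := (Q.R (2 * k)).eps_le_half hd fun β => (Q.good (2 * k) (by simp) β).1
        have e : 2 * (k + 1) = 2 * k + 1 + 1 := by ring
        rw [e, pow_succ]
        linarith
    have h3 : ∀ n, (Q.P n).eps ≤ (1 / 2) ^ (n / 2) * (Q.P 0).eps := by
      intro n
      rcases Nat.even_or_odd' n with ⟨k, rfl | rfl⟩
      · have := h2 k
        rwa [Nat.mul_div_cancel_left k (by norm_num)]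
      · have := (h1 (2 * k)).trans (h2 k)
        rwa [show (2 * k + 1) / 2 = k by omega]
    have h4 : Tendsto (fun n : ℕ => (1 / 2 : ℝ) ^ (n / 2) * (Q.P 0).eps) atTop (𝓝 0) := by
      have h5 : Tendsto (fun n : ℕ => n / 2) atTop atTop :=
        Nat.tendsto_div_const_atTop (by norm_num)
      have h6 := ((tendsto_pow_atTop_nhds_zero_of_lt_one (show (0 : ℝ) ≤ 1 / 2 by norm_num)
        (by norm_num)).comp h5).mul_const (Q.P 0).eps
      simpa using h6
    exact squeeze_zero (fun n => (Q.P n).eps_nonneg) h3 h4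
  refine ⟨fun n => Real.log (m n), fun n => 2 * t n, by simpa using htlim.const_mul 2,
    fun n => by linarith [ht0 n], ?_⟩
  intro n x y hx hxy hy
  have hexp1 : Real.exp (Real.log (m n) - 2 * t n) = Real.exp (-(2 * t n)) * m n := by
    rw [sub_eq_add_neg, Real.exp_add, Real.exp_log (hm0 n), mul_comm]
  have hexp2 : Real.exp (Real.log (m n) + 2 * t n) = Real.exp (2 * t n) * m n := by
    rw [Real.exp_add, Real.exp_log (hm0 n), mul_comm]
  have hGm : MonotoneOn G (Icc (-(Q.P n).eps) (Q.P n).eps) :=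
    TS.gmono.monotoneOn.mono (Icc_subset_Icc (by linarith [(Q.P n).eps_le]) (Q.P n).eps_le)
  -- the inequality for every finer tower
  have hkey : ∀ k, Real.exp (-(2 * t n)) * m n * (M (n + k) / m (n + k))⁻¹ *
        (y - x - 2 * (2 * (Q.P (n + k)).eps)) ≤ G y - G x ∧
      G y - G x ≤ Real.exp (2 * t n) * m n * (M (n + k) / m (n + k)) *
        (y - x + 2 * (2 * (Q.P (n + k)).eps)) := by
    intro k
    obtain ⟨p⟩ := hpart n k
    set c := ∑ j ∈ Finset.range k, b (n + j) with hc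
    have hct' : c ≤ t n := hct n k
    have hpb := p.bounds (hbounds (n + k))
    have hpp := p.piece_bounds (hbounds (n + k))
    have hmk := hm0 (n + k)
    have hMk : 0 < M (n + k) := hmk.trans_le (hmM _)
    have h1 : M n ≤ Real.exp c * M (n + k) := hMle n _ fun α => (hpb α).2
    have h2 : Real.exp (-c) * m (n + k) ≤ m n := hmge n _ fun α => (hpb α).1
    have hec : Real.exp c ≤ Real.exp (t n) := Real.exp_le_exp.2 hct'
    have hec' : Real.exp (-t n) ≤ Real.exp (-c) := Real.exp_le_exp.2 (by linarith)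
    have hcc : Real.exp c * Real.exp (-c) = 1 := by
      rw [← Real.exp_add, add_neg_cancel, Real.exp_zero]
    have h2t : Real.exp (2 * t n) = Real.exp (t n) * Real.exp (t n) := by
      rw [← Real.exp_add]; congr 1; ring
    have h2t' : Real.exp (-(2 * t n)) = Real.exp (-t n) * Real.exp (-t n) := by
      rw [← Real.exp_add]; congr 1; ring
    have hup : Real.exp c * M (n + k) ≤ Real.exp (2 * t n) * m n * (M (n + k) / m (n + k)) := by
      have h3 : m (n + k) ≤ Real.exp c * m n := by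
        have := mul_le_mul_of_nonneg_left h2 (Real.exp_pos c).le
        rwa [← mul_assoc, hcc, one_mul] at this
      have h4 : M (n + k) = m (n + k) * (M (n + k) / m (n + k)) := by
        field_simp
      have h5 : Real.exp c * m (n + k) ≤ Real.exp (2 * t n) * m n := by
        rw [h2t, mul_assoc]
        refine mul_le_mul hec (h3.trans (mul_le_mul_of_nonneg_right hec (hm0 n).le)) hmk.le
          (Real.exp_pos _).le
      calc Real.exp c * M (n + k) = Real.exp c * m (n + k) * (M (n + k) / m (n + k)) := by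
            rw [mul_assoc, ← h4]
        _ ≤ _ := mul_le_mul_of_nonneg_right h5 (div_pos hMk hmk).le
    have hlow : Real.exp (-(2 * t n)) * m n * (M (n + k) / m (n + k))⁻¹ ≤
        Real.exp (-c) * m (n + k) := by
      have h3 : Real.exp (-c) * M n ≤ M (n + k) := by
        have := mul_le_mul_of_nonneg_left h1 (Real.exp_pos (-c)).le
        rwa [← mul_assoc, mul_comm (Real.exp (-c)) (Real.exp c), hcc, one_mul] at this
      have h5 : Real.exp (-(2 * t n)) * m n ≤ Real.exp (-c) * M (n + k) := by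
        rw [h2t', mul_assoc]
        refine mul_le_mul hec' ?_ (mul_nonneg (Real.exp_pos _).le (hm0 n).le) (Real.exp_pos _).le
        exact (mul_le_mul hec' (hmM n) (hm0 n).le (Real.exp_pos _).le).trans h3
      calc Real.exp (-(2 * t n)) * m n * (M (n + k) / m (n + k))⁻¹ ≤
          Real.exp (-c) * M (n + k) * (M (n + k) / m (n + k))⁻¹ :=
            mul_le_mul_of_nonneg_right h5 (inv_pos.2 (div_pos hMk hmk)).le
        _ = Real.exp (-c) * m (n + k) := by
            field_simp
    have hlen : ∀ β, (Q.P (n + k)).hi β - (Q.P (n + k)).lo β ≤ 2 * (Q.P (n + k)).eps := by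
      intro β
      linarith [(Q.P (n + k)).lo_ge β, (Q.P (n + k)).hi_le β]
    have hnn : ∀ q : Fin d × ℝ, 0 ≤ ((Q.P (n + k)).hi q.1 - q.2) - ((Q.P (n + k)).lo q.1 - q.2) := by
      intro q
      linarith [hl (n + k) q.1]
    refine p.cover hGm hlen (by linarith [(Q.P (n + k)).eps_nonneg]) ?_ ?_ ?_ hx hxy hy
    · exact mul_nonneg (mul_nonneg (Real.exp_pos _).le (hm0 n).le) (div_pos hMk hmk).le
    · exact mul_nonneg (mul_nonneg (Real.exp_pos _).le (hm0 n).le) (inv_pos.2 (div_pos hMk hmk)).le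
    · intro α q hq
      exact ⟨(mul_le_mul_of_nonneg_right hlow (hnn q)).trans (hpp α q hq).1,
        (hpp α q hq).2.trans (mul_le_mul_of_nonneg_right hup (hnn q))⟩
  have hshift : Tendsto (fun k : ℕ => n + k) atTop atTop :=
    tendsto_atTop_mono (fun k => Nat.le_add_left k n) tendsto_id
  have hr := hratio.comp hshift
  have he := heps.comp hshift
  rw [hexp1, hexp2]
  constructor
  · have h1 := ((hr.inv₀ one_ne_zero).const_mul (Real.exp (-(2 * t n)) * m n)).mul
      (((he.const_mul 2).const_mul 2).const_sub (y - x))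
    have h2 := le_of_tendsto' h1 fun k => (hkey k).1
    simpa using h2
  · have h1 := (hr.const_mul (Real.exp (2 * t n) * m n)).mul
      (((he.const_mul 2).const_mul 2).const_add (y - x))
    have h2 := ge_of_tendsto' h1 fun k => (hkey k).2
    simpa using h2

end Pool.Agent.Helper22.Rev
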