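import Pool.Agent.Helper22.Rev.Commute
import Pool.Agent.Helper22.Rev.FinalDefs

/-!
# The reversor is conjugate to `x ↦ -x`
-/

set_option autoImplicit false

open Set Filter Topology MeasureTheory

namespace Pool.Agent.Helper22.Rev

namespace Sym

/-- a strictly increasing bijection of a closed interval is continuous -/
theorem cont_of_bij {a : ℝ} {φ : ℝ → ℝ} (hm : StrictMonoOn φ (Icc (-a) a))
    (hb : BijOn φ (Icc (-a) a) (Icc (-a) a)) : ContinuousOn φ (Icc (-a) a) := by
  let f : Icc (-a) a → Icc (-a) a := fun x => ⟨φ x, hb.mapsTo x.2⟩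
  have hf : StrictMono f := fun x y hxy => hm x.2 y.2 hxy
  have hs : Function.Surjective f := by
    intro y
    obtain ⟨x, hx, hxy⟩ := hb.surjOn y.2
    exact ⟨⟨x, hx⟩, Subtype.ext hxy⟩
  have hc : Continuous f := (StrictMono.orderIsoOfSurjective f hf hs).continuous
  rw [continuousOn_iff_continuous_domRestrict]
  exact continuous_subtype_val.comp hc

variable {n : ℕ} {l l' : Fin (n + 2) → ℝ} {T0' T G : ℝ → ℝ}

theorem half_pos (h : IncConj l l' T0' T G) : 0 < half l := iet_half_pos h.hl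

theorem ends (h : IncConj l l' T0' T G) : G (-half l) = -half l ∧ G (half l) = half l := by
  have hhalf := half_pos h
  have hm1 : -half l ∈ Icc (-half l) (half l) := ⟨le_rfl, by linarith⟩
  have hm2 : half l ∈ Icc (-half l) (half l) := ⟨by linarith, le_rfl⟩
  constructor
  · obtain ⟨z, hz, hz2⟩ := h.bij.surjOn hm1
    have h1 := h.bij.mapsTo hm1
    have h2 := h.mono.monotoneOn hm1 hz hz.1
    exact le_antisymm (h2.trans hz2.le) h1.1
  · obtain ⟨z, hz, hz2⟩ := h.bij.surjOn hm2
    have h1 := h.bij.mapsTo hm2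
    have h2 := h.mono.monotoneOn hz hm2 hz.2
    exact le_antisymm h1.2 (hz2.ge.trans h2)

theorem left_mem (hl : ∀ i, 0 < l i) (k : Fin (n + 2)) : left l k ∈ Icc (-half l) (half l) := by
  have h1 := iet_left_ge hl k
  have h2 := iet_left_le hl k
  have h3 := hl k
  exact ⟨h1, by linarith⟩

/-- `G` maps the break points to the break points -/
theorem breaks (h : IncConj l l' T0' T G) (k : Fin (n + 2)) : G (left l' k) = left l k := by
  have hhalf := half_pos h
  obtain ⟨hend1, hend2⟩ := ends h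
  have hleft' : ∀ k, left l' k ∈ Icc (-half l) (half l) := by
    intro k
    have := left_mem h.hl' k
    rw [h.hh] at this
    exact this
  have hpre : ∀ k : Fin (n + 2), ∃ k' : Fin (n + 2), G (left l' k') = left l k := by
    intro k
    by_cases hk : k = 0
    · exact ⟨0, by rw [hk, iet_left_zero, iet_left_zero, h.hh, hend1]⟩
    · obtain ⟨z, hz, hz2⟩ := h.bij.surjOn (left_mem h.hl k)
      have hk0 : left l 0 < left l k := iet_left_strictMono h.hl (Fin.pos_iff_ne_zero.mpr hk)
      rw [iet_left_zero] at hk0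
      have hk1 : left l k < half l := by
        have h2 := iet_left_le h.hl k
        have h3 := h.hl k
        linarith
      have hz3 : z ∈ Ioo (-half l) (half l) := by
        constructor
        · apply lt_of_le_of_ne hz.1
          intro h
          rw [← h, hend1] at hz2
          linarith
        · apply lt_of_le_of_ne hz.2
          intro h
          rw [h, hend2] at hz2
          linarith
      have hz4 : z ∉ Dom l' := by
        intro hzz
        have := (h.conj z hzz).1
        rw [hz2] at this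
        exact iet_left_notMem h.hl k this
      rw [← h.hh] at hz3
      obtain ⟨k', _, h6⟩ := iet_cover hz3 hz4
      exact ⟨k', by rw [← h6, hz2]⟩
  choose ρ hρ using hpre
  have hρm : StrictMono ρ := by
    intro k k' hkk
    have h1 := iet_left_strictMono h.hl hkk
    rw [← hρ k, ← hρ k'] at h1
    have h2 := (h.mono.lt_iff_lt (hleft' _) (hleft' _)).mp h1
    exact (iet_left_strictMono h.hl').lt_iff_lt.mp h2
  have hρid : ρ = id := by
    apply (StrictMono.range_inj hρm strictMono_id).mp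
    rw [(Finite.injective_iff_surjective.mp hρm.injective).range_eq, Set.range_id]
  have := hρ k
  rw [hρid] at this
  exact this

/-- the preimage of the domain -/
theorem preim (h : IncConj l l' T0' T G) {z : ℝ} (hz : z ∈ Icc (-half l) (half l))
    (hG : G z ∈ Dom l) : z ∈ Dom l' := by
  obtain ⟨hend1, hend2⟩ := ends h
  have hI := iet_dom_subset h.hl hG
  have hz3 : z ∈ Ioo (-half l) (half l) := by
    constructor
    · apply lt_of_le_of_ne hz.1
      intro h
      rw [← h, hend1] at hI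
      exact lt_irrefl _ hI.1
    · apply lt_of_le_of_ne hz.2
      intro h
      rw [h, hend2] at hI
      exact lt_irrefl _ hI.2
  by_contra hcon
  rw [← h.hh] at hz3
  obtain ⟨k, _, hk⟩ := iet_cover hz3 hcon
  rw [hk, breaks h] at hG
  exact iet_left_notMem h.hl k hG

/-- the symmetric permutation: `T0'` is reversed by `x ↦ -x` -/
theorem flip {l : Fin (n + 2) → ℝ} {T0 : ℝ → ℝ} (hT : IsStd l T0) {z : ℝ} (hz : z ∈ Dom l) :
    -T0 z ∈ Dom l ∧ T0 (-T0 z) = -z := by
  have hz' := hz
  unfold Dom at hz'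
  rw [mem_iUnion] at hz'
  obtain ⟨α, hα⟩ := hz'
  have h1 : -T0 z ∈ Ioo (left l α) (left l α + l α) := by
    rw [hT α z hα]
    constructor
    · linarith [hα.2]
    · linarith [hα.1]
  refine ⟨?_, ?_⟩
  · unfold Dom
    rw [mem_iUnion]
    exact ⟨α, h1⟩
  · rw [hT α _ h1, hT α z hα]
    ring

/-- a reversor is strictly decreasing -/
theorem anti {σ σ' : ℝ → ℝ} {C τ : ℝ} (hσ : IsReversor l T σ σ' C τ) :
    StrictAntiOn σ (Icc (-half l) (half l)) := by
  apply strictAntiOn_of_deriv_neg (convex_Icc _ _)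
  · intro x hx
    exact (hσ.der x hx).continuousWithinAt
  · intro x hx
    rw [interior_Icc] at hx
    have h1 := (hσ.der x (Ioo_subset_Icc_self hx)).hasDerivAt (Icc_mem_nhds hx.1 hx.2)
    rw [h1.deriv]
    exact hσ.neg x (Ioo_subset_Icc_self hx)

end Sym

theorem sym {n : ℕ} {l l' : Fin (n + 2) → ℝ} {T0' T G : ℝ → ℝ} (h : IncConj l l' T0' T G)
    (hi : Indep l') {d : ℕ} (P : ℕ → Tow d T0' (Dom l') (half l'))
    (hP : Tendsto (fun n => (P n).eps) atTop (𝓝 0))
    {σ σ' : ℝ → ℝ} {C τ : ℝ} (hσ : IsReversor l T σ σ' C τ) :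
    ∀ x ∈ Icc (-half l) (half l), σ (G x) = G (-x) := by
  classical
  set I : Set ℝ := Icc (-half l) (half l) with hI
  have hneg : ∀ x ∈ I, -x ∈ I := fun x hx => ⟨by linarith [hx.2], by linarith [hx.1]⟩
  have hex : ∀ x : ℝ, ∃ y : ℝ, x ∈ I → y ∈ I ∧ G y = x := by
    intro x
    by_cases hx : x ∈ I
    · obtain ⟨y, hy, hxy⟩ := h.bij.surjOn hx
      exact ⟨y, fun _ => ⟨hy, hxy⟩⟩
    · exact ⟨0, fun hx' => absurd hx' hx⟩
  choose H hH using hex
  have hHG : ∀ x ∈ I, H (G x) = x := by
    intro x hx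
    obtain ⟨h1, h2⟩ := hH (G x) (h.bij.mapsTo hx)
    exact h.bij.injOn h1 hx h2
  have hHm : ∀ x ∈ I, ∀ y ∈ I, x < y → H x < H y := by
    intro x hx y hy hxy
    obtain ⟨h1, h2⟩ := hH x hx
    obtain ⟨h3, h4⟩ := hH y hy
    rw [← h2, ← h4] at hxy
    exact (h.mono.lt_iff_lt h1 h3).mp hxy
  have hanti := Sym.anti hσ
  have hGI : ∀ x ∈ I, G x ∈ I := fun x hx => h.bij.mapsTo hx
  have hσI : ∀ x ∈ I, σ x ∈ I := fun x hx => hσ.bij.mapsTo hx
  set φ : ℝ → ℝ := fun x => -H (σ (G x)) with hφdef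
  have hφm : StrictMonoOn φ I := by
    intro x hx y hy hxy
    have h1 := h.mono hx hy hxy
    have h2 := hanti (hGI x hx) (hGI y hy) h1
    have h3 := hHm _ (hσI _ (hGI y hy)) _ (hσI _ (hGI x hx)) h2
    simp only [hφdef]
    linarith
  have hφb : BijOn φ I I := by
    refine ⟨?_, hφm.injOn, ?_⟩
    · intro x hx
      exact hneg _ (hH _ (hσI _ (hGI x hx))).1
    · intro y hy
      obtain ⟨w, hw, hw2⟩ := hσ.bij.surjOn (hGI _ (hneg y hy))
      obtain ⟨x, hx, hx2⟩ := h.bij.surjOn hw
      refine ⟨x, hx, ?_⟩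
      simp only [hφdef]
      rw [hx2, hw2, hHG _ (hneg y hy), neg_neg]
  have hφc : ContinuousOn φ I := Sym.cont_of_bij hφm hφb
  have hdom : ∀ x ∈ Dom l, x ∈ I := fun x hx => Ioo_subset_Icc_self (iet_dom_subset h.hl hx)
  have hφ : ∀ x ∈ Dom l', φ x ∈ Dom l' ∧ φ (T0' x) = T0' (φ x) := by
    intro x hx
    obtain ⟨hGx, hTG⟩ := h.conj x hx
    obtain ⟨h1, h2⟩ := hσ.conj (G x) hGx
    obtain ⟨hz, hGz⟩ := hH _ (hdom _ h1)
    set z := H (σ (T (G x))) with hzdef
    have hzD : z ∈ Dom l' := Sym.preim h hz (by rw [hGz]; exact h1)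
    obtain ⟨_, hTz⟩ := h.conj z hzD
    have h3 : G (T0' z) = σ (G x) := by
      rw [← hTz, hGz, h2]
    have h4 : T0' z ∈ I := by
      have := iet_maps h.hl' h.std hzD
      rw [h.hh] at this
      exact Ioo_subset_Icc_self this
    have h5 : φ x = -T0' z := by
      simp only [hφdef]
      rw [← h3, hHG _ h4]
    obtain ⟨h6, h7⟩ := Sym.flip h.std hzD
    rw [h5]
    refine ⟨h6, ?_⟩
    rw [h7]
    simp only [hφdef]
    rw [← hTG]
  have hall : ∀ x ∈ Icc (-half l') (half l'), φ x = x := by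
    apply commute_id h.hl' hi h.std P hP φ
    · rw [h.hh]
      exact hφc
    · rw [h.hh]
      exact hφm
    · rw [h.hh]
      exact hφb
    · exact hφ
  rw [h.hh] at hall
  intro x hx
  have h1 := hall x hx
  simp only [hφdef] at h1
  have h2 : H (σ (G x)) = -x := by linarith
  have h3 := (hH _ (hσI _ (hGI x hx))).2
  rw [h2] at h3
  exact h3.symm

end Pool.Agent.Helper22.Rev
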