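import Pool.Agent.Helper22.Rev.Defs

/-!
# Keane type facts for the symmetric interval exchange maps
-/

set_option autoImplicit false

open Set Filter Topology MeasureTheory

namespace Pool.Agent.Helper22.Rev

section IetFactsBasic

variable {n : ℕ} {l : Fin (n + 2) → ℝ}

theorem iet_sum_Iio (l : Fin (n + 2) → ℝ) (α : Fin (n + 2)) :
    ∑ i ∈ Finset.Iio α, l i = ∑ i, if i < α then l i else 0 := by
  rw [← Finset.sum_filter]
  congr 1
  ext i
  simp

theorem iet_left_zero (l : Fin (n + 2) → ℝ) : left l 0 = -half l := by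
  unfold left
  rw [iet_sum_Iio]
  simp

theorem iet_left_succ (l : Fin (n + 2) → ℝ) (i : Fin (n + 1)) :
    left l i.succ = left l i.castSucc + l i.castSucc := by
  unfold left
  have h : Finset.Iio i.succ = insert i.castSucc (Finset.Iio i.castSucc) := by
    ext j
    simp only [Finset.mem_Iio, Finset.mem_insert]
    rw [Fin.lt_def, Fin.ext_iff, Fin.lt_def, Fin.val_succ, Fin.val_castSucc]
    omega
  rw [h, Finset.sum_insert (by simp)]
  ring

theorem iet_left_last (l : Fin (n + 2) → ℝ) :
    left l (Fin.last (n + 1)) + l (Fin.last (n + 1)) = half l := by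
  unfold left
  have h : ∑ i, l i = ∑ i ∈ Finset.Iio (Fin.last (n + 1)), l i + l (Fin.last (n + 1)) := by
    have h1 : (Finset.univ : Finset (Fin (n + 2))) =
        insert (Fin.last (n + 1)) (Finset.Iio (Fin.last (n + 1))) := by
      ext j
      simp only [Finset.mem_univ, Finset.mem_insert, Finset.mem_Iio, true_iff]
      exact (Fin.le_last j).eq_or_lt
    rw [h1, Finset.sum_insert (by simp)]
    ring
  unfold half
  linarith

theorem iet_left_lt (hl : ∀ i, 0 < l i) {α β : Fin (n + 2)} (h : α < β) :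
    left l α + l α ≤ left l β := by
  unfold left
  have h1 : insert α (Finset.Iio α) ⊆ Finset.Iio β := by
    intro j hj
    rw [Finset.mem_insert, Finset.mem_Iio] at hj
    rw [Finset.mem_Iio]
    rcases hj with rfl | hj
    · exact h
    · exact hj.trans h
  have h2 := Finset.sum_le_sum_of_subset_of_nonneg (f := l) h1 (fun i _ _ => (hl i).le)
  rw [Finset.sum_insert (by simp)] at h2
  linarith

theorem iet_left_strictMono (hl : ∀ i, 0 < l i) : StrictMono (left l) := by
  intro α β h
  have := iet_left_lt hl h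
  have := hl α
  linarith

theorem iet_left_ge (hl : ∀ i, 0 < l i) (α : Fin (n + 2)) : -half l ≤ left l α := by
  rw [← iet_left_zero]
  exact (iet_left_strictMono hl).monotone (Fin.zero_le α)

theorem iet_left_le (hl : ∀ i, 0 < l i) (α : Fin (n + 2)) : left l α + l α ≤ half l := by
  rcases (Fin.le_last α).eq_or_lt with h | h
  · rw [h, iet_left_last]
  · have h1 := iet_left_lt hl h
    have h2 := iet_left_last l
    have h3 := hl (Fin.last (n + 1))
    linarith

theorem iet_dom_subset (hl : ∀ i, 0 < l i) : Dom l ⊆ Ioo (-half l) (half l) := by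
  intro x hx
  unfold Dom at hx
  rw [mem_iUnion] at hx
  obtain ⟨α, h1, h2⟩ := hx
  exact ⟨lt_of_le_of_lt (iet_left_ge hl α) h1, lt_of_lt_of_le h2 (iet_left_le hl α)⟩

theorem iet_half_pos (hl : ∀ i, 0 < l i) : 0 < half l := by
  unfold half
  have : 0 < ∑ i, l i := Finset.sum_pos (fun i _ => hl i) ⟨0, Finset.mem_univ _⟩
  linarith

theorem iet_cover {x : ℝ} (hx : x ∈ Ioo (-half l) (half l)) (hd : x ∉ Dom l) :
    ∃ k : Fin (n + 2), k ≠ 0 ∧ x = left l k := by
  by_contra hcon
  push Not at hcon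
  have h0 : ∀ k, x ≠ left l k := by
    intro k
    by_cases hk : k = 0
    · rw [hk, iet_left_zero]
      exact ne_of_gt hx.1
    · exact hcon k hk
  have h1 : ∀ k, left l k ≤ x → left l k + l k ≤ x := by
    intro k hk
    by_contra h2
    push Not at h2
    apply hd
    unfold Dom
    rw [mem_iUnion]
    exact ⟨k, lt_of_le_of_ne hk (h0 k).symm, h2⟩
  have h2 : ∀ k, left l k ≤ x := by
    intro k
    induction k using Fin.induction with
    | zero =>
      rw [iet_left_zero]
      exact hx.1.le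
    | succ i ih =>
      rw [iet_left_succ]
      exact h1 _ ih
  have h3 := h1 _ (h2 (Fin.last (n + 1)))
  rw [iet_left_last] at h3
  exact absurd hx.2 (not_lt.mpr h3)

theorem iet_left_notMem (hl : ∀ i, 0 < l i) (k : Fin (n + 2)) : left l k ∉ Dom l := by
  intro h
  unfold Dom at h
  rw [mem_iUnion] at h
  obtain ⟨α, h1, h2⟩ := h
  have h3 : α < k := (iet_left_strictMono hl).lt_iff_lt.mp h1
  have h4 := iet_left_lt hl h3
  linarith

/-- coefficients of the translations -/
def ietE (α j : Fin (n + 2)) : ℤ := if α < j then 1 else if j < α then -1 else 0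

theorem iet_trans (l : Fin (n + 2) → ℝ) (α : Fin (n + 2)) :
    -(2 * left l α + l α) = ∑ j, (ietE α j : ℝ) * l j := by
  unfold left half
  rw [iet_sum_Iio]
  have h1 : l α = ∑ j, if j = α then l j else 0 := by
    rw [Finset.sum_ite_eq' Finset.univ α, if_pos (Finset.mem_univ _)]
  have h2 : -(2 * (-((∑ i, l i) / 2) + ∑ i, if i < α then l i else 0) + l α) =
      ∑ i, l i - 2 * (∑ i, if i < α then l i else 0) - ∑ j, (if j = α then l j else 0) := by
    rw [← h1]
    ring
  rw [h2, Finset.mul_sum, ← Finset.sum_sub_distrib, ← Finset.sum_sub_distrib]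
  apply Finset.sum_congr rfl
  intro j _
  unfold ietE
  rcases lt_trichotomy α j with h | h | h
  · rw [if_pos h, if_neg (not_lt.mpr h.le), if_neg h.ne']
    push_cast
    ring
  · subst h
    simp
  · rw [if_neg (not_lt.mpr h.le), if_pos h, if_pos h, if_neg h.ne]
    push_cast
    ring

theorem iet_two_left (l : Fin (n + 2) → ℝ) (k : Fin (n + 2)) :
    2 * left l k = ∑ j, (((if j < k then 1 else -1 : ℤ)) : ℝ) * l j := by
  unfold left half
  rw [iet_sum_Iio]
  have h2 : 2 * (-((∑ i, l i) / 2) + ∑ i, if i < k then l i else 0) =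
      2 * (∑ i, if i < k then l i else 0) - ∑ i, l i := by ring
  rw [h2, Finset.mul_sum, ← Finset.sum_sub_distrib]
  apply Finset.sum_congr rfl
  intro j _
  split_ifs <;> push_cast <;> ring

theorem iet_maps {T0 : ℝ → ℝ} (hl : ∀ i, 0 < l i) (hT : IsStd l T0) {x : ℝ} (hx : x ∈ Dom l) :
    T0 x ∈ Ioo (-half l) (half l) := by
  unfold Dom at hx
  rw [mem_iUnion] at hx
  obtain ⟨α, h1, h2⟩ := hx
  rw [hT α x ⟨h1, h2⟩]
  have h3 := iet_left_ge hl α
  have h4 := iet_left_le hl α
  constructor <;> linarith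

/-- the orbit formula -/
theorem iet_orbit {T0 : ℝ → ℝ} (hT : IsStd l T0) {x : ℝ} (i : ℕ)
    (hx : ∀ j < i, T0^[j] x ∈ Dom l) :
    ∃ v : Fin (n + 2) → ℤ, T0^[i] x = x + ∑ j, (v j : ℝ) * l j ∧ v 0 ≤ 0 ∧
      (i : ℤ) ≤ v (Fin.last (n + 1)) - v 0 := by
  induction i with
  | zero => exact ⟨0, by simp, le_rfl, by simp⟩
  | succ i ih =>
    obtain ⟨v, h1, h2, h3⟩ := ih (fun j hj => hx j (by omega))
    have h4 := hx i (by omega)
    have h4' := h4
    unfold Dom at h4'
    rw [mem_iUnion] at h4'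
    obtain ⟨α, h5⟩ := h4'
    refine ⟨fun j => v j + ietE α j, ?_, ?_, ?_⟩
    · rw [Function.iterate_succ_apply', hT α _ h5, sub_eq_add_neg, iet_trans, h1, add_assoc,
        ← Finset.sum_add_distrib]
      congr 1
      apply Finset.sum_congr rfl
      intro j _
      push_cast
      ring
    · simp only
      have : ietE α 0 ≤ 0 := by
        unfold ietE
        rw [if_neg (not_lt.mpr (Fin.zero_le α))]
        split_ifs <;> norm_num
      omega
    · simp only
      have h6 : 1 ≤ ietE α (Fin.last (n + 1)) - ietE α 0 := by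
        unfold ietE
        rw [if_neg (not_lt.mpr (Fin.zero_le α)), if_neg (c := Fin.last (n + 1) < α)
          (not_lt.mpr (Fin.le_last α))]
        by_cases h7 : α = 0
        · subst h7
          rw [if_pos (Fin.last_pos), if_neg (lt_irrefl _)]
          norm_num
        · rw [if_pos (c := 0 < α) (Fin.pos_iff_ne_zero.mpr h7)]
          split_ifs <;> norm_num
      push_cast
      omega

end IetFactsBasic

theorem indep_ae (n : ℕ) : ∀ᵐ l : Fin (n + 2) → ℝ, Indep l := by
  unfold Indep
  rw [ae_all_iff]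
  intro m
  by_cases hm : m = 0
  · exact Eventually.of_forall fun l _ => hm
  · have h1 : ∃ i, m i ≠ 0 := by
      by_contra hcon
      push Not at hcon
      exact hm (funext hcon)
    obtain ⟨i, hi⟩ := h1
    let L : (Fin (n + 2) → ℝ) →ₗ[ℝ] ℝ := ∑ i, (m i : ℝ) • LinearMap.proj i
    have hL : ∀ l, L l = ∑ i, (m i : ℝ) * l i := by
      intro l
      simp [L]
    have hker : LinearMap.ker L ≠ ⊤ := by
      intro h
      have h2 : Pi.single i (1 : ℝ) ∈ LinearMap.ker L := by
        rw [h]
        trivial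
      rw [LinearMap.mem_ker, hL] at h2
      simp only [Pi.single_apply, mul_ite, mul_one, mul_zero, Finset.sum_ite_eq',
        Finset.mem_univ, if_true] at h2
      exact hi (by exact_mod_cast h2)
    have h3 : volume (LinearMap.ker L : Set (Fin (n + 2) → ℝ)) = 0 :=
      Measure.addHaar_submodule volume _ hker
    rw [ae_iff]
    apply measure_mono_null _ h3
    intro l hl
    simp only [Set.mem_ofPred_eq] at hl
    push Not at hl
    show L l = 0
    rw [hL]
    exact hl.1

section IetFactsMain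

variable {n : ℕ} {l : Fin (n + 2) → ℝ}

theorem reg_or {n : ℕ} {l : Fin (n + 2) → ℝ} (hl : ∀ i, 0 < l i) (hi : Indep l) {T0 : ℝ → ℝ}
    (hT : IsStd l T0) (x : ℝ) (hx : x ∈ Ioo (-half l) (half l)) :
    (∀ i, T0^[i] x ∈ Dom l) ∨ (∀ i, T0^[i] (-x) ∈ Dom l) := by
  classical
  -- first exit
  have key : ∀ y ∈ Ioo (-half l) (half l), (¬ ∀ i, T0^[i] y ∈ Dom l) →
      ∃ (k : Fin (n + 2)) (v : Fin (n + 2) → ℤ), k ≠ 0 ∧ v 0 ≤ 0 ∧
        y + ∑ j, (v j : ℝ) * l j = left l k := by
    intro y hy hn
    push Not at hn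
    have h1 := Nat.find_spec hn
    have h2 : ∀ j < Nat.find hn, T0^[j] y ∈ Dom l := by
      intro j hj
      have := Nat.find_min hn hj
      push Not at this
      exact this
    obtain ⟨v, h3, h4, h5⟩ := iet_orbit hT (Nat.find hn) h2
    have h6 : T0^[Nat.find hn] y ∈ Ioo (-half l) (half l) := by
      rcases Nat.eq_zero_or_pos (Nat.find hn) with h | h
      · rw [h]
        exact hy
      · have h7 : Nat.find hn = (Nat.find hn - 1) + 1 := by omega
        rw [h7, Function.iterate_succ_apply']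
        exact iet_maps hl hT (h2 _ (by omega))
    obtain ⟨k, hk, h7⟩ := iet_cover h6 h1
    exact ⟨k, v, hk, h4, by rw [← h3, h7]⟩
  by_contra hcon
  push Not at hcon
  obtain ⟨h1, h2⟩ := hcon
  obtain ⟨k, v, hk, hv, h3⟩ := key x hx (by push Not; exact h1)
  obtain ⟨k', v', hk', hv', h4⟩ := key (-x) ⟨by linarith [hx.2], by linarith [hx.1]⟩
    (by push Not; exact h2)
  have h5 : ∑ j, ((2 * (v j + v' j) - (if j < k then 1 else -1) - (if j < k' then 1 else -1) : ℤ) : ℝ) *
      l j = 0 := by
    have h6 := iet_two_left l k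
    have h7 := iet_two_left l k'
    have h8 : ∑ j, ((2 * (v j + v' j) - (if j < k then 1 else -1) - (if j < k' then 1 else -1) : ℤ) : ℝ) *
      l j = 2 * (∑ j, (v j : ℝ) * l j) + 2 * (∑ j, (v' j : ℝ) * l j) -
        ∑ j, (((if j < k then 1 else -1 : ℤ)) : ℝ) * l j -
        ∑ j, (((if j < k' then 1 else -1 : ℤ)) : ℝ) * l j := by
      rw [Finset.mul_sum, Finset.mul_sum, ← Finset.sum_add_distrib, ← Finset.sum_sub_distrib,
        ← Finset.sum_sub_distrib]
      apply Finset.sum_congr rfl
      intro j _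
      push_cast
      ring
    rw [h8, ← h6, ← h7, ← h3, ← h4]
    ring
  have h6 := congrFun (hi _ h5) 0
  simp only [Pi.zero_apply] at h6
  rw [if_pos (Fin.pos_iff_ne_zero.mpr hk), if_pos (Fin.pos_iff_ne_zero.mpr hk')] at h6
  omega

theorem iet_aperiodic (hi : Indep l) {T0 : ℝ → ℝ} (hT : IsStd l T0) {x : ℝ}
    (hx : ∀ i, T0^[i] x ∈ Dom l) : Function.Injective (fun i => T0^[i] x) := by
  have key : ∀ i j, i < j → T0^[i] x ≠ T0^[j] x := by
    intro i j hij h
    have h1 : T0^[j] x = T0^[j - i] (T0^[i] x) := by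
      rw [← Function.iterate_add_apply]
      congr 2
      omega
    obtain ⟨v, h2, h3, h4⟩ := iet_orbit hT (x := T0^[i] x) (j - i) (by
      intro k _
      rw [← Function.iterate_add_apply]
      exact hx _)
    rw [← h1, ← h] at h2
    have h5 : ∑ k, (v k : ℝ) * l k = 0 := by linarith
    have h6 := hi v h5
    rw [h6] at h4
    simp only [Pi.zero_apply, sub_self] at h4
    omega
  intro i j hij
  simp only at hij
  rcases lt_trichotomy i j with h | h | h
  · exact absurd hij (key i j h)
  · exact h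
  · exact absurd hij.symm (key j i h)

/-- the closed levels cover -/
theorem tow_cover {d : ℕ} {T0 : ℝ → ℝ} (hl : ∀ i, 0 < l i) (P : Tow d T0 (Dom l) (half l)) {z : ℝ}
    (hz : z ∈ Ioo (-half l) (half l)) :
    ∃ α, ∃ i < P.r α, z ∈ Icc (P.lo α + P.sh α i) (P.hi α + P.sh α i) := by
  classical
  by_contra hcon
  push Not at hcon
  set I : Finset (Σ _ : Fin d, ℕ) := Finset.univ.sigma (fun α => Finset.range (P.r α)) with hI
  have hmemI : ∀ s : Σ _ : Fin d, ℕ, s ∈ I ↔ s.2 < P.r s.1 := by
    intro s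
    rw [hI, Finset.mem_sigma, Finset.mem_range]
    simp
  set J : (Σ _ : Fin d, ℕ) → Set ℝ := fun s =>
    Ioo (P.lo s.1 + P.sh s.1 s.2) (P.hi s.1 + P.sh s.1 s.2) with hJ
  set K : Set ℝ := ⋃ s ∈ I, Icc (P.lo s.1 + P.sh s.1 s.2) (P.hi s.1 + P.sh s.1 s.2) with hK
  have hKc : IsClosed K := isClosed_biUnion_finset fun s _ => isClosed_Icc
  have hzK : z ∉ K := by
    intro h
    rw [hK, mem_iUnion₂] at h
    obtain ⟨s, hs, h⟩ := h
    exact hcon s.1 s.2 ((hmemI s).mp hs) h
  have hopen : IsOpen (Ioo (-half l) (half l) ∩ Kᶜ) := isOpen_Ioo.inter hKc.isOpen_compl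
  obtain ⟨ε, hε, hball⟩ := Metric.isOpen_iff.mp hopen z ⟨hz, hzK⟩
  rw [Real.ball_eq_Ioo] at hball
  -- volumes
  have hsub : (⋃ s ∈ I, J s) ⊆ Ioo (-half l) (half l) := by
    intro y hy
    rw [mem_iUnion₂] at hy
    obtain ⟨s, hs, hy⟩ := hy
    apply iet_dom_subset hl
    have h1 := P.reg s.1 s.2 ((hmemI s).mp hs) (y - P.sh s.1 s.2) ⟨by linarith [hy.1], by linarith [hy.2]⟩
    rw [sub_add_cancel] at h1
    exact h1
  have hdisj : Disjoint (⋃ s ∈ I, J s) (Ioo (z - ε) (z + ε)) := by
    rw [Set.disjoint_left]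
    intro y hy hy2
    rw [mem_iUnion₂] at hy
    obtain ⟨s, hs, hy⟩ := hy
    apply (hball hy2).2
    rw [hK, mem_iUnion₂]
    exact ⟨s, hs, Ioo_subset_Icc_self hy⟩
  have hvol : volume (⋃ s ∈ I, J s) = ENNReal.ofReal (2 * half l) := by
    rw [measure_biUnion_finset]
    · rw [← P.full]
      have h1 : ∀ s ∈ I, volume (J s) = ENNReal.ofReal (P.hi s.1 - P.lo s.1) := by
        intro s _
        rw [hJ]
        simp only
        rw [Real.volume_Ioo]
        congr 1
        ring
      rw [Finset.sum_congr rfl h1, hI, Finset.sum_sigma]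
      simp only [Finset.sum_const, Finset.card_range, nsmul_eq_mul]
      rw [ENNReal.ofReal_sum_of_nonneg]
      · apply Finset.sum_congr rfl
        intro α _
        rw [ENNReal.ofReal_mul (Nat.cast_nonneg _), ENNReal.ofReal_natCast]
      · intro α _
        have := P.lt α
        apply mul_nonneg (Nat.cast_nonneg _)
        linarith
    · intro s hs t ht hst
      rw [Finset.mem_coe] at hs ht
      apply P.disj s.1 t.1 s.2 t.2 ((hmemI s).mp hs) ((hmemI t).mp ht)
      intro h
      apply hst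
      rw [Prod.mk.injEq] at h
      exact Sigma.ext h.1 (heq_of_eq h.2)
    · intro s _
      exact measurableSet_Ioo
  have htot : volume ((⋃ s ∈ I, J s) ∪ Ioo (z - ε) (z + ε)) ≤ volume (Ioo (-half l) (half l)) :=
    measure_mono (union_subset hsub fun y hy => (hball hy).1)
  rw [measure_union hdisj measurableSet_Ioo, hvol, Real.volume_Ioo, Real.volume_Ioo,
    ← ENNReal.ofReal_add (by linarith [iet_half_pos hl]) (by linarith)] at htot
  rw [ENNReal.ofReal_le_ofReal_iff (by linarith [iet_half_pos hl])] at htot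
  linarith

theorem hit {n : ℕ} {l : Fin (n + 2) → ℝ} (hl : ∀ i, 0 < l i) (hi : Indep l) {T0 : ℝ → ℝ}
    (hT : IsStd l T0) {d : ℕ} (P : Tow d T0 (Dom l) (half l)) (x : ℝ)
    (hx : ∀ i, T0^[i] x ∈ Dom l) : ∃ i, T0^[i] x ∈ Ioo (-P.eps) P.eps := by
  classical
  -- some point of the orbit is in an open level
  have h1 : ∃ j α i, i < P.r α ∧ T0^[j] x ∈ Ioo (P.lo α + P.sh α i) (P.hi α + P.sh α i) := by
    by_contra hcon
    push Not at hcon
    set E : Set ℝ := ⋃ α : Fin d, ⋃ i ∈ Finset.range (P.r α),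
      {P.lo α + P.sh α i, P.hi α + P.sh α i} with hE
    have hfin : E.Finite := by
      apply Set.finite_iUnion
      intro α
      apply Set.Finite.biUnion (Finset.finite_toSet _)
      intro i _
      exact Set.toFinite _
    have hmem : ∀ j, T0^[j] x ∈ E := by
      intro j
      obtain ⟨α, i, hi', hz⟩ := tow_cover hl P (iet_dom_subset hl (hx j))
      have h2 := hcon j α i hi'
      rw [hE, mem_iUnion]
      refine ⟨α, ?_⟩
      rw [mem_iUnion₂]
      refine ⟨i, Finset.mem_range.mpr hi', ?_⟩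
      rw [mem_insert_iff, mem_singleton_iff]
      by_contra h3
      push Not at h3
      apply h2
      exact ⟨lt_of_le_of_ne hz.1 (Ne.symm h3.1), lt_of_le_of_ne hz.2 h3.2⟩
    exact Set.infinite_of_injective_forall_mem (iet_aperiodic hi hT hx) hmem hfin
  obtain ⟨j, α, i, hir, hj⟩ := h1
  set y := T0^[j] x - P.sh α i with hy
  have hyI : y ∈ Ioo (P.lo α) (P.hi α) := ⟨by linarith [hj.1], by linarith [hj.2]⟩
  have h2 : ∀ k, i + k ≤ P.r α → T0^[k] (T0^[j] x) = y + P.sh α (i + k) := by
    intro k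
    induction k with
    | zero =>
      intro _
      rw [hy]
      simp
    | succ k ih =>
      intro hk
      rw [Function.iterate_succ_apply', ih (by omega), P.step α (i + k) (by omega) y hyI]
      rfl
  have h3 := h2 (P.r α - i) (by omega)
  have h4 : i + (P.r α - i) = P.r α := by omega
  rw [h4, P.sh_ret, ← Function.iterate_add_apply] at h3
  refine ⟨P.r α - i + j, ?_⟩
  rw [h3]
  have h5 := P.lo_ge α
  have h6 := P.hi_le α
  constructor
  · linarith [hyI.1]
  · linarith [hyI.2]

end IetFactsMain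

end Pool.Agent.Helper22.Rev
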