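import Pool.Agent.Helper22.Rev.FinalDefs
import Pool.Agent.Helper22.Rev.IetFacts

/-!
# The data `TSide` from a generalised interval exchange map of class `C^3`
-/

set_option autoImplicit false

open Set Filter Topology MeasureTheory

namespace Pool.Agent.Helper22.Rev

namespace TSideEx

variable {n : ℕ} {l : Fin (n + 2) → ℝ}

/-- the closed pieces -/
def pc (l : Fin (n + 2) → ℝ) (α : Fin (n + 2)) : Set ℝ := Icc (left l α) (left l α + l α)

theorem exists_pc (hl : ∀ i, 0 < l i) {y : ℝ} (hy : y ∈ Icc (-half l) (half l)) :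
    ∃ α, y ∈ pc l α := by
  by_cases h1 : y = -half l
  · refine ⟨0, ?_⟩
    unfold pc
    rw [iet_left_zero, h1]
    exact ⟨le_rfl, by linarith [hl 0]⟩
  by_cases h2 : y = half l
  · refine ⟨Fin.last (n + 1), ?_⟩
    unfold pc
    rw [iet_left_last, h2]
    exact ⟨by linarith [iet_left_last l, hl (Fin.last (n + 1))], le_rfl⟩
  have h3 : y ∈ Ioo (-half l) (half l) :=
    ⟨lt_of_le_of_ne hy.1 (Ne.symm h1), lt_of_le_of_ne hy.2 h2⟩
  by_cases h4 : y ∈ Dom l
  · unfold Dom at h4
    rw [mem_iUnion] at h4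
    obtain ⟨α, h5⟩ := h4
    exact ⟨α, h5.1.le, h5.2.le⟩
  · obtain ⟨k, -, hk⟩ := iet_cover h3 h4
    refine ⟨k, ?_⟩
    unfold pc
    rw [hk]
    exact ⟨le_rfl, by linarith [hl k]⟩

theorem pc_subset (hl : ∀ i, 0 < l i) (α : Fin (n + 2)) : pc l α ⊆ Icc (-half l) (half l) :=
  Icc_subset_Icc (iet_left_ge hl α) (iet_left_le hl α)

theorem iUnion_pc (hl : ∀ i, 0 < l i) : ⋃ α, pc l α = Icc (-half l) (half l) := by
  ext y
  rw [mem_iUnion]
  exact ⟨fun ⟨α, h⟩ => pc_subset hl α h, fun h => exists_pc hl h⟩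

theorem pc_inter (hl : ∀ i, 0 < l i) {α β : Fin (n + 2)} (h : α < β) {y : ℝ}
    (h1 : y ∈ pc l α) (h2 : y ∈ pc l β) : left l β = left l α + l α ∧ y = left l β := by
  have h3 := iet_left_lt hl h
  have h4 := h1.2
  have h5 := h2.1
  constructor <;> linarith

open Classical in
/-- the logarithm of the derivative of the generalised interval exchange map -/
noncomputable def lf (l : Fin (n + 2) → ℝ) (g : Fin (n + 2) → ℝ → ℝ) (y : ℝ) : ℝ :=
  if h : ∃ α, y ∈ pc l α then Real.log (deriv (g h.choose) y) else 0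

theorem lf_eq (hl : ∀ i, 0 < l i) {g : Fin (n + 2) → ℝ → ℝ}
    (hm : ∀ α β, left l β = left l α + l α → deriv (g β) (left l β) = deriv (g α) (left l β))
    {α : Fin (n + 2)} {y : ℝ} (hy : y ∈ pc l α) : lf l g y = Real.log (deriv (g α) y) := by
  have hex : ∃ α, y ∈ pc l α := ⟨α, hy⟩
  unfold lf
  rw [dif_pos hex]
  have h1 := hex.choose_spec
  rcases lt_trichotomy hex.choose α with h | h | h
  · obtain ⟨h2, h3⟩ := pc_inter hl h h1 hy
    have h4 := hm _ _ h2
    rw [← h3] at h4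
    rw [h4]
  · rw [h]
  · obtain ⟨h2, h3⟩ := pc_inter hl h hy h1
    have h4 := hm _ _ h2
    rw [← h3] at h4
    rw [h4]

theorem lf_ev (hl : ∀ i, 0 < l i) {g : Fin (n + 2) → ℝ → ℝ}
    (hm : ∀ α β, left l β = left l α + l α → deriv (g β) (left l β) = deriv (g α) (left l β))
    {α : Fin (n + 2)} {y : ℝ} (hy : y ∈ Ioo (left l α) (left l α + l α)) :
    lf l g =ᶠ[𝓝 y] fun z => Real.log (deriv (g α) z) := by
  filter_upwards [isOpen_Ioo.mem_nhds hy] with z hz
  exact lf_eq hl hm ⟨hz.1.le, hz.2.le⟩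

/-- first derivative of `log g'` -/
noncomputable def p1 (g : ℝ → ℝ) (y : ℝ) : ℝ := deriv (deriv g) y / deriv g y

/-- second derivative of `log g'` -/
noncomputable def p2 (g : ℝ → ℝ) (y : ℝ) : ℝ :=
  (deriv (deriv (deriv g)) y * deriv g y - deriv (deriv g) y * deriv (deriv g) y) /
    deriv g y ^ 2

theorem contDiff_deriv {g : ℝ → ℝ} {m : ℕ} (hg : ContDiff ℝ (m + 1 : ℕ) g) :
    ContDiff ℝ m (deriv g) := by
  have h1 : ContDiff ℝ ((m : WithTop ℕ∞) + 1) g := by exact_mod_cast hg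
  exact (contDiff_succ_iff_deriv.1 h1).2.2

theorem hasDerivAt_log {g : ℝ → ℝ} (hg : ContDiff ℝ 3 g) {y : ℝ} (hy : 0 < deriv g y) :
    HasDerivAt (fun z => Real.log (deriv g z)) (p1 g y) y := by
  have h1 : ContDiff ℝ (2 : ℕ) (deriv g) := contDiff_deriv (by exact_mod_cast hg)
  have h2 : HasDerivAt (deriv g) (deriv (deriv g) y) y :=
    ((h1.differentiable (by norm_num)) y).hasDerivAt
  exact h2.log hy.ne'

theorem hasDerivAt_p1 {g : ℝ → ℝ} (hg : ContDiff ℝ 3 g) {y : ℝ} (hy : 0 < deriv g y) :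
    HasDerivAt (p1 g) (p2 g y) y := by
  have h1 : ContDiff ℝ (2 : ℕ) (deriv g) := contDiff_deriv (by exact_mod_cast hg)
  have h2 : HasDerivAt (deriv g) (deriv (deriv g) y) y :=
    ((h1.differentiable (by norm_num)) y).hasDerivAt
  have h3 : ContDiff ℝ (1 : ℕ) (deriv (deriv g)) := contDiff_deriv (by exact_mod_cast h1)
  have h4 : HasDerivAt (deriv (deriv g)) (deriv (deriv (deriv g)) y) y :=
    ((h3.differentiable (by norm_num)) y).hasDerivAt
  exact h4.div h2 hy.ne'

theorem cont_bounds {g : ℝ → ℝ} (hg : ContDiff ℝ 3 g) {u v : ℝ}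
    (hp : ∀ x ∈ Icc u v, 0 < deriv g x) :
    ∃ C : ℝ, 0 ≤ C ∧ ∀ x ∈ Icc u v, |p1 g x| ≤ C ∧ |p2 g x| ≤ C := by
  have h1 : ContDiff ℝ (2 : ℕ) (deriv g) := contDiff_deriv (by exact_mod_cast hg)
  have h3 : ContDiff ℝ (1 : ℕ) (deriv (deriv g)) := contDiff_deriv (by exact_mod_cast h1)
  have h5 : ContDiff ℝ (0 : ℕ) (deriv (deriv (deriv g))) := contDiff_deriv (by exact_mod_cast h3)
  have c1 : ContinuousOn (p1 g) (Icc u v) :=
    h3.continuous.continuousOn.div h1.continuous.continuousOn fun x hx => (hp x hx).ne'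
  have c2 : ContinuousOn (p2 g) (Icc u v) := by
    refine ContinuousOn.div ?_ ?_ fun x hx => (pow_pos (hp x hx) 2).ne'
    · exact ((h5.continuous.mul h1.continuous).sub (h3.continuous.mul h3.continuous)).continuousOn
    · exact (h1.continuous.pow 2).continuousOn
  obtain ⟨C1, hC1⟩ := isCompact_Icc.exists_bound_of_continuousOn c1
  obtain ⟨C2, hC2⟩ := isCompact_Icc.exists_bound_of_continuousOn c2
  refine ⟨|C1| + |C2|, by positivity, fun x hx => ⟨?_, ?_⟩⟩
  · have := hC1 x hx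
    rw [Real.norm_eq_abs] at this
    linarith [le_abs_self C1, abs_nonneg C2]
  · have := hC2 x hx
    rw [Real.norm_eq_abs] at this
    linarith [le_abs_self C2, abs_nonneg C1]

theorem ends {a : ℝ} {G : ℝ → ℝ} (ha : 0 < a) (hm : StrictMonoOn G (Icc (-a) a))
    (hb : BijOn G (Icc (-a) a) (Icc (-a) a)) : G (-a) = -a ∧ G a = a := by
  have h1 : -a ∈ Icc (-a) a := ⟨le_rfl, by linarith⟩
  have h2 : a ∈ Icc (-a) a := ⟨by linarith, le_rfl⟩
  constructor
  · obtain ⟨x, hx, hxa⟩ := hb.surjOn h1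
    have h3 := hm.monotoneOn h1 hx hx.1
    have h4 := (hb.mapsTo h1).1
    linarith
  · obtain ⟨x, hx, hxa⟩ := hb.surjOn h2
    have h3 := hm.monotoneOn hx h2 hx.2
    have h4 := (hb.mapsTo h2).2
    linarith

end TSideEx

open TSideEx

theorem tside_exists {n : ℕ} {l l' : Fin (n + 2) → ℝ} {T0' T G : ℝ → ℝ}
    (h : IncConj l l' T0' T G) :
    ∃ (f f1 f2 : ℝ → ℝ) (C : ℝ), TSide T0' (Dom l') (half l') G T f f1 f2 C := by
  obtain ⟨g, hg3, hgT, hgd, -, hgm, hgend⟩ := h.giet
  have hl := h.hl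
  have hpos : 0 < half l := iet_half_pos hl
  obtain ⟨e1, e2⟩ := ends hpos h.mono h.bij
  have hloc : ∀ x ∈ Dom l', ∃ α, G x ∈ Ioo (left l α) (left l α + l α) := by
    intro x hx
    have h1 := (h.conj x hx).1
    unfold Dom at h1
    rwa [mem_iUnion] at h1
  have hpd : ∀ α, ∀ y ∈ Ioo (left l α) (left l α + l α), 0 < deriv (g α) y :=
    fun α y hy => hgd α y ⟨hy.1.le, hy.2.le⟩
  have hd : ∀ α, ∀ y ∈ Ioo (left l α) (left l α + l α), HasDerivAt (lf l g) (p1 (g α) y) y :=
    fun α y hy => (hasDerivAt_log (hg3 α) (hpd α y hy)).congr_of_eventuallyEq (lf_ev hl hgm hy)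
  have hd1 : ∀ α, ∀ y ∈ Ioo (left l α) (left l α + l α), deriv (lf l g) y = p1 (g α) y :=
    fun α y hy => (hd α y hy).deriv
  have hdd : ∀ α, ∀ y ∈ Ioo (left l α) (left l α + l α),
      HasDerivAt (deriv (lf l g)) (p2 (g α) y) y := by
    intro α y hy
    refine (hasDerivAt_p1 (hg3 α) (hpd α y hy)).congr_of_eventuallyEq ?_
    filter_upwards [isOpen_Ioo.mem_nhds hy] with z hz
    exact hd1 α z hz
  choose C hC0 hC using fun α => cont_bounds (hg3 α) (hgd α)
  have hCs : ∀ α, C α ≤ ∑ β, C β := fun α =>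
    Finset.single_le_sum (fun β _ => hC0 β) (Finset.mem_univ α)
  refine ⟨lf l g, deriv (lf l g), deriv (deriv (lf l g)), ∑ α, C α, ?_⟩
  exact
    { ha := by rw [h.hh]; exact hpos
      hC := Finset.sum_nonneg fun β _ => hC0 β
      sub := iet_dom_subset h.hl'
      opn := isOpen_iUnion fun _ => isOpen_Ioo
      gcont := by rw [h.hh]; exact h.cont
      gmono := by rw [h.hh]; exact h.mono
      conj := fun x hx => (h.conj x hx).2
      fcont := by
        rw [h.hh, e1, e2, ← iUnion_pc hl]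
        refine (locallyFinite_of_finite _).continuousOn_iUnion (fun α => isClosed_Icc) fun α => ?_
        have h1 : ContDiff ℝ (2 : ℕ) (deriv (g α)) :=
          contDiff_deriv (by exact_mod_cast hg3 α)
        refine ContinuousOn.congr (f := fun y => Real.log (deriv (g α) y)) ?_
          (fun y hy => lf_eq hl hgm hy)
        exact h1.continuous.continuousOn.log fun y hy => (hgd α y hy).ne'
      fend := by
        rw [h.hh, e1, e2]
        have h1 : half l ∈ pc l (Fin.last (n + 1)) := by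
          refine ⟨?_, (iet_left_last l).ge⟩
          linarith [iet_left_last l, hl (Fin.last (n + 1))]
        have h2 : -half l ∈ pc l 0 := by
          refine ⟨(iet_left_zero l).le, ?_⟩
          linarith [iet_left_zero l, hl 0]
        rw [lf_eq hl hgm h1, lf_eq hl hgm h2, hgend]
      dT := by
        intro x hx
        obtain ⟨α, hα⟩ := hloc x hx
        rw [lf_eq hl hgm (α := α) ⟨hα.1.le, hα.2.le⟩, Real.exp_log (hpd α _ hα)]
        have h1 : HasDerivAt (g α) (deriv (g α) (G x)) (G x) :=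
          (((hg3 α).differentiable (by norm_num)) (G x)).hasDerivAt
        refine h1.congr_of_eventuallyEq ?_
        filter_upwards [isOpen_Ioo.mem_nhds hα] with z hz
        exact hgT α z hz
      df := by
        intro x hx
        obtain ⟨α, hα⟩ := hloc x hx
        rw [hd1 α _ hα]
        exact hd α _ hα
      df1 := by
        intro x hx
        obtain ⟨α, hα⟩ := hloc x hx
        rw [(hdd α _ hα).deriv]
        exact hdd α _ hα
      b1 := by
        intro x hx
        obtain ⟨α, hα⟩ := hloc x hx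
        rw [hd1 α _ hα]
        exact (hC α _ ⟨hα.1.le, hα.2.le⟩).1.trans (hCs α)
      b2 := by
        intro x hx
        obtain ⟨α, hα⟩ := hloc x hx
        rw [(hdd α _ hα).deriv]
        exact (hC α _ ⟨hα.1.le, hα.2.le⟩).2.trans (hCs α) }

end Pool.Agent.Helper22.Rev
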