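import Mathlib
import Pool.Agent.Helper22.Rev.FinalDefs
import Pool.Agent.Helper22.Rev.Regular
import Pool.Agent.Helper22.Rev.Commute
import Pool.Agent.Helper22.Rev.TowB
import Pool.Agent.Helper22.Rev.Mid
import Pool.Agent.Helper22.Rev.Decay
import Pool.Agent.Helper22.Rev.Spread
import Pool.Agent.Helper22.Rev.Sym
import Pool.Agent.Helper22.Rev.TSideEx

/-!
# RV-11: the increasing conjugacy is `C^1` up to the end points
-/

set_option autoImplicit false

open Set Filter Topology MeasureTheory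

namespace Pool.Agent.Helper22.Rev

namespace Core

section Eps

variable {d : ℕ} {T0 : ℝ → ℝ} {U0 : Set ℝ} {a : ℝ}

theorem eps_anti {P W : Tow d T0 U0 a} (R : Refine P W) : W.eps ≤ P.eps := by
  classical
  have h1 := P.total
  have h2 := W.total
  have h3 : ∑ α, (P.hi α - P.lo α) =
      ∑ β, (∑ α, ((R.it β).count α : ℝ)) * (W.hi β - W.lo β) := by
    rw [Finset.sum_congr rfl fun α _ => R.length_eq α, Finset.sum_comm]
    exact Finset.sum_congr rfl fun β _ => by rw [Finset.sum_mul]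
  have h4 : ∀ β, (1 : ℝ) ≤ ∑ α, ((R.it β).count α : ℝ) := by
    intro β
    obtain ⟨α, hα⟩ := List.exists_mem_of_ne_nil _ (R.it_ne_nil β)
    have h5 : 1 ≤ (R.it β).count α := List.count_pos_iff.2 hα
    have h6 : (1 : ℝ) ≤ ((R.it β).count α : ℝ) := by exact_mod_cast h5
    exact h6.trans (Finset.single_le_sum (f := fun α => ((R.it β).count α : ℝ))
      (fun i _ => Nat.cast_nonneg _) (Finset.mem_univ α))
  have h5 : ∑ β, (W.hi β - W.lo β) ≤ ∑ β, (∑ α, ((R.it β).count α : ℝ)) * (W.hi β - W.lo β) := by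
    refine Finset.sum_le_sum fun β _ => ?_
    have h6 := W.lt β
    have h7 := h4 β
    nlinarith
  rw [← h3, h1, h2] at h5
  linarith

theorem eps_tendsto (hd : 0 < d) (Q : TowerSeq d T0 U0 a) :
    Tendsto (fun m => (Q.P m).eps) atTop (𝓝 0) := by
  have hanti : Antitone (fun m => (Q.P m).eps) := antitone_nat_of_succ_le fun m => eps_anti (Q.R m)
  have hb : ∀ k, (Q.P (2 * k)).eps ≤ a * (1 / 2) ^ k := by
    intro k
    induction k with
    | zero =>
      simpa using (Q.P 0).eps_le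
    | succ k ih =>
      have h1 := (Q.R (2 * k)).eps_le_half hd fun β α => (Q.good (2 * k) (even_two_mul k) β).1 α
      have h2 := eps_anti (Q.R (2 * k + 1))
      have h3 : 2 * (k + 1) = 2 * k + 1 + 1 := by ring
      rw [h3, pow_succ]
      linarith
  have hnn : ∀ m, 0 ≤ (Q.P m).eps := fun m => (Q.P m).eps_nonneg
  have hlim : Tendsto (fun m : ℕ => a * (1 / 2 : ℝ) ^ (m / 2)) atTop (𝓝 0) := by
    have h1 : Tendsto (fun k : ℕ => a * (1 / 2 : ℝ) ^ k) atTop (𝓝 0) := by
      have := (tendsto_pow_atTop_nhds_zero_of_lt_one (r := (1 / 2 : ℝ)) (by norm_num)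
        (by norm_num)).const_mul a
      simpa using this
    exact h1.comp (Nat.tendsto_div_const_atTop (by norm_num))
  refine squeeze_zero hnn (fun m => ?_) hlim
  have h1 : 2 * (m / 2) ≤ m := by omega
  exact (hanti h1).trans (hb _)

end Eps

theorem G_ends {a : ℝ} (ha : 0 < a) {G : ℝ → ℝ} (hm : StrictMonoOn G (Icc (-a) a))
    (hb : BijOn G (Icc (-a) a) (Icc (-a) a)) : G (-a) = -a ∧ G a = a := by
  have hm1 : -a ∈ Icc (-a) a := ⟨le_rfl, by linarith⟩
  have hm2 : a ∈ Icc (-a) a := ⟨by linarith, le_rfl⟩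
  constructor
  · obtain ⟨z, hz, hz2⟩ := hb.surjOn hm1
    have h1 := hb.mapsTo hm1
    have h2 := hm.monotoneOn hm1 hz hz.1
    exact le_antisymm (h2.trans hz2.le) h1.1
  · obtain ⟨z, hz, hz2⟩ := hb.surjOn hm2
    have h1 := hb.mapsTo hm2
    have h2 := hm.monotoneOn hz hm2 hz.2
    exact le_antisymm h1.2 (hz2.ge.trans h2)

/-- The identity `b'(G y) g(y) = g(y + t)` obtained by differentiating `T (G y) = G (y + t)`. -/
theorem chain {G T b g : ℝ → ℝ} {y t : ℝ} (hG : HasDerivAt G (g y) y)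
    (hG' : HasDerivAt G (g (y + t)) (y + t)) (hb : HasDerivAt b (deriv b (G y)) (G y))
    (hT : ∀ᶠ z in 𝓝 (G y), T z = b z) (hconj : ∀ᶠ z in 𝓝 y, T (G z) = G (z + t)) :
    deriv b (G y) * g y = g (y + t) := by
  have h1 : HasDerivAt T (deriv b (G y)) (G y) := hb.congr_of_eventuallyEq hT
  have h2 : HasDerivAt (fun z => T (G z)) (deriv b (G y) * g y) y := h1.comp y hG
  have h3 : HasDerivAt (fun z => G (z + t)) (g (y + t)) y := by
    have h4 : HasDerivAt (fun z : ℝ => z + t) 1 y := (hasDerivAt_id y).add_const t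
    have h5 := hG'.comp y h4
    rw [mul_one] at h5
    exact h5
  exact h2.unique (h3.congr_of_eventuallyEq hconj)

theorem ends {n : ℕ} {l l' : Fin (n + 2) → ℝ} {T0' T G : ℝ → ℝ} (h : IncConj l l' T0' T G)
    {g : ℝ → ℝ} (hgc : ContinuousOn g (Ioo (-half l) (half l)))
    (hg : ∀ x ∈ Ioo (-half l) (half l), 0 < g x ∧ HasDerivAt G (g x) x) :
    ∃ g : ℝ → ℝ, ContinuousOn g (Icc (-half l) (half l)) ∧
      ∀ x ∈ Icc (-half l) (half l), 0 < g x ∧
        HasDerivWithinAt G (g x) (Icc (-half l) (half l)) x := by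
  have hh := h.hh
  have ha : 0 < half l := iet_half_pos h.hl
  obtain ⟨hG1, hG2⟩ := G_ends ha h.mono h.bij
  obtain ⟨b, hb3, hbT, hbpos, hbends, hbmatch, hbend⟩ := h.giet
  set a := half l with ha_def
  have hm1 : -a ∈ Icc (-a) a := ⟨le_rfl, by linarith⟩
  have hm2 : a ∈ Icc (-a) a := ⟨by linarith, le_rfl⟩
  have hbder : ∀ α x, HasDerivAt (b α) (deriv (b α) x) x := fun α x =>
    ((hb3 α).differentiable (by norm_num)).differentiableAt.hasDerivAt
  have hbcont : ∀ α, Continuous (deriv (b α)) := fun α =>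
    (hb3 α).continuous_deriv (by norm_num)
  have hdiff : DifferentiableOn ℝ G (Ioo (-a) a) := fun x hx =>
    (hg x hx).2.differentiableAt.differentiableWithinAt
  have hderiv : ∀ x ∈ Ioo (-a) a, deriv G x = g x := fun x hx => (hg x hx).2.deriv
  -- the extreme intervals
  have e1 : left l 0 = -a := iet_left_zero l
  have e2 : left l (Fin.last (n + 1)) + l (Fin.last (n + 1)) = a := iet_left_last l
  have e3 : left l' 0 = -a := by rw [iet_left_zero, hh]
  have e4 : left l' (Fin.last (n + 1)) + l' (Fin.last (n + 1)) = a := by rw [iet_left_last, hh]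
  have hlast : (0 : Fin (n + 2)) < Fin.last (n + 1) := Fin.last_pos
  have p1 : l' 0 < 2 * a := by
    have h1 := iet_left_lt h.hl' hlast
    have h2 := h.hl' (Fin.last (n + 1))
    linarith
  have p2 : l' (Fin.last (n + 1)) < 2 * a := by
    have h1 := iet_left_lt h.hl' hlast
    have h2 := h.hl' 0
    linarith
  have q1 := h.hl' 0
  have q2 := h.hl' (Fin.last (n + 1))
  have r1 := h.hl 0
  have r2 := h.hl (Fin.last (n + 1))
  have hGt1 : Tendsto G (𝓝[>] (-a)) (𝓝 (-a)) := by
    have h1 : Tendsto G (𝓝[Icc (-a) a] (-a)) (𝓝 (G (-a))) := h.cont (-a) hm1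
    rw [hG1] at h1
    refine h1.mono_left ?_
    rw [nhdsWithin_Icc_eq_nhdsGE (by linarith)]
    exact nhdsWithin_mono _ Ioi_subset_Ici_self
  have hGt2 : Tendsto G (𝓝[<] a) (𝓝 a) := by
    have h1 : Tendsto G (𝓝[Icc (-a) a] a) (𝓝 (G a)) := h.cont a hm2
    rw [hG2] at h1
    refine h1.mono_left ?_
    rw [nhdsWithin_Icc_eq_nhdsLE (by linarith)]
    exact nhdsWithin_mono _ Iio_subset_Iic_self
  have hGm : ∀ x ∈ Ioo (-a) a, G x ∈ Ioo (-a) a := by
    intro x hx
    have h1 := h.mono hm1 (Ioo_subset_Icc_self hx) hx.1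
    have h2 := h.mono (Ioo_subset_Icc_self hx) hm2 hx.2
    rw [hG1] at h1
    rw [hG2] at h2
    exact ⟨h1, h2⟩
  -- left end
  have hL : Tendsto g (𝓝[>] (-a)) (𝓝 (g (a - l' 0) / deriv (b 0) (-a))) := by
    have hpos : deriv (b 0) (-a) ≠ 0 := by
      have := hbpos 0 (left l 0) ⟨le_rfl, by linarith⟩
      rw [e1] at this
      exact this.ne'
    have h1 : Tendsto (fun y => g (y + (2 * a - l' 0))) (𝓝[>] (-a)) (𝓝 (g (a - l' 0))) := by
      have h2 : ContinuousAt g (a - l' 0) :=
        (hgc (a - l' 0) ⟨by linarith, by linarith⟩).continuousAt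
          (Ioo_mem_nhds (by linarith) (by linarith))
      have h3 : Tendsto (fun y : ℝ => y + (2 * a - l' 0)) (𝓝[>] (-a)) (𝓝 (a - l' 0)) := by
        have h4 : ContinuousAt (fun y : ℝ => y + (2 * a - l' 0)) (-a) := by fun_prop
        have h5 := h4.tendsto
        rw [show -a + (2 * a - l' 0) = a - l' 0 by ring] at h5
        exact h5.mono_left nhdsWithin_le_nhds
      exact h2.tendsto.comp h3
    have h2 : Tendsto (fun y => deriv (b 0) (G y)) (𝓝[>] (-a)) (𝓝 (deriv (b 0) (-a))) :=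
      ((hbcont 0).tendsto (-a)).comp hGt1
    refine (h1.div h2 hpos).congr' ?_
    have h3 : ∀ᶠ y in 𝓝[>] (-a), y ∈ Ioo (-a) (-a + l' 0) := Ioo_mem_nhdsGT (by linarith)
    have h4 : ∀ᶠ y in 𝓝[>] (-a), G y < -a + l 0 := hGt1.eventually_lt_const (by linarith)
    filter_upwards [h3, h4] with y hy hGy
    have hy1 : y ∈ Ioo (-a) a := ⟨hy.1, by linarith [hy.2]⟩
    have hy2 : y + (2 * a - l' 0) ∈ Ioo (-a) a := ⟨by linarith [hy.1], by linarith [hy.2]⟩
    have hGI : G y ∈ Ioo (left l 0) (left l 0 + l 0) := by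
      rw [e1]
      exact ⟨(hGm y hy1).1, hGy⟩
    have hyI : y ∈ Ioo (left l' 0) (left l' 0 + l' 0) := by
      rw [e3]
      exact hy
    have hch := chain (T := T) (b := b 0) (g := g) (t := 2 * a - l' 0) (hg y hy1).2
      (hg _ hy2).2 (hbder 0 (G y)) (by
        filter_upwards [Ioo_mem_nhds hGI.1 hGI.2] with z hz
        exact hbT 0 z hz) (by
        filter_upwards [Ioo_mem_nhds hyI.1 hyI.2] with z hz
        have hzD : z ∈ Dom l' := by
          unfold Dom
          rw [mem_iUnion]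
          exact ⟨0, hz⟩
        rw [(h.conj z hzD).2, h.std 0 z hz, e3]
        congr 1
        ring)
    have hne : deriv (b 0) (G y) ≠ 0 := (hbpos 0 _ (Ioo_subset_Icc_self hGI)).ne'
    simp only [Pi.div_apply]
    rw [← hch]
    field_simp
  -- right end
  have hR : Tendsto g (𝓝[<] a) (𝓝 (g (-a + l' (Fin.last (n + 1))) /
      deriv (b (Fin.last (n + 1))) a)) := by
    have hpos : deriv (b (Fin.last (n + 1))) a ≠ 0 := by
      have := hbpos (Fin.last (n + 1)) (left l (Fin.last (n + 1)) + l (Fin.last (n + 1)))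
        ⟨by linarith, le_rfl⟩
      rw [e2] at this
      exact this.ne'
    have h1 : Tendsto (fun y => g (y + (-(2 * a) + l' (Fin.last (n + 1))))) (𝓝[<] a)
        (𝓝 (g (-a + l' (Fin.last (n + 1))))) := by
      have h2 : ContinuousAt g (-a + l' (Fin.last (n + 1))) :=
        (hgc _ ⟨by linarith, by linarith⟩).continuousAt
          (Ioo_mem_nhds (by linarith) (by linarith))
      have h3 : Tendsto (fun y : ℝ => y + (-(2 * a) + l' (Fin.last (n + 1)))) (𝓝[<] a)
          (𝓝 (-a + l' (Fin.last (n + 1)))) := by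
        have h4 : ContinuousAt (fun y : ℝ => y + (-(2 * a) + l' (Fin.last (n + 1)))) a := by
          fun_prop
        have h5 := h4.tendsto
        rw [show a + (-(2 * a) + l' (Fin.last (n + 1))) = -a + l' (Fin.last (n + 1)) by ring] at h5
        exact h5.mono_left nhdsWithin_le_nhds
      exact h2.tendsto.comp h3
    have h2 : Tendsto (fun y => deriv (b (Fin.last (n + 1))) (G y)) (𝓝[<] a)
        (𝓝 (deriv (b (Fin.last (n + 1))) a)) := ((hbcont _).tendsto a).comp hGt2
    refine (h1.div h2 hpos).congr' ?_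
    have h3 : ∀ᶠ y in 𝓝[<] a, y ∈ Ioo (a - l' (Fin.last (n + 1))) a :=
      Ioo_mem_nhdsLT (by linarith)
    have h4 : ∀ᶠ y in 𝓝[<] a, a - l (Fin.last (n + 1)) < G y :=
      hGt2.eventually_const_lt (by linarith)
    filter_upwards [h3, h4] with y hy hGy
    have hy1 : y ∈ Ioo (-a) a := ⟨by linarith [hy.1], hy.2⟩
    have hy2 : y + (-(2 * a) + l' (Fin.last (n + 1))) ∈ Ioo (-a) a :=
      ⟨by linarith [hy.1], by linarith [hy.2]⟩
    have hGI : G y ∈ Ioo (left l (Fin.last (n + 1)))
        (left l (Fin.last (n + 1)) + l (Fin.last (n + 1))) := by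
      rw [e2]
      exact ⟨by linarith, (hGm y hy1).2⟩
    have hyI : y ∈ Ioo (left l' (Fin.last (n + 1)))
        (left l' (Fin.last (n + 1)) + l' (Fin.last (n + 1))) := by
      rw [e4]
      exact ⟨by linarith [hy.1], hy.2⟩
    have hch := chain (T := T) (b := b (Fin.last (n + 1))) (g := g)
      (t := -(2 * a) + l' (Fin.last (n + 1))) (hg y hy1).2
      (hg _ hy2).2 (hbder _ (G y)) (by
        filter_upwards [Ioo_mem_nhds hGI.1 hGI.2] with z hz
        exact hbT _ z hz) (by
        filter_upwards [Ioo_mem_nhds hyI.1 hyI.2] with z hz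
        have hzD : z ∈ Dom l' := by
          unfold Dom
          rw [mem_iUnion]
          exact ⟨_, hz⟩
        rw [(h.conj z hzD).2, h.std _ z hz]
        congr 1
        linarith)
    have hne : deriv (b (Fin.last (n + 1))) (G y) ≠ 0 :=
      (hbpos _ _ (Ioo_subset_Icc_self hGI)).ne'
    simp only [Pi.div_apply]
    rw [← hch]
    field_simp
  have hlt' : -a < a := by linarith
  have hne' : -a ≠ a := hlt'.ne
  have hposL : 0 < g (a - l' 0) / deriv (b 0) (-a) := by
    apply div_pos (hg _ ⟨by linarith, by linarith⟩).1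
    have := hbpos 0 (left l 0) ⟨le_rfl, by linarith⟩
    rwa [e1] at this
  have hposR : 0 < g (-a + l' (Fin.last (n + 1))) / deriv (b (Fin.last (n + 1))) a := by
    apply div_pos (hg _ ⟨by linarith, by linarith⟩).1
    have := hbpos (Fin.last (n + 1)) (left l (Fin.last (n + 1)) + l (Fin.last (n + 1)))
      ⟨by linarith, le_rfl⟩
    rwa [e2] at this
  refine ⟨extendFrom (Ioo (-a) a) g,
    continuousOn_Icc_extendFrom_Ioo hgc hL hR, fun x hx => ?_⟩
  rcases eq_or_lt_of_le hx.1 with h1 | h1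
  · rw [← h1, eq_lim_at_left_extendFrom_Ioo hlt' hL]
    refine ⟨hposL, ?_⟩
    have h2 : HasDerivWithinAt G (g (a - l' 0) / deriv (b 0) (-a)) (Ici (-a)) (-a) := by
      apply hasDerivWithinAt_Ici_of_tendsto_deriv hdiff
      · exact (h.cont (-a) hm1).mono Ioo_subset_Icc_self
      · exact Ioo_mem_nhdsGT (by linarith)
      · refine hL.congr' ?_
        filter_upwards [Ioo_mem_nhdsGT (show -a < a by linarith)] with y hy
        exact (hderiv y hy).symm
    exact h2.mono Icc_subset_Ici_self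
  rcases eq_or_lt_of_le hx.2 with h2 | h2
  · rw [h2, eq_lim_at_right_extendFrom_Ioo hlt' hR]
    refine ⟨hposR, ?_⟩
    have h3 : HasDerivWithinAt G (g (-a + l' (Fin.last (n + 1))) /
        deriv (b (Fin.last (n + 1))) a) (Iic a) a := by
      apply hasDerivWithinAt_Iic_of_tendsto_deriv hdiff
      · exact (h.cont a hm2).mono Ioo_subset_Icc_self
      · exact Ioo_mem_nhdsLT (by linarith)
      · refine hR.congr' ?_
        filter_upwards [Ioo_mem_nhdsLT (show -a < a by linarith)] with y hy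
        exact (hderiv y hy).symm
    exact h3.mono Icc_subset_Iic_self
  · have h3 : extendFrom (Ioo (-a) a) g x = g x := by
      apply extendFrom_eq
      · rw [closure_Ioo hne']
        exact hx
      · exact (hgc x ⟨h1, h2⟩)
    rw [h3]
    exact ⟨(hg x ⟨h1, h2⟩).1, (hg x ⟨h1, h2⟩).2.hasDerivWithinAt⟩

end Core

theorem core {n : ℕ} {l l' : Fin (n + 2) → ℝ} {T0' T G : ℝ → ℝ} (h : IncConj l l' T0' T G)
    (hi : Indep l') (Q : TowerSeq (n + 2) T0' (Dom l') (half l')) (hr : Reversible l T) :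
    ∃ g : ℝ → ℝ, ContinuousOn g (Icc (-half l) (half l)) ∧
      ∀ x ∈ Icc (-half l) (half l), 0 < g x ∧
        HasDerivWithinAt G (g x) (Icc (-half l) (half l)) x := by
  have hd : 0 < n + 2 := by omega
  have ha : 0 < half l := iet_half_pos h.hl
  have ha' : 0 < half l' := iet_half_pos h.hl'
  have hh := h.hh
  obtain ⟨f, f1, f2, C, TS⟩ := tside_exists h
  have heps := Core.eps_tendsto hd Q
  obtain ⟨σ, σ', Cσ, τ, hσ⟩ := hr
  have hsym := sym h hi Q.P heps hσ
  obtain ⟨Cm, hCm, hmid⟩ := mid_bound h TS hσ hsym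
  obtain ⟨K, θ, hK, hθ0, hθ1, hdec⟩ := decay TS hd Q Cm τ hCm hσ.pos
    (fun m α => hmid (Q.P m) α)
  obtain ⟨κ, η, hη, hη0, hq⟩ := spread TS hd Q hK hθ0 hθ1 (fun m => (hdec m).2)
  obtain ⟨hG1, hG2⟩ := Core.G_ends ha h.mono h.bij
  have hσc : ContinuousOn σ' (Icc (-half l) (half l)) := by
    intro x hx
    have h1 : Tendsto (fun y => Cσ * |x - y| ^ τ) (𝓝[Icc (-half l) (half l)] x) (𝓝 0) := by
      have h2 : ContinuousAt (fun y : ℝ => Cσ * |x - y| ^ τ) x := by
        apply ContinuousAt.mul continuousAt_const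
        apply ContinuousAt.rpow_const
        · fun_prop
        · exact Or.inr hσ.pos.le
      have h3 := h2.tendsto
      simp only [sub_self, abs_zero, Real.zero_rpow hσ.pos.ne', mul_zero] at h3
      exact h3.mono_left nhdsWithin_le_nhds
    show Tendsto σ' _ _
    rw [tendsto_iff_norm_sub_tendsto_zero]
    refine squeeze_zero' (Eventually.of_forall fun y => norm_nonneg _) ?_ h1
    filter_upwards [self_mem_nhdsWithin] with y hy
    rw [Real.norm_eq_abs, abs_sub_comm]
    exact hσ.hol x hx y hy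
  obtain ⟨g, hgc, hg⟩ := regular TS (htr := by
      intro x hx
      unfold Dom at hx
      rw [mem_iUnion] at hx
      obtain ⟨α, hα⟩ := hx
      refine ⟨-(2 * left l' α + l' α), ?_⟩
      filter_upwards [Ioo_mem_nhds hα.1 hα.2] with y hy
      rw [h.std α y hy]
      ring) (fun m => (Q.P m).eps) κ η (fun m => (Q.P m).eps_le) hη hη0 hq
    (fun x _ horb m => hit h.hl' hi h.std (Q.P m) x horb)
    (reg_or h.hl' hi h.std) σ σ'
    (by rw [hh]; exact hsym)
    (by
      rw [hh, hG1, hG2]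
      intro y hy
      exact (hσ.der y (Ioo_subset_Icc_self hy)).hasDerivAt (Icc_mem_nhds hy.1 hy.2))
    (by
      rw [hh, hG1, hG2]
      exact hσc.mono Ioo_subset_Icc_self)
    (by
      rw [hh, hG1, hG2]
      intro y hy
      exact hσ.neg y (Ioo_subset_Icc_self hy))
  rw [hh] at hgc hg
  exact Core.ends h hgc hg

end Pool.Agent.Helper22.Rev
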