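import Pool.Agent.Helper22.Rev.FinalDefs
import Pool.Agent.Helper22.Rev.IetFacts

/-!
# The conjugacy theorem from the core theorem (RV-12)
-/

set_option autoImplicit false

open Set Filter Topology MeasureTheory

namespace Pool.Agent.Helper22.Rev

namespace FromCore

/-- the inverse of a continuous bijection of a compact interval is continuous -/
theorem inv_cont {a b : ℝ} {h k : ℝ → ℝ} (hc : ContinuousOn h (Icc a b))
    (hb : BijOn h (Icc a b) (Icc a b)) (hk : MapsTo k (Icc a b) (Icc a b))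
    (hhk : ∀ x ∈ Icc a b, h (k x) = x) : ContinuousOn k (Icc a b) := by
  intro y hy
  have hkh : ∀ x ∈ Icc a b, k (h x) = x := fun x hx =>
    hb.injOn (hk (hb.mapsTo hx)) hx (hhk _ (hb.mapsTo hx))
  rw [ContinuousWithinAt, tendsto_iff_forall_eventually_mem]
  intro s hs
  -- compactness
  obtain ⟨u, hus, huo, hyu⟩ := mem_nhds_iff.mp hs
  have hK : IsCompact (Icc a b \ u) := isCompact_Icc.diff huo
  have hK2 : IsCompact (h '' (Icc a b \ u)) := hK.image_of_continuousOn (hc.mono sdiff_subset)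
  have hy2 : y ∉ h '' (Icc a b \ u) := by
    rintro ⟨x, hx, hxy⟩
    have h1 : k y = x := by rw [← hxy, hkh x hx.1]
    exact hx.2 (h1 ▸ hyu)
  have h3 : (h '' (Icc a b \ u))ᶜ ∈ 𝓝[Icc a b] y :=
    mem_nhdsWithin_of_mem_nhds (hK2.isClosed.isOpen_compl.mem_nhds hy2)
  filter_upwards [h3, self_mem_nhdsWithin] with z hz hzI
  by_contra hcon
  apply hz
  exact ⟨k z, ⟨hk hzI, fun h4 => hcon (hus h4)⟩, hhk z hzI⟩

/-- a function with a continuous derivative is of class `C^1` -/
theorem c1_of {a b : ℝ} (hab : a < b) {f f' : ℝ → ℝ} (hf' : ContinuousOn f' (Icc a b))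
    (hf : ∀ x ∈ Icc a b, HasDerivWithinAt f (f' x) (Icc a b) x) :
    ContDiffOn ℝ 1 f (Icc a b) := by
  rw [contDiffOn_one_iff_derivWithin (uniqueDiffOn_Icc hab)]
  refine ⟨fun x hx => (hf x hx).differentiableWithinAt, ?_⟩
  apply hf'.congr
  intro x hx
  exact (hf x hx).derivWithin (uniqueDiffOn_Icc hab x hx)

/-- derivative of the inverse -/
theorem inv_deriv {a b : ℝ} {h k k' : ℝ → ℝ} (hc : ContinuousOn h (Icc a b))
    (hh : MapsTo h (Icc a b) (Icc a b)) (hkh : ∀ x ∈ Icc a b, k (h x) = x)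
    (hk' : ∀ x ∈ Icc a b, k' x ≠ 0)
    (hk : ∀ x ∈ Icc a b, HasDerivWithinAt k (k' x) (Icc a b) x) {x : ℝ} (hx : x ∈ Icc a b) :
    HasDerivWithinAt h (k' (h x))⁻¹ (Icc a b) x := by
  have h1 : HasFDerivWithinAt k
      (ContinuousLinearEquiv.unitsEquivAut ℝ (Units.mk0 (k' (h x)) (hk' _ (hh hx))) :
        ℝ →L[ℝ] ℝ) (Icc a b) (h x) := hk (h x) (hh hx)
  have h3 : Tendsto h (𝓝[Icc a b] x) (𝓝[Icc a b] (h x)) :=
    tendsto_nhdsWithin_iff.mpr ⟨hc x hx, by
      filter_upwards [self_mem_nhdsWithin] with z hz using hh hz⟩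
  have h5 : ∀ᶠ z in 𝓝[Icc a b] x, k (h z) = z := by
    filter_upwards [self_mem_nhdsWithin] with z hz using hkh z hz
  exact HasFDerivWithinAt.of_local_left_inverse h3 h1 hx h5

/-- the final assembly: `k` has a nonvanishing continuous derivative -/
theorem assemble {n : ℕ} {l : Fin (n + 2) → ℝ} (hl : ∀ i, 0 < l i) {T0 T h k k' : ℝ → ℝ}
    (hc : ContinuousOn h (Icc (-half l) (half l)))
    (hb : BijOn h (Icc (-half l) (half l)) (Icc (-half l) (half l)))
    (hk : MapsTo k (Icc (-half l) (half l)) (Icc (-half l) (half l)))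
    (hhk : ∀ x ∈ Icc (-half l) (half l), h (k x) = x)
    (hcj : ∀ x ∈ Dom l, h x ∈ Dom l ∧ h (T x) = T0 (h x))
    (hk'c : ContinuousOn k' (Icc (-half l) (half l)))
    (hk'0 : ∀ x ∈ Icc (-half l) (half l), k' x ≠ 0)
    (hk' : ∀ x ∈ Icc (-half l) (half l),
      HasDerivWithinAt k (k' x) (Icc (-half l) (half l)) x) : C1Conj l T T0 := by
  have hkh : ∀ x ∈ Icc (-half l) (half l), k (h x) = x := fun x hx =>
    hb.injOn (hk (hb.mapsTo hx)) hx (hhk _ (hb.mapsTo hx))
  have hpos := iet_half_pos hl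
  have hlt : -half l < half l := by linarith
  refine ⟨h, k, ?_, c1_of hlt hk'c hk', hb.mapsTo, hk, fun x hx => ⟨hkh x hx, hhk x hx⟩, hcj⟩
  apply c1_of (f' := fun x => (k' (h x))⁻¹) hlt
  · exact (hk'c.comp hc hb.mapsTo).inv₀ fun x hx => hk'0 _ (hb.mapsTo hx)
  · intro x hx
    exact inv_deriv hc hb.mapsTo hkh hk'0 hk' hx

/-- a bijection preserving a subset with finite complement: the inverse preserves it too -/
theorem inv_maps {I D : Set ℝ} {h k : ℝ → ℝ} (hfin : (I \ D).Finite)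
    (hk : MapsTo k I I) (hhk : ∀ x ∈ I, h (k x) = x) (hDI : D ⊆ I) (hD : ∀ x ∈ D, h x ∈ D) :
    ∀ x ∈ D, k x ∈ D := by
  have hinj : InjOn k I := by
    intro x hx y hy hxy
    rw [← hhk x hx, ← hhk y hy, hxy]
  have hmaps : MapsTo k (I \ D) (I \ D) := by
    intro x hx
    refine ⟨hk hx.1, fun h1 => hx.2 ?_⟩
    have h2 := hD _ h1
    rwa [hhk x hx.1] at h2
  have himg : k '' (I \ D) = I \ D := by
    apply Set.eq_of_subset_of_ncard_le hmaps.image_subset _ hfin
    rw [(hinj.mono sdiff_subset).ncard_image]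
  intro x hx
  by_contra hcon
  have h1 : k x ∈ I \ D := ⟨hk (hDI hx), hcon⟩
  rw [← himg] at h1
  obtain ⟨y, hy, hxy⟩ := h1
  have h2 := hinj hy.1 (hDI hx) hxy
  exact hy.2 (h2 ▸ hx)

/-- the complement of the open intervals is finite -/
theorem compl_finite {n : ℕ} (l : Fin (n + 2) → ℝ) : (Icc (-half l) (half l) \ Dom l).Finite := by
  apply ((Set.finite_range (left l)).union (Set.toFinite {-half l, half l})).subset
  intro x hx
  by_cases h1 : x = -half l
  · right
    simp [h1]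
  by_cases h2 : x = half l
  · right
    simp [h2]
  · left
    obtain ⟨k, _, hk⟩ := iet_cover (l := l)
      ⟨lt_of_le_of_ne hx.1.1 (Ne.symm h1), lt_of_le_of_ne hx.1.2 h2⟩ hx.2
    exact ⟨k, hk.symm⟩

theorem dom_sub {n : ℕ} {l : Fin (n + 2) → ℝ} (hl : ∀ i, 0 < l i) :
    Dom l ⊆ Icc (-half l) (half l) :=
  (iet_dom_subset hl).trans Ioo_subset_Icc_self

/-- a generalised interval exchange map sends the open intervals into the interval -/
theorem giet_maps {n : ℕ} {l : Fin (n + 2) → ℝ} (hl : ∀ i, 0 < l i) {T : ℝ → ℝ}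
    (hT : IsGiet l T) : ∀ x ∈ Dom l, T x ∈ Icc (-half l) (half l) := by
  obtain ⟨g, hg, hTg, hpos, hend, _, _⟩ := hT
  intro x hx
  unfold Dom at hx
  rw [mem_iUnion] at hx
  obtain ⟨α, hx⟩ := hx
  have hmono : StrictMonoOn (g α) (Icc (left l α) (left l α + l α)) := by
    apply strictMonoOn_of_deriv_pos (convex_Icc _ _) (hg α).continuous.continuousOn
    intro y hy
    rw [interior_Icc] at hy
    exact hpos α y (Ioo_subset_Icc_self hy)
  have hα := hl α
  have h1 := hmono (left_mem_Icc.mpr (by linarith)) (Ioo_subset_Icc_self hx) hx.1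
  have h2 := hmono (Ioo_subset_Icc_self hx) (right_mem_Icc.mpr (by linarith)) hx.2
  rw [(hend α).1] at h1
  rw [(hend α).2] at h2
  rw [hTg α x hx]
  have h3 := iet_left_ge hl α
  have h4 := iet_left_le hl α
  constructor <;> linarith

theorem half_rev {n : ℕ} (l : Fin (n + 2) → ℝ) : half (rev l) = half l := by
  unfold half rev
  congr 1
  exact Equiv.sum_comp Fin.revPerm l

theorem left_rev {n : ℕ} (l : Fin (n + 2) → ℝ) (i : Fin (n + 2)) :
    left (rev l) i = -(left l (Fin.rev i) + l (Fin.rev i)) := by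
  have h1 : ∀ i : Fin (n + 2), ∑ j ∈ Finset.Iio i, rev l j = ∑ j ∈ Finset.Ioi (Fin.rev i), l j := by
    intro i
    apply Finset.sum_bij (fun j _ => Fin.rev j)
    · intro j hj
      rw [Finset.mem_Iio] at hj
      rw [Finset.mem_Ioi]
      exact Fin.rev_lt_rev.mpr hj
    · intro j _ j' _ h
      exact Fin.rev_injective h
    · intro j hj
      rw [Finset.mem_Ioi] at hj
      refine ⟨Fin.rev j, ?_, Fin.rev_rev j⟩
      rw [Finset.mem_Iio]
      have h2 := Fin.rev_lt_rev.mpr hj
      rwa [Fin.rev_rev] at h2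
    · intro j _
      rfl
  have h2 : ∑ j, l j = ∑ j ∈ Finset.Iio (Fin.rev i), l j + l (Fin.rev i) +
      ∑ j ∈ Finset.Ioi (Fin.rev i), l j := by
    have h3 : (Finset.univ : Finset (Fin (n + 2))) =
        (insert (Fin.rev i) (Finset.Iio (Fin.rev i))) ∪ Finset.Ioi (Fin.rev i) := by
      ext j
      simp only [Finset.mem_univ, Finset.mem_union, Finset.mem_insert, Finset.mem_Iio,
        Finset.mem_Ioi, true_iff]
      rcases lt_trichotomy j (Fin.rev i) with h | h | h
      · exact Or.inl (Or.inr h)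
      · exact Or.inl (Or.inl h)
      · exact Or.inr h
    rw [h3, Finset.sum_union, Finset.sum_insert (by simp)]
    · ring
    · rw [Finset.disjoint_left]
      intro j hj hj'
      rw [Finset.mem_insert, Finset.mem_Iio] at hj
      rw [Finset.mem_Ioi] at hj'
      rcases hj with h | h
      · exact absurd hj' (by rw [h]; exact lt_irrefl _)
      · exact absurd hj' (not_lt.mpr h.le)
  unfold left
  rw [half_rev, h1]
  unfold half
  linarith

theorem dom_rev {n : ℕ} (l : Fin (n + 2) → ℝ) {x : ℝ} (hx : x ∈ Dom (rev l)) : -x ∈ Dom l := by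
  unfold Dom at hx ⊢
  rw [mem_iUnion] at hx ⊢
  obtain ⟨α, hx⟩ := hx
  rw [left_rev] at hx
  refine ⟨Fin.rev α, ?_, ?_⟩
  · have h1 := hx.2
    unfold rev at h1
    linarith
  · have h1 := hx.1
    linarith

theorem std_rev {n : ℕ} {l : Fin (n + 2) → ℝ} {T0 : ℝ → ℝ} (h0 : IsStd l T0) :
    IsStd (rev l) (fun x => -T0 (-x)) := by
  intro α x hx
  rw [left_rev] at hx ⊢
  have h1 := hx.1
  have h2 := hx.2
  unfold rev at h2 ⊢
  have h3 := h0 (Fin.rev α) (-x) ⟨by linarith, by linarith⟩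
  simp only
  rw [h3]
  ring

end FromCore

open FromCore in
theorem c1conj_of_core {n : ℕ} {l : Fin (n + 2) → ℝ} (hl : ∀ i, 0 < l i) {T0 T : ℝ → ℝ}
    (h0 : IsStd l T0) (hT : IsGiet l T) (ht : TopConj l T T0)
    (hcore : ∀ (l' : Fin (n + 2) → ℝ) (T0' G : ℝ → ℝ), (l' = l ∨ l' = rev l) →
      IncConj l l' T0' T G →
      ∃ g : ℝ → ℝ, ContinuousOn g (Icc (-half l) (half l)) ∧
        ∀ x ∈ Icc (-half l) (half l), 0 < g x ∧
          HasDerivWithinAt G (g x) (Icc (-half l) (half l)) x) :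
    C1Conj l T T0 := by
  obtain ⟨h, hc, hb, hcj⟩ := ht
  have hpos := iet_half_pos hl
  have hlt : -half l < half l := by linarith
  set k : ℝ → ℝ := Function.invFunOn h (Icc (-half l) (half l)) with hkdef
  have hk : MapsTo k (Icc (-half l) (half l)) (Icc (-half l) (half l)) := fun x hx =>
    Function.invFunOn_mem (hb.surjOn hx)
  have hhk : ∀ x ∈ Icc (-half l) (half l), h (k x) = x := fun x hx =>
    Function.invFunOn_eq (hb.surjOn hx)
  have hkh : ∀ x ∈ Icc (-half l) (half l), k (h x) = x := fun x hx =>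
    hb.injOn (hk (hb.mapsTo hx)) hx (hhk _ (hb.mapsTo hx))
  have hkc : ContinuousOn k (Icc (-half l) (half l)) := inv_cont hc hb hk hhk
  have hkinj : InjOn k (Icc (-half l) (half l)) := by
    intro x hx y hy hxy
    rw [← hhk x hx, ← hhk y hy, hxy]
  have hkb : BijOn k (Icc (-half l) (half l)) (Icc (-half l) (half l)) :=
    ⟨hk, hkinj, fun x hx => ⟨h x, hb.mapsTo hx, hkh x hx⟩⟩
  have hkD : ∀ x ∈ Dom l, k x ∈ Dom l :=
    inv_maps (compl_finite l) hk hhk (dom_sub hl) fun x hx => (hcj x hx).1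
  have hkT : ∀ x ∈ Dom l, T (k x) = k (T0 x) := by
    intro x hx
    have h1 := (hcj (k x) (hkD x hx)).2
    rw [hhk x (dom_sub hl hx)] at h1
    rw [← h1, hkh _ (giet_maps hl hT _ (hkD x hx))]
  rcases hkc.strictMonoOn_of_injOn_Icc' hlt.le hkinj with hm | hm
  · obtain ⟨g, hgc, hg⟩ := hcore l T0 k (Or.inl rfl)
      ⟨hl, hl, rfl, h0, hT, hkc, hm, hkb, fun x hx => ⟨hkD x hx, hkT x hx⟩⟩
    exact assemble hl hc hb hk hhk hcj hgc (fun x hx => (hg x hx).1.ne') fun x hx => (hg x hx).2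
  · have hneg : ∀ x ∈ Icc (-half l) (half l), -x ∈ Icc (-half l) (half l) := by
      intro x hx
      exact ⟨by linarith [hx.2], by linarith [hx.1]⟩
    have hGc : ContinuousOn (fun x => k (-x)) (Icc (-half l) (half l)) :=
      hkc.comp continuous_neg.continuousOn fun x hx => hneg x hx
    have hGm : StrictMonoOn (fun x => k (-x)) (Icc (-half l) (half l)) := by
      intro x hx y hy hxy
      exact hm (hneg y hy) (hneg x hx) (by linarith)
    have hGb : BijOn (fun x => k (-x)) (Icc (-half l) (half l)) (Icc (-half l) (half l)) := by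
      refine ⟨fun x hx => hk (hneg x hx), hGm.injOn, fun y hy => ?_⟩
      obtain ⟨x, hx, hxy⟩ := hkb.surjOn hy
      exact ⟨-x, hneg x hx, by simp only [neg_neg]; exact hxy⟩
    obtain ⟨g, hgc, hg⟩ := hcore (rev l) (fun x => -T0 (-x)) (fun x => k (-x)) (Or.inr rfl)
      ⟨hl, fun i => hl _, half_rev l, std_rev h0, hT, hGc, hGm, hGb, fun x hx => by
        have h1 := dom_rev l hx
        refine ⟨hkD _ h1, ?_⟩
        simp only [neg_neg]
        exact hkT _ h1⟩
    apply assemble (k' := fun x => -g (-x)) hl hc hb hk hhk hcj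
    · exact (hgc.comp continuous_neg.continuousOn fun x hx => hneg x hx).neg
    · intro x hx
      exact neg_ne_zero.mpr (hg _ (hneg x hx)).1.ne'
    · intro x hx
      have h1 := (hg _ (hneg x hx)).2
      have h2 : HasDerivWithinAt (fun y : ℝ => -y) (-1) (Icc (-half l) (half l)) x :=
        (hasDerivAt_neg x).hasDerivWithinAt
      have h3 := HasDerivWithinAt.scomp x h1 h2 fun y hy => hneg y hy
      have h4 : ((fun x => k (-x)) ∘ fun y : ℝ => -y) = k := by
        funext y
        simp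
      rw [h4] at h3
      simpa using h3

end Pool.Agent.Helper22.Rev
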