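import Mathlib
import Pool.Agent.Helper22.Rev.Defs
import Pool.Agent.Helper22.Rev.TowB
import Pool.Agent.Helper22.Rev.Local

/-!
# RV-14: exponential oscillation estimates for the density of the conjugacy and along towers
-/

set_option autoImplicit false

open Set Filter Topology MeasureTheory

namespace Pool.Agent.Helper22.Rev

namespace HoldA

/-! ### covering by closed pieces -/

theorem tile_cover {ι : Type*} (s : Finset ι) (l h : ι → ℝ) {A B : ℝ} (hAB : A < B)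
    (hlt : ∀ i ∈ s, l i < h i)
    (htile : ∀ F : ℝ → ℝ, ∑ i ∈ s, (F (h i) - F (l i)) = F B - F A) {x : ℝ}
    (hx : x ∈ Icc A B) : ∃ i ∈ s, x ∈ Icc (l i) (h i) := by
  classical
  rcases hx.2.lt_or_eq with hxB | hxB
  · have h1 := htile fun z => if z ≤ x then (0 : ℝ) else 1
    simp only [if_neg (not_le.2 hxB), if_pos hx.1, sub_zero] at h1
    obtain ⟨i, hi, hne⟩ := Finset.exists_ne_zero_of_sum_ne_zero (by rw [h1]; norm_num)
    refine ⟨i, hi, ?_⟩
    have hlti := hlt i hi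
    by_cases c1 : h i ≤ x
    · rw [if_pos c1, if_pos (hlti.le.trans c1)] at hne
      exact absurd (sub_self _) hne
    · by_cases c2 : l i ≤ x
      · exact ⟨c2, (not_le.1 c1).le⟩
      · rw [if_neg c1, if_neg c2] at hne
        exact absurd (sub_self _) hne
  · subst hxB
    have h1 := htile fun z => if z < x then (0 : ℝ) else 1
    simp only [if_pos hAB, lt_irrefl, if_false, sub_zero] at h1
    obtain ⟨i, hi, hne⟩ := Finset.exists_ne_zero_of_sum_ne_zero (by rw [h1]; norm_num)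
    refine ⟨i, hi, ?_⟩
    have hlti := hlt i hi
    by_cases c1 : h i < x
    · rw [if_pos c1, if_pos (hlti.trans c1)] at hne
      exact absurd (sub_self _) hne
    · by_cases c2 : l i < x
      · exact ⟨c2.le, not_lt.1 c1⟩
      · rw [if_neg c1, if_neg c2] at hne
        exact absurd (sub_self _) hne

section tower

variable {d : ℕ} {T0 : ℝ → ℝ} {U0 : Set ℝ} {a : ℝ} {P W : Tow d T0 U0 a}

/-- every point of the base of the coarse tower lies in a closed piece -/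
theorem base_cover (hd : 0 < d) (R : Refine P W) {x : ℝ} (hx : x ∈ Icc (-P.eps) P.eps) :
    ∃ β : Fin d, ∃ j < (R.it β).length, ∃ z ∈ Icc (W.lo β) (W.hi β),
      x = z - P.disp (R.it β) j := by
  classical
  have hpos := P.eps_pos hd
  obtain ⟨α, -, hα⟩ := tile_cover Finset.univ P.lo P.hi (by linarith : -P.eps < P.eps)
    (fun α _ => P.lt α) (fun F => P.sum_base F) hx
  obtain ⟨p, -, hp⟩ := tile_cover (R.pieces α) (fun p => W.lo p.1 - P.disp (R.it p.1) p.2)
    (fun p => W.hi p.1 - P.disp (R.it p.1) p.2) (P.lt α)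
    (fun p _ => by have := W.lt p.1; linarith) (fun F => R.sum_pieces α F) hα
  exact ⟨p.1, p.2, p.2.2, x + P.disp (R.it p.1) p.2,
    ⟨by linarith [hp.1], by linarith [hp.2]⟩, by ring⟩

theorem S_split (R : Refine P W) (g : ℝ → ℝ) (β : Fin d) {j : ℕ} (hj : j < (R.it β).length)
    {i : ℕ} (hi : i ≤ P.r (R.it β)[j]) (x : ℝ) :
    W.S g β (P.ht (R.it β) j + i) x =
      W.S g β (P.ht (R.it β) j) x + P.S g (R.it β)[j] i (x - P.disp (R.it β) j) := by
  unfold Tow.S
  rw [Finset.sum_range_add]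
  congr 1
  refine Finset.sum_congr rfl fun l hl => ?_
  rw [(R.sh_eq β hj ((Finset.mem_range.1 hl).le.trans hi)).2]
  congr 1
  ring

theorem S_ht_succ (R : Refine P W) (g : ℝ → ℝ) (β : Fin d) {j : ℕ} (hj : j < (R.it β).length)
    (x : ℝ) : W.S g β (P.ht (R.it β) (j + 1)) x =
      W.S g β (P.ht (R.it β) j) x + P.F g (R.it β)[j] (x - P.disp (R.it β) j) := by
  rw [P.ht_succ _ hj, S_split R g β hj le_rfl]
  rfl

/-- an interval in the base interval `β` whose translates along the tower are short -/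
structure Thin (P : Tow d T0 U0 a) (G : ℝ → ℝ) (δ : ℝ) (β : Fin d) (u v : ℝ) : Prop where
  lo : P.lo β ≤ u
  le : u ≤ v
  hi : v ≤ P.hi β
  len : ∀ i < P.r β, G (v + P.sh β i) - G (u + P.sh β i) ≤ δ

theorem Thin.down {G : ℝ → ℝ} {δ : ℝ} {β : Fin d} {u v : ℝ} (R : Refine P W)
    (h : Thin W G δ β u v) {j : ℕ} (hj : j < (R.it β).length) :
    Thin P G δ (R.it β)[j] (u - P.disp (R.it β) j) (v - P.disp (R.it β) j) := by
  have hs := R.piece_sub β hj
  have h1 := h.lo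
  have h2 := h.le
  have h3 := h.hi
  refine ⟨by linarith [hs.1], by linarith, by linarith [hs.2], ?_⟩
  intro i hi
  have hi' : i + 1 ≤ P.r (R.it β)[j] := hi
  have e1 := (R.sh_eq β hj hi').1
  have e2 := (R.sh_eq β hj hi.le).2
  have h4 := h.len (P.ht (R.it β) j + i) (by omega)
  rw [e2] at h4
  have e3 : v - P.disp (R.it β) j + P.sh (R.it β)[j] i =
      v + (P.sh (R.it β)[j] i - P.disp (R.it β) j) := by ring
  have e4 : u - P.disp (R.it β) j + P.sh (R.it β)[j] i =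
      u + (P.sh (R.it β)[j] i - P.disp (R.it β) j) := by ring
  rw [e3, e4]
  exact h4

/-- oscillation of the sums up to the return times of the coarse tower -/
theorem osc_ht {g G : ℝ → ℝ} {δ D : ℝ} (R : Refine P W)
    (hD : ∀ w u v, Thin P G δ w u v → |P.F g w v - P.F g w u| ≤ D) {β : Fin d} {u v : ℝ}
    (h : Thin W G δ β u v) : ∀ k ≤ (R.it β).length,
      |W.S g β (P.ht (R.it β) k) v - W.S g β (P.ht (R.it β) k) u| ≤ k * D := by
  intro k
  induction k with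
  | zero => intro _; simp [Tow.S]
  | succ k ih =>
    intro hk
    have hk' : k < (R.it β).length := hk
    have h1 := ih hk'.le
    have h2 := hD _ _ _ (h.down R hk')
    rw [S_ht_succ R g β hk', S_ht_succ R g β hk']
    have h3 : W.S g β (P.ht (R.it β) k) v + P.F g (R.it β)[k] (v - P.disp (R.it β) k) -
        (W.S g β (P.ht (R.it β) k) u + P.F g (R.it β)[k] (u - P.disp (R.it β) k)) =
        (W.S g β (P.ht (R.it β) k) v - W.S g β (P.ht (R.it β) k) u) +
        (P.F g (R.it β)[k] (v - P.disp (R.it β) k) -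
          P.F g (R.it β)[k] (u - P.disp (R.it β) k)) := by ring
    rw [h3]
    push_cast
    linarith [abs_add_le (W.S g β (P.ht (R.it β) k) v - W.S g β (P.ht (R.it β) k) u)
        (P.F g (R.it β)[k] (v - P.disp (R.it β) k) -
          P.F g (R.it β)[k] (u - P.disp (R.it β) k))]

theorem osc_F {g G : ℝ → ℝ} {δ D : ℝ} (R : Refine P W)
    (hD : ∀ w u v, Thin P G δ w u v → |P.F g w v - P.F g w u| ≤ D) {β : Fin d} {u v : ℝ}
    (h : Thin W G δ β u v) : |W.F g β v - W.F g β u| ≤ (R.it β).length * D := by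
  have h1 := osc_ht R hD h _ le_rfl
  rw [R.ht_length] at h1
  exact h1

end tower

/-! ### the recursion -/

theorem osc_rec {d : ℕ} {T0 : ℝ → ℝ} {U0 : Set ℝ} {a : ℝ} (Q : TowerSeq d T0 U0 a)
    {g G : ℝ → ℝ} {δ : ℝ} (D : ℕ → ℝ) (hD0 : ∀ l, 0 ≤ D l)
    (hD : ∀ l w u v, Thin (Q.P l) G δ w u v → |(Q.P l).F g w v - (Q.P l).F g w u| ≤ D l)
    (E : ℝ) (hE0 : 0 ≤ E) (hE : ∀ β u v, Thin (Q.P 0) G δ β u v → ∀ i ≤ (Q.P 0).r β,
      |(Q.P 0).S g β i v - (Q.P 0).S g β i u| ≤ E) :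
    ∀ m β u v, Thin (Q.P m) G δ β u v → ∀ i ≤ (Q.P m).r β,
      |(Q.P m).S g β i v - (Q.P m).S g β i u| ≤ ∑ l ∈ Finset.range m, Q.rho l * D l + E := by
  intro m
  induction m with
  | zero =>
    intro β u v h i hi
    rw [Finset.sum_range_zero, zero_add]
    exact hE β u v h i hi
  | succ m ih =>
    intro β u v h i hi
    rw [Finset.sum_range_succ]
    have hlen := Q.len m β
    have hsum0 : 0 ≤ ∑ l ∈ Finset.range m, Q.rho l * D l := by
      refine Finset.sum_nonneg fun l _ => mul_nonneg ?_ (hD0 l)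
      exact (Nat.cast_nonneg _).trans (Q.len l β)
    rcases hi.lt_or_eq with hlt | rfl
    · obtain ⟨j, hj, i', hi', rfl⟩ := (Q.R m).exists_split β hlt
      rw [S_split (Q.R m) g β hj hi'.le, S_split (Q.R m) g β hj hi'.le]
      have h1 := osc_ht (Q.R m) (hD m) h j hj.le
      have h2 := ih _ _ _ (h.down (Q.R m) hj) i' hi'.le
      have h3 : (j : ℝ) * D m ≤ Q.rho m * D m := by
        refine mul_le_mul_of_nonneg_right (le_trans ?_ hlen) (hD0 m)
        exact_mod_cast hj.le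
      have h4 := abs_add_le ((Q.P (m + 1)).S g β ((Q.P m).ht ((Q.R m).it β) j) v -
          (Q.P (m + 1)).S g β ((Q.P m).ht ((Q.R m).it β) j) u)
        ((Q.P m).S g ((Q.R m).it β)[j] i' (v - (Q.P m).disp ((Q.R m).it β) j) -
          (Q.P m).S g ((Q.R m).it β)[j] i' (u - (Q.P m).disp ((Q.R m).it β) j))
      rw [show ∀ p q r s : ℝ, p + q - (r + s) = (p - r) + (q - s) from fun p q r s => by ring]
      linarith
    · have h1 := osc_F (Q.R m) (hD m) h
      have h3 : (((Q.R m).it β).length : ℝ) * D m ≤ Q.rho m * D m :=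
        mul_le_mul_of_nonneg_right hlen (hD0 m)
      change |(Q.P (m + 1)).F g β v - (Q.P (m + 1)).F g β u| ≤ _
      linarith

/-! ### the derivative of the conjugacy along towers -/

section deriv

variable {T0 : ℝ → ℝ} {U0 : Set ℝ} {a : ℝ} {G T f f1 f2 : ℝ → ℝ} {C : ℝ} {d : ℕ}

theorem cocycle_open (TS : TSide T0 U0 a G T f f1 f2 C) (P : Tow d T0 U0 a) {g : ℝ → ℝ}
    (hgd : ∀ x ∈ Icc (-a) a, 0 < g x ∧ HasDerivWithinAt G (g x) (Icc (-a) a) x)
    (α : Fin d) {i : ℕ} (hi : i ≤ P.r α) {x : ℝ} (hx : x ∈ Ioo (P.lo α) (P.hi α)) :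
    Real.log (g (x + P.sh α i)) = Real.log (g x) + P.S (fun z => f (G z)) α i x := by
  have hder : ∀ y ∈ Ioo (-a) a, HasDerivAt G (g y) y := fun y hy =>
    (hgd y (Ioo_subset_Icc_self hy)).2.hasDerivAt (Icc_mem_nhds hy.1 hy.2)
  have hxa : x ∈ Ioo (-a) a :=
    ⟨by linarith [P.lo_ge α, P.eps_le, hx.1], by linarith [P.hi_le α, P.eps_le, hx.2]⟩
  have hya : x + P.sh α i ∈ Ioo (-a) a := by
    rcases hi.lt_or_eq with h | rfl
    · exact TS.sub (P.reg α i h x hx)
    · rw [P.sh_ret α]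
      exact ⟨by linarith [P.hi_le α, P.eps_le, hx.1], by linarith [P.lo_ge α, P.eps_le, hx.2]⟩
  have h1 : HasDerivAt (fun z => G (z + P.sh α i)) (g (x + P.sh α i)) x :=
    (hder _ hya).comp_add_const x (P.sh α i)
  have h2 : HasDerivAt (fun z => T^[i] (G z))
      (Real.exp (P.S (fun z => f (G z)) α i x) * g x) x :=
    (Local.iter_deriv P α TS hi hx).comp x (hder x hxa)
  have h3 : (fun z => G (z + P.sh α i)) =ᶠ[𝓝 x] fun z => T^[i] (G z) := by
    filter_upwards [isOpen_Ioo.mem_nhds hx] with z hz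
    exact (Local.iter_eq P α TS hi hz).symm
  have h4 := (h1.congr_of_eventuallyEq h3.symm).unique h2
  rw [h4, Real.log_mul (Real.exp_pos _).ne' (hgd x (Ioo_subset_Icc_self hxa)).1.ne',
    Real.log_exp, add_comm]

theorem cocycle (TS : TSide T0 U0 a G T f f1 f2 C) (P : Tow d T0 U0 a) {g : ℝ → ℝ}
    (hg : ContinuousOn g (Icc (-a) a))
    (hgd : ∀ x ∈ Icc (-a) a, 0 < g x ∧ HasDerivWithinAt G (g x) (Icc (-a) a) x)
    (α : Fin d) {i : ℕ} (hi : i ≤ P.r α) {x : ℝ} (hx : x ∈ Icc (P.lo α) (P.hi α)) :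
    Real.log (g (x + P.sh α i)) = Real.log (g x) + P.S (fun z => f (G z)) α i x := by
  have hlog : ContinuousOn (fun z => Real.log (g z)) (Icc (-a) a) :=
    hg.log fun z hz => (hgd z hz).1.ne'
  have c1 : ContinuousOn (fun z => Real.log (g (z + P.sh α i))) (Icc (P.lo α) (P.hi α)) :=
    hlog.comp (f := fun z => z + P.sh α i) (by fun_prop)
      fun z hz => Local.level_sub P α TS hi hz
  have c2 : ContinuousOn (fun z => Real.log (g z) + P.S (fun z => f (G z)) α i z)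
      (Icc (P.lo α) (P.hi α)) :=
    (hlog.mono fun z hz => Local.base_sub P α hz).add (Local.S_cont P α TS hi)
  have heq : EqOn (fun z => Real.log (g (z + P.sh α i)))
      (fun z => Real.log (g z) + P.S (fun z => f (G z)) α i z) (Ioo (P.lo α) (P.hi α)) :=
    fun z hz => cocycle_open TS P hgd α hi hz
  exact heq.of_subset_closure c1 c2 Ioo_subset_Icc_self
    (by rw [closure_Ioo (P.lt α).ne]) hx

theorem cocycle_ret (TS : TSide T0 U0 a G T f f1 f2 C) (P : Tow d T0 U0 a) {g : ℝ → ℝ}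
    (hg : ContinuousOn g (Icc (-a) a))
    (hgd : ∀ x ∈ Icc (-a) a, 0 < g x ∧ HasDerivWithinAt G (g x) (Icc (-a) a) x)
    (α : Fin d) {x : ℝ} (hx : x ∈ Icc (P.lo α) (P.hi α)) :
    Real.log (g (x - P.s α)) = Real.log (g x) + P.F (fun z => f (G z)) α x := by
  have h := cocycle TS P hg hgd α le_rfl hx
  rw [P.sh_ret α] at h
  have e : x - P.s α = x + -(P.lo α + P.hi α) := by
    unfold Tow.s
    ring
  rw [e]
  exact h

/-- passing from the base of the fine tower to a piece in the base of the coarse tower -/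
theorem cocycle_disp (TS : TSide T0 U0 a G T f f1 f2 C) {P W : Tow d T0 U0 a} (R : Refine P W)
    {g : ℝ → ℝ} (hg : ContinuousOn g (Icc (-a) a))
    (hgd : ∀ x ∈ Icc (-a) a, 0 < g x ∧ HasDerivWithinAt G (g x) (Icc (-a) a) x)
    {V : ℝ} (hF : ∀ α, ∀ x ∈ Icc (P.lo α) (P.hi α), |P.F (fun z => f (G z)) α x| ≤ V)
    (β : Fin d) {z : ℝ} (hz : z ∈ Icc (W.lo β) (W.hi β)) : ∀ j ≤ (R.it β).length,
      |Real.log (g (z - P.disp (R.it β) j)) - Real.log (g z)| ≤ j * V := by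
  intro j
  induction j with
  | zero => intro _; simp
  | succ j ih =>
    intro hj
    have hj' : j < (R.it β).length := hj
    have hs := R.piece_sub β hj'
    have hm : z - P.disp (R.it β) j ∈ Icc (P.lo (R.it β)[j]) (P.hi (R.it β)[j]) :=
      ⟨by linarith [hs.1, hz.1], by linarith [hs.2, hz.2]⟩
    have h1 := cocycle_ret TS P hg hgd _ hm
    have h2 := hF _ _ hm
    have h3 := ih hj'.le
    rw [P.disp_succ _ hj', ← sub_sub, h1]
    push_cast
    have h4 := abs_add_le (Real.log (g (z - P.disp (R.it β) j)) - Real.log (g z))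
      (P.F (fun z => f (G z)) (R.it β)[j] (z - P.disp (R.it β) j))
    rw [show Real.log (g (z - P.disp (R.it β) j)) +
        P.F (fun z => f (G z)) (R.it β)[j] (z - P.disp (R.it β) j) - Real.log (g z) =
      (Real.log (g (z - P.disp (R.it β) j)) - Real.log (g z)) +
        P.F (fun z => f (G z)) (R.it β)[j] (z - P.disp (R.it β) j) by ring]
    linarith

/-- lower bound for the lengths -/
theorem glen_ge {g : ℝ → ℝ} {gm : ℝ} (hgcont : ContinuousOn G (Icc (-a) a))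
    (hgd : ∀ x ∈ Icc (-a) a, 0 < g x ∧ HasDerivWithinAt G (g x) (Icc (-a) a) x)
    (hgm : ∀ x ∈ Icc (-a) a, gm ≤ g x) {x y : ℝ} (hx : x ∈ Icc (-a) a) (hy : y ∈ Icc (-a) a)
    (hxy : x ≤ y) : gm * (y - x) ≤ G y - G x := by
  have hder : ∀ z ∈ Ioo (-a) a, HasDerivAt G (g z) z := fun z hz =>
    (hgd z (Ioo_subset_Icc_self hz)).2.hasDerivAt (Icc_mem_nhds hz.1 hz.2)
  refine (convex_Icc (-a) a).mul_sub_le_image_sub_of_le_deriv hgcont ?_ ?_ x hx y hy hxy
  · intro z hz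
    rw [interior_Icc] at hz
    exact (hder z hz).differentiableAt.differentiableWithinAt
  · intro z hz
    rw [interior_Icc] at hz
    rw [(hder z hz).deriv]
    exact hgm z (Ioo_subset_Icc_self hz)

/-- oscillation of the sums in the towers of the first stage -/
theorem osc_first (TS : TSide T0 U0 a G T f f1 f2 C) (P : Tow d T0 U0 a) {δ : ℝ} (hδ : 0 ≤ δ)
    {β : Fin d} {u v : ℝ} (h : Thin P G δ β u v) {i : ℕ} (hi : i ≤ P.r β) :
    |P.S (fun z => f (G z)) β i v - P.S (fun z => f (G z)) β i u| ≤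
      (∑ α, (P.r α : ℝ)) * (C * δ) := by
  have hu : u ∈ Icc (P.lo β) (P.hi β) := ⟨h.lo, h.le.trans h.hi⟩
  have hv : v ∈ Icc (P.lo β) (P.hi β) := ⟨h.lo.trans h.le, h.hi⟩
  have hC := TS.hC
  unfold Tow.S
  rw [← Finset.sum_sub_distrib]
  calc |∑ l ∈ Finset.range i, (f (G (v + P.sh β l)) - f (G (u + P.sh β l)))|
      ≤ ∑ l ∈ Finset.range i, |f (G (v + P.sh β l)) - f (G (u + P.sh β l))| :=
        Finset.abs_sum_le_sum_abs _ _
    _ ≤ ∑ l ∈ Finset.range i, C * δ := by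
        refine Finset.sum_le_sum fun l hl => ?_
        have hl' : l < P.r β := (Finset.mem_range.1 hl).trans_le hi
        refine (Local.level_lip P β TS hl' hu hv h.le).trans ?_
        exact mul_le_mul_of_nonneg_left (h.len l hl') hC
    _ = i * (C * δ) := by rw [Finset.sum_const, Finset.card_range, nsmul_eq_mul]
    _ ≤ (∑ α, (P.r α : ℝ)) * (C * δ) := by
        refine mul_le_mul_of_nonneg_right ?_ (by positivity)
        have h1 : (i : ℝ) ≤ P.r β := by exact_mod_cast hi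
        refine h1.trans ?_
        exact Finset.single_le_sum (f := fun α => (P.r α : ℝ)) (fun α _ => Nat.cast_nonneg _)
          (Finset.mem_univ β)

end deriv

/-! ### numerical facts -/

/-- the geometric mean of two bounds -/
theorem min_bound {K θ κ C' : ℝ} (hK : 0 < K) (hθ0 : 0 < θ) (hθ1 : θ < 1) (hκ0 : 0 < κ)
    (hκ1 : κ ≤ 1) (hC' : 0 < C') : ∃ M q θ2 : ℝ, 0 < M ∧ 0 < q ∧ q < 1 ∧ 0 < θ2 ∧ θ2 < 1 ∧
      θ ≤ θ2 ∧ ∀ (n l : ℕ) (x : ℝ), 0 ≤ x → x ≤ K * θ ^ l → x ≤ C' * θ ^ n / κ ^ l →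
        x ≤ M * θ2 ^ n * q ^ l := by
  have ha1 : 0 < -Real.log θ := by
    have := Real.log_neg hθ0 hθ1
    linarith
  have ha2 : 0 ≤ -Real.log κ := by
    have := Real.log_nonpos hκ0.le hκ1
    linarith
  obtain ⟨a1, ha1e⟩ : ∃ a1, a1 = -Real.log θ := ⟨_, rfl⟩
  obtain ⟨a2, ha2e⟩ : ∃ a2, a2 = -Real.log κ := ⟨_, rfl⟩
  rw [← ha1e] at ha1
  rw [← ha2e] at ha2
  obtain ⟨t, ht⟩ : ∃ t, t = a1 / (2 * (a1 + a2)) := ⟨_, rfl⟩
  have ht0 : 0 < t := by rw [ht]; positivity
  have ht1 : t ≤ 1 / 2 := by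
    rw [ht, div_le_div_iff₀ (by positivity) (by norm_num)]
    linarith
  have hteq : t * (a1 + a2) = a1 / 2 := by
    rw [ht]
    field_simp
  have hθ2 : θ ^ t < 1 := Real.rpow_lt_one hθ0.le hθ1 ht0
  refine ⟨K ^ (1 - t) * C' ^ t, Real.exp (-(a1 / 2)), θ ^ t, by positivity, Real.exp_pos _, ?_,
    by positivity, hθ2, ?_, ?_⟩
  · rw [Real.exp_lt_one_iff]
    linarith
  · calc θ = θ ^ (1 : ℝ) := (Real.rpow_one θ).symm
      _ ≤ θ ^ t := Real.rpow_le_rpow_of_exponent_ge hθ0 hθ1.le (by linarith)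
  · intro n l x hx h1 h2
    rcases hx.eq_or_lt with rfl | hx0
    · positivity
    have e1 : x = x ^ (1 - t) * x ^ t := by
      rw [← Real.rpow_add hx0, sub_add_cancel, Real.rpow_one]
    have e2 : x ^ (1 - t) ≤ (K * θ ^ l) ^ (1 - t) :=
      Real.rpow_le_rpow hx h1 (by linarith)
    have e3 : x ^ t ≤ (C' * θ ^ n / κ ^ l) ^ t := Real.rpow_le_rpow hx h2 ht0.le
    have hexpθ : θ = Real.exp (-a1) := by rw [ha1e, neg_neg, Real.exp_log hθ0]
    have hexpκ : κ = Real.exp (-a2) := by rw [ha2e, neg_neg, Real.exp_log hκ0]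
    rw [e1]
    refine (mul_le_mul e2 e3 (Real.rpow_nonneg hx _) (by positivity)).trans (le_of_eq ?_)
    rw [Real.mul_rpow hK.le (by positivity), Real.div_rpow (by positivity) (by positivity),
      Real.mul_rpow hC'.le (by positivity), ← Real.rpow_natCast θ n, ← Real.rpow_mul hθ0.le,
      ← Real.rpow_natCast (θ ^ t) n, ← Real.rpow_mul hθ0.le, mul_comm (n : ℝ) t]
    have e4 : (θ ^ l) ^ (1 - t) / (κ ^ l) ^ t = Real.exp (-(a1 / 2)) ^ l := by
      rw [hexpθ, hexpκ, ← Real.exp_nat_mul, ← Real.exp_nat_mul, ← Real.exp_mul, ← Real.exp_mul,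
        ← Real.exp_sub, ← Real.exp_nat_mul]
      congr 1
      have : (l : ℝ) * -a1 * (1 - t) - (l : ℝ) * -a2 * t = l * (t * (a1 + a2) - a1) := by ring
      rw [this, hteq]
      ring
    rw [← e4]
    ring

/-! ### the sequence -/

section seq

variable {T0 : ℝ → ℝ} {U0 : Set ℝ} {a : ℝ} {d : ℕ}

/-- the bases decrease -/
theorem eps_anti {P W : Tow d T0 U0 a} (R : Refine P W) : W.eps ≤ P.eps := by
  classical
  have h := sum_le_of_disjoint Finset.univ W.lo W.hi (-P.eps) P.eps (by linarith [P.eps_nonneg])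
    (fun α _ => W.lt α) (fun β _ => by
      have h0 : 0 < (R.it β).length := List.length_pos_of_ne_nil (R.it_ne_nil β)
      have h1 := R.piece_sub β h0
      have h2 := P.lo_ge (R.it β)[0]
      rw [Tow.disp_zero] at h1
      linarith [h1.1]) (fun β _ => by
      have h0 : 0 < (R.it β).length := List.length_pos_of_ne_nil (R.it_ne_nil β)
      have h1 := R.piece_sub β h0
      have h2 := P.hi_le (R.it β)[0]
      rw [Tow.disp_zero] at h1
      linarith [h1.2])
    (fun α _ β _ hne => W.base_disj hne) id (monotone_id.monotoneOn _)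
  simp only [id] at h
  rw [W.total] at h
  linarith

theorem tendsto_eps (hd : 0 < d) (Q : TowerSeq d T0 U0 a) :
    Tendsto (fun n => (Q.P n).eps) atTop (𝓝 0) := by
  have h1 : ∀ n, (Q.P (n + 1)).eps ≤ (Q.P n).eps := fun n => eps_anti (Q.R n)
  have h2 : ∀ k, (Q.P (2 * k)).eps ≤ (1 / 2) ^ k * (Q.P 0).eps := by
    intro k
    induction k with
    | zero => simp
    | succ k ih =>
      have h3 := h1 (2 * k + 1)
      have h4 := (Q.R (2 * k)).eps_le_half hd fun β => (Q.good (2 * k) (by simp) β).1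
      have e : 2 * (k + 1) = 2 * k + 1 + 1 := by ring
      rw [e, pow_succ]
      linarith
  have h3 : ∀ n, (Q.P n).eps ≤ (1 / 2) ^ (n / 2) * (Q.P 0).eps := by
    intro n
    rcases Nat.even_or_odd' n with ⟨k, rfl | rfl⟩
    · have := h2 k
      rwa [Nat.mul_div_cancel_left k (by norm_num)]
    · have := (h1 (2 * k)).trans (h2 k)
      rwa [show (2 * k + 1) / 2 = k by omega]
  have h4 : Tendsto (fun n : ℕ => (1 / 2 : ℝ) ^ (n / 2) * (Q.P 0).eps) atTop (𝓝 0) := by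
    have h5 : Tendsto (fun n : ℕ => n / 2) atTop atTop :=
      Nat.tendsto_div_const_atTop (by norm_num)
    have h6 := ((tendsto_pow_atTop_nhds_zero_of_lt_one (show (0 : ℝ) ≤ 1 / 2 by norm_num)
      (by norm_num)).comp h5).mul_const (Q.P 0).eps
    simpa using h6
  exact squeeze_zero (fun n => (Q.P n).eps_nonneg) h3 h4

theorem rho_nonneg (hd : 0 < d) (Q : TowerSeq d T0 U0 a) (n : ℕ) : 0 ≤ Q.rho n :=
  (Nat.cast_nonneg _).trans (Q.len n ⟨0, hd⟩)

end seq

end HoldA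

open HoldA in
theorem osc_base {T0 : ℝ → ℝ} {U0 : Set ℝ} {a : ℝ} {G T f f1 f2 : ℝ → ℝ} {C : ℝ}
    (TS : TSide T0 U0 a G T f f1 f2 C) {d : ℕ} (hd : 0 < d) (Q : TowerSeq d T0 U0 a)
    {K θ : ℝ} (hK : 0 < K) (hθ0 : 0 < θ) (hθ1 : θ < 1)
    (hF : ∀ n α, ∀ x ∈ Icc ((Q.P n).lo α) ((Q.P n).hi α),
        |(Q.P n).F (fun z => f (G z)) α x| ≤ K * θ ^ n)
    (g : ℝ → ℝ) (hg : ContinuousOn g (Icc (-a) a))
    (hgd : ∀ x ∈ Icc (-a) a, 0 < g x ∧ HasDerivWithinAt G (g x) (Icc (-a) a) x) :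
    ∃ K1 θ1 : ℝ, 0 < K1 ∧ 0 < θ1 ∧ θ1 < 1 ∧ ∀ n, ∀ x ∈ Icc (-(Q.P n).eps) (Q.P n).eps,
      ∀ y ∈ Icc (-(Q.P n).eps) (Q.P n).eps, |Real.log (g x) - Real.log (g y)| ≤ K1 * θ1 ^ n := by
  have ha := TS.ha
  -- the rate
  obtain ⟨q, hq⟩ : ∃ q, q = Real.sqrt θ := ⟨_, rfl⟩
  have hq0 : 0 < q := by rw [hq]; exact Real.sqrt_pos.2 hθ0
  have hqq : q * q = θ := by rw [hq]; exact Real.mul_self_sqrt hθ0.le
  have hq1 : q < 1 := by
    by_contra hcon
    have := not_lt.1 hcon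
    nlinarith
  have hsum := Q.summ q hq0 hq1
  have hterm : ∀ n, 0 ≤ Q.rho n * q ^ n := fun n => mul_nonneg (rho_nonneg hd Q n) (by positivity)
  obtain ⟨S, hS⟩ : ∃ S, S = ∑' n, Q.rho n * q ^ n := ⟨_, rfl⟩
  have hS0 : 0 ≤ S := by rw [hS]; exact tsum_nonneg hterm
  -- the chain
  have hchain : ∀ n k, ∀ x ∈ Icc (-(Q.P n).eps) (Q.P n).eps,
      ∃ z ∈ Icc (-(Q.P (n + k)).eps) (Q.P (n + k)).eps,
        |Real.log (g x) - Real.log (g z)| ≤
          ∑ j ∈ Finset.range k, Q.rho (n + j) * (K * θ ^ (n + j)) := by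
    intro n k
    induction k with
    | zero =>
      intro x hx
      exact ⟨x, hx, by simp⟩
    | succ k ih =>
      intro x hx
      rw [← Nat.add_assoc]
      obtain ⟨z, hz, h1⟩ := ih x hx
      obtain ⟨β, j, hj, w, hw, rfl⟩ := base_cover hd (Q.R (n + k)) hz
      have h2 := cocycle_disp TS (Q.R (n + k)) hg hgd (hF (n + k)) β hw j hj.le
      refine ⟨w, ⟨?_, ?_⟩, ?_⟩
      · linarith [(Q.P (n + k + 1)).lo_ge β, hw.1]
      · linarith [(Q.P (n + k + 1)).hi_le β, hw.2]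
      · rw [Finset.sum_range_succ]
        have h3 : (j : ℝ) * (K * θ ^ (n + k)) ≤ Q.rho (n + k) * (K * θ ^ (n + k)) := by
          refine mul_le_mul_of_nonneg_right (le_trans ?_ (Q.len (n + k) β)) (by positivity)
          exact_mod_cast hj.le
        have h4 := abs_add_le (Real.log (g x) -
            Real.log (g (w - (Q.P (n + k)).disp ((Q.R (n + k)).it β) j)))
          (Real.log (g (w - (Q.P (n + k)).disp ((Q.R (n + k)).it β) j)) - Real.log (g w))
        rw [sub_add_sub_cancel] at h4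
        linarith
  have hbound : ∀ n k, ∑ j ∈ Finset.range k, Q.rho (n + j) * (K * θ ^ (n + j)) ≤
      K * S * q ^ n := by
    intro n k
    have h1 : ∀ j ∈ Finset.range k, Q.rho (n + j) * (K * θ ^ (n + j)) ≤
        K * q ^ n * (Q.rho (n + j) * q ^ (n + j)) := by
      intro j _
      have h2 : θ ^ (n + j) ≤ q ^ n * q ^ (n + j) := by
        rw [← hqq, mul_pow]
        refine mul_le_mul_of_nonneg_right ?_ (by positivity)
        exact pow_le_pow_of_le_one hq0.le hq1.le (Nat.le_add_right n j)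
      calc Q.rho (n + j) * (K * θ ^ (n + j)) ≤ Q.rho (n + j) * (K * (q ^ n * q ^ (n + j))) := by
            refine mul_le_mul_of_nonneg_left ?_ (rho_nonneg hd Q _)
            exact mul_le_mul_of_nonneg_left h2 hK.le
        _ = _ := by ring
    refine (Finset.sum_le_sum h1).trans ?_
    rw [← Finset.mul_sum]
    have h3 : ∑ j ∈ Finset.range k, Q.rho (n + j) * q ^ (n + j) ≤ S := by
      rw [hS]
      have h4 : ∑ j ∈ Finset.range k, Q.rho (n + j) * q ^ (n + j) =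
          ∑ l ∈ (Finset.range k).map ⟨fun j => n + j, fun _ _ h => Nat.add_left_cancel h⟩,
            Q.rho l * q ^ l := by
        rw [Finset.sum_map]
        rfl
      rw [h4]
      exact hsum.sum_le_tsum _ fun l _ => hterm l
    calc K * q ^ n * ∑ j ∈ Finset.range k, Q.rho (n + j) * q ^ (n + j) ≤ K * q ^ n * S :=
          mul_le_mul_of_nonneg_left h3 (by positivity)
      _ = K * S * q ^ n := by ring
  have h0mem : (0 : ℝ) ∈ Icc (-a) a := ⟨by linarith, ha.le⟩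
  have hlog : ContinuousOn (fun z => Real.log (g z)) (Icc (-a) a) :=
    hg.log fun z hz => (hgd z hz).1.ne'
  have hzero : ∀ n, ∀ x ∈ Icc (-(Q.P n).eps) (Q.P n).eps,
      |Real.log (g x) - Real.log (g 0)| ≤ K * S * q ^ n := by
    intro n x hx
    refine le_of_forall_pos_le_add fun ε hε => ?_
    obtain ⟨η, hη, hc⟩ := Metric.continuousWithinAt_iff.1 (hlog 0 h0mem) ε hε
    have hev := (tendsto_order.1 (tendsto_eps hd Q)).2 η hη
    obtain ⟨N, hN⟩ := eventually_atTop.1 hev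
    obtain ⟨z, hz, h1⟩ := hchain n N x hx
    have h2 := hN (n + N) (Nat.le_add_left N n)
    have hza : z ∈ Icc (-a) a :=
      ⟨by linarith [(Q.P (n + N)).eps_le, hz.1], by linarith [(Q.P (n + N)).eps_le, hz.2]⟩
    have h3 := hc hza (by
      rw [Real.dist_eq, sub_zero, abs_lt]
      constructor <;> linarith [hz.1, hz.2])
    rw [Real.dist_eq] at h3
    have h4 := abs_add_le (Real.log (g x) - Real.log (g z)) (Real.log (g z) - Real.log (g 0))
    rw [sub_add_sub_cancel] at h4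
    linarith [hbound n N]
  refine ⟨2 * (K * S) + 1, q, by positivity, hq0, hq1, ?_⟩
  intro n x hx y hy
  have h1 := hzero n x hx
  have h2 := hzero n y hy
  rw [abs_sub_comm] at h2
  have h4 := abs_add_le (Real.log (g x) - Real.log (g 0)) (Real.log (g 0) - Real.log (g y))
  rw [sub_add_sub_cancel] at h4
  have h5 : 0 < q ^ n := by positivity
  linarith

namespace HoldA

section bounds

variable {T0 : ℝ → ℝ} {U0 : Set ℝ} {a : ℝ} {G T f f1 f2 : ℝ → ℝ} {C : ℝ} {d : ℕ}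

/-- the comparison estimate on short intervals, at the even stages -/
theorem D_even (TS : TSide T0 U0 a G T f f1 f2 C) (Q : TowerSeq d T0 U0 a)
    {C0 : ℝ} (hC0 : 1 ≤ C0)
    (hcmp : ∀ (P : Tow d T0 U0 a) (α : Fin d) (δ : ℝ), 0 ≤ δ → P.Small G δ →
      ∀ x ∈ Icc (P.lo α) (P.hi α), ∀ y ∈ Icc (P.lo α) (P.hi α),
        |P.F (fun z => f (G z)) α y - P.F (fun z => f (G z)) α x| *
            (G (P.hi α) - G (P.lo α)) ≤
          C0 * (|P.F (fun z => f (G z)) α (P.hi α) - P.F (fun z => f (G z)) α (P.lo α)| + δ) *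
            |G y - G x|)
    {c κ : ℝ} (hc : 0 < c) (hκ : 0 < κ) (hlow : ∀ n, c * κ ^ n ≤ (Q.P n).eps)
    {K θ : ℝ} (hK : 0 < K) (hθ0 : 0 < θ) (hθ1 : θ < 1)
    (hS : ∀ n, (Q.P n).Small G (K * θ ^ n))
    (hF : ∀ n α, ∀ x ∈ Icc ((Q.P n).lo α) ((Q.P n).hi α),
        |(Q.P n).F (fun z => f (G z)) α x| ≤ K * θ ^ n)
    {g : ℝ → ℝ} {gm : ℝ} (hgm0 : 0 < gm)
    (hgd : ∀ x ∈ Icc (-a) a, 0 < g x ∧ HasDerivWithinAt G (g x) (Icc (-a) a) x)
    (hgm : ∀ x ∈ Icc (-a) a, gm ≤ g x) {δ : ℝ} (_hδ : 0 ≤ δ) (l : ℕ) (hl : Even l) (w : Fin d)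
    (u v : ℝ) (h : Thin (Q.P l) G δ w u v) :
    |(Q.P l).F (fun z => f (G z)) w v - (Q.P l).F (fun z => f (G z)) w u| ≤
      3 * C0 * K * δ / (gm * (4 * c) * κ ^ (l + 1)) := by
  set P := Q.P l with hP
  have hu : u ∈ Icc (P.lo w) (P.hi w) := ⟨h.lo, h.le.trans h.hi⟩
  have hv : v ∈ Icc (P.lo w) (P.hi w) := ⟨h.lo.trans h.le, h.hi⟩
  have hKθ : 0 ≤ K * θ ^ l := by positivity
  have hKθ' : K * θ ^ l ≤ K := by
    have : θ ^ l ≤ 1 := pow_le_one₀ hθ0.le hθ1.le
    nlinarith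
  have h1 := hcmp P w (K * θ ^ l) hKθ (hS l) u hu v hv
  have hlo : P.lo w ∈ Icc (P.lo w) (P.hi w) := ⟨le_rfl, (P.lt w).le⟩
  have hhi : P.hi w ∈ Icc (P.lo w) (P.hi w) := ⟨(P.lt w).le, le_rfl⟩
  have e1 := hF l w _ hlo
  have e2 := hF l w _ hhi
  have e3 : |P.F (fun z => f (G z)) w (P.hi w) - P.F (fun z => f (G z)) w (P.lo w)| ≤ 2 * K := by
    have := abs_sub (P.F (fun z => f (G z)) w (P.hi w)) (P.F (fun z => f (G z)) w (P.lo w))
    linarith
  -- the length of the interval `w`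
  have hlen : 4 * c * κ ^ (l + 1) ≤ P.hi w - P.lo w := by
    rw [(Q.R l).length_eq w]
    have h2 : ∑ β, 2 * ((Q.P (l + 1)).hi β - (Q.P (l + 1)).lo β) ≤
        ∑ β, (((Q.R l).it β).count w : ℝ) * ((Q.P (l + 1)).hi β - (Q.P (l + 1)).lo β) := by
      refine Finset.sum_le_sum fun β _ => ?_
      have h3 : (2 : ℝ) ≤ (((Q.R l).it β).count w : ℝ) := by exact_mod_cast (Q.good l hl β).1 w
      have h4 := (Q.P (l + 1)).lt β
      exact mul_le_mul_of_nonneg_right h3 (by linarith)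
    rw [← Finset.mul_sum, (Q.P (l + 1)).total] at h2
    have h5 := hlow (l + 1)
    linarith
  have hglen : gm * (4 * c) * κ ^ (l + 1) ≤ G (P.hi w) - G (P.lo w) := by
    have h2 := glen_ge TS.gcont hgd hgm (Local.base_sub P w hlo) (Local.base_sub P w hhi)
      (P.lt w).le
    refine le_trans ?_ h2
    rw [mul_assoc]
    exact mul_le_mul_of_nonneg_left hlen hgm0.le
  have hGuv : |G v - G u| ≤ δ := by
    have h2 := h.len 0 (P.r_pos w)
    rw [P.sh_zero, add_zero, add_zero] at h2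
    have h3 : 0 ≤ G v - G u := sub_nonneg.2 (TS.gmono.monotoneOn (Local.base_sub P w hu)
      (Local.base_sub P w hv) h.le)
    rw [abs_of_nonneg h3]
    exact h2
  have hpos : 0 < gm * (4 * c) * κ ^ (l + 1) := by positivity
  rw [le_div_iff₀ hpos]
  calc |P.F (fun z => f (G z)) w v - P.F (fun z => f (G z)) w u| * (gm * (4 * c) * κ ^ (l + 1))
      ≤ |P.F (fun z => f (G z)) w v - P.F (fun z => f (G z)) w u| *
          (G (P.hi w) - G (P.lo w)) := mul_le_mul_of_nonneg_left hglen (abs_nonneg _)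
    _ ≤ C0 * (|P.F (fun z => f (G z)) w (P.hi w) - P.F (fun z => f (G z)) w (P.lo w)| +
          K * θ ^ l) * |G v - G u| := h1
    _ ≤ C0 * (2 * K + K) * δ := by
        refine mul_le_mul ?_ hGuv (abs_nonneg _) (by positivity)
        exact mul_le_mul_of_nonneg_left (by linarith) (by linarith)
    _ = 3 * C0 * K * δ := by ring

end bounds

end HoldA

open HoldA in
theorem osc_tower {T0 : ℝ → ℝ} {U0 : Set ℝ} {a : ℝ} {G T f f1 f2 : ℝ → ℝ} {C : ℝ}
    (TS : TSide T0 U0 a G T f f1 f2 C) {d : ℕ} (hd : 0 < d) (Q : TowerSeq d T0 U0 a)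
    {c κ : ℝ} (hc : 0 < c) (hκ : 0 < κ) (hlow : ∀ n, c * κ ^ n ≤ (Q.P n).eps)
    {K θ : ℝ} (hK : 0 < K) (hθ0 : 0 < θ) (hθ1 : θ < 1)
    (hS : ∀ n, (Q.P n).Small G (K * θ ^ n))
    (hF : ∀ n α, ∀ x ∈ Icc ((Q.P n).lo α) ((Q.P n).hi α),
        |(Q.P n).F (fun z => f (G z)) α x| ≤ K * θ ^ n)
    (g : ℝ → ℝ) (hg : ContinuousOn g (Icc (-a) a))
    (hgd : ∀ x ∈ Icc (-a) a, 0 < g x ∧ HasDerivWithinAt G (g x) (Icc (-a) a) x) :
    ∃ K2 θ2 : ℝ, 0 < K2 ∧ 0 < θ2 ∧ θ2 < 1 ∧ ∀ n α, ∀ i ≤ (Q.P n).r α,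
      ∀ x ∈ Icc ((Q.P n).lo α) ((Q.P n).hi α), ∀ y ∈ Icc ((Q.P n).lo α) ((Q.P n).hi α),
      |(Q.P n).S (fun z => f (G z)) α i x - (Q.P n).S (fun z => f (G z)) α i y| ≤ K2 * θ2 ^ n := by
  have ha := TS.ha
  have hC := TS.hC
  obtain ⟨C0, hC0, hloc⟩ := local_main TS
  -- reduction to `κ ≤ 1`
  obtain ⟨κ', hκ'⟩ : ∃ κ', κ' = min κ 1 := ⟨_, rfl⟩
  have hκ'0 : 0 < κ' := by rw [hκ']; exact lt_min hκ one_pos
  have hκ'1 : κ' ≤ 1 := by rw [hκ']; exact min_le_right _ _
  have hlow' : ∀ n, c * κ' ^ n ≤ (Q.P n).eps := by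
    intro n
    refine le_trans (mul_le_mul_of_nonneg_left ?_ hc.le) (hlow n)
    exact pow_le_pow_left₀ hκ'0.le (by rw [hκ']; exact min_le_left _ _) n
  -- lower bound for the density
  obtain ⟨x0, hx0, hmin⟩ := isCompact_Icc.exists_isMinOn (nonempty_Icc.2 (by linarith)) hg
  have hgm0 : 0 < g x0 := (hgd x0 hx0).1
  have hgm : ∀ x ∈ Icc (-a) a, g x0 ≤ g x := fun x hx => hmin hx
  -- the constants
  have hBge : (1 : ℝ) ≤ Q.B := by
    have h1 := Q.good 0 (by decide) ⟨0, hd⟩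
    have h2 := h1.1 ⟨0, hd⟩
    have h3 : ((Q.R 0).it ⟨0, hd⟩).count ⟨0, hd⟩ ≤ ((Q.R 0).it ⟨0, hd⟩).length :=
      List.count_le_length
    have h4 : 1 ≤ Q.B := by omega
    exact_mod_cast h4
  obtain ⟨C', hC'⟩ : ∃ C', C' = Q.B * (3 * C0 * K * K / (g x0 * (4 * c) * κ')) := ⟨_, rfl⟩
  have hC'0 : 0 < C' := by rw [hC']; positivity
  obtain ⟨M, q, θ2, hM, hq0, hq1, hθ20, hθ21, hθθ2, hmb⟩ :=
    min_bound (K := 2 * K) (by positivity) hθ0 hθ1 hκ'0 hκ'1 hC'0
  have hsum := Q.summ q hq0 hq1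
  have hterm : ∀ n, 0 ≤ Q.rho n * q ^ n := fun n => mul_nonneg (rho_nonneg hd Q n) (by positivity)
  obtain ⟨S, hSdef⟩ : ∃ S, S = ∑' n, Q.rho n * q ^ n := ⟨_, rfl⟩
  have hS0 : 0 ≤ S := by rw [hSdef]; exact tsum_nonneg hterm
  obtain ⟨R0, hR0⟩ : ∃ R0 : ℝ, R0 = ∑ α, ((Q.P 0).r α : ℝ) := ⟨_, rfl⟩
  have hR00 : 0 ≤ R0 := by rw [hR0]; exact Finset.sum_nonneg fun α _ => Nat.cast_nonneg _
  refine ⟨M * S + R0 * (C * K) + 1, θ2, by positivity, hθ20, hθ21, ?_⟩
  -- the estimate of the increments at the stage `l`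
  have hDl : ∀ n l w u v, Thin (Q.P l) G (K * θ ^ n) w u v →
      |(Q.P l).F (fun z => f (G z)) w v - (Q.P l).F (fun z => f (G z)) w u| ≤
        M * θ2 ^ n * q ^ l := by
    intro n l w u v h
    have hδ : 0 ≤ K * θ ^ n := by positivity
    refine hmb n l _ (abs_nonneg _) ?_ ?_
    · have hu : u ∈ Icc ((Q.P l).lo w) ((Q.P l).hi w) := ⟨h.lo, h.le.trans h.hi⟩
      have hv : v ∈ Icc ((Q.P l).lo w) ((Q.P l).hi w) := ⟨h.lo.trans h.le, h.hi⟩
      have e1 := hF l w u hu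
      have e2 := hF l w v hv
      have := abs_sub ((Q.P l).F (fun z => f (G z)) w v) ((Q.P l).F (fun z => f (G z)) w u)
      linarith
    · have hev : ∀ l, Even l → ∀ w u v, Thin (Q.P l) G (K * θ ^ n) w u v →
          |(Q.P l).F (fun z => f (G z)) w v - (Q.P l).F (fun z => f (G z)) w u| ≤
            3 * C0 * K * (K * θ ^ n) / (g x0 * (4 * c) * κ' ^ (l + 1)) := by
        intro l hl w u v h
        exact D_even TS Q hC0 (fun P α δ hδ hs => ((hloc P α).2.2 δ hδ hs).1) hc hκ'0 hlow' hK hθ0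
          hθ1 hS hF hgm0 hgd hgm hδ l hl w u v h
      rcases Nat.even_or_odd l with hl | hl
      · refine (hev l hl w u v h).trans ?_
        have e : 3 * C0 * K * (K * θ ^ n) / (g x0 * (4 * c) * κ' ^ (l + 1)) =
            (3 * C0 * K * K / (g x0 * (4 * c) * κ')) * θ ^ n / κ' ^ l := by
          rw [pow_succ]
          field_simp
        rw [e, hC', mul_assoc (Q.B : ℝ), mul_div_assoc (Q.B : ℝ)]
        have hnn : 0 ≤ (3 * C0 * K * K / (g x0 * (4 * c) * κ')) * θ ^ n / κ' ^ l := by positivity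
        nlinarith
      · obtain ⟨k, rfl⟩ := hl
        have h1 := osc_F (Q.R (2 * k)) (hev (2 * k) (by simp)) h
        refine h1.trans ?_
        have hB : (((Q.R (2 * k)).it w).length : ℝ) ≤ Q.B := by
          exact_mod_cast (Q.good (2 * k) (by simp) w).2
        have e : 3 * C0 * K * (K * θ ^ n) / (g x0 * (4 * c) * κ' ^ (2 * k + 1)) =
            (3 * C0 * K * K / (g x0 * (4 * c))) * θ ^ n / κ' ^ (2 * k + 1) := by
          field_simp
        rw [e, hC', mul_assoc (Q.B : ℝ), mul_div_assoc (Q.B : ℝ)]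
        refine mul_le_mul hB ?_ (by positivity) (by positivity)
        refine div_le_div_of_nonneg_right ?_ (by positivity)
        refine mul_le_mul_of_nonneg_right ?_ (by positivity)
        refine div_le_div_of_nonneg_left (by positivity) (by positivity) ?_
        have : 0 < g x0 * (4 * c) := by positivity
        nlinarith
  -- the oscillation on ordered pairs
  have key : ∀ n α, ∀ i ≤ (Q.P n).r α, ∀ x y : ℝ, (Q.P n).lo α ≤ x → x ≤ y → y ≤ (Q.P n).hi α →
      |(Q.P n).S (fun z => f (G z)) α i y - (Q.P n).S (fun z => f (G z)) α i x| ≤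
        (M * S + R0 * (C * K) + 1) * θ2 ^ n := by
    intro n α i hi x y hx hxy hy
    have hthin : Thin (Q.P n) G (K * θ ^ n) α x y := by
      refine ⟨hx, hxy, hy, fun i hi => ?_⟩
      have h1 := hS n α i hi
      have hlo : (Q.P n).lo α ∈ Icc ((Q.P n).lo α) ((Q.P n).hi α) := ⟨le_rfl, ((Q.P n).lt α).le⟩
      have hhi : (Q.P n).hi α ∈ Icc ((Q.P n).lo α) ((Q.P n).hi α) := ⟨((Q.P n).lt α).le, le_rfl⟩
      have h2 := TS.gmono.monotoneOn (Local.level_sub _ α TS hi.le hlo)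
        (Local.level_sub _ α TS hi.le (x := x) ⟨hx, hxy.trans hy⟩) (by linarith)
      have h3 := TS.gmono.monotoneOn (Local.level_sub _ α TS hi.le (x := y) ⟨hx.trans hxy, hy⟩)
        (Local.level_sub _ α TS hi.le hhi) (by linarith)
      linarith
    have h1 := osc_rec Q (g := fun z => f (G z)) (G := G) (δ := K * θ ^ n)
      (fun l => M * θ2 ^ n * q ^ l) (fun l => by positivity) (hDl n)
      (R0 * (C * (K * θ ^ n))) (by positivity) (fun β u v h i hi => by
        rw [hR0]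
        exact osc_first TS (Q.P 0) (by positivity) h hi) n α x y hthin i hi
    refine h1.trans ?_
    have h2 : ∑ l ∈ Finset.range n, Q.rho l * (M * θ2 ^ n * q ^ l) =
        M * θ2 ^ n * ∑ l ∈ Finset.range n, Q.rho l * q ^ l := by
      rw [Finset.mul_sum]
      exact Finset.sum_congr rfl fun l _ => by ring
    have h3 : ∑ l ∈ Finset.range n, Q.rho l * q ^ l ≤ S := by
      rw [hSdef]
      exact hsum.sum_le_tsum _ fun l _ => hterm l
    have h4 : M * θ2 ^ n * ∑ l ∈ Finset.range n, Q.rho l * q ^ l ≤ M * θ2 ^ n * S :=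
      mul_le_mul_of_nonneg_left h3 (by positivity)
    have h5 : θ ^ n ≤ θ2 ^ n := pow_le_pow_left₀ hθ0.le hθθ2 n
    have h6 : R0 * (C * (K * θ ^ n)) ≤ R0 * (C * (K * θ2 ^ n)) := by
      refine mul_le_mul_of_nonneg_left (mul_le_mul_of_nonneg_left ?_ hC) hR00
      exact mul_le_mul_of_nonneg_left h5 hK.le
    have h7 : 0 < θ2 ^ n := by positivity
    rw [h2]
    nlinarith
  intro n α i hi x hx y hy
  rcases le_total x y with h | h
  · rw [abs_sub_comm]
    exact key n α i hi x y hx.1 h hy.2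
  · exact key n α i hi y x hy.1 h hx.2

end Pool.Agent.Helper22.Rev
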