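import Mathlib
import Pool.Agent.Helper22.Rev.Defs
import Pool.Agent.Helper22.Rev.TowB
import Pool.Agent.Helper22.Rev.Local
import Pool.Agent.Helper22.Rev.HoldA

/-!
# RV-15: the derivative of the conjugacy is Hölder continuous
-/

set_option autoImplicit false

open Set Filter Topology MeasureTheory

namespace Pool.Agent.Helper22.Rev

namespace HoldB

/-- two points closer than every tile are in the same tile or in two tiles with a common point -/
theorem two_tiles {ι : Type*} (s : Finset ι) (l h : ι → ℝ) {A B lam : ℝ} (hAB : A < B)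
    (hlt : ∀ i ∈ s, l i < h i) (hA : ∀ i ∈ s, A ≤ l i) (hB : ∀ i ∈ s, h i ≤ B)
    (hdisj : ∀ i ∈ s, ∀ j ∈ s, i ≠ j → Disjoint (Ioo (l i) (h i)) (Ioo (l j) (h j)))
    (htile : ∀ F : ℝ → ℝ, ∑ i ∈ s, (F (h i) - F (l i)) = F B - F A)
    (hlen : ∀ i ∈ s, lam ≤ h i - l i) {φ : ℝ → ℝ} {δ : ℝ}
    (hosc : ∀ i ∈ s, ∀ x ∈ Icc (l i) (h i), ∀ y ∈ Icc (l i) (h i), |φ x - φ y| ≤ δ)
    {x y : ℝ} (hx : x ∈ Icc A B) (hy : y ∈ Icc A B) (hxy : x ≤ y) (hlam : y - x < lam) :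
    |φ x - φ y| ≤ 2 * δ := by
  obtain ⟨i, hi, hxi⟩ := HoldA.tile_cover s l h hAB hlt htile hx
  obtain ⟨j, hj, hyj⟩ := HoldA.tile_cover s l h hAB hlt htile hy
  have hδ : 0 ≤ δ := (abs_nonneg _).trans (hosc i hi x hxi x hxi)
  rcases le_or_gt y (h i) with h1 | h1
  · have := hosc i hi x hxi y ⟨hxi.1.trans hxy, h1⟩
    linarith
  · have hhi : h i ∈ Icc (l i) (h i) := ⟨(hlt i hi).le, le_rfl⟩
    rcases le_or_gt (l j) (h i) with h2 | h2
    · have e1 := hosc i hi x hxi (h i) hhi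
      have e2 := hosc j hj (h i) ⟨h2, h1.le.trans hyj.2⟩ y hyj
      have e3 := abs_sub_le (φ x) (φ (h i)) (φ y)
      linarith
    · exfalso
      set w := (h i + l j) / 2 with hw
      have hw1 : h i < w := by linarith
      have hw2 : w < l j := by linarith
      have hwAB : w ∈ Icc A B :=
        ⟨by linarith [hA i hi, hlt i hi], by linarith [hB j hj, hlt j hj]⟩
      obtain ⟨k, hk, hwk⟩ := HoldA.tile_cover s l h hAB hlt htile hwAB
      have hki : k ≠ i := by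
        rintro rfl
        linarith [hwk.2]
      have hkj : k ≠ j := by
        rintro rfl
        linarith [hwk.1]
      have h3 : h i ≤ l k := by
        by_contra hcon
        push Not at hcon
        have h4 := Set.disjoint_left.mp (hdisj k hk i hi hki)
        obtain ⟨z, hz1, hz2⟩ := exists_between (max_lt hcon (hlt i hi))
        exact h4 ⟨lt_of_le_of_lt (le_max_left _ _) hz1, by linarith [hwk.2]⟩
          ⟨lt_of_le_of_lt (le_max_right _ _) hz1, hz2⟩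
      have h5 : h k ≤ l j := by
        by_contra hcon
        push Not at hcon
        have h4 := Set.disjoint_left.mp (hdisj k hk j hj hkj)
        obtain ⟨z, hz1, hz2⟩ := exists_between (lt_min hcon (hlt j hj))
        exact h4 ⟨by linarith [hwk.1], lt_of_lt_of_le hz2 (min_le_left _ _)⟩
          ⟨hz1, lt_of_lt_of_le hz2 (min_le_right _ _)⟩
      have h6 := hlen k hk
      have h7 := hxi.2
      have h8 := hyj.1
      linarith

/-- from geometric scales to a Hölder estimate -/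
theorem holder_of_scales {a c' κ θ D M : ℝ} {φ : ℝ → ℝ} (hc' : 0 < c') (hκ0 : 0 < κ) (hκ1 : κ < 1)
    (hθ0 : 0 < θ) (hθ1 : θ < 1) (hD : 0 ≤ D) (hM : 0 ≤ M)
    (hM' : ∀ x ∈ Icc (-a) a, ∀ y ∈ Icc (-a) a, |φ x - φ y| ≤ M)
    (hosc : ∀ n, Even n → ∀ x ∈ Icc (-a) a, ∀ y ∈ Icc (-a) a, x ≤ y → y - x < c' * κ ^ n →
      |φ x - φ y| ≤ D * θ ^ n) :
    ∃ K τ : ℝ, 0 ≤ K ∧ 0 < τ ∧ τ ≤ 1 ∧ ∀ x ∈ Icc (-a) a, ∀ y ∈ Icc (-a) a,
      |φ x - φ y| ≤ K * |x - y| ^ τ := by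
  obtain ⟨τ, hτ⟩ : ∃ τ, τ = min 1 (Real.log θ / Real.log κ) := ⟨_, rfl⟩
  have hlκ : Real.log κ < 0 := Real.log_neg hκ0 hκ1
  have hlθ : Real.log θ < 0 := Real.log_neg hθ0 hθ1
  have hτ0 : 0 < τ := by
    rw [hτ]
    exact lt_min one_pos (div_pos_of_neg_of_neg hlθ hlκ)
  have hτ1 : τ ≤ 1 := by rw [hτ]; exact min_le_left _ _
  have hθτ : θ ≤ κ ^ τ := by
    rw [← Real.log_le_log_iff hθ0 (Real.rpow_pos_of_pos hκ0 τ), Real.log_rpow hκ0]
    have h1 : τ ≤ Real.log θ / Real.log κ := by rw [hτ]; exact min_le_right _ _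
    rw [le_div_iff_of_neg hlκ] at h1
    exact h1
  have hpow : ∀ n : ℕ, θ ^ n ≤ (κ ^ n) ^ τ := by
    intro n
    have h1 : (κ ^ n) ^ τ = (κ ^ τ) ^ n := by
      rw [← Real.rpow_natCast, ← Real.rpow_natCast, ← Real.rpow_mul hκ0.le,
        ← Real.rpow_mul hκ0.le, mul_comm]
    rw [h1]
    exact pow_le_pow_left₀ hθ0.le hθτ n
  obtain ⟨K, hK⟩ : ∃ K, K = M / c' ^ τ + D / (c' * κ ^ 2) ^ τ := ⟨_, rfl⟩
  have hp1 : 0 < c' ^ τ := Real.rpow_pos_of_pos hc' τ
  have hp2 : 0 < (c' * κ ^ 2) ^ τ := Real.rpow_pos_of_pos (by positivity) τ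
  have hK0 : 0 ≤ K := by
    rw [hK]
    have h1 : 0 ≤ M / c' ^ τ := by positivity
    have h2 : 0 ≤ D / (c' * κ ^ 2) ^ τ := by positivity
    linarith
  have key : ∀ x ∈ Icc (-a) a, ∀ y ∈ Icc (-a) a, x < y → |φ x - φ y| ≤ K * (y - x) ^ τ := by
    intro x hx y hy hxy
    have ht : 0 < y - x := by linarith
    have hex : ∃ k : ℕ, c' * κ ^ (2 * k) ≤ y - x := by
      obtain ⟨k, hk⟩ := exists_pow_lt_of_lt_one (div_pos ht hc') hκ1
      refine ⟨k, ?_⟩
      rw [lt_div_iff₀ hc'] at hk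
      have h1 : κ ^ (2 * k) ≤ κ ^ k := pow_le_pow_of_le_one hκ0.le hκ1.le (by omega)
      nlinarith
    classical
    have hspec := Nat.find_spec hex
    have hmin : ∀ m, m < Nat.find hex → y - x < c' * κ ^ (2 * m) := by
      intro m hm
      have := Nat.find_min hex hm
      push Not at this
      exact this
    have htτ : 0 < (y - x) ^ τ := Real.rpow_pos_of_pos ht τ
    rcases Nat.eq_zero_or_pos (Nat.find hex) with h0 | h0
    · rw [h0, mul_zero, pow_zero, mul_one] at hspec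
      have h1 : c' ^ τ ≤ (y - x) ^ τ := Real.rpow_le_rpow hc'.le hspec hτ0.le
      have h2 := hM' x hx y hy
      have h3 : M ≤ M / c' ^ τ * (y - x) ^ τ := by
        rw [div_mul_eq_mul_div, le_div_iff₀ hp1]
        exact mul_le_mul_of_nonneg_left h1 hM
      have h4 : 0 ≤ D / (c' * κ ^ 2) ^ τ * (y - x) ^ τ := by positivity
      rw [hK, add_mul]
      linarith
    · obtain ⟨m, hm⟩ : ∃ m, Nat.find hex = m + 1 := ⟨Nat.find hex - 1, by omega⟩
      have h1 := hosc (2 * m) (by simp) x hx y hy hxy.le (hmin m (by omega))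
      rw [hm] at hspec
      have h2 : κ ^ (2 * m) ≤ (y - x) / (c' * κ ^ 2) := by
        rw [le_div_iff₀ (by positivity)]
        calc κ ^ (2 * m) * (c' * κ ^ 2) = c' * κ ^ (2 * (m + 1)) := by ring
          _ ≤ y - x := hspec
      have h3 : (κ ^ (2 * m)) ^ τ ≤ (y - x) ^ τ / (c' * κ ^ 2) ^ τ := by
        rw [← Real.div_rpow ht.le (by positivity)]
        exact Real.rpow_le_rpow (by positivity) h2 hτ0.le
      have h4 : D * θ ^ (2 * m) ≤ D / (c' * κ ^ 2) ^ τ * (y - x) ^ τ := by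
        calc D * θ ^ (2 * m) ≤ D * ((y - x) ^ τ / (c' * κ ^ 2) ^ τ) :=
              mul_le_mul_of_nonneg_left ((hpow _).trans h3) hD
          _ = D / (c' * κ ^ 2) ^ τ * (y - x) ^ τ := by ring
      have h5 : 0 ≤ M / c' ^ τ * (y - x) ^ τ := by positivity
      rw [hK, add_mul]
      linarith
  refine ⟨K, τ, hK0, hτ0, hτ1, ?_⟩
  intro x hx y hy
  rcases lt_trichotomy x y with h | h | h
  · have := key x hx y hy h
    rw [abs_sub_comm x y, abs_of_pos (by linarith : 0 < y - x)]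
    exact this
  · subst h
    rw [sub_self, abs_zero]
    positivity
  · have := key y hy x hx h
    rw [abs_sub_comm (φ x), abs_of_pos (by linarith : 0 < x - y)]
    exact this

theorem exp_lip {u v L : ℝ} (hu : Real.exp u ≤ L) (hv : Real.exp v ≤ L) :
    |Real.exp u - Real.exp v| ≤ L * |u - v| := by
  have key : ∀ u v : ℝ, v ≤ u → Real.exp u ≤ L → |Real.exp u - Real.exp v| ≤ L * |u - v| := by
    intro u v huv hu
    have h1 : Real.exp v ≤ Real.exp u := Real.exp_le_exp.mpr huv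
    rw [abs_of_nonneg (by linarith), abs_of_nonneg (by linarith)]
    have h2 := Real.add_one_le_exp (v - u)
    have h3 : Real.exp v = Real.exp u * Real.exp (v - u) := by
      rw [← Real.exp_add]
      congr 1
      ring
    have h4 := Real.exp_pos u
    have h5 : Real.exp u - Real.exp v ≤ Real.exp u * (u - v) := by
      rw [h3]
      nlinarith
    have h6 : Real.exp u * (u - v) ≤ L * (u - v) := mul_le_mul_of_nonneg_right hu (by linarith)
    linarith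
  rcases le_total v u with h | h
  · exact key u v h hu
  · rw [abs_sub_comm, abs_sub_comm u v]
    exact key v u h hv

end HoldB

open HoldB in
theorem holder_g {T0 : ℝ → ℝ} {U0 : Set ℝ} {a : ℝ} {G T f f1 f2 : ℝ → ℝ} {C : ℝ}
    (TS : TSide T0 U0 a G T f f1 f2 C) {d : ℕ} (hd : 0 < d) (Q : TowerSeq d T0 U0 a)
    {c κ : ℝ} (hc : 0 < c) (hκ : 0 < κ) (hlow : ∀ n, c * κ ^ n ≤ (Q.P n).eps)
    {K θ : ℝ} (hK : 0 < K) (hθ0 : 0 < θ) (hθ1 : θ < 1)
    (hS : ∀ n, (Q.P n).Small G (K * θ ^ n))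
    (hF : ∀ n α, ∀ x ∈ Icc ((Q.P n).lo α) ((Q.P n).hi α),
        |(Q.P n).F (fun z => f (G z)) α x| ≤ K * θ ^ n)
    (g : ℝ → ℝ) (hg : ContinuousOn g (Icc (-a) a))
    (hgd : ∀ x ∈ Icc (-a) a, 0 < g x ∧ HasDerivWithinAt G (g x) (Icc (-a) a) x) :
    ∃ K3 τ : ℝ, 0 ≤ K3 ∧ 0 < τ ∧ τ ≤ 1 ∧ ∀ x ∈ Icc (-a) a, ∀ y ∈ Icc (-a) a,
      |g x - g y| ≤ K3 * |x - y| ^ τ := by
  have ha := TS.ha
  obtain ⟨K1, θ1, hK1, hθ10, hθ11, hbase⟩ := osc_base TS hd Q hK hθ0 hθ1 hF g hg hgd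
  obtain ⟨K2, θ2, hK2, hθ20, hθ21, htow⟩ :=
    osc_tower TS hd Q hc hκ hlow hK hθ0 hθ1 hS hF g hg hgd
  -- reduction to `κ < 1`
  obtain ⟨κ', hκ'⟩ : ∃ κ', κ' = min κ (1 / 2) := ⟨_, rfl⟩
  have hκ'0 : 0 < κ' := by rw [hκ']; exact lt_min hκ (by norm_num)
  have hκ'1 : κ' < 1 := by
    rw [hκ']
    exact lt_of_le_of_lt (min_le_right _ _) (by norm_num)
  have hlow' : ∀ n, c * κ' ^ n ≤ (Q.P n).eps := by
    intro n
    refine le_trans (mul_le_mul_of_nonneg_left ?_ hc.le) (hlow n)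
    exact pow_le_pow_left₀ hκ'0.le (by rw [hκ']; exact min_le_left _ _) n
  -- common rate
  obtain ⟨θ3, hθ3⟩ : ∃ θ3, θ3 = max θ1 θ2 := ⟨_, rfl⟩
  have hθ30 : 0 < θ3 := by rw [hθ3]; exact lt_max_of_lt_left hθ10
  have hθ31 : θ3 < 1 := by rw [hθ3]; exact max_lt hθ11 hθ21
  have hr1 : ∀ n, θ1 ^ n ≤ θ3 ^ n := fun n =>
    pow_le_pow_left₀ hθ10.le (by rw [hθ3]; exact le_max_left _ _) n
  have hr2 : ∀ n, θ2 ^ n ≤ θ3 ^ n := fun n =>
    pow_le_pow_left₀ hθ20.le (by rw [hθ3]; exact le_max_right _ _) n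
  obtain ⟨φ, hφ⟩ : ∃ φ : ℝ → ℝ, φ = fun x => Real.log (g x) := ⟨_, rfl⟩
  -- oscillation on the closed levels
  have hlev : ∀ n, ∀ p ∈ (Q.P n).levels,
      ∀ x ∈ Icc ((Q.P n).lo p.1 + (Q.P n).sh p.1 p.2) ((Q.P n).hi p.1 + (Q.P n).sh p.1 p.2),
      ∀ y ∈ Icc ((Q.P n).lo p.1 + (Q.P n).sh p.1 p.2) ((Q.P n).hi p.1 + (Q.P n).sh p.1 p.2),
      |φ x - φ y| ≤ (K1 + K2) * θ3 ^ n := by
    intro n p hp x hx y hy
    rw [Tow.mem_levels] at hp
    have hx' : x - (Q.P n).sh p.1 p.2 ∈ Icc ((Q.P n).lo p.1) ((Q.P n).hi p.1) :=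
      ⟨by linarith [hx.1], by linarith [hx.2]⟩
    have hy' : y - (Q.P n).sh p.1 p.2 ∈ Icc ((Q.P n).lo p.1) ((Q.P n).hi p.1) :=
      ⟨by linarith [hy.1], by linarith [hy.2]⟩
    have e1 := HoldA.cocycle TS (Q.P n) hg hgd p.1 hp.le hx'
    have e2 := HoldA.cocycle TS (Q.P n) hg hgd p.1 hp.le hy'
    rw [sub_add_cancel] at e1 e2
    have l1 := (Q.P n).lo_ge p.1
    have l2 := (Q.P n).hi_le p.1
    have b1 := hbase n (x - (Q.P n).sh p.1 p.2) ⟨by linarith [hx'.1], by linarith [hx'.2]⟩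
      (y - (Q.P n).sh p.1 p.2) ⟨by linarith [hy'.1], by linarith [hy'.2]⟩
    have b2 := htow n p.1 p.2 hp.le _ hx' _ hy'
    rw [hφ]
    simp only
    rw [e1, e2]
    have h1 := hr1 n
    have h2 := hr2 n
    have h3 := abs_add_le (Real.log (g (x - (Q.P n).sh p.1 p.2)) -
      Real.log (g (y - (Q.P n).sh p.1 p.2)))
      ((Q.P n).S (fun z => f (G z)) p.1 p.2 (x - (Q.P n).sh p.1 p.2) -
      (Q.P n).S (fun z => f (G z)) p.1 p.2 (y - (Q.P n).sh p.1 p.2))
    have h4 : K1 * θ1 ^ n ≤ K1 * θ3 ^ n := mul_le_mul_of_nonneg_left h1 hK1.le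
    have h5 : K2 * θ2 ^ n ≤ K2 * θ3 ^ n := mul_le_mul_of_nonneg_left h2 hK2.le
    rw [add_sub_add_comm]
    linarith
  -- lengths of the levels of even stages
  have hlen : ∀ n, Even n → ∀ w : Fin d, 4 * c * κ' ^ (n + 1) ≤ (Q.P n).hi w - (Q.P n).lo w := by
    intro n hn w
    rw [(Q.R n).length_eq w]
    have h2 : ∑ β, 2 * ((Q.P (n + 1)).hi β - (Q.P (n + 1)).lo β) ≤
        ∑ β, (((Q.R n).it β).count w : ℝ) * ((Q.P (n + 1)).hi β - (Q.P (n + 1)).lo β) := by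
      refine Finset.sum_le_sum fun β _ => ?_
      have h3 : (2 : ℝ) ≤ (((Q.R n).it β).count w : ℝ) := by exact_mod_cast (Q.good n hn β).1 w
      have h4 := (Q.P (n + 1)).lt β
      exact mul_le_mul_of_nonneg_right h3 (by linarith)
    rw [← Finset.mul_sum, (Q.P (n + 1)).total] at h2
    have h5 := hlow' (n + 1)
    linarith
  -- oscillation at the even scales
  have hscale : ∀ n, Even n → ∀ x ∈ Icc (-a) a, ∀ y ∈ Icc (-a) a, x ≤ y →
      y - x < 4 * c * κ' * κ' ^ n → |φ x - φ y| ≤ (2 * (K1 + K2)) * θ3 ^ n := by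
    intro n hn x hx y hy hxy hlt
    have h1 := two_tiles (Q.P n).levels (fun p => (Q.P n).lo p.1 + (Q.P n).sh p.1 p.2)
      (fun p => (Q.P n).hi p.1 + (Q.P n).sh p.1 p.2) (A := -a) (B := a)
      (lam := 4 * c * κ' * κ' ^ n) (by linarith)
      (fun p _ => by have := (Q.P n).lt p.1; linarith)
      (fun p hp => (Tow.level_mem TS.sub (((Q.P n).mem_levels p).1 hp)).1)
      (fun p hp => (Tow.level_mem TS.sub (((Q.P n).mem_levels p).1 hp)).2)
      (fun p hp p' hp' hne => (Q.P n).disj p.1 p'.1 p.2 p'.2 (((Q.P n).mem_levels p).1 hp)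
        (((Q.P n).mem_levels p').1 hp') (fun he => hne (by
          have h1 := congrArg Prod.fst he
          have h2 := congrArg Prod.snd he
          exact Sigma.ext h1 (heq_of_eq h2))))
      (fun F => by
        rw [Tow.levels, Finset.sum_sigma]
        exact (Q.P n).sum_levels TS.sub ha.le F)
      (fun p _ => by
        have h2 := hlen n hn p.1
        have h3 : 4 * c * κ' ^ (n + 1) = 4 * c * κ' * κ' ^ n := by ring
        linarith)
      (hlev n) hx hy hxy hlt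
    linarith
  -- bounds for `g`
  have hne : (Icc (-a) a).Nonempty := nonempty_Icc.2 (by linarith)
  obtain ⟨x0, hx0, hmin⟩ := isCompact_Icc.exists_isMinOn hne hg
  obtain ⟨x1, hx1, hmax⟩ := isCompact_Icc.exists_isMaxOn hne hg
  have hgm0 : 0 < g x0 := (hgd x0 hx0).1
  have hgM0 : 0 < g x1 := (hgd x1 hx1).1
  have hM' : ∀ x ∈ Icc (-a) a, ∀ y ∈ Icc (-a) a,
      |φ x - φ y| ≤ Real.log (g x1) - Real.log (g x0) := by
    intro x hx y hy
    rw [hφ]
    simp only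
    have u1 : Real.log (g x) ≤ Real.log (g x1) := Real.log_le_log (hgd x hx).1 (hmax hx)
    have u2 : Real.log (g x0) ≤ Real.log (g x) := Real.log_le_log hgm0 (hmin hx)
    have u3 : Real.log (g y) ≤ Real.log (g x1) := Real.log_le_log (hgd y hy).1 (hmax hy)
    have u4 : Real.log (g x0) ≤ Real.log (g y) := Real.log_le_log hgm0 (hmin hy)
    rw [abs_le]
    constructor <;> linarith
  have hM0 : 0 ≤ Real.log (g x1) - Real.log (g x0) :=
    (abs_nonneg _).trans (hM' x0 hx0 x0 hx0)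
  obtain ⟨K', τ, hK', hτ0, hτ1, hhol⟩ := holder_of_scales (a := a) (φ := φ)
    (by positivity : 0 < 4 * c * κ') hκ'0 hκ'1 hθ30 hθ31 (by positivity) hM0 hM' hscale
  refine ⟨g x1 * K', τ, by positivity, hτ0, hτ1, ?_⟩
  intro x hx y hy
  have h1 := hhol x hx y hy
  have hgx := (hgd x hx).1
  have hgy := (hgd y hy).1
  have h2 := exp_lip (u := φ x) (v := φ y) (L := g x1)
    (by rw [hφ]; simp only; rw [Real.exp_log hgx]; exact hmax hx)
    (by rw [hφ]; simp only; rw [Real.exp_log hgy]; exact hmax hy)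
  have h3 : Real.exp (φ x) = g x := by rw [hφ]; exact Real.exp_log hgx
  have h4 : Real.exp (φ y) = g y := by rw [hφ]; exact Real.exp_log hgy
  rw [h3, h4] at h2
  calc |g x - g y| ≤ g x1 * |φ x - φ y| := h2
    _ ≤ g x1 * (K' * |x - y| ^ τ) := mul_le_mul_of_nonneg_left h1 hgM0.le
    _ = g x1 * K' * |x - y| ^ τ := by ring

end Pool.Agent.Helper22.Rev
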