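import Pool.Agent.Helper22.Rev.IffDefs
import Pool.Agent.Helper22.Rev.FromCore
import Pool.Agent.Helper22.Rev.Sym

/-!
# RV-16: conjugacies of class `C^{1+}` and reversibility
-/

set_option autoImplicit false

open Set Filter Topology MeasureTheory

namespace Pool.Agent.Helper22.Rev

namespace IffH

/-- Hölder continuity on a compact interval -/
def HO (a b τ : ℝ) (φ : ℝ → ℝ) : Prop :=
  ∃ C : ℝ, 0 ≤ C ∧ ∀ x ∈ Icc a b, ∀ y ∈ Icc a b, |φ x - φ y| ≤ C * |x - y| ^ τ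

variable {a b τ : ℝ} {φ ψ : ℝ → ℝ}

theorem HO.of {C : ℝ} (h : ∀ x ∈ Icc a b, ∀ y ∈ Icc a b, |φ x - φ y| ≤ C * |x - y| ^ τ) :
    HO a b τ φ :=
  ⟨|C|, abs_nonneg _, fun x hx y hy => (h x hx y hy).trans
    (mul_le_mul_of_nonneg_right (le_abs_self C) (Real.rpow_nonneg (abs_nonneg _) _))⟩

theorem HO.mono (h : HO a b τ φ) {τ1 : ℝ} (hτ1 : 0 < τ1) (hle : τ1 ≤ τ) : HO a b τ1 φ := by
  obtain ⟨C, hC, h⟩ := h
  refine HO.of (C := C * |b - a| ^ (τ - τ1)) fun x hx y hy => ?_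
  refine (h x hx y hy).trans ?_
  have h1 : |x - y| ^ τ = |x - y| ^ τ1 * |x - y| ^ (τ - τ1) := by
    rw [← Real.rpow_add_of_nonneg (abs_nonneg _) hτ1.le (by linarith)]
    congr 1
    ring
  have h2 : |x - y| ≤ |b - a| := by
    have : |x - y| ≤ b - a := by
      rw [abs_le]
      constructor <;> linarith [hx.1, hx.2, hy.1, hy.2]
    exact this.trans (le_abs_self _)
  have h3 : |x - y| ^ (τ - τ1) ≤ |b - a| ^ (τ - τ1) :=
    Real.rpow_le_rpow (abs_nonneg _) h2 (by linarith)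
  have h4 : 0 ≤ |x - y| ^ τ1 := Real.rpow_nonneg (abs_nonneg _) _
  rw [h1]
  calc C * (|x - y| ^ τ1 * |x - y| ^ (τ - τ1)) ≤ C * (|x - y| ^ τ1 * |b - a| ^ (τ - τ1)) :=
        mul_le_mul_of_nonneg_left (mul_le_mul_of_nonneg_left h3 h4) hC
    _ = _ := by ring

theorem HO.cont (h : HO a b τ φ) (hτ : 0 < τ) : ContinuousOn φ (Icc a b) := by
  obtain ⟨C, hC, h⟩ := h
  intro x hx
  rw [ContinuousWithinAt, tendsto_iff_dist_tendsto_zero]
  have h1 : Tendsto (fun y => C * |y - x| ^ τ) (𝓝[Icc a b] x) (𝓝 0) := by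
    have h2 : Continuous fun y : ℝ => C * |y - x| ^ τ := by
      have h3 : Continuous fun y : ℝ => |y - x| := by fun_prop
      exact continuous_const.mul (h3.rpow_const fun _ => Or.inr hτ.le)
    have h4 := h2.tendsto x
    simp only [sub_self, abs_zero, Real.zero_rpow hτ.ne', mul_zero] at h4
    exact h4.mono_left nhdsWithin_le_nhds
  refine squeeze_zero' (Eventually.of_forall fun _ => dist_nonneg) ?_ h1
  filter_upwards [self_mem_nhdsWithin] with y hy
  rw [Real.dist_eq]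
  exact h y hy x hx

theorem HO.bdd (h : HO a b τ φ) (hτ : 0 < τ) : ∃ M, 0 ≤ M ∧ ∀ x ∈ Icc a b, |φ x| ≤ M := by
  obtain ⟨M, hM⟩ := isCompact_Icc.exists_bound_of_continuousOn (h.cont hτ)
  refine ⟨|M|, abs_nonneg _, fun x hx => ?_⟩
  have := hM x hx
  rw [Real.norm_eq_abs] at this
  exact this.trans (le_abs_self _)

theorem HO.neg (h : HO a b τ φ) : HO a b τ fun x => -φ x := by
  obtain ⟨C, hC, h⟩ := h
  refine ⟨C, hC, fun x hx y hy => ?_⟩
  have h1 : |(-φ x) - (-φ y)| = |φ x - φ y| := by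
    rw [← abs_neg]
    congr 1
    ring
  rw [h1]
  exact h x hx y hy

theorem HO.mul (hτ : 0 < τ) (h : HO a b τ φ) (h' : HO a b τ ψ) :
    HO a b τ fun x => φ x * ψ x := by
  obtain ⟨M, hM0, hM⟩ := h.bdd hτ
  obtain ⟨M', hM0', hM'⟩ := h'.bdd hτ
  obtain ⟨C, hC, h⟩ := h
  obtain ⟨C', hC', h'⟩ := h'
  refine ⟨C * M' + M * C', by positivity, fun x hx y hy => ?_⟩
  have h1 : φ x * ψ x - φ y * ψ y = (φ x - φ y) * ψ x + φ y * (ψ x - ψ y) := by ring
  rw [h1]
  refine (abs_add_le _ _).trans ?_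
  rw [abs_mul, abs_mul, add_mul]
  have h0 : 0 ≤ |x - y| ^ τ := Real.rpow_nonneg (abs_nonneg _) _
  have h2 := mul_le_mul (h x hx y hy) (hM' x hx) (abs_nonneg _) (by positivity)
  have h3 := mul_le_mul (hM y hy) (h' x hx y hy) (abs_nonneg _) hM0
  nlinarith

theorem HO.comp (h : HO a b τ φ) (hτ : 0 < τ) (hm : MapsTo ψ (Icc a b) (Icc a b)) {L : ℝ}
    (hL0 : 0 ≤ L) (hL : ∀ x ∈ Icc a b, ∀ y ∈ Icc a b, |ψ x - ψ y| ≤ L * |x - y|) :
    HO a b τ fun x => φ (ψ x) := by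
  obtain ⟨C, hC, h⟩ := h
  refine ⟨C * L ^ τ, by positivity, fun x hx y hy => ?_⟩
  refine (h _ (hm hx) _ (hm hy)).trans ?_
  have h1 : |ψ x - ψ y| ^ τ ≤ (L * |x - y|) ^ τ :=
    Real.rpow_le_rpow (abs_nonneg _) (hL x hx y hy) hτ.le
  rw [Real.mul_rpow hL0 (abs_nonneg _)] at h1
  rw [mul_assoc]
  exact mul_le_mul_of_nonneg_left h1 hC

theorem HO.inv (h : HO a b τ φ) {m : ℝ} (hm : 0 < m) (hφ : ∀ x ∈ Icc a b, m ≤ |φ x|) :
    HO a b τ fun x => (φ x)⁻¹ := by
  obtain ⟨C, hC, h⟩ := h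
  refine ⟨C / m ^ 2, by positivity, fun x hx y hy => ?_⟩
  have h1 := hφ x hx
  have h2 := hφ y hy
  have n1 : φ x ≠ 0 := abs_pos.1 (hm.trans_le h1)
  have n2 : φ y ≠ 0 := abs_pos.1 (hm.trans_le h2)
  have h3 : (φ x)⁻¹ - (φ y)⁻¹ = (φ y - φ x) / (φ x * φ y) := by
    field_simp
  rw [h3, abs_div, abs_mul, abs_sub_comm]
  have h4 : m ^ 2 ≤ |φ x| * |φ y| := by
    rw [sq]
    exact mul_le_mul h1 h2 hm.le (abs_nonneg _)
  have h5 : 0 ≤ C * |x - y| ^ τ := mul_nonneg hC (Real.rpow_nonneg (abs_nonneg _) _)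
  calc |φ x - φ y| / (|φ x| * |φ y|) ≤ C * |x - y| ^ τ / m ^ 2 :=
        div_le_div₀ h5 (h x hx y hy) (by positivity) h4
    _ = C / m ^ 2 * |x - y| ^ τ := by ring

theorem lip {f f' : ℝ → ℝ} {M : ℝ} (hf : ∀ x ∈ Icc a b, HasDerivWithinAt f (f' x) (Icc a b) x)
    (hM : ∀ x ∈ Icc a b, |f' x| ≤ M) : ∀ x ∈ Icc a b, ∀ y ∈ Icc a b,
      |f x - f y| ≤ M * |x - y| := by
  intro x hx y hy
  have h := Convex.norm_image_sub_le_of_norm_hasDerivWithin_le hf
    (fun x hx => by rw [Real.norm_eq_abs]; exact hM x hx) (convex_Icc a b) hy hx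
  rwa [Real.norm_eq_abs, Real.norm_eq_abs] at h

/-- a nonvanishing continuous function is bounded away from zero -/
theorem away (hab : a ≤ b) (hφ : ContinuousOn φ (Icc a b)) (h0 : ∀ x ∈ Icc a b, φ x ≠ 0) :
    ∃ m, 0 < m ∧ ∀ x ∈ Icc a b, m ≤ |φ x| := by
  obtain ⟨x0, hx0, hmin⟩ := isCompact_Icc.exists_isMinOn (nonempty_Icc.2 hab) hφ.abs
  exact ⟨|φ x0|, abs_pos.2 (h0 x0 hx0), fun x hx => hmin hx⟩

/-- a nonvanishing continuous function has constant sign -/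
theorem same_sign (hφ : ContinuousOn φ (Icc a b)) (h0 : ∀ x ∈ Icc a b, φ x ≠ 0) {x y : ℝ}
    (hx : x ∈ Icc a b) (hy : y ∈ Icc a b) : 0 < φ x * φ y := by
  by_contra hcon
  have key : ∀ u ∈ Icc a b, ∀ v ∈ Icc a b, φ u ≤ 0 → 0 ≤ φ v → False := by
    intro u hu v hv h1 h2
    have h3 := isPreconnected_Icc.intermediate_value hu hv hφ
    obtain ⟨w, hw, hw0⟩ := h3 (show (0 : ℝ) ∈ Icc _ _ from ⟨h1, h2⟩)
    exact h0 w hw hw0
  rcases le_total (φ x) 0 with h1 | h1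
  · have h2 : 0 ≤ φ y := by
      by_contra h3
      exact hcon (mul_pos_of_neg_of_neg (lt_of_le_of_ne h1 (h0 x hx)) (not_le.1 h3))
    exact key x hx y hy h1 h2
  · have h2 : φ y ≤ 0 := by
      by_contra h3
      exact hcon (mul_pos (lt_of_le_of_ne h1 (h0 x hx).symm) (not_le.1 h3))
    exact key y hy x hx h2 h1

/-- the derivatives of a diffeomorphism and of its inverse -/
theorem deriv_mul (hab : a < b) {h k h' k' : ℝ → ℝ} (hk : MapsTo k (Icc a b) (Icc a b))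
    (hhk : ∀ x ∈ Icc a b, h (k x) = x)
    (dh : ∀ x ∈ Icc a b, HasDerivWithinAt h (h' x) (Icc a b) x)
    (dk : ∀ x ∈ Icc a b, HasDerivWithinAt k (k' x) (Icc a b) x) {x : ℝ} (hx : x ∈ Icc a b) :
    h' (k x) * k' x = 1 := by
  have h1 := (dh (k x) (hk hx)).comp x (dk x hx) hk
  have h2 : HasDerivWithinAt (h ∘ k) 1 (Icc a b) x :=
    (hasDerivWithinAt_id x (Icc a b)).congr (fun y hy => hhk y hy) (hhk x hx)
  exact (uniqueDiffOn_Icc hab x hx).eq_deriv _ h1 h2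

end IffH

open IffH in
theorem reversible_of_c1HolderConj {n : ℕ} {l : Fin (n + 2) → ℝ} (hl : ∀ i, 0 < l i)
    {T0 T : ℝ → ℝ} (h0 : IsStd l T0) (hT : IsGiet l T) (hc : C1HolderConj l T T0) :
    Reversible l T := by
  obtain ⟨h, k, h', k', C, τ, hτ, hh, hk, hinv, hder, hhol, hcj⟩ := hc
  have hpos := iet_half_pos hl
  have hlt : -half l < half l := by linarith
  have hkh : ∀ x ∈ Icc (-half l) (half l), k (h x) = x := fun x hx => (hinv x hx).1
  have hhk : ∀ x ∈ Icc (-half l) (half l), h (k x) = x := fun x hx => (hinv x hx).2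
  have hneg : ∀ x ∈ Icc (-half l) (half l), -x ∈ Icc (-half l) (half l) := fun x hx =>
    ⟨by linarith [hx.2], by linarith [hx.1]⟩
  have dh : ∀ x ∈ Icc (-half l) (half l), HasDerivWithinAt h (h' x) (Icc (-half l) (half l)) x :=
    fun x hx => (hder x hx).1
  have dk : ∀ x ∈ Icc (-half l) (half l), HasDerivWithinAt k (k' x) (Icc (-half l) (half l)) x :=
    fun x hx => (hder x hx).2
  -- exponents
  obtain ⟨τ1, hτ1⟩ : ∃ τ1, τ1 = min τ 1 := ⟨_, rfl⟩
  have hτ10 : 0 < τ1 := by rw [hτ1]; exact lt_min hτ one_pos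
  have hτ1le : τ1 ≤ τ := by rw [hτ1]; exact min_le_left _ _
  have Hh : HO (-half l) (half l) τ1 h' :=
    (HO.of fun x hx y hy => (hhol x hx y hy).1).mono hτ10 hτ1le
  have Hk : HO (-half l) (half l) τ1 k' :=
    (HO.of fun x hx y hy => (hhol x hx y hy).2).mono hτ10 hτ1le
  have hmulhk : ∀ x ∈ Icc (-half l) (half l), h' (k x) * k' x = 1 := fun x hx =>
    deriv_mul hlt hk hhk dh dk hx
  have hmulkh : ∀ x ∈ Icc (-half l) (half l), k' (h x) * h' x = 1 := fun x hx =>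
    deriv_mul hlt hh hkh dk dh hx
  have hh0 : ∀ x ∈ Icc (-half l) (half l), h' x ≠ 0 := by
    intro x hx he
    have := hmulkh x hx
    rw [he, mul_zero] at this
    exact zero_ne_one this
  -- the sign
  have hsign : ∀ x ∈ Icc (-half l) (half l), ∀ y ∈ Icc (-half l) (half l), 0 < k' y * h' x := by
    intro x hx y hy
    have h1 := same_sign (Hh.cont hτ10) hh0 hx (hk hy)
    have h2 := hmulhk y hy
    have h3 : k' y ≠ 0 := by
      intro he
      rw [he, mul_zero] at h2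
      exact zero_ne_one h2
    have h4 : 0 < k' y ^ 2 := by positivity
    have h5 : k' y * h' x = k' y ^ 2 * (h' x * h' (k y)) := by
      calc k' y * h' x = k' y * h' x * (h' (k y) * k' y) := by rw [h2, mul_one]
        _ = _ := by ring
    rw [h5]
    exact mul_pos h4 h1
  -- Hölder continuity
  obtain ⟨M, hM0, hM⟩ := Hh.bdd hτ10
  have hLip := lip dh hM
  have hLip' : ∀ x ∈ Icc (-half l) (half l), ∀ y ∈ Icc (-half l) (half l),
      |(-h x) - (-h y)| ≤ M * |x - y| := by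
    intro x hx y hy
    have h1 : |(-h x) - (-h y)| = |h x - h y| := by
      rw [← abs_neg]
      congr 1
      ring
    rw [h1]
    exact hLip x hx y hy
  have Hσ : HO (-half l) (half l) τ1 fun x => -(k' (-h x) * h' x) :=
    ((Hk.comp hτ10 (ψ := fun x => -h x) (fun x hx => hneg _ (hh hx)) hM0 hLip').mul hτ10 Hh).neg
  obtain ⟨C1, -, hC1⟩ := Hσ
  -- domain
  have hkD : ∀ x ∈ Dom l, k x ∈ Dom l :=
    FromCore.inv_maps (FromCore.compl_finite l) hk hhk (FromCore.dom_sub hl)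
      fun x hx => (hcj x hx).1
  have hkT : ∀ x ∈ Dom l, T (k x) = k (T0 x) := by
    intro x hx
    have h1 := (hcj (k x) (hkD x hx)).2
    rw [hhk x (FromCore.dom_sub hl hx)] at h1
    rw [← h1, hkh _ (FromCore.giet_maps hl hT _ (hkD x hx))]
  have hhb : BijOn h (Icc (-half l) (half l)) (Icc (-half l) (half l)) :=
    ⟨hh, fun x hx y hy hxy => by rw [← hkh x hx, ← hkh y hy, hxy],
      fun x hx => ⟨k x, hk hx, hhk x hx⟩⟩
  have hkb : BijOn k (Icc (-half l) (half l)) (Icc (-half l) (half l)) :=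
    ⟨hk, fun x hx y hy hxy => by rw [← hhk x hx, ← hhk y hy, hxy],
      fun x hx => ⟨h x, hh hx, hkh x hx⟩⟩
  have hnb : BijOn (fun x : ℝ => -x) (Icc (-half l) (half l)) (Icc (-half l) (half l)) :=
    ⟨fun x hx => hneg x hx, fun x _ y _ hxy => neg_injective hxy,
      fun x hx => ⟨-x, hneg x hx, neg_neg x⟩⟩
  refine ⟨fun x => k (-h x), fun x => -(k' (-h x) * h' x), C1, τ1, ?_⟩
  refine ⟨hτ10, ?_, ?_, ?_, hC1, ?_⟩
  · exact hkb.comp (hnb.comp hhb)
  · intro x hx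
    have h1 := (dh x hx).neg
    have h2 := (dk (-h x) (hneg _ (hh hx))).comp x h1 (fun y hy => hneg _ (hh hy))
    have h3 : k' (-h x) * -h' x = -(k' (-h x) * h' x) := by ring
    rw [h3] at h2
    exact h2
  · intro x hx
    have := hsign x hx (-h x) (hneg _ (hh hx))
    linarith
  · intro x hx
    obtain ⟨h1, h2⟩ := hcj x hx
    obtain ⟨h3, h4⟩ := Sym.flip h0 h1
    rw [h2]
    refine ⟨hkD _ h3, ?_⟩
    rw [hkT _ h3, h4]

namespace IffH

/-- the final assembly: `k` has a nonvanishing Hölder continuous derivative -/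
theorem assembleH {n : ℕ} {l : Fin (n + 2) → ℝ} (hl : ∀ i, 0 < l i) {T0 T h k k' : ℝ → ℝ}
    (hc : ContinuousOn h (Icc (-half l) (half l)))
    (hb : BijOn h (Icc (-half l) (half l)) (Icc (-half l) (half l)))
    (hk : MapsTo k (Icc (-half l) (half l)) (Icc (-half l) (half l)))
    (hhk : ∀ x ∈ Icc (-half l) (half l), h (k x) = x)
    (hcj : ∀ x ∈ Dom l, h x ∈ Dom l ∧ h (T x) = T0 (h x))
    {τ : ℝ} (hτ : 0 < τ) (hk'c : HO (-half l) (half l) τ k')
    (hk'0 : ∀ x ∈ Icc (-half l) (half l), k' x ≠ 0)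
    (hk' : ∀ x ∈ Icc (-half l) (half l),
      HasDerivWithinAt k (k' x) (Icc (-half l) (half l)) x) : C1HolderConj l T T0 := by
  have hkh : ∀ x ∈ Icc (-half l) (half l), k (h x) = x := fun x hx =>
    hb.injOn (hk (hb.mapsTo hx)) hx (hhk _ (hb.mapsTo hx))
  have hpos := iet_half_pos hl
  have hlt : -half l < half l := by linarith
  have hinv : ∀ x ∈ Icc (-half l) (half l),
      HasDerivWithinAt h (k' (h x))⁻¹ (Icc (-half l) (half l)) x := fun x hx =>
    FromCore.inv_deriv hc hb.mapsTo hkh hk'0 hk' hx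
  obtain ⟨m, hm0, hm⟩ := away hlt.le (hk'c.cont hτ) hk'0
  have hM : ∀ x ∈ Icc (-half l) (half l), |(k' (h x))⁻¹| ≤ m⁻¹ := by
    intro x hx
    rw [abs_inv]
    exact inv_anti₀ hm0 (hm _ (hb.mapsTo hx))
  have hLip := lip hinv hM
  have H1 : HO (-half l) (half l) τ fun x => (k' (h x))⁻¹ :=
    (hk'c.comp hτ (ψ := h) hb.mapsTo (inv_nonneg.2 hm0.le) hLip).inv hm0
      fun x hx => hm _ (hb.mapsTo hx)
  obtain ⟨C1, hC1, h1⟩ := H1
  obtain ⟨C2, hC2, h2⟩ := hk'c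
  refine ⟨h, k, fun x => (k' (h x))⁻¹, k', max C1 C2, τ, hτ, hb.mapsTo, hk,
    fun x hx => ⟨hkh x hx, hhk x hx⟩, fun x hx => ⟨hinv x hx, hk' x hx⟩, ?_, hcj⟩
  intro x hx y hy
  have h3 : 0 ≤ |x - y| ^ τ := Real.rpow_nonneg (abs_nonneg _) _
  exact ⟨(h1 x hx y hy).trans (mul_le_mul_of_nonneg_right (le_max_left _ _) h3),
    (h2 x hx y hy).trans (mul_le_mul_of_nonneg_right (le_max_right _ _) h3)⟩

end IffH

open IffH FromCore in
theorem c1HolderConj_of_core {n : ℕ} {l : Fin (n + 2) → ℝ} (hl : ∀ i, 0 < l i) {T0 T : ℝ → ℝ}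
    (h0 : IsStd l T0) (hT : IsGiet l T) (ht : TopConj l T T0)
    (hcore : ∀ (l' : Fin (n + 2) → ℝ) (T0' G : ℝ → ℝ), (l' = l ∨ l' = rev l) →
      IncConj l l' T0' T G →
      ∃ (g : ℝ → ℝ) (K τ : ℝ), 0 < τ ∧ τ ≤ 1 ∧
        (∀ x ∈ Icc (-half l) (half l), ∀ y ∈ Icc (-half l) (half l),
          |g x - g y| ≤ K * |x - y| ^ τ) ∧
        ∀ x ∈ Icc (-half l) (half l), 0 < g x ∧
          HasDerivWithinAt G (g x) (Icc (-half l) (half l)) x) :
    C1HolderConj l T T0 := by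
  obtain ⟨h, hc, hb, hcj⟩ := ht
  have hpos := iet_half_pos hl
  have hlt : -half l < half l := by linarith
  set k : ℝ → ℝ := Function.invFunOn h (Icc (-half l) (half l)) with hkdef
  have hk : MapsTo k (Icc (-half l) (half l)) (Icc (-half l) (half l)) := fun x hx =>
    Function.invFunOn_mem (hb.surjOn hx)
  have hhk : ∀ x ∈ Icc (-half l) (half l), h (k x) = x := fun x hx =>
    Function.invFunOn_eq (hb.surjOn hx)
  have hkh : ∀ x ∈ Icc (-half l) (half l), k (h x) = x := fun x hx =>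
    hb.injOn (hk (hb.mapsTo hx)) hx (hhk _ (hb.mapsTo hx))
  have hkc : ContinuousOn k (Icc (-half l) (half l)) := inv_cont hc hb hk hhk
  have hkinj : InjOn k (Icc (-half l) (half l)) := by
    intro x hx y hy hxy
    rw [← hhk x hx, ← hhk y hy, hxy]
  have hkb : BijOn k (Icc (-half l) (half l)) (Icc (-half l) (half l)) :=
    ⟨hk, hkinj, fun x hx => ⟨h x, hb.mapsTo hx, hkh x hx⟩⟩
  have hkD : ∀ x ∈ Dom l, k x ∈ Dom l :=
    inv_maps (compl_finite l) hk hhk (dom_sub hl) fun x hx => (hcj x hx).1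
  have hkT : ∀ x ∈ Dom l, T (k x) = k (T0 x) := by
    intro x hx
    have h1 := (hcj (k x) (hkD x hx)).2
    rw [hhk x (dom_sub hl hx)] at h1
    rw [← h1, hkh _ (giet_maps hl hT _ (hkD x hx))]
  rcases hkc.strictMonoOn_of_injOn_Icc' hlt.le hkinj with hm | hm
  · obtain ⟨g, K, τ, hτ, -, hgH, hg⟩ := hcore l T0 k (Or.inl rfl)
      ⟨hl, hl, rfl, h0, hT, hkc, hm, hkb, fun x hx => ⟨hkD x hx, hkT x hx⟩⟩
    exact assembleH hl hc hb hk hhk hcj hτ (HO.of hgH) (fun x hx => (hg x hx).1.ne')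
      fun x hx => (hg x hx).2
  · have hneg : ∀ x ∈ Icc (-half l) (half l), -x ∈ Icc (-half l) (half l) := by
      intro x hx
      exact ⟨by linarith [hx.2], by linarith [hx.1]⟩
    have hGc : ContinuousOn (fun x => k (-x)) (Icc (-half l) (half l)) :=
      hkc.comp continuous_neg.continuousOn fun x hx => hneg x hx
    have hGm : StrictMonoOn (fun x => k (-x)) (Icc (-half l) (half l)) := by
      intro x hx y hy hxy
      exact hm (hneg y hy) (hneg x hx) (by linarith)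
    have hGb : BijOn (fun x => k (-x)) (Icc (-half l) (half l)) (Icc (-half l) (half l)) := by
      refine ⟨fun x hx => hk (hneg x hx), hGm.injOn, fun y hy => ?_⟩
      obtain ⟨x, hx, hxy⟩ := hkb.surjOn hy
      exact ⟨-x, hneg x hx, by simp only [neg_neg]; exact hxy⟩
    obtain ⟨g, K, τ, hτ, -, hgH, hg⟩ := hcore (rev l) (fun x => -T0 (-x)) (fun x => k (-x))
      (Or.inr rfl)
      ⟨hl, fun i => hl _, half_rev l, std_rev h0, hT, hGc, hGm, hGb, fun x hx => by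
        have h1 := dom_rev l hx
        refine ⟨hkD _ h1, ?_⟩
        simp only [neg_neg]
        exact hkT _ h1⟩
    have Hg : HO (-half l) (half l) τ g := HO.of hgH
    have Hg' : HO (-half l) (half l) τ fun x => -g (-x) :=
      (Hg.comp hτ (ψ := fun x => -x) (fun x hx => hneg x hx) zero_le_one (fun x _ y _ => by
        rw [one_mul, ← abs_neg]
        refine le_of_eq ?_
        congr 1
        ring)).neg
    apply assembleH (k' := fun x => -g (-x)) hl hc hb hk hhk hcj hτ Hg'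
    · intro x hx
      exact neg_ne_zero.mpr (hg _ (hneg x hx)).1.ne'
    · intro x hx
      have h1 := (hg _ (hneg x hx)).2
      have h2 : HasDerivWithinAt (fun y : ℝ => -y) (-1) (Icc (-half l) (half l)) x :=
        (hasDerivAt_neg x).hasDerivWithinAt
      have h3 := HasDerivWithinAt.scomp x h1 h2 fun y hy => hneg y hy
      have h4 : ((fun x => k (-x)) ∘ fun y : ℝ => -y) = k := by
        funext y
        simp
      rw [h4] at h3
      simpa using h3

end Pool.Agent.Helper22.Rev
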