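import Mathlib
import Pool.Agent.Helper22.Rev.FinalDefs

/-!
# Conjugacies with Hölder continuous derivatives (definition)
-/

set_option autoImplicit false

open Set

namespace Pool.Agent.Helper22.Rev

/-- `T` is conjugate to `T0` by a `C^{1+τ}` diffeomorphism of `[-half l, half l]`, for some
`τ > 0`: the derivatives `h'`, `k'` of `h` and of its inverse `k` are Hölder continuous. -/
def C1HolderConj {n : ℕ} (l : Fin (n + 2) → ℝ) (T T0 : ℝ → ℝ) : Prop :=
  ∃ (h k h' k' : ℝ → ℝ) (C τ : ℝ), 0 < τ ∧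
    MapsTo h (Icc (-half l) (half l)) (Icc (-half l) (half l)) ∧
    MapsTo k (Icc (-half l) (half l)) (Icc (-half l) (half l)) ∧
    (∀ x ∈ Icc (-half l) (half l), k (h x) = x ∧ h (k x) = x) ∧
    (∀ x ∈ Icc (-half l) (half l),
      HasDerivWithinAt h (h' x) (Icc (-half l) (half l)) x ∧
      HasDerivWithinAt k (k' x) (Icc (-half l) (half l)) x) ∧
    (∀ x ∈ Icc (-half l) (half l), ∀ y ∈ Icc (-half l) (half l),
      |h' x - h' y| ≤ C * |x - y| ^ τ ∧ |k' x - k' y| ≤ C * |x - y| ^ τ) ∧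
    ∀ x ∈ Dom l, h x ∈ Dom l ∧ h (T x) = T0 (h x)

end Pool.Agent.Helper22.Rev
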