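import Pool.Agent.Helper22.Rev.Defs

/-!
# Kerckhoff's lemma for the height process of the symmetric induction algorithm
-/

set_option autoImplicit false

namespace Pool.Agent.Helper22.Rev

namespace Ker

variable {n : ℕ}

/-! ### Rearrangements -/

lemma arr_mem {K : Type*} (m o : Bool) (v : Fin (n + 2) → K) (i : Fin (n + 2)) :
    ∃ j, arr m o v i = v j := by
  rcases m with _ | _ <;> rcases o with _ | _
  · exact ⟨i, rfl⟩
  · change ∃ j, rot v i = v j
    unfold rot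
    refine Fin.cases ⟨0, rfl⟩ (fun i => ?_) i
    refine Fin.cases ⟨Fin.last (n + 1), rfl⟩ (fun i => ⟨i.castSucc.succ, rfl⟩) i
  · exact ⟨Fin.rev i, rfl⟩
  · exact ⟨i, rfl⟩

lemma prod_arr {K M : Type*} [CommMonoid M] (m o : Bool) (v : Fin (n + 2) → K) (f : K → M) :
    ∏ i, f (arr m o v i) = ∏ i, f (v i) := by
  rcases m with _ | _ <;> rcases o with _ | _
  · rfl
  · change ∏ i, f (rot v i) = _
    unfold rot
    rw [Fin.prod_univ_succ, Fin.prod_univ_succ, Fin.prod_univ_succ (n := n + 1),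
      Fin.prod_univ_castSucc (n := n)]
    simp only [Fin.cons_zero, Fin.cons_succ, Fin.succ_last]
    rw [mul_comm (f (v (Fin.last (n + 1))))]
  · change ∏ i, f (v (Fin.rev i)) = _
    exact Equiv.prod_comp Fin.revPerm (fun i => f (v i))
  · rfl

lemma sum_arr {K M : Type*} [AddCommMonoid M] (m o : Bool) (v : Fin (n + 2) → K) (f : K → M) :
    ∑ i, f (arr m o v i) = ∑ i, f (v i) := by
  rcases m with _ | _ <;> rcases o with _ | _
  · rfl
  · change ∑ i, f (rot v i) = _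
    unfold rot
    rw [Fin.sum_univ_succ, Fin.sum_univ_succ, Fin.sum_univ_succ (n := n + 1),
      Fin.sum_univ_castSucc (n := n)]
    simp only [Fin.cons_zero, Fin.cons_succ, Fin.succ_last]
    rw [add_comm (f (v (Fin.last (n + 1))))]
  · change ∑ i, f (v (Fin.rev i)) = _
    exact Equiv.sum_comp Fin.revPerm (fun i => f (v i))
  · rfl

lemma prod_upd {K M : Type*} [CommMonoid M] (v : Fin (n + 2) → K) (i : Fin (n + 2)) (x : K)
    (f : K → M) :
    (∏ j, f (Function.update v i x j)) * f (v i) = (∏ j, f (v j)) * f x := by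
  rw [Fintype.prod_eq_mul_prod_compl i, Fintype.prod_eq_mul_prod_compl i (fun j => f (v j)),
    Function.update_self]
  have : ∏ j ∈ {i}ᶜ, f (Function.update v i x j) = ∏ j ∈ {i}ᶜ, f (v j) := by
    refine Finset.prod_congr rfl fun j hj => ?_
    rw [Function.update_of_ne]
    simpa using hj
  rw [this, mul_right_comm, mul_comm (f x), mul_right_comm]

lemma sum_upd {K M : Type*} [AddCommMonoid M] (v : Fin (n + 2) → K) (i : Fin (n + 2)) (x : K)
    (f : K → M) :
    (∑ j, f (Function.update v i x j)) + f (v i) = (∑ j, f (v j)) + f x := by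
  rw [Fintype.sum_eq_add_sum_compl i, Fintype.sum_eq_add_sum_compl i (fun j => f (v j)),
    Function.update_self]
  have : ∑ j ∈ {i}ᶜ, f (Function.update v i x j) = ∑ j ∈ {i}ᶜ, f (v j) := by
    refine Finset.sum_congr rfl fun j hj => ?_
    rw [Function.update_of_ne]
    simpa using hj
  rw [this, add_right_comm, add_comm (f x), add_right_comm]

/-! ### The vector after a comparison, before the rearrangement -/

/-- the vector before the rearrangement -/
def upd (o : Bool) (q : Fin (n + 2) → ℕ) : Fin (n + 2) → ℕ :=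
  if o then Function.update q (Fin.last (n + 1)) (q (Fin.last (n + 1)) + q 0)
    else Function.update q 0 (q 0 + q (Fin.last (n + 1)))

lemma qstep_eq (m o : Bool) (q : Fin (n + 2) → ℕ) : qstep m o q = arr m o (upd o q) := rfl

lemma zero_ne_last : (0 : Fin (n + 2)) ≠ Fin.last (n + 1) := by
  intro h
  have := congrArg Fin.val h
  simp at this

lemma upd_true_last (q : Fin (n + 2) → ℕ) :
    upd true q (Fin.last (n + 1)) = q (Fin.last (n + 1)) + q 0 := by
  simp [upd]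

lemma upd_true_of_ne (q : Fin (n + 2) → ℕ) {i : Fin (n + 2)} (h : i ≠ Fin.last (n + 1)) :
    upd true q i = q i := by
  simp [upd, Function.update_of_ne h]

lemma upd_false_zero (q : Fin (n + 2) → ℕ) : upd false q 0 = q 0 + q (Fin.last (n + 1)) := by
  simp [upd]

lemma upd_false_of_ne (q : Fin (n + 2) → ℕ) {i : Fin (n + 2)} (h : i ≠ 0) :
    upd false q i = q i := by
  simp [upd, Function.update_of_ne h]

lemma le_Mx (q : Fin (n + 2) → ℕ) (i : Fin (n + 2)) : q i ≤ Mx q :=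
  Finset.le_sup (f := q) (Finset.mem_univ i)

lemma Mx_le {q : Fin (n + 2) → ℕ} {T : ℕ} (h : ∀ i, q i ≤ T) : Mx q ≤ T :=
  Finset.sup_le fun i _ => h i

lemma upd_le (o : Bool) (q : Fin (n + 2) → ℕ) (i : Fin (n + 2)) : upd o q i ≤ 2 * Mx q := by
  have h0 := le_Mx q 0
  have h1 := le_Mx q (Fin.last (n + 1))
  have hi := le_Mx q i
  rcases o with _ | _
  · by_cases h : i = 0
    · subst h; rw [upd_false_zero]; omega
    · rw [upd_false_of_ne q h]; omega
  · by_cases h : i = Fin.last (n + 1)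
    · subst h; rw [upd_true_last]; omega
    · rw [upd_true_of_ne q h]; omega

lemma le_upd (o : Bool) (q : Fin (n + 2) → ℕ) (i : Fin (n + 2)) : q i ≤ upd o q i := by
  rcases o with _ | _
  · by_cases h : i = 0
    · subst h; rw [upd_false_zero]; omega
    · rw [upd_false_of_ne q h]
  · by_cases h : i = Fin.last (n + 1)
    · subst h; rw [upd_true_last]; omega
    · rw [upd_true_of_ne q h]

lemma Mx_qstep_le (m o : Bool) (q : Fin (n + 2) → ℕ) : Mx (qstep m o q) ≤ 2 * Mx q := by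
  refine Mx_le fun i => ?_
  rw [qstep_eq]
  obtain ⟨j, hj⟩ := arr_mem m o (upd o q) i
  rw [hj]
  exact upd_le o q j

lemma qstep_pos (m o : Bool) {q : Fin (n + 2) → ℕ} (hq : ∀ i, 0 < q i) (i : Fin (n + 2)) :
    0 < qstep m o q i := by
  rw [qstep_eq]
  obtain ⟨j, hj⟩ := arr_mem m o (upd o q) i
  rw [hj]
  exact lt_of_lt_of_le (hq j) (le_upd o q j)

lemma qstep_true_zero (m : Bool) (q : Fin (n + 2) → ℕ) : qstep m true q 0 = q 0 := by
  rw [qstep_eq, ← upd_true_of_ne q zero_ne_last]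
  rcases m with _ | _ <;> rfl

lemma qstep_A_false_zero (q : Fin (n + 2) → ℕ) :
    qstep true false q 0 = q (Fin.last (n + 1)) := by
  rw [qstep_eq, ← upd_false_of_ne q zero_ne_last.symm]
  change upd false q (Fin.rev 0) = _
  rw [Fin.rev_zero]

lemma qstep_B_false (q : Fin (n + 2) → ℕ) : qstep false false q = upd false q := rfl

lemma qstep_A_true (q : Fin (n + 2) → ℕ) : qstep true true q = upd true q := rfl

/-- total -/
def tot (q : Fin (n + 2) → ℕ) : ℕ := ∑ i, q i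

lemma tot_qstep (m o : Bool) {q : Fin (n + 2) → ℕ} (hq : ∀ i, 0 < q i) :
    tot q + 1 ≤ tot (qstep m o q) := by
  have h1 : tot (qstep m o q) = ∑ i, upd o q i := by
    rw [qstep_eq]; exact sum_arr m o (upd o q) (fun x => x)
  rw [h1]
  have h0 := hq 0
  have hl := hq (Fin.last (n + 1))
  rcases o with _ | _
  · have := sum_upd q 0 (q 0 + q (Fin.last (n + 1))) (fun x => x)
    have h2 : ∑ i, upd false q i = ∑ j, Function.update q 0 (q 0 + q (Fin.last (n + 1))) j := rfl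
    rw [h2]; unfold tot; omega
  · have := sum_upd q (Fin.last (n + 1)) (q (Fin.last (n + 1)) + q 0) (fun x => x)
    have h2 : ∑ i, upd true q i =
      ∑ j, Function.update q (Fin.last (n + 1)) (q (Fin.last (n + 1)) + q 0) j := rfl
    rw [h2]; unfold tot; omega

lemma tot_le (q : Fin (n + 2) → ℕ) : tot q ≤ (n + 2) * Mx q := by
  unfold tot
  calc ∑ i, q i ≤ ∑ _i : Fin (n + 2), Mx q := Finset.sum_le_sum fun i _ => le_Mx q i
    _ = (n + 2) * Mx q := by simp

/-! ### Number and product of the big entries -/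

open Classical in
/-- indicator -/
noncomputable def g1 (θ : ℝ) (x : ℕ) : ℕ := if θ ≤ (x : ℝ) then 1 else 0

open Classical in
/-- factor -/
noncomputable def g2 (θ : ℝ) (x : ℕ) : ℝ := if θ ≤ (x : ℝ) then (x : ℝ) else 1

lemma g1_big {θ : ℝ} {x : ℕ} (h : θ ≤ (x : ℝ)) : g1 θ x = 1 := if_pos h
lemma g1_small {θ : ℝ} {x : ℕ} (h : (x : ℝ) < θ) : g1 θ x = 0 := if_neg (not_le.2 h)
lemma g2_big {θ : ℝ} {x : ℕ} (h : θ ≤ (x : ℝ)) : g2 θ x = x := if_pos h
lemma g2_small {θ : ℝ} {x : ℕ} (h : (x : ℝ) < θ) : g2 θ x = 1 := if_neg (not_le.2 h)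

lemma g1_mono {θ : ℝ} {x y : ℕ} (h : x ≤ y) : g1 θ x ≤ g1 θ y := by
  by_cases hx : θ ≤ (x : ℝ)
  · have hy : θ ≤ (y : ℝ) := hx.trans (by exact_mod_cast h)
    rw [g1_big hx, g1_big hy]
  · rw [g1_small (not_le.1 hx)]; exact Nat.zero_le _

/-- number of big entries -/
noncomputable def nb (θ : ℝ) (q : Fin (n + 2) → ℕ) : ℕ := ∑ i, g1 θ (q i)

/-- product of the big entries -/
noncomputable def pr (θ : ℝ) (q : Fin (n + 2) → ℕ) : ℝ := ∏ i, g2 θ (q i)

lemma g2_nonneg {θ : ℝ} {x : ℕ} : 0 ≤ g2 θ x := by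
  unfold g2; split_ifs <;> positivity

lemma pr_nonneg {θ : ℝ} (q : Fin (n + 2) → ℕ) : 0 ≤ pr θ q :=
  Finset.prod_nonneg fun _ _ => g2_nonneg

lemma pow_le_g2 {θ : ℝ} (x : ℕ) : θ ^ g1 θ x ≤ g2 θ x := by
  by_cases hx : θ ≤ (x : ℝ)
  · rw [g1_big hx, g2_big hx, pow_one]; exact hx
  · rw [g1_small (not_le.1 hx), g2_small (not_le.1 hx), pow_zero]

lemma pr_le {θ : ℝ} (q : Fin (n + 2) → ℕ) : pr θ q ≤ (Mx q : ℝ) ^ nb θ q := by
  unfold pr nb
  rw [← Finset.prod_pow_eq_pow_sum]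
  refine Finset.prod_le_prod (fun i _ => g2_nonneg) fun i _ => ?_
  by_cases hx : θ ≤ (q i : ℝ)
  · rw [g1_big hx, g2_big hx, pow_one]; exact_mod_cast le_Mx q i
  · rw [g1_small (not_le.1 hx), g2_small (not_le.1 hx), pow_zero]

lemma le_pr {θ : ℝ} (hθ : 0 < θ) {k : ℕ} (q : Fin (n + 2) → ℕ) (hk : k + 1 ≤ nb θ q)
    (hk' : nb θ q ≤ k + 1) {i : Fin (n + 2)} (hi : θ ≤ (q i : ℝ)) :
    (q i : ℝ) * θ ^ k ≤ pr θ q := by
  unfold pr
  rw [Fintype.prod_eq_mul_prod_compl i, g2_big hi]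
  refine mul_le_mul_of_nonneg_left ?_ (Nat.cast_nonneg _)
  have h1 : ∑ j ∈ {i}ᶜ, g1 θ (q j) = k := by
    have : nb θ q = g1 θ (q i) + ∑ j ∈ {i}ᶜ, g1 θ (q j) := Fintype.sum_eq_add_sum_compl i _
    rw [g1_big hi] at this
    omega
  rw [← h1, ← Finset.prod_pow_eq_pow_sum]
  exact Finset.prod_le_prod (fun j _ => by positivity) fun j _ => pow_le_g2 _

lemma nb_qstep_true (m : Bool) (θ : ℝ) (q : Fin (n + 2) → ℕ) :
    nb θ (qstep m true q) + g1 θ (q (Fin.last (n + 1))) =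
      nb θ q + g1 θ (q (Fin.last (n + 1)) + q 0) := by
  have h1 : nb θ (qstep m true q) = ∑ i, g1 θ (upd true q i) := by
    rw [qstep_eq]; exact sum_arr m true (upd true q) (g1 θ)
  rw [h1]
  exact sum_upd q (Fin.last (n + 1)) (q (Fin.last (n + 1)) + q 0) (g1 θ)

lemma nb_qstep_false (m : Bool) (θ : ℝ) (q : Fin (n + 2) → ℕ) :
    nb θ (qstep m false q) + g1 θ (q 0) = nb θ q + g1 θ (q 0 + q (Fin.last (n + 1))) := by
  have h1 : nb θ (qstep m false q) = ∑ i, g1 θ (upd false q i) := by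
    rw [qstep_eq]; exact sum_arr m false (upd false q) (g1 θ)
  rw [h1]
  exact sum_upd q 0 (q 0 + q (Fin.last (n + 1))) (g1 θ)

lemma pr_qstep_true (m : Bool) (θ : ℝ) (q : Fin (n + 2) → ℕ) :
    pr θ (qstep m true q) * g2 θ (q (Fin.last (n + 1))) =
      pr θ q * g2 θ (q (Fin.last (n + 1)) + q 0) := by
  have h1 : pr θ (qstep m true q) = ∏ i, g2 θ (upd true q i) := by
    rw [qstep_eq]; exact prod_arr m true (upd true q) (g2 θ)
  rw [h1]
  exact prod_upd q (Fin.last (n + 1)) (q (Fin.last (n + 1)) + q 0) (g2 θ)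

lemma pr_qstep_false (m : Bool) (θ : ℝ) (q : Fin (n + 2) → ℕ) :
    pr θ (qstep m false q) * g2 θ (q 0) = pr θ q * g2 θ (q 0 + q (Fin.last (n + 1))) := by
  have h1 : pr θ (qstep m false q) = ∏ i, g2 θ (upd false q i) := by
    rw [qstep_eq]; exact prod_arr m false (upd false q) (g2 θ)
  rw [h1]
  exact prod_upd q 0 (q 0 + q (Fin.last (n + 1))) (g2 θ)

lemma nb_mono_qstep (m o : Bool) (θ : ℝ) (q : Fin (n + 2) → ℕ) :
    nb θ q ≤ nb θ (qstep m o q) := by
  rcases o with _ | _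
  · have h1 := nb_qstep_false m θ q
    have h2 := g1_mono (θ := θ) (x := q 0) (y := q 0 + q (Fin.last (n + 1))) (by omega)
    omega
  · have h1 := nb_qstep_true m θ q
    have h2 := g1_mono (θ := θ) (x := q (Fin.last (n + 1))) (y := q (Fin.last (n + 1)) + q 0)
      (by omega)
    omega

/-! ### Superharmonic functions with a lower bound at the states with `k + 2` big entries -/

/-- context: `θ` threshold, `k + 1` big entries, height bound `M`, lower bound `ε` -/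
structure Ctx (θ : ℝ) (k M : ℕ) (ε : ℝ) (p : Bool → (Fin (n + 2) → ℕ) → ℝ) : Prop where
  hθ : 0 < θ
  hε : 0 ≤ ε
  nonneg : ∀ m q, (∀ i, 0 < q i) → Mx q ≤ M → 0 ≤ p m q
  super : ∀ m q, (∀ i, 0 < q i) →
    (q (Fin.last (n + 1)) : ℝ) / (q 0 + q (Fin.last (n + 1))) *
        p (nextMode m true) (qstep m true q) +
      (q 0 : ℝ) / (q 0 + q (Fin.last (n + 1))) *
        p (nextMode m false) (qstep m false q) ≤ p m q
  succ : ∀ m q, (∀ i, 0 < q i) → k + 2 ≤ nb θ q → Mx q ≤ M → ε ≤ p m q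

variable {θ : ℝ} {k M : ℕ} {ε : ℝ} {p : Bool → (Fin (n + 2) → ℕ) → ℝ}

/-- combination of lower bounds for the two outcomes -/
lemma Ctx.comb (h : Ctx θ k M ε p) {m : Bool} {q : Fin (n + 2) → ℕ} (hq : ∀ i, 0 < q i)
    {x1 x0 : ℝ} (h1 : x1 ≤ p (nextMode m true) (qstep m true q))
    (h0 : x0 ≤ p (nextMode m false) (qstep m false q)) :
    (q (Fin.last (n + 1)) : ℝ) * x1 + (q 0 : ℝ) * x0 ≤
      ((q 0 : ℝ) + q (Fin.last (n + 1))) * p m q := by
  have hs := h.super m q hq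
  have a0 : (0 : ℝ) < q 0 := by exact_mod_cast hq 0
  have a1 : (0 : ℝ) < q (Fin.last (n + 1)) := by exact_mod_cast hq _
  have hpos : (0 : ℝ) < (q 0 : ℝ) + q (Fin.last (n + 1)) := by positivity
  have h2 : ((q (Fin.last (n + 1)) : ℝ) * p (nextMode m true) (qstep m true q) +
      (q 0 : ℝ) * p (nextMode m false) (qstep m false q)) ≤
      ((q 0 : ℝ) + q (Fin.last (n + 1))) * p m q := by
    have h3 := mul_le_mul_of_nonneg_left hs hpos.le
    refine le_trans (le_of_eq ?_) h3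
    field_simp
  have h4 := mul_le_mul_of_nonneg_left h1 a1.le
  have h5 := mul_le_mul_of_nonneg_left h0 a0.le
  linarith

/-- both outcomes at least `x` -/
lemma Ctx.both (h : Ctx θ k M ε p) {m : Bool} {q : Fin (n + 2) → ℕ} (hq : ∀ i, 0 < q i)
    {x : ℝ} (h1 : x ≤ p (nextMode m true) (qstep m true q))
    (h0 : x ≤ p (nextMode m false) (qstep m false q)) : x ≤ p m q := by
  have hc := h.comb hq h1 h0
  have a0 : (0 : ℝ) < q 0 := by exact_mod_cast hq 0
  have a1 : (0 : ℝ) < q (Fin.last (n + 1)) := by exact_mod_cast hq _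
  have hpos : (0 : ℝ) < (q 0 : ℝ) + q (Fin.last (n + 1)) := by positivity
  refine le_of_mul_le_mul_left ?_ hpos
  refine le_trans (le_of_eq ?_) hc
  ring


lemma Ctx.P2_cases (h : Ctx θ k M ε p) {P : ℝ} (hP0 : 0 < P) (hP : 2 * P ≤ M * θ ^ k)
    (hM : 2 * θ ≤ M) {m : Bool} {q : Fin (n + 2) → ℕ} (hq : ∀ i, 0 < q i)
    (hk : k + 1 ≤ nb θ q) (hMx : Mx q ≤ M) :
    ε * (1 - pr θ q / P) ≤ p m q ∨ (2 * Mx q ≤ M ∧ nb θ q = k + 1) := by
  have hpr := pr_nonneg (θ := θ) q
  by_cases hk2 : k + 2 ≤ nb θ q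
  · left
    refine le_trans ?_ (h.succ m q hq hk2 hMx)
    have : 0 ≤ ε * (pr θ q / P) := mul_nonneg h.hε (div_nonneg hpr hP0.le)
    linarith
  by_cases hPP : P ≤ pr θ q
  · left
    refine le_trans ?_ (h.nonneg m q hq hMx)
    have h1 : 1 ≤ pr θ q / P := (one_le_div hP0).2 hPP
    have : 0 ≤ ε * (pr θ q / P - 1) := mul_nonneg h.hε (by linarith)
    linarith
  · right
    refine ⟨?_, by omega⟩
    rw [not_le] at hPP
    obtain ⟨i, -, hi⟩ := Finset.exists_mem_eq_sup Finset.univ Finset.univ_nonempty q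
    have hMi : Mx q = q i := hi
    rw [hMi]
    have h2 : 2 * (q i : ℝ) ≤ M := by
      by_cases hi : θ ≤ (q i : ℝ)
      · have h3 := le_pr h.hθ q hk (by omega) hi
        have h4 : 0 < θ ^ k := pow_pos h.hθ k
        refine le_of_mul_le_mul_right ?_ h4
        linarith
      · rw [not_le] at hi
        linarith
    exact_mod_cast h2

lemma Ctx.P2_step (h : Ctx θ k M ε p) {P : ℝ} (hP0 : 0 < P) {m : Bool}
    {q : Fin (n + 2) → ℕ} (hq : ∀ i, 0 < q i) (hk : nb θ q = k + 1) (h0 : (q 0 : ℝ) < θ)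
    (hMx : 2 * Mx q ≤ M)
    (ih : ∀ o : Bool, k + 1 ≤ nb θ (qstep m o q) →
      ((qstep m o q 0 : ℝ) < θ ∨ k + 2 ≤ nb θ (qstep m o q)) →
      ε * (1 - pr θ (qstep m o q) / P) ≤ p (nextMode m o) (qstep m o q)) :
    ε * (1 - pr θ q / P) ≤ p m q := by
  have hpr := pr_nonneg (θ := θ) q
  have hle : ε * (1 - pr θ q / P) ≤ ε := by
    have : 0 ≤ ε * (pr θ q / P) := mul_nonneg h.hε (div_nonneg hpr hP0.le)
    linarith
  have hsucc : ∀ o, k + 2 ≤ nb θ (qstep m o q) → ε ≤ p (nextMode m o) (qstep m o q) :=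
    fun o ho => h.succ _ _ (qstep_pos m o hq) ho ((Mx_qstep_le m o q).trans hMx)
  have nT := nb_qstep_true m θ q
  have nF := nb_qstep_false m θ q
  have pT := pr_qstep_true m θ q
  have pF := pr_qstep_false m θ q
  have a0 : (0 : ℝ) < q 0 := by exact_mod_cast hq 0
  have a1 : (0 : ℝ) < q (Fin.last (n + 1)) := by exact_mod_cast hq _
  by_cases hl : θ ≤ (q (Fin.last (n + 1)) : ℝ)
  · have hl' : θ ≤ ((q (Fin.last (n + 1)) + q 0 : ℕ) : ℝ) := by push_cast; linarith
    have hl'' : θ ≤ ((q 0 + q (Fin.last (n + 1)) : ℕ) : ℝ) := by push_cast; linarith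
    rw [g1_big hl, g1_big hl'] at nT
    rw [g2_big hl, g2_big hl'] at pT
    rw [g1_small h0, g1_big hl''] at nF
    have h1 := ih true (by omega) (Or.inl (by rw [qstep_true_zero]; exact h0))
    have h2 := hsucc false (by omega)
    have hc := h.comb hq h1 h2
    have hpos : (0 : ℝ) < (q 0 : ℝ) + q (Fin.last (n + 1)) := by positivity
    refine le_of_mul_le_mul_left ?_ hpos
    refine le_trans (le_of_eq ?_) hc
    push_cast at pT
    have h3 : (q (Fin.last (n + 1)) : ℝ) * (ε * (1 - pr θ (qstep m true q) / P)) =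
        ε * (q (Fin.last (n + 1)) : ℝ) -
          ε * (pr θ (qstep m true q) * (q (Fin.last (n + 1)) : ℝ)) / P := by ring
    rw [h3, pT]
    ring
  · rw [not_le] at hl
    refine h.both hq ?_ ?_
    · by_cases hb : θ ≤ ((q (Fin.last (n + 1)) + q 0 : ℕ) : ℝ)
      · rw [g1_small hl, g1_big hb] at nT
        exact hle.trans (hsucc true (by omega))
      · rw [not_le] at hb
        rw [g1_small hl, g1_small hb] at nT
        rw [g2_small hl, g2_small hb, mul_one, mul_one] at pT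
        rw [← pT]
        exact ih true (by omega) (Or.inl (by rw [qstep_true_zero]; exact h0))
    · by_cases hb : θ ≤ ((q 0 + q (Fin.last (n + 1)) : ℕ) : ℝ)
      · rw [g1_small h0, g1_big hb] at nF
        exact hle.trans (hsucc false (by omega))
      · rw [not_le] at hb
        rw [g1_small h0, g1_small hb] at nF
        rw [g2_small h0, g2_small hb, mul_one, mul_one] at pF
        rw [← pF]
        refine ih false (by omega) (Or.inl ?_)
        rcases m with _ | _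
        · rw [qstep_B_false, upd_false_zero]; exact hb
        · rw [qstep_A_false_zero]; exact hl

/-- first entry small: supermartingale argument -/
theorem Ctx.P2_aux (h : Ctx θ k M ε p) {P : ℝ} (hP0 : 0 < P) (hP : 2 * P ≤ M * θ ^ k)
    (hM : 2 * θ ≤ M) :
    ∀ (s : ℕ) (m : Bool) (q : Fin (n + 2) → ℕ), (∀ i, 0 < q i) → k + 1 ≤ nb θ q →
      ((q 0 : ℝ) < θ ∨ k + 2 ≤ nb θ q) → Mx q ≤ M → (n + 2) * M ≤ tot q + s →
      ε * (1 - pr θ q / P) ≤ p m q := by
  intro s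
  induction s with
  | zero =>
    intro m q hq hk h0 hMx hs
    rcases h.P2_cases (m := m) hP0 hP hM hq hk hMx with h1 | ⟨h1, -⟩
    · exact h1
    · exfalso
      have h2 := tot_le q
      have h3 := (hq 0).trans_le (le_Mx q 0)
      nlinarith
  | succ s ih =>
    intro m q hq hk h0 hMx hs
    rcases h.P2_cases (m := m) hP0 hP hM hq hk hMx with h1 | ⟨h1, h2⟩
    · exact h1
    · have h0' : (q 0 : ℝ) < θ := by
        rcases h0 with h0 | h0
        · exact h0
        · omega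
      refine h.P2_step hP0 hq h2 h0' h1 fun o h3 h4 => ?_
      refine ih _ _ (qstep_pos m o hq) h3 h4 ((Mx_qstep_le m o q).trans h1) ?_
      have := tot_qstep m o hq
      omega

/-- first entry small -/
theorem Ctx.P2 (h : Ctx θ k M ε p) {B : ℕ} (hB : 4 * (B : ℝ) ^ (k + 1) ≤ M * θ ^ k)
    (hM : 2 * θ ≤ M) (hBM : B ≤ M) {m : Bool} {q : Fin (n + 2) → ℕ} (hq : ∀ i, 0 < q i)
    (hk : k + 1 ≤ nb θ q) (h0 : (q 0 : ℝ) < θ) (hMx : Mx q ≤ B) : ε / 2 ≤ p m q := by
  by_cases hk2 : k + 2 ≤ nb θ q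
  · have := h.succ m q hq hk2 (hMx.trans hBM)
    have := h.hε
    linarith
  have hnb : nb θ q = k + 1 := by omega
  have h1 := pr_le (θ := θ) q
  rw [hnb] at h1
  have h2 : ((Mx q : ℕ) : ℝ) ^ (k + 1) ≤ (B : ℝ) ^ (k + 1) :=
    pow_le_pow_left₀ (Nat.cast_nonneg _) (by exact_mod_cast hMx) _
  have hprpos : 0 < pr θ q := by
    refine Finset.prod_pos fun i _ => ?_
    by_cases hi : θ ≤ (q i : ℝ)
    · rw [g2_big hi]; exact_mod_cast hq i
    · rw [g2_small (not_le.1 hi)]; exact one_pos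
  have h3 := h.P2_aux (P := 2 * pr θ q) (by positivity) (by linarith) hM ((n + 2) * M) m q hq hk
    (Or.inl h0) (hMx.trans hBM) (Nat.le_add_left _ _)
  refine le_trans (le_of_eq ?_) h3
  field_simp
  norm_num

/-- mode `B`, first entry big, last entry small -/
theorem Ctx.P1b_aux (h : Ctx θ k M ε p) {Q : ℝ} (hQ0 : 0 < Q) (hQ : 2 * Q ≤ M) :
    ∀ (s : ℕ) (q : Fin (n + 2) → ℕ), (∀ i, 0 < q i) → k + 1 ≤ nb θ q →
      θ ≤ (q 0 : ℝ) → (q (Fin.last (n + 1)) : ℝ) < θ → (∀ i, i ≠ 0 → 2 * q i ≤ M) → Mx q ≤ M →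
      (n + 2) * M ≤ tot q + s →
      ε * (1 - q 0 / Q) ≤ p false q := by
  have key : ∀ (q : Fin (n + 2) → ℕ), (∀ i, 0 < q i) → (∀ i, i ≠ 0 → 2 * q i ≤ M) → Mx q ≤ M →
      ε * (1 - q 0 / Q) ≤ p false q ∨ 2 * Mx q ≤ M := by
    intro q hq hi hMx
    by_cases hQq : Q ≤ (q 0 : ℝ)
    · left
      refine le_trans ?_ (h.nonneg _ q hq hMx)
      have h1 : 1 ≤ (q 0 : ℝ) / Q := (one_le_div hQ0).2 hQq
      have : 0 ≤ ε * ((q 0 : ℝ) / Q - 1) := mul_nonneg h.hε (by linarith)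
      linarith
    · right
      rw [not_le] at hQq
      obtain ⟨i, -, hi'⟩ := Finset.exists_mem_eq_sup Finset.univ Finset.univ_nonempty q
      have hMi : Mx q = q i := hi'
      rw [hMi]
      by_cases h0 : i = 0
      · subst h0
        have : 2 * (q 0 : ℝ) ≤ M := by linarith
        exact_mod_cast this
      · exact hi i h0
  intro s
  induction s with
  | zero =>
    intro q hq hk h0 hl hi hMx hs
    rcases key q hq hi hMx with h1 | h1
    · exact h1
    · exfalso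
      have h2 := tot_le q
      have h3 := (hq 0).trans_le (le_Mx q 0)
      nlinarith
  | succ s ih =>
    intro q hq hk h0 hl hi hMx hs
    rcases key q hq hi hMx with h1 | h1
    · exact h1
    · have a0 : (0 : ℝ) < q 0 := by exact_mod_cast hq 0
      have a1 : (0 : ℝ) < q (Fin.last (n + 1)) := by exact_mod_cast hq _
      have nT := nb_qstep_true false θ q
      have hb : θ ≤ ((q (Fin.last (n + 1)) + q 0 : ℕ) : ℝ) := by push_cast; linarith
      rw [g1_small hl, g1_big hb] at nT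
      have e1 : ε ≤ p (nextMode false true) (qstep false true q) :=
        h.succ _ _ (qstep_pos _ _ hq) (by omega) ((Mx_qstep_le _ _ q).trans h1)
      have e0 : ε * (1 - (qstep false false q 0 : ℝ) / Q) ≤
          p (nextMode false false) (qstep false false q) := by
        refine ih (qstep false false q) (qstep_pos _ _ hq)
          (hk.trans (nb_mono_qstep _ _ _ _)) ?_ ?_ ?_ ((Mx_qstep_le _ _ q).trans h1) ?_
        · rw [qstep_B_false, upd_false_zero]; push_cast; linarith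
        · rw [qstep_B_false, upd_false_of_ne q zero_ne_last.symm]; exact hl
        · intro i hi0
          rw [qstep_B_false, upd_false_of_ne q hi0]; exact hi i hi0
        · have := tot_qstep false false hq
          omega
      have hc := h.comb hq e1 e0
      have hpos : (0 : ℝ) < (q 0 : ℝ) + q (Fin.last (n + 1)) := by positivity
      refine le_of_mul_le_mul_left ?_ hpos
      refine le_trans (le_of_eq ?_) hc
      rw [qstep_B_false, upd_false_zero]
      push_cast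
      ring

/-- mode `B`, first entry big, last entry small -/
theorem Ctx.P1b (h : Ctx θ k M ε p) {q : Fin (n + 2) → ℕ} (hq : ∀ i, 0 < q i)
    (hk : k + 1 ≤ nb θ q) (h0 : θ ≤ (q 0 : ℝ)) (hl : (q (Fin.last (n + 1)) : ℝ) < θ)
    (hMx : 4 * Mx q ≤ M) : ε / 2 ≤ p false q := by
  have a0 : (0 : ℝ) < q 0 := by exact_mod_cast hq 0
  have h1 := le_Mx q 0
  have h2 : ((4 * q 0 : ℕ) : ℝ) ≤ M := by exact_mod_cast (by omega)
  push_cast at h2
  have h3 := h.P1b_aux (Q := 2 * q 0) (by positivity) (by linarith) ((n + 2) * M) q hq hk h0 hl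
    (fun i _ => by have := le_Mx q i; omega) (by omega) (Nat.le_add_left _ _)
  refine le_trans (le_of_eq ?_) h3
  field_simp
  norm_num


/-- lower bound for the probability of the outcome `true` when the last entry is big -/
lemma Ctx.one_true (h : Ctx θ k M ε p) {m : Bool} {q : Fin (n + 2) → ℕ} (hq : ∀ i, 0 < q i)
    {x δ : ℝ} (hx : 0 ≤ x) (hδ : δ * ((q 0 : ℝ) + q (Fin.last (n + 1))) ≤ q (Fin.last (n + 1)))
    (hMx : 2 * Mx q ≤ M) (h1 : x ≤ p (nextMode m true) (qstep m true q)) : δ * x ≤ p m q := by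
  have h0 := h.nonneg (nextMode m false) (qstep m false q) (qstep_pos _ _ hq)
    ((Mx_qstep_le _ _ q).trans hMx)
  have hc := h.comb hq h1 h0
  have a0 : (0 : ℝ) < q 0 := by exact_mod_cast hq 0
  have a1 : (0 : ℝ) < q (Fin.last (n + 1)) := by exact_mod_cast hq _
  have hpos : (0 : ℝ) < (q 0 : ℝ) + q (Fin.last (n + 1)) := by positivity
  refine le_of_mul_le_mul_left ?_ hpos
  refine le_trans ?_ hc
  have := mul_le_mul_of_nonneg_right hδ hx
  nlinarith

/-- the entries after two outcomes `true` in mode `A` -/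
lemma two_true (q : Fin (n + 2) → ℕ) {j : Fin (n + 2)} (hj0 : j ≠ 0)
    (hjl : j ≠ Fin.last (n + 1)) :
    ∃ j' : Fin (n + 2), j'.val = j.val + 1 ∧
      qstep false true (qstep true true q) j' = q j := by
  obtain ⟨i, rfl⟩ := Fin.exists_succ_eq.2 hj0
  have hi : i ≠ Fin.last n := by
    rintro rfl
    exact hjl (Fin.succ_last n)
  obtain ⟨i', rfl⟩ := Fin.exists_castSucc_eq.2 hi
  refine ⟨i'.succ.succ, by simp, ?_⟩
  have h1 : upd true q i'.castSucc.succ = q i'.castSucc.succ := upd_true_of_ne q hjl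
  have h2 : upd true (upd true q) i'.castSucc.succ = upd true q i'.castSucc.succ :=
    upd_true_of_ne _ hjl
  rw [qstep_A_true]
  change rot (upd true (upd true q)) i'.succ.succ = _
  unfold rot
  rw [Fin.cons_succ, Fin.cons_succ, h2, h1]

/-- mode `A`, first entry big -/
theorem Ctx.P1a_aux (h : Ctx θ k M ε p) {B : ℕ} (hB : 4 * (B : ℝ) ^ (k + 1) ≤ M * θ ^ k)
    (hM : 2 * θ ≤ M) (hBM : 2 * B ≤ M) {δ : ℝ} (hδ0 : 0 ≤ δ) (hδ1 : δ ≤ 1)
    (hδ : δ * (2 * M) ≤ θ) :
    ∀ (s : ℕ) (q : Fin (n + 2) → ℕ), (∀ i, 0 < q i) → k + 1 ≤ nb θ q →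
      θ ≤ (q 0 : ℝ) → (∃ j : Fin (n + 2), (q j : ℝ) < θ ∧ n + 1 ≤ j.val + s) →
      4 ^ s * (2 * Mx q) ≤ B → (δ / 2) ^ s * (ε / 2) ≤ p true q := by
  have small : ∀ (s : ℕ) (q : Fin (n + 2) → ℕ), (∀ i, 0 < q i) → k + 1 ≤ nb θ q →
      θ ≤ (q 0 : ℝ) → (q (Fin.last (n + 1)) : ℝ) < θ → 4 ^ s * (2 * Mx q) ≤ B →
      (δ / 2) ^ s * (ε / 2) ≤ p true q := by
    intro s q hq hk h0 hl hMx
    have h4 : 1 ≤ 4 ^ s := Nat.one_le_pow _ _ (by norm_num)
    have hMx' : 2 * Mx q ≤ B := (Nat.le_mul_of_pos_left _ h4).trans hMx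
    have hε := h.hε
    have e : (δ / 2) ^ s * (ε / 2) ≤ ε / 2 := by
      have : (δ / 2) ^ s ≤ 1 := pow_le_one₀ (by linarith) (by linarith)
      nlinarith
    refine e.trans (h.both hq ?_ ?_)
    · have nT := nb_qstep_true true θ q
      have hb : θ ≤ ((q (Fin.last (n + 1)) + q 0 : ℕ) : ℝ) := by push_cast; linarith
      rw [g1_small hl, g1_big hb] at nT
      have := h.succ (nextMode true true) (qstep true true q) (qstep_pos _ _ hq) (by omega)
        ((Mx_qstep_le _ _ q).trans (by omega))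
      linarith
    · refine h.P2 hB hM (by omega) (qstep_pos _ _ hq) (hk.trans (nb_mono_qstep _ _ _ _)) ?_
        ((Mx_qstep_le _ _ q).trans hMx')
      rw [qstep_A_false_zero]; exact hl
  intro s
  induction s with
  | zero =>
    rintro q hq hk h0 ⟨j, hj, hjs⟩ hMx
    have : j = Fin.last (n + 1) := by
      apply Fin.ext
      have := j.isLt
      rw [Fin.val_last]; omega
    subst this
    exact small 0 q hq hk h0 hj hMx
  | succ s ih =>
    rintro q hq hk h0 ⟨j, hj, hjs⟩ hMx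
    by_cases hl : (q (Fin.last (n + 1)) : ℝ) < θ
    · exact small (s + 1) q hq hk h0 hl hMx
    have hl' := hl
    rw [not_lt] at hl
    have h4 : 1 ≤ 4 ^ s := Nat.one_le_pow _ _ (by norm_num)
    have hMx4 : 4 * (2 * Mx q) ≤ B := by
      calc 4 * (2 * Mx q) ≤ 4 ^ s * (4 * (2 * Mx q)) := Nat.le_mul_of_pos_left _ h4
        _ = 4 ^ (s + 1) * (2 * Mx q) := by ring
        _ ≤ B := hMx
    have hj0 : j ≠ 0 := by
      rintro rfl
      linarith
    have hjl : j ≠ Fin.last (n + 1) := by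
      rintro rfl
      exact hl' hj
    obtain ⟨j', hj', hqj⟩ := two_true q hj0 hjl
    have hε := h.hε
    have a0 : (0 : ℝ) < q 0 := by exact_mod_cast hq 0
    have a1 : (0 : ℝ) < q (Fin.last (n + 1)) := by exact_mod_cast hq _
    have hMx1 := Mx_qstep_le true true q
    have hMx2 := Mx_qstep_le false true (qstep true true q)
    have hq1 : ∀ i, 0 < qstep true true q i := qstep_pos _ _ hq
    have hq2 : ∀ i, 0 < qstep false true (qstep true true q) i := qstep_pos _ _ hq1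
    have h2 : (δ / 2) ^ s * (ε / 2) ≤ p true (qstep false true (qstep true true q)) := by
      refine ih _ hq2 ?_ ?_ ⟨j', ?_, ?_⟩ ?_
      · exact (hk.trans (nb_mono_qstep _ _ _ _)).trans (nb_mono_qstep _ _ _ _)
      · rw [qstep_true_zero, qstep_true_zero]; exact h0
      · rw [hqj]; exact hj
      · omega
      · calc 4 ^ s * (2 * Mx (qstep false true (qstep true true q)))
            ≤ 4 ^ s * (2 * (4 * Mx q)) := Nat.mul_le_mul_left _ (by omega)
          _ = 4 ^ (s + 1) * (2 * Mx q) := by ring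
          _ ≤ B := hMx
    have hx2 : 0 ≤ (δ / 2) ^ s * (ε / 2) := by positivity
    have h3 : 1 / 2 * ((δ / 2) ^ s * (ε / 2)) ≤ p false (qstep true true q) := by
      refine h.one_true hq1 hx2 ?_ (by omega) h2
      rw [qstep_true_zero, qstep_A_true, upd_true_last]
      push_cast
      linarith
    have hMq : ((q 0 : ℕ) : ℝ) ≤ M := by
      have := le_Mx q 0
      exact_mod_cast (by omega)
    have h4' : δ * (1 / 2 * ((δ / 2) ^ s * (ε / 2))) ≤ p true q := by
      refine h.one_true hq (by positivity) ?_ (by omega) h3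
      have e1 : δ * (q 0 : ℝ) ≤ θ / 2 := by nlinarith
      have e3 : ((q (Fin.last (n + 1)) : ℕ) : ℝ) * 2 ≤ M := by
        have := le_Mx q (Fin.last (n + 1))
        exact_mod_cast (by omega)
      have e2 : δ * (q (Fin.last (n + 1)) : ℝ) ≤ θ / 2 := by nlinarith
      linarith
    refine le_trans (le_of_eq ?_) h4'
    rw [pow_succ]; ring


lemma exists_small {q : Fin (n + 2) → ℕ} (hk : nb θ q ≤ n + 1) :
    ∃ j : Fin (n + 2), (q j : ℝ) < θ := by
  by_contra hcon
  push Not at hcon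
  have : nb θ q = n + 2 := by
    unfold nb
    rw [Finset.sum_congr rfl (fun i _ => g1_big (hcon i))]
    simp
  omega

/-- mode `A`, first entry big -/
theorem Ctx.P1a (h : Ctx θ k M ε p) {B : ℕ} (hkn : k ≤ n)
    (hB : 4 * (B : ℝ) ^ (k + 1) ≤ M * θ ^ k)
    (hM : 2 * θ ≤ M) (hBM : 2 * B ≤ M) {δ : ℝ} (hδ0 : 0 ≤ δ) (hδ1 : δ ≤ 1)
    (hδ : δ * (2 * M) ≤ θ) {q : Fin (n + 2) → ℕ} (hq : ∀ i, 0 < q i) (hk : k + 1 ≤ nb θ q)
    (h0 : θ ≤ (q 0 : ℝ)) (hMx : 4 ^ (n + 1) * (2 * Mx q) ≤ B) :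
    (δ / 2) ^ (n + 1) * (ε / 2) ≤ p true q := by
  have h4 : 1 ≤ 4 ^ (n + 1) := Nat.one_le_pow _ _ (by norm_num)
  have hMx' : 2 * Mx q ≤ B := (Nat.le_mul_of_pos_left _ h4).trans hMx
  by_cases hk2 : k + 2 ≤ nb θ q
  · have h1 := h.succ true q hq hk2 (by omega)
    have hε := h.hε
    have e : (δ / 2) ^ (n + 1) * (ε / 2) ≤ ε / 2 := by
      have : (δ / 2) ^ (n + 1) ≤ 1 := pow_le_one₀ (by linarith) (by linarith)
      nlinarith
    linarith
  · obtain ⟨j, hj⟩ := exists_small (θ := θ) (q := q) (by omega)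
    exact h.P1a_aux hB hM hBM hδ0 hδ1 hδ (n + 1) q hq hk h0 ⟨j, hj, by omega⟩ hMx

/-- all cases -/
theorem Ctx.all (h : Ctx θ k M ε p) {B : ℕ} (hkn : k ≤ n)
    (hB : 4 * (B : ℝ) ^ (k + 1) ≤ M * θ ^ k)
    (hM : 2 * θ ≤ M) (hBM : 2 * B ≤ M) {δ : ℝ} (hδ0 : 0 ≤ δ) (hδ1 : δ ≤ 1)
    (hδ : δ * (2 * M) ≤ θ) {m : Bool} {q : Fin (n + 2) → ℕ} (hq : ∀ i, 0 < q i)
    (hk : k + 1 ≤ nb θ q) (hMx : 4 ^ (n + 1) * (4 * Mx q) ≤ B) :
    δ * ((δ / 2) ^ (n + 1) * (ε / 2)) ≤ p m q := by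
  have h4 : 1 ≤ 4 ^ (n + 1) := Nat.one_le_pow _ _ (by norm_num)
  have hMx' : 4 * Mx q ≤ B := (Nat.le_mul_of_pos_left _ h4).trans hMx
  have hε := h.hε
  have e1 : (δ / 2) ^ (n + 1) * (ε / 2) ≤ ε / 2 := by
    have : (δ / 2) ^ (n + 1) ≤ 1 := pow_le_one₀ (by linarith) (by linarith)
    nlinarith
  have e0 : 0 ≤ (δ / 2) ^ (n + 1) * (ε / 2) := by positivity
  have e2 : δ * ((δ / 2) ^ (n + 1) * (ε / 2)) ≤ (δ / 2) ^ (n + 1) * (ε / 2) := by nlinarith
  by_cases h0 : (q 0 : ℝ) < θ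
  · have := h.P2 (m := m) hB hM (by omega) hq hk h0 (by omega)
    linarith
  rw [not_lt] at h0
  rcases m with _ | _
  · by_cases hl : (q (Fin.last (n + 1)) : ℝ) < θ
    · have := h.P1b hq hk h0 hl (by omega)
      linarith
    · rw [not_lt] at hl
      have hMx1 := Mx_qstep_le false true q
      have h1 : (δ / 2) ^ (n + 1) * (ε / 2) ≤ p true (qstep false true q) := by
        refine h.P1a hkn hB hM hBM hδ0 hδ1 hδ (qstep_pos _ _ hq) (hk.trans (nb_mono_qstep _ _ _ _))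
          ?_ ?_
        · rw [qstep_true_zero]; exact h0
        · refine le_trans (Nat.mul_le_mul_left _ ?_) hMx
          omega
      refine h.one_true hq e0 ?_ (by omega) h1
      have a0 : (0 : ℝ) < q 0 := by exact_mod_cast hq 0
      have hMq : ((q 0 : ℕ) : ℝ) ≤ M := by
        have := le_Mx q 0
        exact_mod_cast (by omega)
      have e1 : δ * (q 0 : ℝ) ≤ θ / 2 := by nlinarith
      have e3 : ((q (Fin.last (n + 1)) : ℕ) : ℝ) ≤ M := by
        have := le_Mx q (Fin.last (n + 1))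
        exact_mod_cast (by omega)
      have e2 : δ * (q (Fin.last (n + 1)) : ℝ) ≤ θ / 2 := by nlinarith
      linarith
  · have := h.P1a hkn hB hM hBM hδ0 hδ1 hδ hq hk h0 (le_trans (Nat.mul_le_mul_left _ (by omega)) hMx)
    linarith

/-! ### The induction on the number of balanced entries -/

/-- the conclusion for states with `k` balanced entries -/
def Psi (n k : ℕ) : Prop := ∀ c : ℝ, 0 < c → c ≤ 1 → ∃ (c' η : ℝ) (L : ℕ), 0 < c' ∧ 0 < η ∧ 1 ≤ L ∧
    ∀ (Lg : ℕ), 1 ≤ Lg → ∀ (T1 : ℕ) (ε : ℝ), 0 ≤ ε →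
    ∀ p : Bool → (Fin (n + 2) → ℕ) → ℝ,
      (∀ m q, (∀ i, 0 < q i) → Mx q ≤ T1 → 0 ≤ p m q) →
      (∀ m q, (∀ i, 0 < q i) →
        (q (Fin.last (n + 1)) : ℝ) / (q 0 + q (Fin.last (n + 1))) *
            p (nextMode m true) (qstep m true q) +
          (q 0 : ℝ) / (q 0 + q (Fin.last (n + 1))) *
            p (nextMode m false) (qstep m false q) ≤ p m q) →
      (∀ q, (∀ i, 0 < q i) → (∀ i, c' * (Mx q : ℝ) ≤ q i) → Lg * Mx q ≤ T1 → ε ≤ p true q) →
      ∀ m q, (∀ i, 0 < q i) → k ≤ nb (c * Mx q) q → L * Lg * Mx q ≤ T1 → η * ε ≤ p m q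

lemma Mx_pos {q : Fin (n + 2) → ℕ} (hq : ∀ i, 0 < q i) : 0 < Mx q := (hq 0).trans_le (le_Mx q 0)

lemma all_big {q : Fin (n + 2) → ℕ} (hk : n + 2 ≤ nb θ q) (i : Fin (n + 2)) :
    θ ≤ (q i : ℝ) := by
  by_contra hcon
  rw [not_le] at hcon
  have h1 : nb θ q = g1 θ (q i) + ∑ j ∈ {i}ᶜ, g1 θ (q j) := Fintype.sum_eq_add_sum_compl i _
  have h2 : ∑ j ∈ {i}ᶜ, g1 θ (q j) ≤ ∑ j ∈ ({i}ᶜ : Finset (Fin (n + 2))), 1 := by
    refine Finset.sum_le_sum fun j _ => ?_
    unfold g1; split_ifs <;> simp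
  rw [g1_small hcon] at h1
  have h3 : ∑ j ∈ ({i}ᶜ : Finset (Fin (n + 2))), 1 = n + 1 := by
    rw [Finset.sum_const, Finset.card_compl, Finset.card_singleton, Fintype.card_fin]
    simp
  omega

theorem Psi_top (n : ℕ) : Psi n (n + 2) := by
  intro c hc hc1
  refine ⟨c / 2, c / 2, 2, by positivity, by positivity, by norm_num, ?_⟩
  intro Lg hLg T1 ε hε p hnn hsup hbal m q hq hk hT
  have hall := all_big hk
  have hMp : (0 : ℝ) < Mx q := by exact_mod_cast Mx_pos hq
  have hLM : 2 * Mx q ≤ T1 := by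
    refine le_trans ?_ hT
    rw [mul_assoc]
    exact Nat.mul_le_mul_left _ (Nat.le_mul_of_pos_left _ hLg)
  rcases m with _ | _
  · -- mode B
    have h1 : ε ≤ p true (qstep false true q) := by
      refine hbal _ (qstep_pos _ _ hq) (fun i => ?_) ?_
      · obtain ⟨j, hj⟩ := arr_mem false true (upd true q) i
        rw [qstep_eq, hj]
        have e1 : ((Mx (arr false true (upd true q)) : ℕ) : ℝ) ≤ 2 * Mx q := by
          have := Mx_qstep_le false true q
          rw [qstep_eq] at this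
          exact_mod_cast this
        have e2 : ((q j : ℕ) : ℝ) ≤ (upd true q j : ℕ) := by exact_mod_cast le_upd true q j
        have e3 := hall j
        nlinarith
      · have := Mx_qstep_le false true q
        calc Lg * Mx (qstep false true q) ≤ Lg * (2 * Mx q) := Nat.mul_le_mul_left _ this
          _ = 2 * Lg * Mx q := by ring
          _ ≤ T1 := hT
    have h0 := hnn (nextMode false false) (qstep false false q) (qstep_pos _ _ hq)
      ((Mx_qstep_le _ _ q).trans hLM)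
    have hs := hsup false q hq
    have a0 : (0 : ℝ) < q 0 := by exact_mod_cast hq 0
    have a1 : (0 : ℝ) < q (Fin.last (n + 1)) := by exact_mod_cast hq _
    have hpos : (0 : ℝ) < (q 0 : ℝ) + q (Fin.last (n + 1)) := by positivity
    have e0 : ((q 0 : ℕ) : ℝ) ≤ Mx q := by exact_mod_cast le_Mx q 0
    have e1 : ((q (Fin.last (n + 1)) : ℕ) : ℝ) ≤ Mx q := by exact_mod_cast le_Mx q _
    have e2 := hall (Fin.last (n + 1))
    have h3 : c / 2 ≤ (q (Fin.last (n + 1)) : ℝ) / (q 0 + q (Fin.last (n + 1))) := by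
      rw [le_div_iff₀ hpos]
      nlinarith
    have h4 : 0 ≤ (q 0 : ℝ) / (q 0 + q (Fin.last (n + 1))) *
        p (nextMode false false) (qstep false false q) := mul_nonneg (by positivity) h0
    have h5 : c / 2 * ε ≤ (q (Fin.last (n + 1)) : ℝ) / (q 0 + q (Fin.last (n + 1))) *
            p (nextMode false true) (qstep false true q) :=
      mul_le_mul h3 h1 hε (by positivity)
    linarith
  · have h1 := hbal q hq (fun i => le_trans (by nlinarith) (hall i)) (by
      refine le_trans ?_ hT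
      calc Lg * Mx q ≤ 2 * (Lg * Mx q) := by omega
        _ = 2 * Lg * Mx q := by ring)
    nlinarith

theorem Psi_step {n k : ℕ} (hkn : k ≤ n) (hP : Psi n (k + 2)) : Psi n (k + 1) := by
  intro c hc hc1
  -- the growth constant
  obtain ⟨K, hK⟩ : ∃ K : ℕ, 4 * (4 ^ (n + 1) * 4 : ℝ) ^ (k + 1) / c ^ k + 2 * (4 ^ (n + 1) * 4) ≤ K :=
    exists_nat_ge _
  have hck : 0 < c ^ k := pow_pos hc k
  have hK1 : 4 * (4 ^ (n + 1) * 4 : ℝ) ^ (k + 1) ≤ K * c ^ k := by
    rw [← div_le_iff₀ hck]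
    have : (0 : ℝ) ≤ 2 * (4 ^ (n + 1) * 4) := by positivity
    linarith
  have hK2 : (2 * (4 ^ (n + 1) * 4) : ℝ) ≤ K := by
    have : (0 : ℝ) ≤ 4 * (4 ^ (n + 1) * 4 : ℝ) ^ (k + 1) / c ^ k := by positivity
    linarith
  have hK3 : 2 * (4 ^ (n + 1) * 4) ≤ K := by exact_mod_cast hK2
  have hKpos : (0 : ℝ) < K := lt_of_lt_of_le (by positivity) hK2
  have hK8 : (8 : ℝ) ≤ K := by
    have : (1 : ℝ) ≤ 4 ^ (n + 1) := one_le_pow₀ (by norm_num)
    linarith
  have hcK1 : c / K ≤ 1 := by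
    rw [div_le_one hKpos]; linarith
  obtain ⟨c', η, L, hc', hη, hL, hmain⟩ := hP (c / K) (by positivity) hcK1
  set δ : ℝ := c / (2 * K) with hδdef
  have hδ0 : 0 < δ := by positivity
  refine ⟨c', η * (δ * ((δ / 2) ^ (n + 1) / 2)), K * L, hc', by positivity, ?_, ?_⟩
  · have : 0 < K := by exact_mod_cast hKpos
    exact Nat.mul_pos this hL
  intro Lg hLg T1 ε hε p hnn hsup hbal m q hq hk hT
  have hMp : 0 < Mx q := Mx_pos hq
  have hMpR : (0 : ℝ) < Mx q := by exact_mod_cast hMp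
  have hTM : L * Lg * (K * Mx q) ≤ T1 := by
    refine le_trans (le_of_eq ?_) hT; ring
  have hctx : Ctx (n := n) (c * Mx q) k (K * Mx q) (η * ε) p := by
    refine ⟨by positivity, by positivity, fun m' q' hq' hM' => ?_, hsup, fun m' q' hq' hk' hM' => ?_⟩
    · refine hnn m' q' hq' (hM'.trans (le_trans ?_ hTM))
      exact Nat.le_mul_of_pos_left _ (Nat.mul_pos hL hLg)
    · refine hmain Lg hLg T1 ε hε p hnn hsup hbal m' q' hq' (hk'.trans ?_) ?_
      · refine Finset.sum_le_sum fun i _ => ?_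
        by_cases hi : c * (Mx q : ℝ) ≤ (q' i : ℝ)
        · rw [g1_big hi, g1_big]
          refine le_trans ?_ hi
          have e1 : ((Mx q' : ℕ) : ℝ) ≤ K * Mx q := by exact_mod_cast hM'
          calc c / K * (Mx q' : ℝ) ≤ c / K * (K * Mx q) :=
                mul_le_mul_of_nonneg_left e1 (by positivity)
            _ = c * Mx q := by field_simp
        · rw [g1_small (not_le.1 hi)]; exact Nat.zero_le _
      · exact (Nat.mul_le_mul_left _ hM').trans hTM
  have h := hctx.all (B := 4 ^ (n + 1) * 4 * Mx q) hkn ?_ ?_ ?_ hδ0.le ?_ ?_ (m := m) hq hk ?_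
  · refine le_trans (le_of_eq ?_) h; ring
  · push_cast
    calc 4 * (4 ^ (n + 1) * 4 * (Mx q : ℝ)) ^ (k + 1)
        = (4 * (4 ^ (n + 1) * 4 : ℝ) ^ (k + 1)) * (Mx q : ℝ) ^ (k + 1) := by
          rw [mul_pow (4 ^ (n + 1) * 4 : ℝ) (Mx q : ℝ)]; ring
      _ ≤ (K * c ^ k) * (Mx q : ℝ) ^ (k + 1) :=
          mul_le_mul_of_nonneg_right hK1 (by positivity)
      _ = K * Mx q * (c * Mx q) ^ k := by rw [mul_pow c (Mx q : ℝ), pow_succ]; ring
  · push_cast
    nlinarith
  · calc 2 * (4 ^ (n + 1) * 4 * Mx q) = 2 * (4 ^ (n + 1) * 4) * Mx q := by ring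
      _ ≤ K * Mx q := Nat.mul_le_mul_right _ hK3
  · rw [hδdef, div_le_one (by positivity)]; linarith
  · rw [hδdef]; push_cast
    apply le_of_eq; field_simp
  · exact le_of_eq (by ring)

theorem Psi_all (n : ℕ) : ∀ k, k ≤ n + 1 → Psi n (n + 2 - k) := by
  intro k
  induction k with
  | zero => intro _; exact Psi_top n
  | succ k ih =>
    intro hk
    have h1 := ih (by omega)
    obtain ⟨j, hj⟩ : ∃ j, n + 2 - k = j + 2 := ⟨n - k, by omega⟩
    have h2 : n + 2 - (k + 1) = j + 1 := by omega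
    rw [hj] at h1
    rw [h2]
    exact Psi_step (by omega) h1

end Ker

open Ker in
/-- Kerckhoff's lemma -/
theorem ker (n : ℕ) : ∃ (c η : ℝ) (L0 : ℕ), 0 < c ∧ 0 < η ∧ 1 ≤ L0 ∧
    ∀ (Lg : ℕ), 1 ≤ Lg → ∀ (T1 : ℕ) (ε : ℝ), 0 ≤ ε →
    ∀ p : Bool → (Fin (n + 2) → ℕ) → ℝ,
      (∀ m q, (∀ i, 0 < q i) → Mx q ≤ T1 → 0 ≤ p m q) →
      (∀ m q, (∀ i, 0 < q i) →
        (q (Fin.last (n + 1)) : ℝ) / (q 0 + q (Fin.last (n + 1))) *
            p (nextMode m true) (qstep m true q) +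
          (q 0 : ℝ) / (q 0 + q (Fin.last (n + 1))) *
            p (nextMode m false) (qstep m false q) ≤ p m q) →
      (∀ q, (∀ i, 0 < q i) → (∀ i, c * (Mx q : ℝ) ≤ q i) → Lg * Mx q ≤ T1 → ε ≤ p true q) →
      ∀ m q, (∀ i, 0 < q i) → L0 * Lg * Mx q ≤ T1 → η * ε ≤ p m q := by
  have h := Psi_all n (n + 1) le_rfl
  have h1 : n + 2 - (n + 1) = 1 := by omega
  rw [h1] at h
  obtain ⟨c, η, L, hc, hη, hL, hm⟩ := h 1 one_pos le_rfl
  refine ⟨c, η, L, hc, hη, hL, ?_⟩
  intro Lg hLg T1 ε hε p hnn hsup hbal m q hq hT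
  refine hm Lg hLg T1 ε hε p hnn hsup hbal m q hq ?_ hT
  obtain ⟨i, -, hi⟩ := Finset.exists_mem_eq_sup Finset.univ Finset.univ_nonempty q
  have hMi : Mx q = q i := hi
  have h2 : g1 (1 * (Mx q : ℝ)) (q i) = 1 := by
    apply g1_big
    rw [one_mul, hMi]
  have h3 : g1 (1 * (Mx q : ℝ)) (q i) ≤ nb (1 * (Mx q : ℝ)) q :=
    Finset.single_le_sum (f := fun j => g1 (1 * (Mx q : ℝ)) (q j))
      (fun j _ => Nat.zero_le _) (Finset.mem_univ i)
  omega

end Pool.Agent.Helper22.Rev
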