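import Mathlib
import Pool.Agent.Helper22.Rev.TowB

/-!
# Constructing finer towers
-/

set_option autoImplicit false

open Set

namespace Pool.Agent.Helper22.Rev

namespace Tow

variable {d : ℕ} {T0 : ℝ → ℝ} {U0 : Set ℝ} {a : ℝ}

/-! ### points with a given itinerary -/

theorem follows_mem (P : Tow d T0 U0 a) {l h : ℝ} {w : List (Fin d)} (hw : P.Follows l h w)
    {j : ℕ} (hj : j < w.length) {x : ℝ} (hx : x ∈ Ioo l h) :
    x - P.disp w j ∈ Ioo (P.lo w[j]) (P.hi w[j]) := by
  have h := P.follows_get hw hj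
  exact ⟨by linarith [h.1, hx.1], by linarith [h.2, hx.2]⟩

theorem follows_iterate (P : Tow d T0 U0 a) {l h : ℝ} {w : List (Fin d)} (hw : P.Follows l h w)
    {x : ℝ} (hx : x ∈ Ioo l h) :
    ∀ j ≤ w.length, T0^[P.ht w j] x = x - P.disp w j := by
  intro j
  induction j with
  | zero => intro _; simp
  | succ j ih =>
    intro hj
    have hj' : j < w.length := by omega
    rw [P.ht_succ _ hj', Nat.add_comm, Function.iterate_add_apply, ih hj'.le,
      P.iterate_ret _ (P.follows_mem hw hj' hx), P.disp_succ _ hj']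
    ring

theorem follows_iterate' (P : Tow d T0 U0 a) {l h : ℝ} {w : List (Fin d)} (hw : P.Follows l h w)
    {x : ℝ} (hx : x ∈ Ioo l h) {j : ℕ} (hj : j < w.length) {i : ℕ} (hi : i ≤ P.r w[j]) :
    T0^[P.ht w j + i] x = x - P.disp w j + P.sh w[j] i := by
  rw [Nat.add_comm, Function.iterate_add_apply, P.follows_iterate hw hx j hj.le,
    P.iterate _ (P.follows_mem hw hj hx) i hi]

theorem exists_split_list (P : Tow d T0 U0 a) (w : List (Fin d)) {i : ℕ}
    (hi : i < P.ht w w.length) :
    ∃ j, ∃ hj : j < w.length, ∃ i' < P.r w[j], i = P.ht w j + i' := by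
  have key : ∀ k ≤ w.length, ∀ i < P.ht w k,
      ∃ j, ∃ hj : j < w.length, ∃ i' < P.r w[j], i = P.ht w j + i' := by
    intro k
    induction k with
    | zero => intro _ i hi; simp at hi
    | succ k ih =>
      intro hk i hi
      have hk' : k < w.length := by omega
      rw [P.ht_succ _ hk'] at hi
      rcases Nat.lt_or_ge i (P.ht w k) with h | h
      · exact ih hk'.le i h
      · exact ⟨k, hk', i - P.ht w k, by omega, by omega⟩
  exact key _ le_rfl i hi

/-- Data for a finer tower. -/
structure Data (P : Tow d T0 U0 a) where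
  lo' : Fin d → ℝ
  hi' : Fin d → ℝ
  eps' : ℝ
  w : Fin d → List (Fin d)
  lt' : ∀ β, lo' β < hi' β
  lo_ge' : ∀ β, -eps' ≤ lo' β
  hi_le' : ∀ β, hi' β ≤ eps'
  eps_le' : eps' ≤ a
  total' : ∑ β, (hi' β - lo' β) = 2 * eps'
  base' : ∀ β γ, β ≠ γ → Disjoint (Ioo (lo' β) (hi' β)) (Ioo (lo' γ) (hi' γ))
  fol : ∀ β, P.Follows (lo' β) (hi' β) (w β)
  ne : ∀ β, w β ≠ []
  dsum : ∀ β, ((w β).map P.s).sum = lo' β + hi' β
  out : ∀ β j, 1 ≤ j → j < (w β).length →
    eps' ≤ lo' β - P.disp (w β) j ∨ hi' β - P.disp (w β) j ≤ -eps'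
  len : ∀ α, P.hi α - P.lo α = ∑ β, ((w β).count α : ℝ) * (hi' β - lo' β)

namespace Data

variable {P : Tow d T0 U0 a}

theorem ret_mem (P : Tow d T0 U0 a) {α α' : Fin d} {z : ℝ}
    (h : z + P.s α ∈ Ioo (P.lo α) (P.hi α)) (h' : z + P.s α' ∈ Ioo (P.lo α') (P.hi α')) :
    α = α' := by
  by_contra hne
  have hd := P.base_disj hne
  rw [Set.disjoint_left] at hd
  have h1 : -z ∈ Ioo (P.lo α) (P.hi α) := by
    simp only [s, mem_Ioo] at h ⊢
    constructor <;> linarith [h.1, h.2]
  have h2 : -z ∈ Ioo (P.lo α') (P.hi α') := by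
    simp only [s, mem_Ioo] at h' ⊢
    constructor <;> linarith [h'.1, h'.2]
  exact hd h1 h2

theorem piece_inj (D : P.Data) : ∀ (j j' : ℕ) (β β' : Fin d) (hj : j < (D.w β).length)
    (hj' : j' < (D.w β').length) (x x' : ℝ), x ∈ Ioo (D.lo' β) (D.hi' β) →
    x' ∈ Ioo (D.lo' β') (D.hi' β') → x - P.disp (D.w β) j = x' - P.disp (D.w β') j' →
    β = β' ∧ j = j' := by
  -- a base interval and a proper piece are disjoint
  have h0 : ∀ (j' : ℕ) (β β' : Fin d) (_ : j' < (D.w β').length) (x x' : ℝ),
      x ∈ Ioo (D.lo' β) (D.hi' β) → x' ∈ Ioo (D.lo' β') (D.hi' β') →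
      x = x' - P.disp (D.w β') j' → β = β' ∧ 0 = j' := by
    intro j' β β' hj' x x' hx hx' he
    rcases Nat.eq_zero_or_pos j' with h | h
    · subst h
      refine ⟨?_, rfl⟩
      by_contra hne
      have hd := D.base' β β' hne
      rw [Set.disjoint_left] at hd
      rw [P.disp_zero, sub_zero] at he
      subst he
      exact hd hx hx'
    · exfalso
      have h1 := D.lo_ge' β
      have h2 := D.hi_le' β
      rcases D.out β' j' h hj' with h3 | h3
      · linarith [hx.1, hx.2, hx'.1, hx'.2]
      · linarith [hx.1, hx.2, hx'.1, hx'.2]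
  intro j
  induction j with
  | zero =>
    intro j' β β' hj hj' x x' hx hx' he
    rw [P.disp_zero, sub_zero] at he
    exact h0 j' β β' hj' x x' hx hx' he
  | succ j ih =>
    intro j' β β' hj hj' x x' hx hx' he
    cases j' with
    | zero =>
      rw [P.disp_zero, sub_zero] at he
      have := h0 (j + 1) β' β hj x' x hx' hx he.symm
      exact ⟨this.1.symm, this.2.symm⟩
    | succ j' =>
      have hj1 : j < (D.w β).length := by omega
      have hj1' : j' < (D.w β').length := by omega
      have m1 := P.follows_mem (D.fol β) hj1 hx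
      have m2 := P.follows_mem (D.fol β') hj1' hx'
      rw [P.disp_succ _ hj1, P.disp_succ _ hj1'] at he
      set z := x - (P.disp (D.w β) j + P.s (D.w β)[j]) with hz
      have e1 : x - P.disp (D.w β) j = z + P.s (D.w β)[j] := by rw [hz]; ring
      have e2 : x' - P.disp (D.w β') j' = z + P.s (D.w β')[j'] := by rw [he]; ring
      rw [e1] at m1
      rw [e2] at m2
      have hα := ret_mem P m1 m2
      have := ih j' β β' hj1 hj1' x x' hx hx' (by rw [e1, e2, hα])
      exact ⟨this.1, by rw [this.2]⟩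

/-- the shift of the new tower -/
noncomputable def nsh (D : P.Data) (β : Fin d) (i : ℕ) : ℝ :=
  T0^[i] ((D.lo' β + D.hi' β) / 2) - (D.lo' β + D.hi' β) / 2

theorem mid_mem (D : P.Data) (β : Fin d) :
    (D.lo' β + D.hi' β) / 2 ∈ Ioo (D.lo' β) (D.hi' β) := by
  have := D.lt' β
  constructor <;> linarith

theorem nsh_eq (D : P.Data) (β : Fin d) {j : ℕ} (hj : j < (D.w β).length) {i : ℕ}
    (hi : i ≤ P.r (D.w β)[j]) :
    D.nsh β (P.ht (D.w β) j + i) = P.sh (D.w β)[j] i - P.disp (D.w β) j := by
  rw [nsh, P.follows_iterate' (D.fol β) (D.mid_mem β) hj hi]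
  ring

theorem ht_length (P : Tow d T0 U0 a) (w : List (Fin d)) :
    P.ht w w.length = (w.map P.r).sum := by
  rw [Tow.ht, List.take_length]

theorem sum_map_r (P : Tow d T0 U0 a) (w : List (Fin d)) :
    (((w.map P.r).sum : ℕ) : ℝ) = ∑ α, (P.r α : ℝ) * (w.count α : ℝ) := by
  classical
  induction w with
  | nil => simp
  | cons α w ih =>
    rw [List.map_cons, List.sum_cons, Nat.cast_add, ih]
    have : ∀ γ, (P.r γ : ℝ) * ((α :: w).count γ : ℝ) = (if γ = α then (P.r γ : ℝ) else 0) +
        (P.r γ : ℝ) * (w.count γ : ℝ) := by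
      intro γ
      rw [List.count_cons]
      by_cases h : γ = α
      · subst h
        simp
        ring
      · have h' : ¬ α = γ := fun e => h e.symm
        simp [h, h']
    rw [Finset.sum_congr rfl fun γ _ => this γ, Finset.sum_add_distrib]
    simp

/-- the finer tower -/
noncomputable def tow (D : P.Data) : Tow d T0 U0 a where
  lo := D.lo'
  hi := D.hi'
  r := fun β => ((D.w β).map P.r).sum
  sh := D.nsh
  eps := D.eps'
  lt := D.lt'
  lo_ge := D.lo_ge'
  hi_le := D.hi_le'
  eps_le := D.eps_le'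
  total := D.total'
  full := by
    have h1 : ∀ β, ((((D.w β).map P.r).sum : ℕ) : ℝ) * (D.hi' β - D.lo' β) =
        ∑ α, (P.r α : ℝ) * (((D.w β).count α : ℝ) * (D.hi' β - D.lo' β)) := by
      intro β
      rw [sum_map_r, Finset.sum_mul]
      exact Finset.sum_congr rfl fun α _ => by ring
    rw [Finset.sum_congr rfl fun β _ => h1 β, Finset.sum_comm, ← P.full]
    refine Finset.sum_congr rfl fun α _ => ?_
    rw [← Finset.mul_sum, D.len α]
  r_pos := by
    intro β
    have h := D.ne β
    rw [← ht_length]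
    have h1 : 0 < (D.w β).length := List.length_pos_iff.2 h
    have := P.ht_lt (D.w β) h1 le_rfl
    omega
  sh_zero := by intro β; simp [nsh]
  sh_ret := by
    intro β
    have h1 := P.follows_iterate (D.fol β) (D.mid_mem β) _ le_rfl
    rw [ht_length] at h1
    rw [nsh, h1, Tow.disp, List.take_length, D.dsum]
    ring
  reg := by
    intro β i hi x hx
    rw [← ht_length] at hi
    obtain ⟨j, hj, i', hi', rfl⟩ := P.exists_split_list (D.w β) hi
    rw [D.nsh_eq β hj hi'.le]
    have := P.reg _ i' hi' _ (P.follows_mem (D.fol β) hj hx)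
    convert this using 1
    ring
  step := by
    intro β i hi x hx
    rw [← ht_length] at hi
    obtain ⟨j, hj, i', hi', rfl⟩ := P.exists_split_list (D.w β) hi
    rw [D.nsh_eq β hj hi'.le, Nat.add_assoc, D.nsh_eq β hj (i := i' + 1) hi']
    have := P.step _ i' hi' _ (P.follows_mem (D.fol β) hj hx)
    have e1 : x + (P.sh (D.w β)[j] i' - P.disp (D.w β) j) =
      x - P.disp (D.w β) j + P.sh (D.w β)[j] i' := by ring
    rw [e1, this]
    ring
  disj := by
    intro β β' i i2 hi hi2 hne
    rw [← ht_length] at hi hi2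
    obtain ⟨j, hj, i', hi', rfl⟩ := P.exists_split_list (D.w β) hi
    obtain ⟨j2, hj2, i2', hi2', rfl⟩ := P.exists_split_list (D.w β') hi2
    rw [D.nsh_eq β hj hi'.le, D.nsh_eq β' hj2 hi2'.le, Set.disjoint_left]
    intro z hz hz'
    set x := z - (P.sh (D.w β)[j] i' - P.disp (D.w β) j) with hx
    set x' := z - (P.sh (D.w β')[j2] i2' - P.disp (D.w β') j2) with hx'
    have mx : x ∈ Ioo (D.lo' β) (D.hi' β) := by
      rw [hx]
      constructor <;> linarith [hz.1, hz.2]
    have mx' : x' ∈ Ioo (D.lo' β') (D.hi' β') := by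
      rw [hx']
      constructor <;> linarith [hz'.1, hz'.2]
    have m1 := P.follows_mem (D.fol β) hj mx
    have m2 := P.follows_mem (D.fol β') hj2 mx'
    have hcase : ((D.w β)[j], i') = ((D.w β')[j2], i2') := by
      by_contra hne'
      have hd := P.disj _ _ i' i2' hi' hi2' hne'
      rw [Set.disjoint_left] at hd
      refine hd (a := z) ?_ ?_
      · have : z = x - P.disp (D.w β) j + P.sh (D.w β)[j] i' := by rw [hx]; ring
        rw [this]
        constructor <;> linarith [m1.1, m1.2]
      · have : z = x' - P.disp (D.w β') j2 + P.sh (D.w β')[j2] i2' := by rw [hx']; ring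
        rw [this]
        constructor <;> linarith [m2.1, m2.2]
    have c1 : (D.w β)[j] = (D.w β')[j2] := congrArg Prod.fst hcase
    have c2 : i' = i2' := congrArg Prod.snd hcase
    subst c2
    have := D.piece_inj j j2 β β' hj hj2 x x' mx mx' (by
      rw [hx, hx', c1]; ring)
    obtain ⟨e1, e2⟩ := this
    subst e1
    subst e2
    exact hne rfl

/-- the refinement -/
noncomputable def refine (D : P.Data) : Refine P D.tow where
  it := D.w
  follows := D.fol
  rsum := fun _ => rfl

end Data

/-! ### symmetries -/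

/-- reindexing a tower -/
def perm (P : Tow d T0 U0 a) (e : Equiv.Perm (Fin d)) : Tow d T0 U0 a where
  lo := fun α => P.lo (e α)
  hi := fun α => P.hi (e α)
  r := fun α => P.r (e α)
  sh := fun α => P.sh (e α)
  eps := P.eps
  lt := fun α => P.lt _
  lo_ge := fun α => P.lo_ge _
  hi_le := fun α => P.hi_le _
  eps_le := P.eps_le
  total := by rw [← P.total]; exact Equiv.sum_comp e fun α => P.hi α - P.lo α
  full := by rw [← P.full]; exact Equiv.sum_comp e fun α => (P.r α : ℝ) * (P.hi α - P.lo α)
  r_pos := fun α => P.r_pos _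
  sh_zero := fun α => P.sh_zero _
  sh_ret := fun α => P.sh_ret _
  reg := fun α => P.reg _
  step := fun α => P.step _
  disj := fun α β i j hi hj hne => P.disj _ _ i j hi hj (fun h => hne (by
    have h1 := congrArg Prod.fst h
    have h2 := congrArg Prod.snd h
    simp only at h1 h2
    rw [e.injective h1, h2]))

/-- a tower refines itself -/
def refl (P : Tow d T0 U0 a) : Refine P P where
  it := fun β => [β]
  follows := fun β => ⟨le_rfl, le_rfl, trivial⟩
  rsum := fun β => by simp

def permRefine (P : Tow d T0 U0 a) (e : Equiv.Perm (Fin d)) : Refine P (P.perm e) where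
  it := fun β => [e β]
  follows := fun β => ⟨le_rfl, le_rfl, trivial⟩
  rsum := fun β => by simp [perm]

/-- the mirror image of a tower -/
def flip {T1 : ℝ → ℝ} {U1 : Set ℝ} (hT : ∀ x, T1 x = -T0 (-x)) (hU : ∀ x, x ∈ U1 ↔ -x ∈ U0)
    (P : Tow d T0 U0 a) : Tow d T1 U1 a where
  lo := fun α => -P.hi α
  hi := fun α => -P.lo α
  r := P.r
  sh := fun α i => -P.sh α i
  eps := P.eps
  lt := fun α => neg_lt_neg (P.lt α)
  lo_ge := fun α => neg_le_neg (P.hi_le α)
  hi_le := fun α => by linarith [P.lo_ge α]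
  eps_le := P.eps_le
  total := by
    rw [← P.total]
    exact Finset.sum_congr rfl fun α _ => by ring
  full := by
    rw [← P.full]
    exact Finset.sum_congr rfl fun α _ => by ring
  r_pos := P.r_pos
  sh_zero := fun α => by rw [P.sh_zero, neg_zero]
  sh_ret := fun α => by rw [P.sh_ret]; ring
  reg := fun α i hi x hx => by
    rw [hU]
    have := P.reg α i hi (-x) ⟨by linarith [hx.2], by linarith [hx.1]⟩
    convert this using 1
    ring
  step := fun α i hi x hx => by
    have := P.step α i hi (-x) ⟨by linarith [hx.2], by linarith [hx.1]⟩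
    rw [hT]
    have e1 : -(x + -P.sh α i) = -x + P.sh α i := by ring
    rw [e1, this]
    ring
  disj := fun α β i j hi hj hne => by
    have := P.disj α β i j hi hj hne
    rw [Set.disjoint_left] at this ⊢
    intro z hz hz'
    refine this (a := -z) ?_ ?_
    · constructor <;> linarith [hz.1, hz.2]
    · constructor <;> linarith [hz'.1, hz'.2]

theorem flip_follows {T1 : ℝ → ℝ} {U1 : Set ℝ} (hT : ∀ x, T1 x = -T0 (-x))
    (hU : ∀ x, x ∈ U1 ↔ -x ∈ U0) (P : Tow d T0 U0 a) (w : List (Fin d)) :
    ∀ l h : ℝ, (P.flip hT hU).Follows l h w ↔ P.Follows (-h) (-l) w := by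
  induction w with
  | nil => intro l h; exact Iff.rfl
  | cons α w ih =>
    intro l h
    rw [Follows, Follows, ih]
    have e1 : (P.flip hT hU).s α = -P.s α := by
      simp only [s, flip]
      ring
    have e2 : -(h - (P.flip hT hU).s α) = -h - P.s α := by rw [e1]; ring
    have e3 : -(l - (P.flip hT hU).s α) = -l - P.s α := by rw [e1]; ring
    rw [e2, e3]
    constructor
    · rintro ⟨h1, h2, h3⟩
      simp only [flip] at h1 h2
      exact ⟨by linarith, by linarith, h3⟩
    · rintro ⟨h1, h2, h3⟩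
      refine ⟨?_, ?_, h3⟩
      · simp only [flip]; linarith
      · simp only [flip]; linarith

/-- a refinement of the mirror image gives a refinement -/
def unflipRefine {T1 : ℝ → ℝ} {U1 : Set ℝ} (hT : ∀ x, T1 x = -T0 (-x))
    (hU : ∀ x, x ∈ U1 ↔ -x ∈ U0) (hT' : ∀ x, T0 x = -T1 (-x)) (hU' : ∀ x, x ∈ U0 ↔ -x ∈ U1)
    {P : Tow d T0 U0 a} {Q : Tow d T1 U1 a} (R : Refine (P.flip hT hU) Q) :
    Refine P (Q.flip hT' hU') where
  it := R.it
  follows := fun β => by
    have := R.follows β
    rw [flip_follows] at this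
    exact this
  rsum := R.rsum

end Tow

end Pool.Agent.Helper22.Rev
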