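import Mathlib
import Pool.Agent.Helper22.Rev.TowStep

/-!
# One composite step of the symmetric induction
-/

set_option autoImplicit false

open Set

namespace Pool.Agent.Helper22.Rev

/-! ### sums and left ends -/

theorem sum_Iio_succ {m : ℕ} (f : Fin (m + 1) → ℝ) (α : Fin m) :
    ∑ i ∈ Finset.Iio α.succ, f i = f 0 + ∑ i ∈ Finset.Iio α, f i.succ := by
  have h : Finset.Iio α.succ = insert 0 ((Finset.Iio α).map (Fin.succEmb m)) := by
    ext i
    refine Fin.cases ?_ (fun j => ?_) i
    · simp
    · simp
  rw [h, Finset.sum_insert (by simp), Finset.sum_map]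
  rfl

theorem sum_Iio_castSucc {m : ℕ} (f : Fin (m + 1) → ℝ) (α : Fin m) :
    ∑ i ∈ Finset.Iio α.castSucc, f i = ∑ i ∈ Finset.Iio α, f i.castSucc := by
  have h : Finset.Iio α.castSucc = (Finset.Iio α).map Fin.castSuccEmb := by
    simp
  rw [h, Finset.sum_map]
  rfl

section

variable {n : ℕ}

theorem sum_split (f : Fin (n + 2) → ℝ) :
    ∑ i, f i = f 0 + ∑ j : Fin n, f j.castSucc.succ + f (Fin.last (n + 1)) := by
  rw [Fin.sum_univ_succ, Fin.sum_univ_castSucc]
  rw [Fin.succ_last]
  ring

theorem left_zero (l : Fin (n + 2) → ℝ) : left l 0 = -half l := by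
  rw [left]
  have : Finset.Iio (0 : Fin (n + 2)) = ∅ := by ext i; simp
  rw [this]
  simp

theorem left_mid (l : Fin (n + 2) → ℝ) (j : Fin n) :
    left l j.castSucc.succ = -half l + l 0 + ∑ i ∈ Finset.Iio j, l i.castSucc.succ := by
  rw [left, sum_Iio_succ, sum_Iio_castSucc (fun i => l i.succ)]
  ring

theorem left_one (l : Fin (n + 2) → ℝ) : left l 1 = -half l + l 0 := by
  have h : (1 : Fin (n + 2)) = Fin.succ 0 := rfl
  rw [left, h, sum_Iio_succ]
  have : Finset.Iio (0 : Fin (n + 1)) = ∅ := by ext i; simp
  rw [this]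
  simp

theorem left_succ_succ (l : Fin (n + 2) → ℝ) (j : Fin n) :
    left l j.succ.succ = -half l + l 0 + l 1 + ∑ i ∈ Finset.Iio j, l i.succ.succ := by
  rw [left, sum_Iio_succ, sum_Iio_succ (fun i => l i.succ)]
  have h : (Fin.succ 0 : Fin (n + 2)) = 1 := rfl
  rw [h]
  ring

theorem left_last (l : Fin (n + 2) → ℝ) :
    left l (Fin.last (n + 1)) + l (Fin.last (n + 1)) = half l := by
  have h1 : ∑ i, l i = ∑ i ∈ Finset.Iio (Fin.last (n + 1)), l i + l (Fin.last (n + 1)) := by
    have : (Finset.univ : Finset (Fin (n + 2))) =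
        insert (Fin.last (n + 1)) (Finset.Iio (Fin.last (n + 1))) := by
      ext i
      simp only [Finset.mem_univ, Finset.mem_insert, Finset.mem_Iio, true_iff]
      rcases (Fin.le_last i).eq_or_lt with h | h
      · exact Or.inl h
      · exact Or.inr h
    rw [this, Finset.sum_insert (by simp)]
    ring
  rw [left, half, h1]
  ring

theorem left_ge {l : Fin (n + 2) → ℝ} (hl : ∀ i, 0 < l i) (α : Fin (n + 2)) :
    -half l ≤ left l α := by
  rw [left]
  have : 0 ≤ ∑ i ∈ Finset.Iio α, l i := Finset.sum_nonneg fun i _ => (hl i).le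
  linarith

theorem left_add_le {l : Fin (n + 2) → ℝ} (hl : ∀ i, 0 < l i) {α β : Fin (n + 2)} (h : α < β) :
    left l α + l α ≤ left l β := by
  rw [left, left]
  have h1 : insert α (Finset.Iio α) ⊆ Finset.Iio β := by
    intro i hi
    rw [Finset.mem_insert, Finset.mem_Iio] at hi
    rw [Finset.mem_Iio]
    rcases hi with hi | hi
    · rw [hi]; exact h
    · exact hi.trans h
  have h2 := Finset.sum_le_sum_of_subset_of_nonneg h1 fun i _ _ => (hl i).le
  rw [Finset.sum_insert (by simp)] at h2
  linarith

theorem left_add_le_half {l : Fin (n + 2) → ℝ} (hl : ∀ i, 0 < l i) (α : Fin (n + 2)) :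
    left l α + l α ≤ half l := by
  rcases (Fin.le_last α).eq_or_lt with h | h
  · rw [h, left_last]
  · have h1 := left_add_le hl h
    have h2 := left_last l
    have h3 := hl (Fin.last (n + 1))
    linarith

/-! ### ordered towers -/

variable {T0 : ℝ → ℝ} {U0 : Set ℝ} {a : ℝ}

/-- the intervals of the tower are placed from left to right (`o = true`) or from right to left
(`o = false`), with lengths `l` -/
def IsOrd (P : Tow (n + 2) T0 U0 a) (o : Bool) (l : Fin (n + 2) → ℝ) : Prop :=
  P.eps = half l ∧ ∀ α,
    if o then P.lo α = left l α ∧ P.hi α = left l α + l α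
    else P.hi α = -left l α ∧ P.lo α = -(left l α + l α)

/-- alternating words -/
def alt : ℕ → List (Fin (n + 2))
  | 0 => [0]
  | k + 1 => 0 :: Fin.last (n + 1) :: alt k

/-- itineraries of a composite step -/
def stepW (k : ℕ) : Fin (n + 2) → List (Fin (n + 2)) :=
  Fin.cons (alt k) (Fin.cons (alt (k + 1)) fun j : Fin n => [j.castSucc.succ])

/-- lengths after a composite step -/
def stepL (k : ℕ) (l : Fin (n + 2) → ℝ) : Fin (n + 2) → ℝ :=
  Fin.cons ((l 0 - l (Fin.last (n + 1))) - (l (Fin.last (n + 1)) -
      k * (l 0 - l (Fin.last (n + 1)))))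
    (Fin.cons (l (Fin.last (n + 1)) - k * (l 0 - l (Fin.last (n + 1))))
      fun j : Fin n => l j.castSucc.succ)

/-- heights after a composite step -/
def stepQ (k : ℕ) (q : Fin (n + 2) → ℕ) : Fin (n + 2) → ℕ :=
  Fin.cons ((k + 1) * q 0 + k * q (Fin.last (n + 1)))
    (Fin.cons ((k + 2) * q 0 + (k + 1) * q (Fin.last (n + 1)))
      fun j : Fin n => q j.castSucc.succ)

theorem half_stepL (k : ℕ) (l : Fin (n + 2) → ℝ) :
    half (stepL k l) = half l - l (Fin.last (n + 1)) := by
  rw [half, half, sum_split l, Fin.sum_univ_succ, Fin.sum_univ_succ]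
  simp only [stepL, Fin.cons_zero, Fin.cons_succ]
  ring

theorem zero_ne_last : (0 : Fin (n + 2)) ≠ Fin.last (n + 1) := by
  intro h
  have := congrArg Fin.val h
  simp at this

theorem alt_length (k : ℕ) : (alt k : List (Fin (n + 2))).length = 2 * k + 1 := by
  induction k with
  | zero => rfl
  | succ k ih => rw [alt, List.length_cons, List.length_cons, ih]; ring

theorem alt_count_zero (k : ℕ) : (alt k : List (Fin (n + 2))).count 0 = k + 1 := by
  induction k with
  | zero => simp [alt]
  | succ k ih =>
    rw [alt, List.count_cons_self, List.count_cons_of_ne zero_ne_last.symm, ih]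

theorem alt_count_last (k : ℕ) :
    (alt k : List (Fin (n + 2))).count (Fin.last (n + 1)) = k := by
  induction k with
  | zero => simp [alt, zero_ne_last]
  | succ k ih =>
    rw [alt, List.count_cons_of_ne zero_ne_last, List.count_cons_self, ih]

theorem mid_ne_zero (j : Fin n) : (0 : Fin (n + 2)) ≠ j.castSucc.succ :=
  (Fin.succ_ne_zero _).symm

theorem mid_ne_last (j : Fin n) : Fin.last (n + 1) ≠ j.castSucc.succ := by
  intro h
  have h1 := congrArg Fin.val h
  have h2 := j.2
  simp at h1
  omega

theorem alt_count_mid (k : ℕ) (j : Fin n) :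
    (alt k : List (Fin (n + 2))).count j.castSucc.succ = 0 := by
  induction k with
  | zero =>
    rw [alt, List.count_cons_of_ne (mid_ne_zero j), List.count_nil]
  | succ k ih =>
    rw [alt, List.count_cons_of_ne (mid_ne_zero j), List.count_cons_of_ne (mid_ne_last j), ih]

theorem alt_sum (P : Tow (n + 2) T0 U0 a) (k : ℕ) :
    ((alt k).map P.s).sum = (k + 1) * P.s 0 + k * P.s (Fin.last (n + 1)) := by
  induction k with
  | zero => simp [alt]
  | succ k ih =>
    rw [alt, List.map_cons, List.map_cons, List.sum_cons, List.sum_cons, ih]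
    push_cast
    ring

theorem alt_rsum (q : Fin (n + 2) → ℕ) (k : ℕ) :
    ((alt k).map q).sum = (k + 1) * q 0 + k * q (Fin.last (n + 1)) := by
  induction k with
  | zero => simp [alt]
  | succ k ih =>
    rw [alt, List.map_cons, List.map_cons, List.sum_cons, List.sum_cons, ih]
    ring

section Step

variable {P : Tow (n + 2) T0 U0 a} {l : Fin (n + 2) → ℝ}

theorem s_zero_of_ord (hP : IsOrd P true l) : P.s 0 = -2 * half l + l 0 := by
  have h := hP.2 0
  simp only [if_true] at h
  rw [Tow.s, h.1, h.2, left_zero]
  ring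

theorem s_last_of_ord (hP : IsOrd P true l) :
    P.s (Fin.last (n + 1)) = 2 * half l - l (Fin.last (n + 1)) := by
  have h := hP.2 (Fin.last (n + 1))
  simp only [if_true] at h
  have h2 := left_last l
  rw [Tow.s, h.1, h.2]
  linarith

theorem follows_alt (hP : IsOrd P true l) (k : ℕ) :
    ∀ x y : ℝ, k * (l 0 - l (Fin.last (n + 1))) ≤ x + half l → y + half l ≤ l 0 →
      0 ≤ l 0 - l (Fin.last (n + 1)) → P.Follows x y (alt k) := by
  have h0 := hP.2 0
  have h1 := hP.2 (Fin.last (n + 1))
  have hs0 := s_zero_of_ord hP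
  have hs1 := s_last_of_ord hP
  have hl := left_last l
  simp only [if_true] at h0 h1
  rw [left_zero] at h0
  induction k with
  | zero =>
    intro x y hx hy hl0
    rw [alt, Tow.Follows, h0.1, h0.2]
    refine ⟨?_, ?_, trivial⟩
    · push_cast at hx; linarith
    · linarith
  | succ k ih =>
    intro x y hx hy hl0
    push_cast at hx
    have hk : 0 ≤ (k : ℝ) * (l 0 - l (Fin.last (n + 1))) :=
      mul_nonneg (Nat.cast_nonneg _) hl0
    rw [alt, Tow.Follows, Tow.Follows, h0.1, h0.2, h1.1, h1.2, hs0, hs1]
    refine ⟨by linarith, by linarith, by linarith, by linarith, ?_⟩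
    refine ih _ _ ?_ ?_ hl0
    · linarith
    · linarith

theorem alt_out (hP : IsOrd P true l) (k : ℕ) :
    ∀ x y : ℝ, k * (l 0 - l (Fin.last (n + 1))) ≤ x + half l → y + half l ≤ l 0 →
      0 ≤ l 0 - l (Fin.last (n + 1)) → ∀ j, 1 ≤ j → j < (alt k : List (Fin (n + 2))).length →
      half l - l (Fin.last (n + 1)) ≤ x - P.disp (alt k) j ∨
        y - P.disp (alt k) j ≤ -(half l - l (Fin.last (n + 1))) := by
  have hs0 := s_zero_of_ord hP
  have hs1 := s_last_of_ord hP
  induction k with
  | zero =>
    intro x y _ _ _ j hj hj'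
    rw [alt_length] at hj'
    omega
  | succ k ih =>
    intro x y hx hy hl0 j hj hj'
    push_cast at hx
    have hk : 0 ≤ (k : ℝ) * (l 0 - l (Fin.last (n + 1))) :=
      mul_nonneg (Nat.cast_nonneg _) hl0
    rw [alt_length] at hj'
    rw [alt]
    obtain ⟨j, rfl⟩ : ∃ i, j = i + 1 := ⟨j - 1, by omega⟩
    rw [P.disp_cons]
    cases j with
    | zero =>
      left
      rw [P.disp_zero, hs0]
      linarith
    | succ j =>
      rw [P.disp_cons]
      rcases Nat.eq_zero_or_pos j with h | h
      · subst h
        right
        rw [P.disp_zero, hs0, hs1]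
        linarith
      · have := ih (x - (l 0 - l (Fin.last (n + 1)))) (y - (l 0 - l (Fin.last (n + 1))))
          (by linarith) (by linarith) hl0 j h (by rw [alt_length]; omega)
        rw [hs0, hs1]
        rcases this with h1 | h1
        · left; linarith
        · right; linarith

theorem stepL_zero (k : ℕ) (l : Fin (n + 2) → ℝ) : stepL k l 0 =
    (l 0 - l (Fin.last (n + 1))) - (l (Fin.last (n + 1)) - k * (l 0 - l (Fin.last (n + 1)))) :=
  rfl

theorem stepL_one (k : ℕ) (l : Fin (n + 2) → ℝ) : stepL k l 1 =
    l (Fin.last (n + 1)) - k * (l 0 - l (Fin.last (n + 1))) :=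
  rfl

theorem stepL_succ (k : ℕ) (l : Fin (n + 2) → ℝ) (j : Fin n) :
    stepL k l j.succ.succ = l j.castSucc.succ :=
  rfl

theorem left_stepL_succ (k : ℕ) (l : Fin (n + 2) → ℝ) (j : Fin n) :
    left (stepL k l) j.succ.succ = left l j.castSucc.succ := by
  rw [left_succ_succ, left_mid, half_stepL, stepL_zero, stepL_one]
  simp only [stepL_succ]
  ring

/-- the case distinction on `Fin (n + 2)` -/
theorem fin_cases3 {p : Fin (n + 2) → Prop} (h0 : p 0) (h1 : p 1)
    (h2 : ∀ j : Fin n, p j.succ.succ) : ∀ β, p β := by
  intro β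
  refine Fin.cases h0 (fun i => ?_) β
  refine Fin.cases h1 (fun j => h2 j) i

/-- The data of the composite step. -/
noncomputable def stepData (hP : IsOrd P true l) (hl : ∀ i, 0 < l i) (k : ℕ)
    (hpos : ∀ i, 0 < stepL k l i) : P.Data where
  lo' := left (stepL k l)
  hi' := fun β => left (stepL k l) β + stepL k l β
  eps' := half (stepL k l)
  w := stepW k
  lt' := fun β => by have := hpos β; linarith
  lo_ge' := fun β => left_ge hpos β
  hi_le' := fun β => left_add_le_half hpos β
  eps_le' := by
    rw [half_stepL]
    have h1 := P.eps_le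
    rw [hP.1] at h1
    have := hl (Fin.last (n + 1))
    linarith
  total' := by
    rw [half]
    rw [Finset.sum_congr rfl fun β _ =>
      show left (stepL k l) β + stepL k l β - left (stepL k l) β = stepL k l β by ring]
    ring
  base' := by
    intro β γ hne
    rw [Set.disjoint_left]
    intro z hz hz'
    rcases lt_or_gt_of_ne hne with h | h
    · have := left_add_le hpos h
      linarith [hz.2, hz'.1]
    · have := left_add_le hpos h
      linarith [hz'.2, hz.1]
  fol := by
    have p0 := hpos 0
    have p1 := hpos 1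
    rw [stepL_zero] at p0
    rw [stepL_one] at p1
    have hlast := hl (Fin.last (n + 1))
    have hk0 : 0 ≤ l 0 - l (Fin.last (n + 1)) := by linarith
    refine fin_cases3 ?_ ?_ ?_
    · rw [show (stepW k : Fin (n + 2) → List (Fin (n + 2))) 0 = alt k from rfl]
      refine follows_alt hP k _ _ ?_ ?_ hk0
      · rw [left_zero, half_stepL]; linarith
      · rw [left_zero, half_stepL, stepL_zero]; linarith
    · rw [show (stepW k : Fin (n + 2) → List (Fin (n + 2))) 1 = alt (k + 1) from rfl]
      refine follows_alt hP (k + 1) _ _ ?_ ?_ hk0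
      · rw [left_one, half_stepL, stepL_zero]; push_cast; linarith
      · rw [left_one, half_stepL, stepL_zero, stepL_one]; linarith
    · intro j
      rw [show (stepW k : Fin (n + 2) → List (Fin (n + 2))) j.succ.succ = [j.castSucc.succ] from rfl]
      have h := hP.2 j.castSucc.succ
      simp only [if_true] at h
      rw [Tow.Follows, left_stepL_succ, stepL_succ, h.1, h.2]
      exact ⟨le_rfl, le_rfl, trivial⟩
  ne := by
    refine fin_cases3 ?_ ?_ ?_
    · intro h
      have := congrArg List.length h
      rw [show (stepW k : Fin (n + 2) → List (Fin (n + 2))) 0 = alt k from rfl, alt_length] at this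
      simp at this
    · intro h
      have := congrArg List.length h
      rw [show (stepW k : Fin (n + 2) → List (Fin (n + 2))) 1 = alt (k + 1) from rfl,
        alt_length] at this
      simp at this
    · intro j
      rw [show (stepW k : Fin (n + 2) → List (Fin (n + 2))) j.succ.succ = [j.castSucc.succ] from rfl]
      simp
  dsum := by
    have hs0 := s_zero_of_ord hP
    have hs1 := s_last_of_ord hP
    refine fin_cases3 ?_ ?_ ?_
    · rw [show (stepW k : Fin (n + 2) → List (Fin (n + 2))) 0 = alt k from rfl, alt_sum, hs0, hs1,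
        left_zero, half_stepL, stepL_zero]
      ring
    · rw [show (stepW k : Fin (n + 2) → List (Fin (n + 2))) 1 = alt (k + 1) from rfl, alt_sum,
        hs0, hs1, left_one, half_stepL, stepL_zero, stepL_one]
      push_cast
      ring
    · intro j
      rw [show (stepW k : Fin (n + 2) → List (Fin (n + 2))) j.succ.succ = [j.castSucc.succ] from rfl]
      have h := hP.2 j.castSucc.succ
      simp only [if_true] at h
      simp only [List.map_cons, List.map_nil, List.sum_cons, List.sum_nil, add_zero]
      rw [left_stepL_succ, stepL_succ, Tow.s, h.1, h.2]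
  out := by
    have p0 := hpos 0
    have p1 := hpos 1
    rw [stepL_zero] at p0
    rw [stepL_one] at p1
    have hlast := hl (Fin.last (n + 1))
    have hk0 : 0 ≤ l 0 - l (Fin.last (n + 1)) := by linarith
    refine fin_cases3 ?_ ?_ ?_
    · rw [show (stepW k : Fin (n + 2) → List (Fin (n + 2))) 0 = alt k from rfl]
      rw [half_stepL]
      refine alt_out hP k _ _ ?_ ?_ hk0
      · rw [left_zero, half_stepL]; linarith
      · rw [left_zero, half_stepL, stepL_zero]; linarith
    · rw [show (stepW k : Fin (n + 2) → List (Fin (n + 2))) 1 = alt (k + 1) from rfl]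
      rw [half_stepL]
      refine alt_out hP (k + 1) _ _ ?_ ?_ hk0
      · rw [left_one, half_stepL, stepL_zero]; push_cast; linarith
      · rw [left_one, half_stepL, stepL_zero, stepL_one]; linarith
    · intro j i hi hi'
      rw [show (stepW k : Fin (n + 2) → List (Fin (n + 2))) j.succ.succ = [j.castSucc.succ]
        from rfl] at hi'
      simp at hi'
      omega
  len := by
    have hlen : ∀ α, P.hi α - P.lo α = l α := by
      intro α
      have h := hP.2 α
      simp only [if_true] at h
      rw [h.1, h.2]
      ring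
    intro α
    rw [hlen, Finset.sum_congr rfl fun β _ => show
      ((stepW k β).count α : ℝ) * (left (stepL k l) β + stepL k l β - left (stepL k l) β) =
      ((stepW k β).count α : ℝ) * stepL k l β by ring]
    rw [Fin.sum_univ_succ, Fin.sum_univ_succ]
    rw [show (Fin.succ 0 : Fin (n + 2)) = 1 from rfl,
      show (stepW k : Fin (n + 2) → List (Fin (n + 2))) 0 = alt k from rfl,
      show (stepW k : Fin (n + 2) → List (Fin (n + 2))) 1 = alt (k + 1) from rfl,
      stepL_zero, stepL_one]
    have hmid : ∀ j : Fin n, (((stepW k : Fin (n + 2) → List (Fin (n + 2))) j.succ.succ).count α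
        : ℝ) * stepL k l j.succ.succ = if α = j.castSucc.succ then l j.castSucc.succ else 0 := by
      intro j
      rw [show (stepW k : Fin (n + 2) → List (Fin (n + 2))) j.succ.succ = [j.castSucc.succ]
        from rfl, stepL_succ]
      by_cases h : α = j.castSucc.succ
      · rw [if_pos h, h]
        simp
      · rw [if_neg h]
        have h' : (j.castSucc.succ : Fin (n + 2)) ≠ α := fun e => h e.symm
        rw [List.count_cons_of_ne h', List.count_nil]
        simp
    rw [Finset.sum_congr rfl fun j _ => hmid j]
    by_cases hα0 : α = 0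
    · subst hα0
      rw [Finset.sum_eq_zero fun j _ => if_neg (mid_ne_zero j), alt_count_zero, alt_count_zero]
      push_cast
      ring
    · by_cases hα1 : α = Fin.last (n + 1)
      · subst hα1
        rw [Finset.sum_eq_zero fun j _ => if_neg (mid_ne_last j), alt_count_last, alt_count_last]
        push_cast
        ring
      · obtain ⟨j, rfl⟩ : ∃ j : Fin n, α = j.castSucc.succ := by
          have hv0 : (α : ℕ) ≠ 0 := fun h => hα0 (Fin.ext h)
          have hv1 : (α : ℕ) ≠ n + 1 := fun h => hα1 (Fin.ext (by simpa using h))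
          have hv2 := α.2
          exact ⟨⟨(α : ℕ) - 1, by omega⟩, Fin.ext (by simp; omega)⟩
        rw [alt_count_mid, alt_count_mid, Finset.sum_eq_single j]
        · simp
        · intro j' _ hne
          rw [if_neg]
          intro h
          apply hne
          have := congrArg Fin.val h
          simp at this
          exact Fin.ext this.symm
        · intro h
          exact absurd (Finset.mem_univ _) h

end Step

end

end Pool.Agent.Helper22.Rev
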