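import Pool.Agent.Helper22.Rev.Meas

/-!
# RV-13: good patterns occur with positive frequency (helper87)
-/

set_option autoImplicit false

open Set Filter Topology MeasureTheory

namespace Pool.Agent.Helper22.Rev

namespace Meas2

open Meas

variable {n : ℕ}

/-- the lengths for which the state has the property `P` -/
def BS (R : ℝ) (P : St n → Prop) (m : Bool) (q : Fin (n + 2) → ℕ) : Set (Fin (n + 2) → ℝ) :=
  {l | l ∈ Dl R q ∧ P ⟨m, l, q⟩}

/-- properties which are inherited by the next state -/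
def Cl (P : St n → Prop) : Prop := ∀ X, P X → P X.next

theorem BS_sub (R : ℝ) (P : St n → Prop) (m : Bool) (q : Fin (n + 2) → ℕ) :
    BS R P m q ⊆ Dl R q := fun _ h => h.1

theorem BS_step {R : ℝ} {P : St n → Prop} (hP : Cl P) {m o : Bool} {q : Fin (n + 2) → ℕ}
    {l : Fin (n + 2) → ℝ} (hl : l ∈ BS R P m q) (h : l (lo o) < l (wi o)) :
    lstep m o l ∈ BS R P (nextMode m o) (qstep m o q) := by
  refine ⟨lstep_mem m o hl.1 h, ?_⟩
  have h2 := hP _ hl.2
  rwa [next_eq h] at h2

/-- mass of the set -/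
noncomputable def gp (R : ℝ) (P : St n → Prop) (m : Bool) (q : Fin (n + 2) → ℕ) : ℝ :=
  ms q (BS R P m q)

theorem gp_le (R : ℝ) {P : St n → Prop} (hP : Cl P) (m : Bool) {q : Fin (n + 2) → ℕ}
    (hq : ∀ i, 0 < q i) :
    gp R P m q ≤ (q (Fin.last (n + 1)) : ℝ) / (q 0 + q (Fin.last (n + 1))) *
        gp R P (nextMode m true) (qstep m true q) +
      (q 0 : ℝ) / (q 0 + q (Fin.last (n + 1))) *
        gp R P (nextMode m false) (qstep m false q) :=
  ms_split (A' := fun o => BS R P (nextMode m o) (qstep m o q)) m hq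
    (fun o => BS_sub _ _ _ _) (fun _ _ hl h => BS_step hP hl h)

theorem gp_le_VV (R : ℝ) (P : St n → Prop) (m : Bool) {q : Fin (n + 2) → ℕ}
    (hq : ∀ i, 0 < q i) : gp R P m q ≤ VV n R := by
  rw [← ms_Dl R hq]
  exact ms_mono hq le_rfl (BS_sub _ _ _ _)

theorem gp_mono (R : ℝ) {P Q : St n → Prop} (m : Bool) {q : Fin (n + 2) → ℕ}
    (hq : ∀ i, 0 < q i) (h : ∀ l, P ⟨m, l, q⟩ → Q ⟨m, l, q⟩) : gp R P m q ≤ gp R Q m q :=
  ms_mono hq (BS_sub R Q m q) (fun l hl => ⟨hl.1, h l hl.2⟩)

/-- the bad points which do not follow `v` -/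
theorem path_bound {R : ℝ} {P : St n → Prop} (hP : Cl P) {T1 : ℕ} {u : ℝ} (hu : 0 ≤ u)
    (hV : ∀ m (q : Fin (n + 2) → ℕ), (∀ i, 0 < q i) → Mx q ≤ T1 → gp R P m q ≤ u)
    (v : List Bool) : ∀ (m : Bool) (q : Fin (n + 2) → ℕ) (θ M : ℝ), (∀ i, 0 < q i) → 0 < θ →
      0 < M → (∀ i, θ ≤ q i) → (∀ i, (q i : ℝ) ≤ M) → 2 ^ v.length * Mx q ≤ T1 →
      ms q {l | l ∈ BS R P m q ∧ ¬ (St.Runs ⟨m, l, q⟩ v)} ≤
        (1 - (θ / (2 ^ v.length * M)) ^ v.length) * u := by
  induction v with
  | nil =>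
    intro m q θ M hq hθ hM h1 h2 h3
    have : {l | l ∈ BS R P m q ∧ ¬ (St.Runs ⟨m, l, q⟩ [])} = ∅ := by
      ext l
      simp [St.Runs]
    rw [this]
    simp [ms]
  | cons o v ih =>
    intro m q θ M hq hθ hM h1 h2 h3
    have h0' : (0 : ℝ) < q 0 := by exact_mod_cast hq 0
    have h1' : (0 : ℝ) < q (Fin.last (n + 1)) := by exact_mod_cast hq _
    -- the two pieces
    have hsp := ms_split (R := R) (A := {l | l ∈ BS R P m q ∧ ¬ (St.Runs ⟨m, l, q⟩ (o :: v))})
      (A' := fun o' => if o' = o then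
        {l | l ∈ BS R P (nextMode m o') (qstep m o' q) ∧
          ¬ (St.Runs ⟨nextMode m o', l, qstep m o' q⟩ v)} else
        BS R P (nextMode m o') (qstep m o' q)) m hq
      (by
        intro o'
        split_ifs
        · intro l hl; exact hl.1.1
        · intro l hl; exact hl.1)
      (by
        intro o' l hl h
        have hb := BS_step hP hl.1 h
        split_ifs with hoo
        · refine ⟨hb, fun hr => hl.2 ?_⟩
          subst hoo
          refine ⟨outc_of_lt h, ?_⟩
          rw [next_eq h]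
          exact hr
        · exact hb)
    have hlen : (2 : ℕ) ^ v.length * Mx (qstep m o q) ≤ T1 := by
      have := Mx_qstep_le m o q
      have e : 2 ^ (o :: v).length * Mx q = 2 ^ v.length * (2 * Mx q) := by
        rw [List.length_cons]; ring
      rw [e] at h3
      exact (Nat.mul_le_mul_left _ this).trans h3
    have hMx : Mx q ≤ 2 ^ (o :: v).length * Mx q := Nat.le_mul_of_pos_left _ (by positivity)
    have hsib : ∀ o', gp R P (nextMode m o') (qstep m o' q) ≤ u := by
      intro o'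
      apply hV _ _ (qstep_pos m o' hq)
      have := Mx_qstep_le m o' q
      have e : 2 ^ (o :: v).length * Mx q = 2 ^ v.length * (2 * Mx q) := by
        rw [List.length_cons]; ring
      have : 2 * Mx q ≤ 2 ^ v.length * (2 * Mx q) := Nat.le_mul_of_pos_left _ (by positivity)
      omega
    have hrec := ih (nextMode m o) (qstep m o q) θ (2 * M) (qstep_pos m o hq) hθ (by positivity)
      (by
        intro i
        rw [qstep_eq]
        have := qadd_ge o q (sg m o i)
        have h5 : (q (sg m o i) : ℝ) ≤ (qadd o q (sg m o i) : ℝ) := by exact_mod_cast this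
        exact (h1 _).trans h5)
      (by
        intro i
        have h5 : (qstep m o q i : ℝ) ≤ 2 * (Mx q : ℝ) := by
          exact_mod_cast (le_Mx _ i).trans (Mx_qstep_le m o q)
        have h6 : (Mx q : ℝ) ≤ M := by
          obtain ⟨j, -, hj⟩ := Finset.exists_mem_eq_sup Finset.univ Finset.univ_nonempty q
          unfold Mx
          rw [hj]
          exact h2 j
        linarith)
      hlen
    set κ' : ℝ := (θ / (2 ^ v.length * (2 * M))) ^ v.length with hκ'
    set κ : ℝ := (θ / (2 ^ (o :: v).length * M)) ^ (o :: v).length with hκ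
    have hκ0 : 0 ≤ κ' := by positivity
    -- comparison of the constants
    have hκκ : ∀ p : ℝ, θ / (2 * M) ≤ p → κ ≤ p * κ' := by
      intro p hp
      have e1 : κ = (θ / (2 ^ v.length * (2 * M))) ^ v.length *
          (θ / (2 ^ v.length * (2 * M))) := by
        rw [hκ, List.length_cons, pow_succ]
        congr 2 <;> ring
      rw [e1, ← hκ', mul_comm]
      refine mul_le_mul_of_nonneg_right (le_trans ?_ hp) hκ0
      apply div_le_div_of_nonneg_left hθ.le (by positivity)
      have : (1 : ℝ) ≤ 2 ^ v.length := one_le_pow₀ (by norm_num)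
      nlinarith
    have hθM : θ ≤ M := (h1 0).trans (h2 0)
    have hP1 := probs hq
    have hpr1 : θ / (2 * M) ≤ (q (Fin.last (n + 1)) : ℝ) / (q 0 + q (Fin.last (n + 1))) := by
      rw [div_le_div_iff₀ (by positivity) (by positivity)]
      have a1 := h1 (Fin.last (n + 1))
      have a2 := h2 (Fin.last (n + 1))
      have a3 := h2 0
      nlinarith
    have hpr0 : θ / (2 * M) ≤ (q 0 : ℝ) / (q 0 + q (Fin.last (n + 1))) := by
      rw [div_le_div_iff₀ (by positivity) (by positivity)]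
      have a1 := h1 0
      have a2 := h2 (Fin.last (n + 1))
      have a3 := h2 0
      nlinarith
    set π1 : ℝ := (q (Fin.last (n + 1)) : ℝ) / (q 0 + q (Fin.last (n + 1))) with hπ1
    set π0 : ℝ := (q 0 : ℝ) / (q 0 + q (Fin.last (n + 1))) with hπ0
    have hπ1' : 0 ≤ π1 := by positivity
    have hπ0' : 0 ≤ π0 := by positivity
    refine hsp.trans ?_
    cases o with
    | true =>
      simp only [if_true, Bool.false_eq_true, if_false]
      have hs := hsib false
      unfold gp at hs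
      have k1 := hκκ π1 hpr1
      calc π1 * ms (qstep m true q) {l | l ∈ BS R P (nextMode m true) (qstep m true q) ∧
            ¬ (St.Runs ⟨nextMode m true, l, qstep m true q⟩ v)} +
          π0 * ms (qstep m false q) (BS R P (nextMode m false) (qstep m false q)) ≤
          π1 * ((1 - κ') * u) + π0 * u :=
            add_le_add (mul_le_mul_of_nonneg_left hrec hπ1') (mul_le_mul_of_nonneg_left hs hπ0')
        _ = (1 - π1 * κ') * u := by
            have : π0 = 1 - π1 := by linarith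
            rw [this]; ring
        _ ≤ (1 - κ) * u := mul_le_mul_of_nonneg_right (by linarith) hu
    | false =>
      simp only [if_true, Bool.true_eq_false, if_false]
      have hs := hsib true
      unfold gp at hs
      have k1 := hκκ π0 hpr0
      calc π1 * ms (qstep m true q) (BS R P (nextMode m true) (qstep m true q)) +
          π0 * ms (qstep m false q) {l | l ∈ BS R P (nextMode m false) (qstep m false q) ∧
            ¬ (St.Runs ⟨nextMode m false, l, qstep m false q⟩ v)} ≤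
          π1 * u + π0 * ((1 - κ') * u) :=
            add_le_add (mul_le_mul_of_nonneg_left hs hπ1') (mul_le_mul_of_nonneg_left hrec hπ0')
        _ = (1 - π0 * κ') * u := by
            have : π1 = 1 - π0 := by linarith
            rw [this]; ring
        _ ≤ (1 - κ) * u := mul_le_mul_of_nonneg_right (by linarith) hu

theorem decay (hker : KerStmt n) (w : List Bool) :
    ∃ (Λ : ℕ) (ε0 : ℝ), 2 ≤ Λ ∧ 0 < ε0 ∧ ε0 < 1 ∧ ∀ (R : ℝ) (T : ℕ) (P : St n → Prop), Cl P →
      (∀ X, P X → ¬ Occ w 0 T X) → ∀ u0 : ℝ, 0 ≤ u0 →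
      (∀ m (q : Fin (n + 2) → ℕ), (∀ i, 0 < q i) → Mx q ≤ T → gp R P m q ≤ u0) →
      ∀ (j : ℕ) (m : Bool) (q : Fin (n + 2) → ℕ), (∀ i, 0 < q i) → Mx q * Λ ^ j ≤ T →
      gp R P m q ≤ u0 * (1 - ε0) ^ j := by
  obtain ⟨c, η, L0, hc, hη, hL0, hk⟩ := hker
  set ε1 : ℝ := (c / 2 ^ w.length) ^ w.length with hε1
  have hε1' : 0 < ε1 := by positivity
  set Lg : ℕ := 2 ^ (w.length + 1) with hLg
  have hLg' : 1 ≤ Lg := Nat.one_le_two_pow
  refine ⟨max 2 (L0 * Lg), min (η * ε1) (1 / 2), le_max_left _ _, lt_min (by positivity)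
    (by norm_num), lt_of_le_of_lt (min_le_right _ _) (by norm_num), ?_⟩
  set Λ : ℕ := max 2 (L0 * Lg) with hΛ
  set ε0 : ℝ := min (η * ε1) (1 / 2) with hε0
  have hε0a : ε0 ≤ η * ε1 := min_le_left _ _
  have hε0b : ε0 ≤ 1 / 2 := min_le_right _ _
  have hΛ0 : 0 < Λ := lt_of_lt_of_le (by norm_num) (le_max_left 2 (L0 * Lg))
  have hΛ1 : L0 * Lg ≤ Λ := le_max_right _ _
  intro R T P hP hPO u0 hu00 hbase j
  induction j with
  | zero =>
    intro m q hq hM
    rw [pow_zero, mul_one] at *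
    exact hbase m q hq hM
  | succ j ih =>
    intro m q hq hT
    set u : ℝ := u0 * (1 - ε0) ^ j with hu
    have hu0 : 0 ≤ u := mul_nonneg hu00 (pow_nonneg (by linarith) _)
    set T1 : ℕ := T / Λ ^ j with hT1
    have hΛj : 0 < Λ ^ j := pow_pos hΛ0 j
    have hV : ∀ m (q : Fin (n + 2) → ℕ), (∀ i, 0 < q i) → Mx q ≤ T1 → gp R P m q ≤ u := by
      intro m q hq h
      exact ih m q hq ((Nat.le_div_iff_mul_le hΛj).1 h)
    have key := hk Lg hLg' T1 (ε1 * u) (by positivity) (fun m q => u - gp R P m q)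
      (by
        intro m q hq h
        have := hV m q hq h
        linarith)
      (by
        intro m q hq
        have h1 := gp_le R hP m hq
        have h2 := probs hq
        set π1 : ℝ := (q (Fin.last (n + 1)) : ℝ) / (q 0 + q (Fin.last (n + 1))) with hπ1
        set π0 : ℝ := (q 0 : ℝ) / (q 0 + q (Fin.last (n + 1))) with hπ0
        have : π0 = 1 - π1 := by linarith
        rw [this] at h1 ⊢
        nlinarith)
      (by
        intro q hq hb hL
        have hMp := Mx_pos hq
        have hMp' : (0 : ℝ) < Mx q := by exact_mod_cast hMp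
        have e2 : Lg * Mx q = 2 * (2 ^ w.length * Mx q) := by rw [hLg]; ring
        have h2w : 0 < 2 ^ w.length * Mx q := by positivity
        have hT1T : T1 ≤ T := Nat.div_le_self _ _
        have hpb := path_bound (R := R) hP hu0 hV w true q
          (c * Mx q) (Mx q) hq (by positivity) hMp' hb
          (fun i => by exact_mod_cast le_Mx q i) (by omega)
        have e3 : c * (Mx q : ℝ) / (2 ^ w.length * (Mx q : ℝ)) = c / 2 ^ w.length := by
          field_simp
        rw [e3, ← hε1] at hpb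
        have hsub : gp R P true q ≤
            ms q {l | l ∈ BS R P true q ∧ ¬ (St.Runs ⟨true, l, q⟩ w)} := by
          refine ms_mono (R := R) hq (fun l hl => hl.1.1) ?_
          intro l hl
          refine ⟨hl, fun hr => hPO _ hl.2 ⟨0, rfl, Nat.zero_le _, hr, ?_⟩⟩
          rw [Nat.zero_add]
          have := Mx_iter_le (⟨true, l, q⟩ : St n) w.length
          have h3 : Mx (⟨true, l, q⟩ : St n).q = Mx q := rfl
          rw [h3] at this
          omega
        have := hsub.trans hpb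
        linarith)
      m q hq
      (by
        rw [Nat.le_div_iff_mul_le hΛj]
        calc L0 * Lg * Mx q * Λ ^ j ≤ Λ * Mx q * Λ ^ j :=
              Nat.mul_le_mul_right _ (Nat.mul_le_mul_right _ hΛ1)
          _ = Mx q * Λ ^ (j + 1) := by ring
          _ ≤ T := hT)
    have : gp R P m q ≤ u - η * (ε1 * u) := by linarith
    calc gp R P m q ≤ u - η * (ε1 * u) := this
      _ = u * (1 - η * ε1) := by ring
      _ ≤ u * (1 - ε0) := mul_le_mul_of_nonneg_left (by linarith) hu0
      _ = u0 * (1 - ε0) ^ (j + 1) := by rw [hu, pow_succ]; ring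


theorem decay2 (hker : KerStmt n) (w : List Bool) :
    ∃ (Λ : ℕ) (ε0 : ℝ), 2 ≤ Λ ∧ 0 < ε0 ∧ ε0 < 1 ∧ ∀ (R : ℝ) (T0 T : ℕ) (P : St n → Prop), Cl P →
      (∀ X, P X → ¬ Occ w T0 T X) → ∀ u0 : ℝ, 0 ≤ u0 →
      (∀ m (q : Fin (n + 2) → ℕ), (∀ i, 0 < q i) → Mx q ≤ T → gp R P m q ≤ u0) →
      ∀ j : ℕ, 2 * T0 * Λ ^ j ≤ T → ∀ (m : Bool) (q : Fin (n + 2) → ℕ), (∀ i, 0 < q i) →
      Mx q ≤ 2 * T0 → gp R P m q ≤ u0 * (1 - ε0) ^ j := by
  obtain ⟨Λ, ε0, hΛ, h0, h1, hd⟩ := decay hker w
  refine ⟨Λ, ε0, hΛ, h0, h1, ?_⟩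
  intro R T0 T P hP hPO u0 hu0 hbase j hT
  -- the property with large height
  have hreach : ∀ m (q : Fin (n + 2) → ℕ), (∀ i, 0 < q i) → Mx q ≤ 2 * T0 → T0 ≤ Mx q →
      gp R P m q ≤ u0 * (1 - ε0) ^ j := by
    intro m q hq hM h
    have hcl : Cl (fun X : St n => P X ∧ T0 ≤ Mx X.q) := by
      intro X hX
      refine ⟨hP X hX.1, hX.2.trans ?_⟩
      exact Mx_le_qstep X.m (outc X.l) X.q
    have h2 := hd R T (fun X : St n => P X ∧ T0 ≤ Mx X.q) hcl
      (by
        intro X hX hO
        apply hPO X hX.1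
        obtain ⟨i, a1, -, a3, a4⟩ := hO
        exact ⟨i, a1, hX.2.trans (Mx_le_iter X i), a3, a4⟩)
      u0 hu0
      (by
        intro m q hq hM
        exact (gp_mono R m hq (fun l hl => hl.1)).trans (hbase m q hq hM))
      j m q hq ((Nat.mul_le_mul_right _ hM).trans hT)
    exact (gp_mono R m hq (fun l hl => ⟨hl, h⟩)).trans h2
  have main : ∀ D : ℕ, ∀ (m : Bool) (q : Fin (n + 2) → ℕ), (∀ i, 0 < q i) → Mx q ≤ 2 * T0 →
      T0 * (n + 2) ≤ (∑ i, q i) + D → gp R P m q ≤ u0 * (1 - ε0) ^ j := by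
    intro D
    induction D with
    | zero =>
      intro m q hq hM hD
      rcases le_or_gt T0 (Mx q) with h | h
      · exact hreach m q hq hM h
      · exfalso
        have hs : ∑ i, q i ≤ ∑ _i : Fin (n + 2), Mx q := Finset.sum_le_sum fun i _ => le_Mx q i
        simp only [Finset.sum_const, Finset.card_univ, Fintype.card_fin, smul_eq_mul] at hs
        have : (n + 2) * Mx q < (n + 2) * T0 := Nat.mul_lt_mul_of_pos_left h (by omega)
        nlinarith
    | succ D ih =>
      intro m q hq hM hD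
      rcases le_or_gt T0 (Mx q) with h | h
      · exact hreach m q hq hM h
      · have hnext : ∀ o, gp R P (nextMode m o) (qstep m o q) ≤ u0 * (1 - ε0) ^ j := by
          intro o
          apply ih _ _ (qstep_pos m o hq)
          · have := Mx_qstep_le m o q
            omega
          · rw [sum_qstep]
            have := hq (wi o)
            omega
        have h2 := gp_le R hP m hq
        have h3 := probs hq
        have h0' : (0 : ℝ) < q 0 := by exact_mod_cast hq 0
        have h1' : (0 : ℝ) < q (Fin.last (n + 1)) := by exact_mod_cast hq _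
        set π1 : ℝ := (q (Fin.last (n + 1)) : ℝ) / (q 0 + q (Fin.last (n + 1))) with hπ1
        set π0 : ℝ := (q 0 : ℝ) / (q 0 + q (Fin.last (n + 1))) with hπ0
        have hπ1' : 0 ≤ π1 := by positivity
        have hπ0' : 0 ≤ π0 := by positivity
        calc gp R P m q ≤ π1 * gp R P (nextMode m true) (qstep m true q) +
              π0 * gp R P (nextMode m false) (qstep m false q) := h2
          _ ≤ π1 * (u0 * (1 - ε0) ^ j) + π0 * (u0 * (1 - ε0) ^ j) :=
              add_le_add (mul_le_mul_of_nonneg_left (hnext true) hπ1')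
                (mul_le_mul_of_nonneg_left (hnext false) hπ0')
          _ = (π1 + π0) * (u0 * (1 - ε0) ^ j) := by ring
          _ = u0 * (1 - ε0) ^ j := by rw [h3, one_mul]
  intro m q hq hM
  exact main (T0 * (n + 2)) m q hq hM (by omega)

/-- no occurrence at the scales in `S` -/
def PS (w : List Bool) (L : ℕ) (S : Finset ℕ) (X : St n) : Prop :=
  ∀ s ∈ S, ¬ Occ w (L ^ s) (L ^ (s + 1)) X

theorem PS_cl (w : List Bool) (L : ℕ) (S : Finset ℕ) : Cl (PS w L S : St n → Prop) := by
  intro X hX s hs hO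
  exact hX s hs (Occ_of_next hO)

theorem multi (hker : KerStmt n) (w : List Bool) {δ : ℝ} (hδ : 0 < δ) :
    ∃ L : ℕ, 2 ≤ L ∧ ∀ (R : ℝ) (S : Finset ℕ) (m : Bool) (q : Fin (n + 2) → ℕ),
      (∀ i, 0 < q i) → (∀ s ∈ S, Mx q ≤ 2 * L ^ s) →
      gp R (PS w L S) m q ≤ VV n R * δ ^ S.card := by
  obtain ⟨Λ, ε0, hΛ, h0, h1, hd⟩ := decay2 hker w
  obtain ⟨j, hj⟩ := exists_pow_lt_of_lt_one hδ (show 1 - ε0 < 1 by linarith)
  refine ⟨Λ ^ (j + 1), ?_, ?_⟩
  · calc 2 ≤ Λ := hΛ
      _ = Λ ^ 1 := (pow_one Λ).symm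
      _ ≤ Λ ^ (j + 1) := Nat.pow_le_pow_right (by omega) (by omega)
  set L : ℕ := Λ ^ (j + 1) with hL
  have hLpos : 0 < L := pow_pos (by omega) _
  intro R S
  induction S using Finset.induction_on_min with
  | empty =>
    intro m q hq _
    simpa using gp_le_VV R (PS w L ∅) m hq
  | insert a S hlt ih =>
    intro m q hq hS
    have hnot : a ∉ S := fun h => lt_irrefl a (hlt a h)
    rw [Finset.card_insert_of_notMem hnot, pow_succ, ← mul_assoc]
    have hu : 0 ≤ VV n R * δ ^ S.card := mul_nonneg (VV_nonneg R) (pow_nonneg hδ.le _)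
    have key := hd R (L ^ a) (L ^ (a + 1)) (PS w L (insert a S)) (PS_cl w L _)
      (fun X hX => hX a (Finset.mem_insert_self a S)) (VV n R * δ ^ S.card) hu
      (by
        intro m q hq hM
        refine (gp_mono R m hq (Q := PS w L S)
          (fun l hl s hs => hl s (Finset.mem_insert_of_mem hs))).trans (ih m q hq ?_)
        intro s hs
        have h2 : a + 1 ≤ s := hlt s hs
        have h3 : L ^ (a + 1) ≤ L ^ s := Nat.pow_le_pow_right hLpos h2
        omega)
      j
      (by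
        have h2 : 2 * Λ ^ j ≤ L := by
          rw [hL, pow_succ, mul_comm]
          exact Nat.mul_le_mul_left _ hΛ
        calc 2 * L ^ a * Λ ^ j = L ^ a * (2 * Λ ^ j) := by ring
          _ ≤ L ^ a * L := Nat.mul_le_mul_left _ h2
          _ = L ^ (a + 1) := (pow_succ _ _).symm)
      m q hq (hS a (Finset.mem_insert_self a S))
    exact key.trans (mul_le_mul_of_nonneg_left hj.le hu)

theorem block_card (k : ℕ) :
    (Finset.Ico (2 * scale k) (2 * scale (k + 1))).card = 2 * (Nat.sqrt k + 1) := by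
  rw [Nat.card_Ico]
  have e : scale (k + 1) = scale k + (Nat.sqrt k + 1) := by
    unfold scale; rw [Finset.sum_range_succ]
  omega

open Classical in
/-- many scales of the block `k` contain no occurrence -/
def FewGood (w : List Bool) (L k : ℕ) (X : St n) : Prop :=
  ((Finset.Ico (2 * scale k) (2 * scale (k + 1))).filter
    (fun s => Occ w (L ^ s) (L ^ (s + 1)) X)).card < Nat.sqrt k + 1

theorem vol_few (hker : KerStmt n) (w : List Bool) : ∃ L : ℕ, 2 ≤ L ∧ ∀ (R : ℝ) (k : ℕ),
    volume {l : Fin (n + 2) → ℝ | l ∈ Dl R (fun _ => 1) ∧ FewGood w L k (St.init l)} ≤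
      ENNReal.ofReal (VV n R * (1 / 2) ^ Nat.sqrt k) := by
  classical
  obtain ⟨L, hL, hm⟩ := multi hker w (δ := 1 / 8) (by norm_num)
  refine ⟨L, hL, ?_⟩
  intro R k
  set N : ℕ := Nat.sqrt k + 1 with hN
  set Bl : Finset ℕ := Finset.Ico (2 * scale k) (2 * scale (k + 1)) with hBl
  have hone : ∀ i : Fin (n + 2), 0 < (fun _ : Fin (n + 2) => 1) i := fun _ => Nat.one_pos
  have hcover : {l : Fin (n + 2) → ℝ | l ∈ Dl R (fun _ => 1) ∧ FewGood w L k (St.init l)} ⊆
      ⋃ S ∈ Bl.powerset.filter (fun S => S.card = N), BS R (PS w L S) true (fun _ => 1) := by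
    rintro l ⟨hl, hf⟩
    have hf' : (Bl.filter (fun s => Occ w (L ^ s) (L ^ (s + 1)) (St.init l))).card < N := hf
    have hc := Finset.card_filter_add_card_filter_not (s := Bl)
      (fun s => Occ w (L ^ s) (L ^ (s + 1)) (St.init l))
    rw [hBl, block_card k, ← hBl] at hc
    have hN2 : N ≤ (Bl.filter (fun s => ¬ Occ w (L ^ s) (L ^ (s + 1)) (St.init l))).card := by
      omega
    obtain ⟨S, hS1, hS2⟩ := Finset.exists_subset_card_eq hN2
    simp only [mem_iUnion]
    refine ⟨S, ?_, hl, ?_⟩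
    · rw [Finset.mem_filter, Finset.mem_powerset]
      exact ⟨hS1.trans (Finset.filter_subset _ _), hS2⟩
    · intro s hs
      exact (Finset.mem_filter.1 (hS1 hs)).2
  have hone' : ∀ S : Finset ℕ, volume (BS R (PS w L S) true (fun _ : Fin (n + 2) => 1)) ≤
      ENNReal.ofReal (VV n R * (1 / 8) ^ S.card) := by
    intro S
    have hg := hm R S true (fun _ => 1) hone
      (by
        intro s _
        rw [Mx_le_iff]
        intro _
        have : 1 ≤ L ^ s := Nat.one_le_pow _ _ (by omega)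
        omega)
    unfold gp ms at hg
    simp only [Nat.cast_one, Finset.prod_const_one, mul_one] at hg
    rw [← ENNReal.ofReal_toReal (ne_top_of_le_ne_top (Dl_ne_top R hone)
      (measure_mono (BS_sub R (PS w L S) true _)))]
    exact ENNReal.ofReal_le_ofReal hg
  have hV := VV_nonneg (n := n) R
  calc volume {l : Fin (n + 2) → ℝ | l ∈ Dl R (fun _ => 1) ∧ FewGood w L k (St.init l)} ≤
      volume (⋃ S ∈ Bl.powerset.filter (fun S => S.card = N),
        BS R (PS w L S) true (fun _ : Fin (n + 2) => 1)) := measure_mono hcover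
    _ ≤ ∑ S ∈ Bl.powerset.filter (fun S => S.card = N),
        volume (BS R (PS w L S) true (fun _ : Fin (n + 2) => 1)) :=
        measure_biUnion_finset_le _ _
    _ ≤ ∑ _S ∈ Bl.powerset.filter (fun S => S.card = N),
        ENNReal.ofReal (VV n R * (1 / 8) ^ N) := by
        refine Finset.sum_le_sum fun S hS => ?_
        have h2 := hone' S
        rw [(Finset.mem_filter.1 hS).2] at h2
        exact h2
    _ = ((Bl.powerset.filter (fun S => S.card = N)).card : ENNReal) *
        ENNReal.ofReal (VV n R * (1 / 8) ^ N) := by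
        rw [Finset.sum_const, nsmul_eq_mul]
    _ ≤ ((2 ^ (2 * N) : ℕ) : ENNReal) * ENNReal.ofReal (VV n R * (1 / 8) ^ N) := by
        refine mul_le_mul_left ?_ _
        have h2 : (Bl.powerset.filter (fun S => S.card = N)).card ≤ 2 ^ (2 * N) := by
          refine (Finset.card_filter_le _ _).trans ?_
          rw [Finset.card_powerset, hBl, block_card k]
        exact_mod_cast h2
    _ = ENNReal.ofReal (((2 ^ (2 * N) : ℕ) : ℝ) * (VV n R * (1 / 8) ^ N)) := by
        rw [ENNReal.ofReal_mul (Nat.cast_nonneg _), ENNReal.ofReal_natCast]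
    _ ≤ ENNReal.ofReal (VV n R * (1 / 2) ^ Nat.sqrt k) := by
        apply ENNReal.ofReal_le_ofReal
        have e1 : (((2 ^ (2 * N) : ℕ) : ℝ) * (VV n R * (1 / 8) ^ N)) = VV n R * (1 / 2) ^ N := by
          push_cast
          rw [pow_mul, mul_left_comm, ← mul_pow]
          norm_num
        rw [e1]
        refine mul_le_mul_of_nonneg_left ?_ hV
        exact pow_le_pow_of_le_one (by norm_num) (by norm_num) (by omega)

theorem many_of_ker (hker : KerStmt n) (w : List Bool) : ∃ Λ : ℕ, 2 ≤ Λ ∧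
    ∀ᵐ l : Fin (n + 2) → ℝ, (∀ i, 0 < l i) → ∃ k0 : ℕ, ∀ k ≥ k0, ∃ i : ℕ → ℕ,
      (∀ j ≤ Nat.sqrt k,
        (St.next^[i j] (St.init l)).m = true ∧
        Λ ^ scale k ≤ Mx (St.next^[i j] (St.init l)).q ∧
        (St.next^[i j] (St.init l)).Runs w ∧
        Mx (St.next^[i j + w.length] (St.init l)).q < Λ ^ scale (k + 1)) ∧
      ∀ j < Nat.sqrt k, i j + w.length ≤ i (j + 1) := by
  classical
  obtain ⟨L, hL, hv⟩ := vol_few hker w
  refine ⟨L ^ 2, ?_, ?_⟩
  · calc 2 ≤ L := hL
      _ = L ^ 1 := (pow_one L).symm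
      _ ≤ L ^ 2 := Nat.pow_le_pow_right (by omega) (by omega)
  have hae : ∀ R : ℕ, ∀ᵐ l : Fin (n + 2) → ℝ, ∀ᶠ k in atTop,
      l ∉ {l : Fin (n + 2) → ℝ | l ∈ Dl (R : ℝ) (fun _ => 1) ∧ FewGood w L k (St.init l)} := by
    intro R
    apply ae_eventually_notMem
    refine ne_top_of_le_ne_top ?_ (ENNReal.tsum_le_tsum (hv R))
    have hs : Summable fun k : ℕ => VV n R * (1 / 2) ^ Nat.sqrt k :=
      (summable_sqrt (by norm_num) (by norm_num)).mul_left _
    exact hs.tsum_ofReal_ne_top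
  filter_upwards [ae_all_iff.2 hae] with l hl hpos
  obtain ⟨R, hR⟩ := exists_nat_gt (∑ i, l i)
  obtain ⟨k0, hk0⟩ := eventually_atTop.1 (hl R)
  refine ⟨k0, fun k hk => ?_⟩
  have h2 := hk0 k hk
  have h3 : ¬ FewGood w L k (St.init l) := by
    intro hf
    apply h2
    refine ⟨⟨hpos, ?_⟩, hf⟩
    simpa using hR
  set Gd : Finset ℕ := (Finset.Ico (2 * scale k) (2 * scale (k + 1))).filter
    (fun s => Occ w (L ^ s) (L ^ (s + 1)) (St.init l)) with hGd
  have h4 : Nat.sqrt k + 1 ≤ Gd.card := by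
    have : ¬ (Gd.card < Nat.sqrt k + 1) := h3
    omega
  obtain ⟨S, hS1, hS2⟩ := Finset.exists_subset_card_eq h4
  set e := S.orderEmbOfFin hS2 with he
  have hmem : ∀ j : Fin (Nat.sqrt k + 1), e j ∈ Gd := fun j => hS1 (S.orderEmbOfFin_mem hS2 j)
  have hocc : ∀ j : Fin (Nat.sqrt k + 1), Occ w (L ^ e j) (L ^ (e j + 1)) (St.init l) :=
    fun j => (Finset.mem_filter.1 (hmem j)).2
  have hrange : ∀ j : Fin (Nat.sqrt k + 1), 2 * scale k ≤ e j ∧ e j < 2 * scale (k + 1) :=
    fun j => Finset.mem_Ico.1 (Finset.mem_filter.1 (hmem j)).1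
  choose t ht using hocc
  refine ⟨fun j => if h : j < Nat.sqrt k + 1 then t ⟨j, h⟩ else 0, ?_, ?_⟩
  · intro j hj
    have hj' : j < Nat.sqrt k + 1 := Nat.lt_succ_of_le hj
    simp only [dif_pos hj']
    obtain ⟨a1, a2, a3, a4⟩ := ht ⟨j, hj'⟩
    obtain ⟨b1, b2⟩ := hrange ⟨j, hj'⟩
    refine ⟨a1, ?_, a3, ?_⟩
    · rw [← pow_mul]
      exact (Nat.pow_le_pow_right (by omega) b1).trans a2
    · rw [← pow_mul]
      exact lt_of_lt_of_le a4 (Nat.pow_le_pow_right (by omega) b2)
  · intro j hj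
    have hj1 : j < Nat.sqrt k + 1 := by omega
    have hj2 : j + 1 < Nat.sqrt k + 1 := by omega
    simp only [dif_pos hj1, dif_pos hj2]
    obtain ⟨-, -, -, a4⟩ := ht ⟨j, hj1⟩
    obtain ⟨-, b2, -, -⟩ := ht ⟨j + 1, hj2⟩
    have hlt : e ⟨j, hj1⟩ < e ⟨j + 1, hj2⟩ := by
      apply e.strictMono
      exact Nat.lt_succ_self j
    by_contra hcon
    have hcon' : t ⟨j + 1, hj2⟩ ≤ t ⟨j, hj1⟩ + w.length := by omega
    obtain ⟨d, hd⟩ := Nat.exists_eq_add_of_le hcon'
    have h5 := Mx_le_iter (St.next^[t ⟨j + 1, hj2⟩] (St.init l)) d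
    rw [← Function.iterate_add_apply] at h5
    have e1 : d + t ⟨j + 1, hj2⟩ = t ⟨j, hj1⟩ + w.length := by omega
    rw [e1] at h5
    have h6 : L ^ (e ⟨j, hj1⟩ + 1) ≤ L ^ e ⟨j + 1, hj2⟩ := Nat.pow_le_pow_right (by omega) hlt
    omega

end Meas2

theorem ae_occurs_many (n : ℕ) (w : List Bool) (hw : w ≠ []) : ∃ Λ : ℕ, 2 ≤ Λ ∧
    ∀ᵐ l : Fin (n + 2) → ℝ, (∀ i, 0 < l i) → ∃ k0 : ℕ, ∀ k ≥ k0, ∃ i : ℕ → ℕ,
      (∀ j ≤ Nat.sqrt k,
        (St.next^[i j] (St.init l)).m = true ∧
        Λ ^ scale k ≤ Mx (St.next^[i j] (St.init l)).q ∧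
        (St.next^[i j] (St.init l)).Runs w ∧
        Mx (St.next^[i j + w.length] (St.init l)).q < Λ ^ scale (k + 1)) ∧
      ∀ j < Nat.sqrt k, i j + w.length ≤ i (j + 1) := by
  have _ := hw
  exact Meas2.many_of_ker (ker n) w

end Pool.Agent.Helper22.Rev
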