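import Pool.Agent.Helper22.Rev.Defs
import Pool.Agent.Helper22.Rev.Ker

/-!
# RV-4: almost every length vector has frequent good patterns
-/

set_option autoImplicit false

open Set Filter Topology MeasureTheory

namespace Pool.Agent.Helper22.Rev

namespace Meas

variable {n : ℕ}

/-- the rearrangement as an index map -/
def ix (m o : Bool) : Fin (n + 2) → Fin (n + 2) := arr m o id

theorem rot_comp {K : Type*} (v : Fin (n + 2) → K) : rot v = v ∘ rot id := by
  funext i
  refine Fin.cases ?_ (fun j => ?_) i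
  · rfl
  · refine Fin.cases ?_ (fun k => ?_) j
    · rfl
    · rfl

theorem arr_eq {K : Type*} (m o : Bool) (v : Fin (n + 2) → K) : arr m o v = v ∘ ix m o := by
  cases m <;> cases o
  · rfl
  · exact rot_comp v
  · rfl
  · rfl

theorem rot_inj : Function.Injective (rot (id : Fin (n + 2) → Fin (n + 2))) := by
  intro i j
  refine Fin.cases ?_ (fun i => ?_) i <;> refine Fin.cases ?_ (fun j => ?_) j
  · intro _; rfl
  · refine Fin.cases ?_ (fun j => ?_) j
    · intro h
      exfalso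
      have : (0 : Fin (n + 2)) = Fin.last (n + 1) := h
      have := congrArg Fin.val this
      simp at this
    · intro h
      exfalso
      have : (0 : Fin (n + 2)) = j.castSucc.succ := h
      exact (Fin.succ_ne_zero _).symm this
  · refine Fin.cases ?_ (fun i => ?_) i
    · intro h
      exfalso
      have : Fin.last (n + 1) = (0 : Fin (n + 2)) := h
      have := congrArg Fin.val this
      simp at this
    · intro h
      exfalso
      have : i.castSucc.succ = (0 : Fin (n + 2)) := h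
      exact (Fin.succ_ne_zero _) this
  · refine Fin.cases ?_ (fun i => ?_) i <;> refine Fin.cases ?_ (fun j => ?_) j
    · intro _; rfl
    · intro h
      exfalso
      have : Fin.last (n + 1) = j.castSucc.succ := h
      have := congrArg Fin.val this
      simp at this
      omega
    · intro h
      exfalso
      have : i.castSucc.succ = Fin.last (n + 1) := h
      have := congrArg Fin.val this
      simp at this
      omega
    · intro h
      have h' : i.castSucc.succ = j.castSucc.succ := h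
      have h2 := congrArg Fin.val h'
      simp at h2
      have : i = j := Fin.ext h2
      rw [this]

theorem ix_inj (m o : Bool) : Function.Injective (ix m o : Fin (n + 2) → Fin (n + 2)) := by
  cases m <;> cases o
  · exact Function.injective_id
  · exact rot_inj
  · exact Fin.rev_injective
  · exact Function.injective_id

/-- the rearrangement as a permutation -/
noncomputable def sg (m o : Bool) : Equiv.Perm (Fin (n + 2)) :=
  Equiv.ofBijective (ix m o) (Finite.injective_iff_bijective.1 (ix_inj m o))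

theorem arr_sg {K : Type*} (m o : Bool) (v : Fin (n + 2) → K) :
    arr m o v = fun i => v (sg m o i) := by
  rw [arr_eq]; rfl

theorem z_ne : (0 : Fin (n + 2)) ≠ Fin.last (n + 1) := by
  intro h
  have := congrArg Fin.val h
  simp at this

/-- heights before the rearrangement -/
def qadd (o : Bool) (q : Fin (n + 2) → ℕ) : Fin (n + 2) → ℕ :=
  if o then Function.update q (Fin.last (n + 1)) (q (Fin.last (n + 1)) + q 0)
    else Function.update q 0 (q 0 + q (Fin.last (n + 1)))

/-- lengths before the rearrangement -/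
def lsub (o : Bool) (l : Fin (n + 2) → ℝ) : Fin (n + 2) → ℝ :=
  if o then Function.update l 0 (l 0 - l (Fin.last (n + 1)))
    else Function.update l (Fin.last (n + 1)) (l (Fin.last (n + 1)) - l 0)

theorem qstep_eq (m o : Bool) (q : Fin (n + 2) → ℕ) :
    qstep m o q = fun i => qadd o q (sg m o i) := by
  rw [qstep, arr_sg]; rfl

theorem lstep_eq (m o : Bool) (l : Fin (n + 2) → ℝ) :
    lstep m o l = fun i => lsub o l (sg m o i) := by
  rw [lstep, arr_sg]; rfl

/-- loser's position -/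
def lo (o : Bool) : Fin (n + 2) := if o then Fin.last (n + 1) else 0
/-- winner's position -/
def wi (o : Bool) : Fin (n + 2) := if o then 0 else Fin.last (n + 1)

theorem lo_ne (o : Bool) : (lo o : Fin (n + 2)) ≠ wi o := by
  cases o
  · exact z_ne
  · exact z_ne.symm

theorem qadd_eq (o : Bool) (q : Fin (n + 2) → ℕ) :
    qadd o q = Function.update q (lo o) (q (lo o) + q (wi o)) := by
  cases o <;> rfl

theorem lsub_eq (o : Bool) (l : Fin (n + 2) → ℝ) :
    lsub o l = Function.update l (wi o) (l (wi o) - l (lo o)) := by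
  cases o <;> rfl

theorem qadd_ge (o : Bool) (q : Fin (n + 2) → ℕ) (i : Fin (n + 2)) : q i ≤ qadd o q i := by
  rw [qadd_eq]
  by_cases h : i = lo o
  · subst h; simp
  · simp [Function.update_of_ne h]

theorem Mx_le_iff {q : Fin (n + 2) → ℕ} {B : ℕ} : Mx q ≤ B ↔ ∀ i, q i ≤ B := by
  unfold Mx
  simp [Finset.sup_le_iff]

theorem le_Mx (q : Fin (n + 2) → ℕ) (i : Fin (n + 2)) : q i ≤ Mx q :=
  Mx_le_iff.1 le_rfl i

theorem Mx_pos {q : Fin (n + 2) → ℕ} (hq : ∀ i, 0 < q i) : 0 < Mx q :=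
  lt_of_lt_of_le (hq 0) (le_Mx q 0)

theorem Mx_qstep_le (m o : Bool) (q : Fin (n + 2) → ℕ) : Mx (qstep m o q) ≤ 2 * Mx q := by
  rw [Mx_le_iff]
  intro i
  rw [qstep_eq]
  show qadd o q (sg m o i) ≤ _
  rw [qadd_eq]
  by_cases h : sg m o i = lo o
  · rw [h]
    simp only [Function.update_self]
    have := le_Mx q (lo o)
    have := le_Mx q (wi o)
    omega
  · rw [Function.update_of_ne h]
    have := le_Mx q (sg m o i)
    omega

theorem Mx_le_qstep (m o : Bool) (q : Fin (n + 2) → ℕ) : Mx q ≤ Mx (qstep m o q) := by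
  rw [Mx_le_iff]
  intro i
  have h1 := le_Mx (qstep m o q) ((sg m o).symm i)
  rw [qstep_eq] at h1
  simp only [Equiv.apply_symm_apply] at h1
  rw [← qstep_eq] at h1
  exact (qadd_ge o q i).trans h1

theorem qstep_pos (m o : Bool) {q : Fin (n + 2) → ℕ} (hq : ∀ i, 0 < q i) :
    ∀ i, 0 < qstep m o q i := by
  intro i
  rw [qstep_eq]
  exact lt_of_lt_of_le (hq _) (qadd_ge o q _)

theorem sum_qstep (m o : Bool) (q : Fin (n + 2) → ℕ) :
    ∑ i, qstep m o q i = (∑ i, q i) + q (wi o) := by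
  rw [qstep_eq, Equiv.sum_comp (sg m o) (fun i => qadd o q i), qadd_eq]
  have h : ∀ i, Function.update q (lo o) (q (lo o) + q (wi o)) i =
      q i + (if i = lo o then q (wi o) else 0) := by
    intro i
    by_cases h : i = lo o
    · subst h; simp
    · simp [Function.update_of_ne h, h]
  simp_rw [h, Finset.sum_add_distrib]
  simp

theorem prod_qstep (m o : Bool) (q : Fin (n + 2) → ℕ) :
    (∏ i, (qstep m o q i : ℝ)) * q (lo o) = (∏ i, (q i : ℝ)) * (q (lo o) + q (wi o)) := by
  rw [qstep_eq, Equiv.prod_comp (sg m o) (fun i => (qadd o q i : ℝ)), qadd_eq]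
  rw [← Finset.mul_prod_erase Finset.univ _ (Finset.mem_univ (lo o)),
    ← Finset.mul_prod_erase Finset.univ (fun i => (q i : ℝ)) (Finset.mem_univ (lo o))]
  have h : ∏ x ∈ Finset.univ.erase (lo o),
      ((Function.update q (lo o) (q (lo o) + q (wi o)) x : ℕ) : ℝ) =
      ∏ x ∈ Finset.univ.erase (lo o), (q x : ℝ) := by
    refine Finset.prod_congr rfl fun x hx => ?_
    rw [Function.update_of_ne (Finset.ne_of_mem_erase hx)]
  rw [h, Function.update_self]
  push_cast
  ring

theorem sum_mul_step (m o : Bool) (q : Fin (n + 2) → ℕ) (l : Fin (n + 2) → ℝ) :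
    ∑ i, (qstep m o q i : ℝ) * lstep m o l i = ∑ i, (q i : ℝ) * l i := by
  rw [qstep_eq, lstep_eq]
  rw [Equiv.sum_comp (sg m o) (fun i => (qadd o q i : ℝ) * lsub o l i), qadd_eq, lsub_eq]
  have h : ∀ i, ((Function.update q (lo o) (q (lo o) + q (wi o)) i : ℕ) : ℝ) *
      Function.update l (wi o) (l (wi o) - l (lo o)) i =
      q i * l i + ((if i = lo o then (q (wi o) : ℝ) * l (lo o) else 0) -
        (if i = wi o then (q (wi o) : ℝ) * l (lo o) else 0)) := by
    intro i
    by_cases h1 : i = lo o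
    · subst h1
      rw [Function.update_self, Function.update_of_ne (lo_ne o), if_pos rfl, if_neg (lo_ne o)]
      push_cast
      ring
    · by_cases h2 : i = wi o
      · subst h2
        rw [Function.update_self, Function.update_of_ne h1, if_neg h1, if_pos rfl]
        ring
      · rw [Function.update_of_ne h1, Function.update_of_ne h2, if_neg h1, if_neg h2]
        ring
  simp_rw [h, Finset.sum_add_distrib, Finset.sum_sub_distrib]
  simp

theorem lstep_pos (m o : Bool) {l : Fin (n + 2) → ℝ} (hl : ∀ i, 0 < l i)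
    (h : l (lo o) < l (wi o)) : ∀ i, 0 < lstep m o l i := by
  intro i
  rw [lstep_eq]
  show 0 < lsub o l (sg m o i)
  rw [lsub_eq]
  by_cases h2 : sg m o i = wi o
  · rw [h2, Function.update_self]
    linarith
  · rw [Function.update_of_ne h2]
    exact hl _

theorem outc_of_lt {o : Bool} {l : Fin (n + 2) → ℝ} (h : l (lo o) < l (wi o)) : outc l = o := by
  unfold outc
  cases o
  · have h' : l 0 < l (Fin.last (n + 1)) := h
    simp only [decide_eq_false_iff_not, not_lt]
    exact h'.le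
  · have h' : l (Fin.last (n + 1)) < l 0 := h
    simp only [decide_eq_true_eq]
    exact h'

/-! ### measure -/

theorem mp_perm (σ : Equiv.Perm (Fin (n + 2))) :
    MeasurePreserving (fun (v : Fin (n + 2) → ℝ) => fun i => v (σ i)) volume volume := by
  have h := volume_measurePreserving_piCongrLeft (fun _ : Fin (n + 2) => ℝ) σ.symm
  have e : (MeasurableEquiv.piCongrLeft (fun _ : Fin (n + 2) => ℝ) σ.symm : _ → _) =
      (fun (v : Fin (n + 2) → ℝ) => fun i => v (σ i)) := by
    funext v i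
    have := MeasurableEquiv.piCongrLeft_apply_apply (β := fun _ : Fin (n + 2) => ℝ) σ.symm v (σ i)
    simpa using this
  rw [← e]
  exact h

theorem mp_lsub (o : Bool) :
    MeasurePreserving (lsub o : (Fin (n + 2) → ℝ) → (Fin (n + 2) → ℝ)) volume volume := by
  have h := Real.volume_preserving_transvectionStruct
    (⟨wi o, lo o, (lo_ne o).symm, -1⟩ : Matrix.TransvectionStruct (Fin (n + 2)) ℝ)
  have e : (Matrix.toLin' (Matrix.TransvectionStruct.toMatrix
    (⟨wi o, lo o, (lo_ne o).symm, -1⟩ : Matrix.TransvectionStruct (Fin (n + 2)) ℝ)) : _ → _) =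
      (lsub o : (Fin (n + 2) → ℝ) → (Fin (n + 2) → ℝ)) := by
    funext v i
    rw [lsub_eq]
    simp only [Matrix.TransvectionStruct.toMatrix_mk, Matrix.transvection, Matrix.toLin'_apply,
      Matrix.add_mulVec, Matrix.one_mulVec, Pi.add_apply]
    by_cases h : i = wi o
    · subst h
      simp [Matrix.mulVec, dotProduct, Matrix.single_apply]
      ring
    · have h' : wi o ≠ i := fun h2 => h h2.symm
      simp [Matrix.mulVec, dotProduct, Matrix.single_apply, h, h', Function.update_of_ne]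
  rw [← e]
  exact h

theorem mp_lstep (m o : Bool) :
    MeasurePreserving (lstep m o : (Fin (n + 2) → ℝ) → (Fin (n + 2) → ℝ)) volume volume := by
  have h := (mp_perm (sg m o)).comp (mp_lsub (n := n) o)
  have e : (lstep m o : (Fin (n + 2) → ℝ) → (Fin (n + 2) → ℝ)) =
      (fun (v : Fin (n + 2) → ℝ) => fun i => v (sg m o i)) ∘ lsub o := by
    funext l
    rw [lstep_eq]; rfl
  rw [e]
  exact h

theorem tie_null : volume {l : Fin (n + 2) → ℝ | l 0 = l (Fin.last (n + 1))} = 0 := by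
  let f : (Fin (n + 2) → ℝ) →ₗ[ℝ] ℝ :=
    LinearMap.proj (R := ℝ) (φ := fun _ : Fin (n + 2) => ℝ) 0 -
      LinearMap.proj (R := ℝ) (φ := fun _ : Fin (n + 2) => ℝ) (Fin.last (n + 1))
  have h : {l : Fin (n + 2) → ℝ | l 0 = l (Fin.last (n + 1))} = (LinearMap.ker f : Set _) := by
    ext l
    simp [f, sub_eq_zero]
  rw [h]
  apply Measure.addHaar_submodule
  intro htop
  have : (Pi.single 0 1 : Fin (n + 2) → ℝ) ∈ LinearMap.ker f := by rw [htop]; trivial
  simp [f, z_ne.symm, z_ne] at this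

/-- simplices -/
def Dl (R : ℝ) (q : Fin (n + 2) → ℕ) : Set (Fin (n + 2) → ℝ) :=
  {l | (∀ i, 0 < l i) ∧ ∑ i, (q i : ℝ) * l i < R}

theorem lstep_mem {R : ℝ} {q : Fin (n + 2) → ℕ} (m o : Bool) {l : Fin (n + 2) → ℝ}
    (hl : l ∈ Dl R q) (h : l (lo o) < l (wi o)) : lstep m o l ∈ Dl R (qstep m o q) := by
  refine ⟨lstep_pos m o hl.1 h, ?_⟩
  rw [sum_mul_step]
  exact hl.2

theorem Dl_one_ne_top (R : ℝ) : volume (Dl R (fun _ => 1) : Set (Fin (n + 2) → ℝ)) ≠ ⊤ := by
  have h : (Dl R (fun _ => 1) : Set (Fin (n + 2) → ℝ)) ⊆ Icc (fun _ => 0) (fun _ => R) := by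
    intro l hl
    constructor
    · intro i
      exact (hl.1 i).le
    · intro i
      have h1 : l i ≤ ∑ j, l j :=
        Finset.single_le_sum (fun j _ => (hl.1 j).le) (Finset.mem_univ i)
      have h2 := hl.2
      simp only [Nat.cast_one, one_mul] at h2
      exact (h1.trans h2.le)
  refine ne_top_of_le_ne_top ?_ (measure_mono h)
  exact (isCompact_Icc.measure_lt_top).ne

theorem volume_Dl (R : ℝ) {q : Fin (n + 2) → ℕ} (hq : ∀ i, 0 < q i) :
    volume (Dl R q) = ENNReal.ofReal |(∏ i, (q i : ℝ))⁻¹| *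
      volume (Dl R (fun _ => 1) : Set (Fin (n + 2) → ℝ)) := by
  have hq' : ∀ i, (0 : ℝ) < q i := fun i => by exact_mod_cast hq i
  have hd : LinearMap.det (Matrix.toLin' (Matrix.diagonal fun i => (q i : ℝ))) =
      ∏ i, (q i : ℝ) := by
    rw [LinearMap.det_toLin', Matrix.det_diagonal]
  have hne : LinearMap.det (Matrix.toLin' (Matrix.diagonal fun i => (q i : ℝ))) ≠ 0 := by
    rw [hd]
    exact (Finset.prod_pos fun i _ => hq' i).ne'
  have h := Measure.addHaar_preimage_linearMap (volume : Measure (Fin (n + 2) → ℝ)) hne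
    (Dl R (fun _ => 1))
  rw [hd] at h
  rw [← h]
  congr 1
  ext l
  simp only [Dl, mem_ofPred_eq, mem_preimage, Matrix.toLin'_apply, Matrix.mulVec_diagonal,
    Nat.cast_one, one_mul]
  constructor
  · rintro ⟨h1, h2⟩
    exact ⟨fun i => mul_pos (hq' i) (h1 i), h2⟩
  · rintro ⟨h1, h2⟩
    exact ⟨fun i => (mul_pos_iff_of_pos_left (hq' i)).1 (h1 i), h2⟩

theorem Dl_ne_top (R : ℝ) {q : Fin (n + 2) → ℕ} (hq : ∀ i, 0 < q i) : volume (Dl R q) ≠ ⊤ := by
  rw [volume_Dl R hq]
  exact ENNReal.mul_ne_top ENNReal.ofReal_ne_top (Dl_one_ne_top R)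

/-- normalised mass -/
noncomputable def ms (q : Fin (n + 2) → ℕ) (A : Set (Fin (n + 2) → ℝ)) : ℝ :=
  (volume A).toReal * ∏ i, (q i : ℝ)

theorem ms_nonneg (q : Fin (n + 2) → ℕ) (A : Set (Fin (n + 2) → ℝ)) : 0 ≤ ms q A :=
  mul_nonneg ENNReal.toReal_nonneg (Finset.prod_nonneg fun i _ => Nat.cast_nonneg _)

theorem ms_mono {R : ℝ} {q : Fin (n + 2) → ℕ} (hq : ∀ i, 0 < q i)
    {A B : Set (Fin (n + 2) → ℝ)} (hB : B ⊆ Dl R q) (h : A ⊆ B) : ms q A ≤ ms q B := by
  refine mul_le_mul_of_nonneg_right ?_ (Finset.prod_nonneg fun i _ => Nat.cast_nonneg _)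
  exact ENNReal.toReal_mono (ne_top_of_le_ne_top (Dl_ne_top R hq) (measure_mono hB))
    (measure_mono h)

/-- volume of the big simplex -/
noncomputable def VV (n : ℕ) (R : ℝ) : ℝ :=
  (volume (Dl R (fun _ => 1) : Set (Fin (n + 2) → ℝ))).toReal

theorem VV_nonneg (R : ℝ) : 0 ≤ VV n R := ENNReal.toReal_nonneg

theorem ms_Dl (R : ℝ) {q : Fin (n + 2) → ℕ} (hq : ∀ i, 0 < q i) : ms q (Dl R q) = VV n R := by
  have hq' : (0 : ℝ) < ∏ i, (q i : ℝ) := Finset.prod_pos fun i _ => by exact_mod_cast hq i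
  unfold ms VV
  rw [volume_Dl R hq, ENNReal.toReal_mul, ENNReal.toReal_ofReal (abs_nonneg _), abs_of_pos
    (inv_pos.2 hq')]
  field_simp

theorem ms_split {R : ℝ} (m : Bool) {q : Fin (n + 2) → ℕ} (hq : ∀ i, 0 < q i)
    {A : Set (Fin (n + 2) → ℝ)} {A' : Bool → Set (Fin (n + 2) → ℝ)}
    (hA' : ∀ o, A' o ⊆ Dl R (qstep m o q))
    (hs : ∀ o, ∀ l ∈ A, l (lo o) < l (wi o) → lstep m o l ∈ A' o) :
    ms q A ≤ (q (Fin.last (n + 1)) : ℝ) / (q 0 + q (Fin.last (n + 1))) *
        ms (qstep m true q) (A' true) +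
      (q 0 : ℝ) / (q 0 + q (Fin.last (n + 1))) * ms (qstep m false q) (A' false) := by
  have hsub : A ⊆ ((lstep m true) ⁻¹' A' true ∪ (lstep m false) ⁻¹' A' false) ∪
      {l : Fin (n + 2) → ℝ | l 0 = l (Fin.last (n + 1))} := by
    intro l hl
    rcases lt_trichotomy (l 0) (l (Fin.last (n + 1))) with h | h | h
    · exact Or.inl (Or.inr (hs false l hl h))
    · exact Or.inr h
    · exact Or.inl (Or.inl (hs true l hl h))
  have hle : volume A ≤ volume (A' true) + volume (A' false) := by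
    calc volume A ≤ volume (((lstep m true) ⁻¹' A' true ∪ (lstep m false) ⁻¹' A' false) ∪
          {l : Fin (n + 2) → ℝ | l 0 = l (Fin.last (n + 1))}) := measure_mono hsub
      _ ≤ volume ((lstep m true) ⁻¹' A' true ∪ (lstep m false) ⁻¹' A' false) +
          volume {l : Fin (n + 2) → ℝ | l 0 = l (Fin.last (n + 1))} := measure_union_le _ _
      _ = volume ((lstep m true) ⁻¹' A' true ∪ (lstep m false) ⁻¹' A' false) := by
          rw [tie_null, add_zero]
      _ ≤ volume ((lstep m true) ⁻¹' A' true) + volume ((lstep m false) ⁻¹' A' false) :=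
          measure_union_le _ _
      _ ≤ volume (A' true) + volume (A' false) := by
          refine add_le_add ?_ ?_
          · calc volume ((lstep m true) ⁻¹' A' true) ≤ (volume.map (lstep m true)) (A' true) :=
                Measure.le_map_apply (mp_lstep m true).measurable.aemeasurable _
              _ = volume (A' true) := by rw [(mp_lstep m true).map_eq]
          · calc volume ((lstep m false) ⁻¹' A' false) ≤ (volume.map (lstep m false)) (A' false) :=
                Measure.le_map_apply (mp_lstep m false).measurable.aemeasurable _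
              _ = volume (A' false) := by rw [(mp_lstep m false).map_eq]
  have hfin : ∀ o, volume (A' o) ≠ ⊤ := fun o =>
    ne_top_of_le_ne_top (Dl_ne_top R (qstep_pos m o hq)) (measure_mono (hA' o))
  have hreal : (volume A).toReal ≤ (volume (A' true)).toReal + (volume (A' false)).toReal := by
    rw [← ENNReal.toReal_add (hfin true) (hfin false)]
    exact ENNReal.toReal_mono (ENNReal.add_ne_top.2 ⟨hfin true, hfin false⟩) hle
  have h0 : (0 : ℝ) < q 0 := by exact_mod_cast hq 0
  have h1 : (0 : ℝ) < q (Fin.last (n + 1)) := by exact_mod_cast hq _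
  have p1 := prod_qstep m true q
  have p0 := prod_qstep m false q
  simp only [lo, wi, if_true, Bool.false_eq_true, if_false] at p1 p0
  have e1 : (q (Fin.last (n + 1)) : ℝ) / (q 0 + q (Fin.last (n + 1))) *
      ∏ i, (qstep m true q i : ℝ) = ∏ i, (q i : ℝ) := by
    rw [div_mul_eq_mul_div, div_eq_iff (by positivity), mul_comm, p1]
    ring
  have e0 : (q 0 : ℝ) / (q 0 + q (Fin.last (n + 1))) *
      ∏ i, (qstep m false q i : ℝ) = ∏ i, (q i : ℝ) := by
    rw [div_mul_eq_mul_div, div_eq_iff (by positivity), mul_comm, p0]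
  have hP : (0 : ℝ) ≤ ∏ i, (q i : ℝ) := Finset.prod_nonneg fun i _ => Nat.cast_nonneg _
  calc ms q A = (volume A).toReal * ∏ i, (q i : ℝ) := rfl
    _ ≤ ((volume (A' true)).toReal + (volume (A' false)).toReal) * ∏ i, (q i : ℝ) :=
        mul_le_mul_of_nonneg_right hreal hP
    _ = (volume (A' true)).toReal * ∏ i, (q i : ℝ) +
        (volume (A' false)).toReal * ∏ i, (q i : ℝ) := by ring
    _ = (volume (A' true)).toReal * ((q (Fin.last (n + 1)) : ℝ) /
          (q 0 + q (Fin.last (n + 1))) * ∏ i, (qstep m true q i : ℝ)) +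
        (volume (A' false)).toReal * ((q 0 : ℝ) / (q 0 + q (Fin.last (n + 1))) *
          ∏ i, (qstep m false q i : ℝ)) := by rw [e1, e0]
    _ = _ := by unfold ms; ring

/-! ### bad sets -/

/-- the pattern `w` occurs at a time when the largest height is between `T0` and `T` -/
def Occ (w : List Bool) (T0 T : ℕ) (X : St n) : Prop :=
  ∃ i, (St.next^[i] X).m = true ∧ T0 ≤ Mx (St.next^[i] X).q ∧ (St.next^[i] X).Runs w ∧
    Mx (St.next^[i + w.length] X).q < T

theorem Occ_of_next {w : List Bool} {T0 T : ℕ} {X : St n} (h : Occ w T0 T X.next) :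
    Occ w T0 T X := by
  obtain ⟨i, h1, h2, h3, h4⟩ := h
  refine ⟨i + 1, ?_, ?_, ?_, ?_⟩
  · rw [Function.iterate_succ_apply]; exact h1
  · rw [Function.iterate_succ_apply]; exact h2
  · rw [Function.iterate_succ_apply]; exact h3
  · have e : i + 1 + w.length = (i + w.length) + 1 := by omega
    rw [e, Function.iterate_succ_apply]; exact h4

/-- no occurrence -/
def Bad (R : ℝ) (w : List Bool) (T0 T : ℕ) (m : Bool) (q : Fin (n + 2) → ℕ) :
    Set (Fin (n + 2) → ℝ) :=
  {l | l ∈ Dl R q ∧ ¬ Occ w T0 T ⟨m, l, q⟩}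

theorem next_eq {m o : Bool} {q : Fin (n + 2) → ℕ} {l : Fin (n + 2) → ℝ}
    (h : l (lo o) < l (wi o)) :
    St.next ⟨m, l, q⟩ = ⟨nextMode m o, lstep m o l, qstep m o q⟩ := by
  unfold St.next
  simp only [outc_of_lt h]

theorem Bad_sub (R : ℝ) (w : List Bool) (T0 T : ℕ) (m : Bool) (q : Fin (n + 2) → ℕ) :
    Bad R w T0 T m q ⊆ Dl R q := fun _ h => h.1

theorem Bad_step {R : ℝ} {w : List Bool} {T0 T : ℕ} {m o : Bool} {q : Fin (n + 2) → ℕ}
    {l : Fin (n + 2) → ℝ} (hl : l ∈ Bad R w T0 T m q) (h : l (lo o) < l (wi o)) :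
    lstep m o l ∈ Bad R w T0 T (nextMode m o) (qstep m o q) := by
  refine ⟨lstep_mem m o hl.1 h, fun hO => hl.2 ?_⟩
  apply Occ_of_next
  rw [next_eq h]
  exact hO

/-- mass of the bad set -/
noncomputable def gb (R : ℝ) (w : List Bool) (T0 T : ℕ) (m : Bool) (q : Fin (n + 2) → ℕ) : ℝ :=
  ms q (Bad R w T0 T m q)

theorem gb_le (R : ℝ) (w : List Bool) (T0 T : ℕ) (m : Bool) {q : Fin (n + 2) → ℕ}
    (hq : ∀ i, 0 < q i) :
    gb R w T0 T m q ≤ (q (Fin.last (n + 1)) : ℝ) / (q 0 + q (Fin.last (n + 1))) *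
        gb R w T0 T (nextMode m true) (qstep m true q) +
      (q 0 : ℝ) / (q 0 + q (Fin.last (n + 1))) *
        gb R w T0 T (nextMode m false) (qstep m false q) :=
  ms_split (A' := fun o => Bad R w T0 T (nextMode m o) (qstep m o q)) m hq
    (fun o => Bad_sub _ _ _ _ _ _) (fun _ _ hl h => Bad_step hl h)

theorem gb_le_VV (R : ℝ) (w : List Bool) (T0 T : ℕ) (m : Bool) {q : Fin (n + 2) → ℕ}
    (hq : ∀ i, 0 < q i) : gb R w T0 T m q ≤ VV n R := by
  rw [← ms_Dl R hq]
  exact ms_mono hq le_rfl (Bad_sub _ _ _ _ _ _)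

theorem probs {q : Fin (n + 2) → ℕ} (hq : ∀ i, 0 < q i) :
    (q (Fin.last (n + 1)) : ℝ) / (q 0 + q (Fin.last (n + 1))) +
      (q 0 : ℝ) / (q 0 + q (Fin.last (n + 1))) = 1 := by
  have h0 : (0 : ℝ) < q 0 := by exact_mod_cast hq 0
  have h1 : (0 : ℝ) < q (Fin.last (n + 1)) := by exact_mod_cast hq _
  field_simp
  ring

/-- the bad points which do not follow `v` -/
theorem path_bound {R : ℝ} {w : List Bool} {T0 T T1 : ℕ} {u : ℝ} (hu : 0 ≤ u)
    (hV : ∀ m (q : Fin (n + 2) → ℕ), (∀ i, 0 < q i) → Mx q ≤ T1 → gb R w T0 T m q ≤ u)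
    (v : List Bool) : ∀ (m : Bool) (q : Fin (n + 2) → ℕ) (θ M : ℝ), (∀ i, 0 < q i) → 0 < θ →
      0 < M → (∀ i, θ ≤ q i) → (∀ i, (q i : ℝ) ≤ M) → 2 ^ v.length * Mx q ≤ T1 →
      ms q {l | l ∈ Bad R w T0 T m q ∧ ¬ (St.Runs ⟨m, l, q⟩ v)} ≤
        (1 - (θ / (2 ^ v.length * M)) ^ v.length) * u := by
  induction v with
  | nil =>
    intro m q θ M hq hθ hM h1 h2 h3
    have : {l | l ∈ Bad R w T0 T m q ∧ ¬ (St.Runs ⟨m, l, q⟩ [])} = ∅ := by
      ext l
      simp [St.Runs]
    rw [this]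
    simp [ms]
  | cons o v ih =>
    intro m q θ M hq hθ hM h1 h2 h3
    have h0' : (0 : ℝ) < q 0 := by exact_mod_cast hq 0
    have h1' : (0 : ℝ) < q (Fin.last (n + 1)) := by exact_mod_cast hq _
    -- the two pieces
    have hsp := ms_split (R := R) (A := {l | l ∈ Bad R w T0 T m q ∧ ¬ (St.Runs ⟨m, l, q⟩ (o :: v))})
      (A' := fun o' => if o' = o then
        {l | l ∈ Bad R w T0 T (nextMode m o') (qstep m o' q) ∧
          ¬ (St.Runs ⟨nextMode m o', l, qstep m o' q⟩ v)} else
        Bad R w T0 T (nextMode m o') (qstep m o' q)) m hq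
      (by
        intro o'
        split_ifs
        · intro l hl; exact hl.1.1
        · intro l hl; exact hl.1)
      (by
        intro o' l hl h
        have hb := Bad_step hl.1 h
        split_ifs with hoo
        · refine ⟨hb, fun hr => hl.2 ?_⟩
          subst hoo
          refine ⟨outc_of_lt h, ?_⟩
          rw [next_eq h]
          exact hr
        · exact hb)
    have hlen : (2 : ℕ) ^ v.length * Mx (qstep m o q) ≤ T1 := by
      have := Mx_qstep_le m o q
      have e : 2 ^ (o :: v).length * Mx q = 2 ^ v.length * (2 * Mx q) := by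
        rw [List.length_cons]; ring
      rw [e] at h3
      exact (Nat.mul_le_mul_left _ this).trans h3
    have hMx : Mx q ≤ 2 ^ (o :: v).length * Mx q := Nat.le_mul_of_pos_left _ (by positivity)
    have hsib : ∀ o', gb R w T0 T (nextMode m o') (qstep m o' q) ≤ u := by
      intro o'
      apply hV _ _ (qstep_pos m o' hq)
      have := Mx_qstep_le m o' q
      have e : 2 ^ (o :: v).length * Mx q = 2 ^ v.length * (2 * Mx q) := by
        rw [List.length_cons]; ring
      have : 2 * Mx q ≤ 2 ^ v.length * (2 * Mx q) := Nat.le_mul_of_pos_left _ (by positivity)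
      omega
    have hrec := ih (nextMode m o) (qstep m o q) θ (2 * M) (qstep_pos m o hq) hθ (by positivity)
      (by
        intro i
        rw [qstep_eq]
        have := qadd_ge o q (sg m o i)
        have h5 : (q (sg m o i) : ℝ) ≤ (qadd o q (sg m o i) : ℝ) := by exact_mod_cast this
        exact (h1 _).trans h5)
      (by
        intro i
        have h5 : (qstep m o q i : ℝ) ≤ 2 * (Mx q : ℝ) := by
          exact_mod_cast (le_Mx _ i).trans (Mx_qstep_le m o q)
        have h6 : (Mx q : ℝ) ≤ M := by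
          obtain ⟨j, -, hj⟩ := Finset.exists_mem_eq_sup Finset.univ Finset.univ_nonempty q
          unfold Mx
          rw [hj]
          exact h2 j
        linarith)
      hlen
    set κ' : ℝ := (θ / (2 ^ v.length * (2 * M))) ^ v.length with hκ'
    set κ : ℝ := (θ / (2 ^ (o :: v).length * M)) ^ (o :: v).length with hκ
    have hκ0 : 0 ≤ κ' := by positivity
    -- comparison of the constants
    have hκκ : ∀ p : ℝ, θ / (2 * M) ≤ p → κ ≤ p * κ' := by
      intro p hp
      have e1 : κ = (θ / (2 ^ v.length * (2 * M))) ^ v.length *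
          (θ / (2 ^ v.length * (2 * M))) := by
        rw [hκ, List.length_cons, pow_succ]
        congr 2 <;> ring
      rw [e1, ← hκ', mul_comm]
      refine mul_le_mul_of_nonneg_right (le_trans ?_ hp) hκ0
      apply div_le_div_of_nonneg_left hθ.le (by positivity)
      have : (1 : ℝ) ≤ 2 ^ v.length := one_le_pow₀ (by norm_num)
      nlinarith
    have hθM : θ ≤ M := (h1 0).trans (h2 0)
    have hP1 := probs hq
    have hpr1 : θ / (2 * M) ≤ (q (Fin.last (n + 1)) : ℝ) / (q 0 + q (Fin.last (n + 1))) := by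
      rw [div_le_div_iff₀ (by positivity) (by positivity)]
      have a1 := h1 (Fin.last (n + 1))
      have a2 := h2 (Fin.last (n + 1))
      have a3 := h2 0
      nlinarith
    have hpr0 : θ / (2 * M) ≤ (q 0 : ℝ) / (q 0 + q (Fin.last (n + 1))) := by
      rw [div_le_div_iff₀ (by positivity) (by positivity)]
      have a1 := h1 0
      have a2 := h2 (Fin.last (n + 1))
      have a3 := h2 0
      nlinarith
    set π1 : ℝ := (q (Fin.last (n + 1)) : ℝ) / (q 0 + q (Fin.last (n + 1))) with hπ1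
    set π0 : ℝ := (q 0 : ℝ) / (q 0 + q (Fin.last (n + 1))) with hπ0
    have hπ1' : 0 ≤ π1 := by positivity
    have hπ0' : 0 ≤ π0 := by positivity
    refine hsp.trans ?_
    cases o with
    | true =>
      simp only [if_true, Bool.false_eq_true, if_false]
      have hs := hsib false
      unfold gb at hs
      have k1 := hκκ π1 hpr1
      calc π1 * ms (qstep m true q) {l | l ∈ Bad R w T0 T (nextMode m true) (qstep m true q) ∧
            ¬ (St.Runs ⟨nextMode m true, l, qstep m true q⟩ v)} +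
          π0 * ms (qstep m false q) (Bad R w T0 T (nextMode m false) (qstep m false q)) ≤
          π1 * ((1 - κ') * u) + π0 * u :=
            add_le_add (mul_le_mul_of_nonneg_left hrec hπ1') (mul_le_mul_of_nonneg_left hs hπ0')
        _ = (1 - π1 * κ') * u := by
            have : π0 = 1 - π1 := by linarith
            rw [this]; ring
        _ ≤ (1 - κ) * u := mul_le_mul_of_nonneg_right (by linarith) hu
    | false =>
      simp only [if_true, Bool.true_eq_false, if_false]
      have hs := hsib true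
      unfold gb at hs
      have k1 := hκκ π0 hpr0
      calc π1 * ms (qstep m true q) (Bad R w T0 T (nextMode m true) (qstep m true q)) +
          π0 * ms (qstep m false q) {l | l ∈ Bad R w T0 T (nextMode m false) (qstep m false q) ∧
            ¬ (St.Runs ⟨nextMode m false, l, qstep m false q⟩ v)} ≤
          π1 * u + π0 * ((1 - κ') * u) :=
            add_le_add (mul_le_mul_of_nonneg_left hs hπ1') (mul_le_mul_of_nonneg_left hrec hπ0')
        _ = (1 - π0 * κ') * u := by
            have : π1 = 1 - π0 := by linarith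
            rw [this]; ring
        _ ≤ (1 - κ) * u := mul_le_mul_of_nonneg_right (by linarith) hu

theorem Mx_iter_le (X : St n) (i : ℕ) : Mx (St.next^[i] X).q ≤ 2 ^ i * Mx X.q := by
  induction i with
  | zero => simp
  | succ i ih =>
    rw [Function.iterate_succ_apply']
    have h := Mx_qstep_le (St.next^[i] X).m (outc (St.next^[i] X).l) (St.next^[i] X).q
    calc Mx (St.next (St.next^[i] X)).q ≤ 2 * Mx (St.next^[i] X).q := h
      _ ≤ 2 * (2 ^ i * Mx X.q) := Nat.mul_le_mul_left _ ih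
      _ = 2 ^ (i + 1) * Mx X.q := by ring

theorem Mx_le_iter (X : St n) (i : ℕ) : Mx X.q ≤ Mx (St.next^[i] X).q := by
  induction i with
  | zero => simp
  | succ i ih =>
    rw [Function.iterate_succ_apply']
    exact ih.trans (Mx_le_qstep (St.next^[i] X).m (outc (St.next^[i] X).l) (St.next^[i] X).q)

/-- the statement of Kerckhoff's lemma -/
def KerStmt (n : ℕ) : Prop := ∃ (c η : ℝ) (L0 : ℕ), 0 < c ∧ 0 < η ∧ 1 ≤ L0 ∧
    ∀ (Lg : ℕ), 1 ≤ Lg → ∀ (T1 : ℕ) (ε : ℝ), 0 ≤ ε →
    ∀ p : Bool → (Fin (n + 2) → ℕ) → ℝ,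
      (∀ m q, (∀ i, 0 < q i) → Mx q ≤ T1 → 0 ≤ p m q) →
      (∀ m q, (∀ i, 0 < q i) →
        (q (Fin.last (n + 1)) : ℝ) / (q 0 + q (Fin.last (n + 1))) *
            p (nextMode m true) (qstep m true q) +
          (q 0 : ℝ) / (q 0 + q (Fin.last (n + 1))) *
            p (nextMode m false) (qstep m false q) ≤ p m q) →
      (∀ q, (∀ i, 0 < q i) → (∀ i, c * (Mx q : ℝ) ≤ q i) → Lg * Mx q ≤ T1 → ε ≤ p true q) →
      ∀ m q, (∀ i, 0 < q i) → L0 * Lg * Mx q ≤ T1 → η * ε ≤ p m q

theorem decay (hker : KerStmt n) (w : List Bool) :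
    ∃ (Λ : ℕ) (ε0 : ℝ), 2 ≤ Λ ∧ 0 < ε0 ∧ ε0 < 1 ∧ ∀ (R : ℝ) (j T : ℕ) (m : Bool)
      (q : Fin (n + 2) → ℕ), (∀ i, 0 < q i) → Mx q * Λ ^ j ≤ T →
      gb R w 0 T m q ≤ VV n R * (1 - ε0) ^ j := by
  obtain ⟨c, η, L0, hc, hη, hL0, hk⟩ := hker
  set ε1 : ℝ := (c / 2 ^ w.length) ^ w.length with hε1
  have hε1' : 0 < ε1 := by positivity
  set Lg : ℕ := 2 ^ (w.length + 1) with hLg
  have hLg' : 1 ≤ Lg := Nat.one_le_two_pow
  refine ⟨max 2 (L0 * Lg), min (η * ε1) (1 / 2), le_max_left _ _, lt_min (by positivity)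
    (by norm_num), lt_of_le_of_lt (min_le_right _ _) (by norm_num), ?_⟩
  set Λ : ℕ := max 2 (L0 * Lg) with hΛ
  set ε0 : ℝ := min (η * ε1) (1 / 2) with hε0
  have hε0a : ε0 ≤ η * ε1 := min_le_left _ _
  have hε0b : ε0 ≤ 1 / 2 := min_le_right _ _
  have hΛ0 : 0 < Λ := lt_of_lt_of_le (by norm_num) (le_max_left 2 (L0 * Lg))
  have hΛ1 : L0 * Lg ≤ Λ := le_max_right _ _
  intro R j
  induction j with
  | zero =>
    intro T m q hq _
    rw [pow_zero, mul_one]
    exact gb_le_VV R w 0 T m hq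
  | succ j ih =>
    intro T m q hq hT
    set u : ℝ := VV n R * (1 - ε0) ^ j with hu
    have hu0 : 0 ≤ u := mul_nonneg (VV_nonneg R) (pow_nonneg (by linarith) _)
    set T1 : ℕ := T / Λ ^ j with hT1
    have hΛj : 0 < Λ ^ j := pow_pos hΛ0 j
    have hV : ∀ m (q : Fin (n + 2) → ℕ), (∀ i, 0 < q i) → Mx q ≤ T1 → gb R w 0 T m q ≤ u := by
      intro m q hq h
      exact ih T m q hq ((Nat.le_div_iff_mul_le hΛj).1 h)
    have key := hk Lg hLg' T1 (ε1 * u) (by positivity) (fun m q => u - gb R w 0 T m q)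
      (by
        intro m q hq h
        have := hV m q hq h
        linarith)
      (by
        intro m q hq
        have h1 := gb_le R w 0 T m hq
        have h2 := probs hq
        set π1 : ℝ := (q (Fin.last (n + 1)) : ℝ) / (q 0 + q (Fin.last (n + 1))) with hπ1
        set π0 : ℝ := (q 0 : ℝ) / (q 0 + q (Fin.last (n + 1))) with hπ0
        have : π0 = 1 - π1 := by linarith
        rw [this] at h1 ⊢
        nlinarith)
      (by
        intro q hq hb hL
        have hMp := Mx_pos hq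
        have hMp' : (0 : ℝ) < Mx q := by exact_mod_cast hMp
        have e2 : Lg * Mx q = 2 * (2 ^ w.length * Mx q) := by rw [hLg]; ring
        have h2w : 0 < 2 ^ w.length * Mx q := by positivity
        have hT1T : T1 ≤ T := Nat.div_le_self _ _
        have hpb := path_bound (R := R) (w := w) (T0 := 0) (T := T) hu0 hV w true q
          (c * Mx q) (Mx q) hq (by positivity) hMp' hb
          (fun i => by exact_mod_cast le_Mx q i) (by omega)
        have e3 : c * (Mx q : ℝ) / (2 ^ w.length * (Mx q : ℝ)) = c / 2 ^ w.length := by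
          field_simp
        rw [e3, ← hε1] at hpb
        have hsub : gb R w 0 T true q ≤
            ms q {l | l ∈ Bad R w 0 T true q ∧ ¬ (St.Runs ⟨true, l, q⟩ w)} := by
          refine ms_mono (R := R) hq (fun l hl => hl.1.1) ?_
          intro l hl
          refine ⟨hl, fun hr => hl.2 ⟨0, rfl, Nat.zero_le _, hr, ?_⟩⟩
          rw [Nat.zero_add]
          have := Mx_iter_le (⟨true, l, q⟩ : St n) w.length
          have h3 : Mx (⟨true, l, q⟩ : St n).q = Mx q := rfl
          rw [h3] at this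
          omega
        have := hsub.trans hpb
        linarith)
      m q hq
      (by
        rw [Nat.le_div_iff_mul_le hΛj]
        calc L0 * Lg * Mx q * Λ ^ j ≤ Λ * Mx q * Λ ^ j :=
              Nat.mul_le_mul_right _ (Nat.mul_le_mul_right _ hΛ1)
          _ = Mx q * Λ ^ (j + 1) := by ring
          _ ≤ T := hT)
    have : gb R w 0 T m q ≤ u - η * (ε1 * u) := by linarith
    calc gb R w 0 T m q ≤ u - η * (ε1 * u) := this
      _ = u * (1 - η * ε1) := by ring
      _ ≤ u * (1 - ε0) := mul_le_mul_of_nonneg_left (by linarith) hu0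
      _ = VV n R * (1 - ε0) ^ (j + 1) := by rw [hu, pow_succ]; ring

theorem Bad_eq_zero {R : ℝ} {w : List Bool} {T0 T : ℕ} {m : Bool} {q : Fin (n + 2) → ℕ}
    (h : T0 ≤ Mx q) : Bad R w T0 T m q ⊆ Bad R w 0 T m q := by
  intro l hl
  refine ⟨hl.1, fun hO => hl.2 ?_⟩
  obtain ⟨i, h1, -, h3, h4⟩ := hO
  exact ⟨i, h1, h.trans (Mx_le_iter (⟨m, l, q⟩ : St n) i), h3, h4⟩

theorem decay2 (hker : KerStmt n) (w : List Bool) :
    ∃ (Λ : ℕ) (ε0 : ℝ), 2 ≤ Λ ∧ 0 < ε0 ∧ ε0 < 1 ∧ ∀ (R : ℝ) (j T0 T : ℕ),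
      2 * T0 * Λ ^ j ≤ T → ∀ (m : Bool) (q : Fin (n + 2) → ℕ), (∀ i, 0 < q i) → Mx q ≤ 2 * T0 →
      gb R w T0 T m q ≤ VV n R * (1 - ε0) ^ j := by
  obtain ⟨Λ, ε0, hΛ, h0, h1, hd⟩ := decay hker w
  refine ⟨Λ, ε0, hΛ, h0, h1, ?_⟩
  intro R j T0 T hT
  have main : ∀ D : ℕ, ∀ (m : Bool) (q : Fin (n + 2) → ℕ), (∀ i, 0 < q i) → Mx q ≤ 2 * T0 →
      T0 * (n + 2) ≤ (∑ i, q i) + D → gb R w T0 T m q ≤ VV n R * (1 - ε0) ^ j := by
    intro D
    induction D with
    | zero =>
      intro m q hq hM hD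
      rcases le_or_gt T0 (Mx q) with h | h
      · refine (ms_mono (R := R) hq (Bad_sub _ _ _ _ _ _) (Bad_eq_zero h)).trans ?_
        exact hd R j T m q hq ((Nat.mul_le_mul_right _ hM).trans hT)
      · exfalso
        have hs : ∑ i, q i ≤ ∑ _i : Fin (n + 2), Mx q := Finset.sum_le_sum fun i _ => le_Mx q i
        simp only [Finset.sum_const, Finset.card_univ, Fintype.card_fin, smul_eq_mul] at hs
        have : (n + 2) * Mx q < (n + 2) * T0 := Nat.mul_lt_mul_of_pos_left h (by omega)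
        nlinarith
    | succ D ih =>
      intro m q hq hM hD
      rcases le_or_gt T0 (Mx q) with h | h
      · refine (ms_mono (R := R) hq (Bad_sub _ _ _ _ _ _) (Bad_eq_zero h)).trans ?_
        exact hd R j T m q hq ((Nat.mul_le_mul_right _ hM).trans hT)
      · have hnext : ∀ o, gb R w T0 T (nextMode m o) (qstep m o q) ≤
            VV n R * (1 - ε0) ^ j := by
          intro o
          apply ih _ _ (qstep_pos m o hq)
          · have := Mx_qstep_le m o q
            omega
          · rw [sum_qstep]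
            have := hq (wi o)
            omega
        have h2 := gb_le R w T0 T m hq
        have h3 := probs hq
        have h0' : (0 : ℝ) < q 0 := by exact_mod_cast hq 0
        have h1' : (0 : ℝ) < q (Fin.last (n + 1)) := by exact_mod_cast hq _
        set π1 : ℝ := (q (Fin.last (n + 1)) : ℝ) / (q 0 + q (Fin.last (n + 1))) with hπ1
        set π0 : ℝ := (q 0 : ℝ) / (q 0 + q (Fin.last (n + 1))) with hπ0
        have hπ1' : 0 ≤ π1 := by positivity
        have hπ0' : 0 ≤ π0 := by positivity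
        calc gb R w T0 T m q ≤ π1 * gb R w T0 T (nextMode m true) (qstep m true q) +
              π0 * gb R w T0 T (nextMode m false) (qstep m false q) := h2
          _ ≤ π1 * (VV n R * (1 - ε0) ^ j) + π0 * (VV n R * (1 - ε0) ^ j) :=
              add_le_add (mul_le_mul_of_nonneg_left (hnext true) hπ1')
                (mul_le_mul_of_nonneg_left (hnext false) hπ0')
          _ = (π1 + π0) * (VV n R * (1 - ε0) ^ j) := by ring
          _ = VV n R * (1 - ε0) ^ j := by rw [h3, one_mul]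
  intro m q hq hM
  exact main (T0 * (n + 2)) m q hq hM (by omega)

theorem summable_sqrt {r : ℝ} (h0 : 0 ≤ r) (h1 : r < 1) : Summable fun k : ℕ => r ^ Nat.sqrt k := by
  have hlim := tendsto_pow_const_mul_const_pow_of_abs_lt_one 4
    (show |r| < 1 by rw [abs_of_nonneg h0]; exact h1)
  have hlim' : Tendsto (fun s : ℕ => ((s + 1 : ℕ) : ℝ) ^ 4 * r ^ (s + 1)) atTop (𝓝 0) :=
    hlim.comp (tendsto_add_atTop_nat 1)
  rcases eq_or_lt_of_le h0 with hr | hr
  · refine summable_of_ne_finset_zero (s := {0}) ?_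
    intro k hk
    have hk' : k ≠ 0 := by simpa using hk
    have : Nat.sqrt k ≠ 0 := by
      intro h
      exact hk' (Nat.sqrt_eq_zero.1 h)
    rw [← hr, zero_pow this]
  obtain ⟨C, hC⟩ := hlim'.bddAbove_range
  have hC' : ∀ s : ℕ, ((s + 1 : ℕ) : ℝ) ^ 4 * r ^ (s + 1) ≤ C := fun s => hC ⟨s, rfl⟩
  have hsum : Summable fun k : ℕ => (C / r) * (1 / ((k + 1 : ℕ) : ℝ) ^ 2) := by
    refine Summable.mul_left _ ?_
    have := (summable_nat_add_iff 1).2 (Real.summable_one_div_nat_pow.2 (one_lt_two))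
    exact this
  refine Summable.of_nonneg_of_le (fun k => pow_nonneg h0 _) (fun k => ?_) hsum
  have hs := hC' (Nat.sqrt k)
  have hk1 : k + 1 ≤ (Nat.sqrt k + 1) ^ 2 := by
    have := Nat.lt_succ_sqrt k
    rw [pow_two]
    exact this
  have hk2 : ((k + 1 : ℕ) : ℝ) ≤ ((Nat.sqrt k + 1 : ℕ) : ℝ) ^ 2 := by exact_mod_cast hk1
  have hk0 : (0 : ℝ) < ((k + 1 : ℕ) : ℝ) := by positivity
  have hk3 : ((k + 1 : ℕ) : ℝ) ^ 2 ≤ ((Nat.sqrt k + 1 : ℕ) : ℝ) ^ 4 := by
    calc ((k + 1 : ℕ) : ℝ) ^ 2 ≤ (((Nat.sqrt k + 1 : ℕ) : ℝ) ^ 2) ^ 2 :=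
          pow_le_pow_left₀ hk0.le hk2 2
      _ = ((Nat.sqrt k + 1 : ℕ) : ℝ) ^ 4 := by ring
  have hrs : 0 < r ^ Nat.sqrt k := pow_pos hr _
  rw [div_mul_div_comm, mul_one, le_div_iff₀ (by positivity)]
  calc r ^ Nat.sqrt k * (r * ((k + 1 : ℕ) : ℝ) ^ 2) =
        ((k + 1 : ℕ) : ℝ) ^ 2 * r ^ (Nat.sqrt k + 1) := by ring
    _ ≤ ((Nat.sqrt k + 1 : ℕ) : ℝ) ^ 4 * r ^ (Nat.sqrt k + 1) :=
        mul_le_mul_of_nonneg_right hk3 (by positivity)
    _ ≤ C := hs

theorem ae_occurs_of_ker (hker : KerStmt n) (w : List Bool) : ∃ Λ : ℕ, 2 ≤ Λ ∧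
    ∀ᵐ l : Fin (n + 2) → ℝ, (∀ i, 0 < l i) → ∃ k0 : ℕ, ∀ k ≥ k0, ∃ i : ℕ,
      (St.next^[i] (St.init l)).m = true ∧
      Λ ^ scale k ≤ Mx (St.next^[i] (St.init l)).q ∧
      (St.next^[i] (St.init l)).Runs w ∧
      Mx (St.next^[i + w.length] (St.init l)).q < Λ ^ scale (k + 1) := by
  obtain ⟨Λ, ε0, hΛ, h0, h1, hd⟩ := decay2 hker w
  refine ⟨Λ, hΛ, ?_⟩
  have hone : ∀ i : Fin (n + 2), 0 < (fun _ : Fin (n + 2) => 1) i := fun _ => Nat.one_pos
  have hb : ∀ R k : ℕ, volume (Bad (R : ℝ) w (Λ ^ scale k) (Λ ^ scale (k + 1)) true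
      (fun _ : Fin (n + 2) => 1)) ≤ ENNReal.ofReal (VV n R * (1 - ε0) ^ Nat.sqrt k) := by
    intro R k
    have hpow : 1 ≤ Λ ^ scale k := Nat.one_le_pow _ _ (by omega)
    have hg := hd R (Nat.sqrt k) (Λ ^ scale k) (Λ ^ scale (k + 1))
      (by
        have e : scale (k + 1) = scale k + (Nat.sqrt k + 1) := by
          unfold scale; rw [Finset.sum_range_succ]
        rw [e, pow_add, pow_succ]
        calc 2 * Λ ^ scale k * Λ ^ Nat.sqrt k = Λ ^ scale k * (Λ ^ Nat.sqrt k * 2) := by ring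
          _ ≤ Λ ^ scale k * (Λ ^ Nat.sqrt k * Λ) :=
              Nat.mul_le_mul_left _ (Nat.mul_le_mul_left _ hΛ))
      true (fun _ => 1) hone
      (by
        rw [Mx_le_iff]
        intro _
        omega)
    unfold gb ms at hg
    simp only [Nat.cast_one, Finset.prod_const_one, mul_one] at hg
    rw [← ENNReal.ofReal_toReal (ne_top_of_le_ne_top (Dl_ne_top (R : ℝ) hone)
      (measure_mono (Bad_sub (R : ℝ) w (Λ ^ scale k) (Λ ^ scale (k + 1)) true _)))]
    exact ENNReal.ofReal_le_ofReal hg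
  have hae : ∀ R : ℕ, ∀ᵐ l : Fin (n + 2) → ℝ, ∀ᶠ k in atTop,
      l ∉ Bad (R : ℝ) w (Λ ^ scale k) (Λ ^ scale (k + 1)) true (fun _ : Fin (n + 2) => 1) := by
    intro R
    apply ae_eventually_notMem
    refine ne_top_of_le_ne_top ?_ (ENNReal.tsum_le_tsum (hb R))
    have hs : Summable fun k : ℕ => VV n R * (1 - ε0) ^ Nat.sqrt k :=
      (summable_sqrt (by linarith) (by linarith)).mul_left _
    exact hs.tsum_ofReal_ne_top
  filter_upwards [ae_all_iff.2 hae] with l hl hpos
  obtain ⟨R, hR⟩ := exists_nat_gt (∑ i, l i)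
  obtain ⟨k0, hk0⟩ := eventually_atTop.1 (hl R)
  refine ⟨k0, fun k hk => ?_⟩
  have h2 := hk0 k hk
  by_contra hcon
  apply h2
  refine ⟨⟨hpos, ?_⟩, ?_⟩
  · simpa using hR
  · intro hO
    exact hcon hO

end Meas

theorem ae_occurs (n : ℕ) (w : List Bool) (hw : w ≠ []) : ∃ Λ : ℕ, 2 ≤ Λ ∧
    ∀ᵐ l : Fin (n + 2) → ℝ, (∀ i, 0 < l i) → ∃ k0 : ℕ, ∀ k ≥ k0, ∃ i : ℕ,
      (St.next^[i] (St.init l)).m = true ∧
      Λ ^ scale k ≤ Mx (St.next^[i] (St.init l)).q ∧
      (St.next^[i] (St.init l)).Runs w ∧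
      Mx (St.next^[i + w.length] (St.init l)).q < Λ ^ scale (k + 1) := by
  have _ := hw
  exact Meas.ae_occurs_of_ker (ker n) w

end Pool.Agent.Helper22.Rev
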