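import Mathlib
import Pool.Agent.Helper22.Rev.LStep
import Pool.Agent.Helper22.Rev.Meas

/-!
# The symmetric induction and towers
-/

set_option autoImplicit false

open Set

namespace Pool.Agent.Helper22.Rev

variable {n : ℕ} {T0 : ℝ → ℝ} {U0 : Set ℝ} {a : ℝ}

/-! ### composite steps for both orientations -/

theorem exists_step_true {P : Tow (n + 2) T0 U0 a} {l : Fin (n + 2) → ℝ} (hP : IsOrd P true l)
    (hl : ∀ i, 0 < l i) (k : ℕ) (hpos : ∀ i, 0 < stepL k l i) :
    ∃ (Q : Tow (n + 2) T0 U0 a) (R : Refine P Q), R.it = stepW k ∧ IsOrd Q true (stepL k l) ∧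
      Q.r = stepQ k P.r := by
  refine ⟨(stepData hP hl k hpos).tow, (stepData hP hl k hpos).refine, rfl, ⟨rfl, fun α => ?_⟩, ?_⟩
  · simp only [if_true]
    exact ⟨rfl, rfl⟩
  · funext β
    revert β
    refine fin_cases3 ?_ ?_ ?_
    · exact alt_rsum P.r k
    · have := alt_rsum P.r (k + 1)
      show ((alt (k + 1)).map P.r).sum = (k + 2) * P.r 0 + (k + 1) * P.r (Fin.last (n + 1))
      rw [this]
    · intro j
      show (([j.castSucc.succ] : List (Fin (n + 2))).map P.r).sum = P.r j.castSucc.succ
      simp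

theorem exists_step {P : Tow (n + 2) T0 U0 a} {o : Bool} {l : Fin (n + 2) → ℝ}
    (hP : IsOrd P o l) (hl : ∀ i, 0 < l i) (k : ℕ) (hpos : ∀ i, 0 < stepL k l i) :
    ∃ (Q : Tow (n + 2) T0 U0 a) (R : Refine P Q), R.it = stepW k ∧ IsOrd Q o (stepL k l) ∧
      Q.r = stepQ k P.r := by
  cases o with
  | true => exact exists_step_true hP hl k hpos
  | false =>
    have hT : ∀ x, (fun x => -T0 (-x)) x = -T0 (-x) := fun _ => rfl
    have hU : ∀ x, x ∈ {x : ℝ | -x ∈ U0} ↔ -x ∈ U0 := fun _ => Iff.rfl
    have hT' : ∀ x, T0 x = -(fun x => -T0 (-x)) (-x) := fun x => by simp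
    have hU' : ∀ x, x ∈ U0 ↔ -x ∈ {x : ℝ | -x ∈ U0} := fun x => by simp
    have h1 : IsOrd (P.flip hT hU) true l := by
      refine ⟨hP.1, fun α => ?_⟩
      have h := hP.2 α
      simp only [Bool.false_eq_true, if_false] at h
      simp only [if_true]
      show -P.hi α = left l α ∧ -P.lo α = left l α + l α
      rw [h.1, h.2]
      constructor <;> ring
    obtain ⟨Q, R, hR, hQ, hr⟩ := exists_step_true h1 hl k hpos
    refine ⟨Q.flip hT' hU', Tow.unflipRefine hT hU hT' hU' R, hR, ⟨hQ.1, fun α => ?_⟩, hr⟩
    have h := hQ.2 α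
    simp only [if_true] at h
    simp only [Bool.false_eq_true, if_false]
    show -Q.lo α = -left (stepL k l) α ∧ -Q.hi α = -(left (stepL k l) α + stepL k l α)
    rw [h.1, h.2]
    exact ⟨rfl, rfl⟩

/-! ### reversal -/

theorem half_rev (l : Fin (n + 2) → ℝ) : half (rev l) = half l := by
  rw [half, half]
  congr 1
  exact Equiv.sum_comp Fin.revPerm l

theorem left_rev (l : Fin (n + 2) → ℝ) (α : Fin (n + 2)) :
    left (rev l) α = -(left l (Fin.rev α) + l (Fin.rev α)) := by
  have h1 : ∑ i ∈ Finset.Iio α, rev l i = ∑ i ∈ Finset.Ioi (Fin.rev α), l i := by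
    have : Finset.Ioi (Fin.rev α) = (Finset.Iio α).map Fin.revPerm.toEmbedding := by
      ext i
      simp only [Finset.mem_Ioi, Finset.mem_map_equiv, Finset.mem_Iio]
      rw [show Fin.revPerm.symm i = Fin.rev i from rfl]
      rw [Fin.rev_lt_iff]
    rw [this, Finset.sum_map]
    rfl
  have h2 : ∑ i, l i = ∑ i ∈ Finset.Iio (Fin.rev α), l i + l (Fin.rev α) +
      ∑ i ∈ Finset.Ioi (Fin.rev α), l i := by
    have : (Finset.univ : Finset (Fin (n + 2))) =
        (insert (Fin.rev α) (Finset.Iio (Fin.rev α))) ∪ Finset.Ioi (Fin.rev α) := by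
      ext i
      simp only [Finset.mem_univ, Finset.mem_union, Finset.mem_insert, Finset.mem_Iio,
        Finset.mem_Ioi, true_iff]
      rcases lt_trichotomy i (Fin.rev α) with h | h | h
      · exact Or.inl (Or.inr h)
      · exact Or.inl (Or.inl h)
      · exact Or.inr h
    rw [this, Finset.sum_union, Finset.sum_insert (by simp)]
    · ring
    · rw [Finset.disjoint_left]
      intro i hi hi'
      rw [Finset.mem_insert, Finset.mem_Iio] at hi
      rw [Finset.mem_Ioi] at hi'
      rcases hi with hi | hi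
      · exact absurd hi' (by rw [hi]; exact lt_irrefl _)
      · exact absurd hi' (not_lt.2 hi.le)
  rw [left, left, half_rev, h1, half, h2]
  ring

theorem IsOrd.rev {P : Tow (n + 2) T0 U0 a} {o : Bool} {l : Fin (n + 2) → ℝ}
    (hP : IsOrd P o l) : IsOrd (P.perm Fin.revPerm) (!o) (rev l) := by
  refine ⟨by rw [half_rev]; exact hP.1, fun α => ?_⟩
  have h := hP.2 (Fin.rev α)
  rw [left_rev]
  cases o with
  | true =>
    simp only [if_true] at h
    simp only [Bool.not_true, Bool.false_eq_true, if_false]
    show P.hi (Fin.rev α) = _ ∧ P.lo (Fin.rev α) = -(-(left l (Fin.rev α) + l (Fin.rev α)) +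
      l (Fin.rev α))
    rw [h.1, h.2]
    constructor <;> ring
  | false =>
    simp only [Bool.false_eq_true, if_false] at h
    simp only [Bool.not_false, if_true]
    show P.lo (Fin.rev α) = _ ∧ P.hi (Fin.rev α) = -(left l (Fin.rev α) + l (Fin.rev α)) +
      l (Fin.rev α)
    rw [h.1, h.2]
    constructor <;> ring

/-! ### formulas for the states of mode `B` -/

/-- lengths in mode `B` -/
noncomputable def bl (l : Fin (n + 2) → ℝ) (j : ℕ) : Fin (n + 2) → ℝ :=
  Function.update (Function.update l 0 (l 0 - l (Fin.last (n + 1)))) (Fin.last (n + 1))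
    (l (Fin.last (n + 1)) - j * (l 0 - l (Fin.last (n + 1))))

/-- heights in mode `B` -/
def bq (q : Fin (n + 2) → ℕ) (j : ℕ) : Fin (n + 2) → ℕ :=
  Function.update (Function.update q (Fin.last (n + 1)) (q (Fin.last (n + 1)) + q 0)) 0
    (q 0 + j * (q (Fin.last (n + 1)) + q 0))

theorem bl_zero (l : Fin (n + 2) → ℝ) (j : ℕ) : bl l j 0 = l 0 - l (Fin.last (n + 1)) := by
  rw [bl, Function.update_of_ne zero_ne_last, Function.update_self]

theorem bl_last (l : Fin (n + 2) → ℝ) (j : ℕ) : bl l j (Fin.last (n + 1)) =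
    l (Fin.last (n + 1)) - j * (l 0 - l (Fin.last (n + 1))) := by
  rw [bl, Function.update_self]

theorem bl_of_ne (l : Fin (n + 2) → ℝ) (j : ℕ) {i : Fin (n + 2)} (h0 : i ≠ 0)
    (h1 : i ≠ Fin.last (n + 1)) : bl l j i = l i := by
  rw [bl, Function.update_of_ne h1, Function.update_of_ne h0]

theorem bq_zero (q : Fin (n + 2) → ℕ) (j : ℕ) :
    bq q j 0 = q 0 + j * (q (Fin.last (n + 1)) + q 0) := by
  rw [bq, Function.update_self]

theorem bq_last (q : Fin (n + 2) → ℕ) (j : ℕ) :
    bq q j (Fin.last (n + 1)) = q (Fin.last (n + 1)) + q 0 := by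
  rw [bq, Function.update_of_ne zero_ne_last.symm, Function.update_self]

theorem bq_of_ne (q : Fin (n + 2) → ℕ) (j : ℕ) {i : Fin (n + 2)} (h0 : i ≠ 0)
    (h1 : i ≠ Fin.last (n + 1)) : bq q j i = q i := by
  rw [bq, Function.update_of_ne h0, Function.update_of_ne h1]

theorem ext3 {K : Type*} {u v : Fin (n + 2) → K} (h0 : u 0 = v 0)
    (h1 : u (Fin.last (n + 1)) = v (Fin.last (n + 1)))
    (h2 : ∀ i, i ≠ 0 → i ≠ Fin.last (n + 1) → u i = v i) : u = v := by
  funext i
  by_cases hi : i = 0
  · rw [hi, h0]
  · by_cases hi' : i = Fin.last (n + 1)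
    · rw [hi', h1]
    · exact h2 i hi hi'

theorem lstep_A_true (l : Fin (n + 2) → ℝ) : lstep true true l = bl l 0 := by
  show Function.update l 0 (l 0 - l (Fin.last (n + 1))) = bl l 0
  refine ext3 ?_ ?_ ?_
  · rw [bl_zero, Function.update_self]
  · rw [bl_last, Function.update_of_ne zero_ne_last.symm]
    push_cast
    ring
  · intro i h0 h1
    rw [bl_of_ne l 0 h0 h1, Function.update_of_ne h0]

theorem qstep_A_true (q : Fin (n + 2) → ℕ) : qstep true true q = bq q 0 := by
  show Function.update q (Fin.last (n + 1)) (q (Fin.last (n + 1)) + q 0) = bq q 0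
  refine ext3 ?_ ?_ ?_
  · rw [bq_zero, Function.update_of_ne zero_ne_last]
    ring
  · rw [bq_last, Function.update_self]
  · intro i h0 h1
    rw [bq_of_ne q 0 h0 h1, Function.update_of_ne h1]

theorem rev_zero {K : Type*} (v : Fin (n + 2) → K) : rev v 0 = v (Fin.last (n + 1)) := by
  rw [rev, Fin.rev_zero]

theorem rev_last {K : Type*} (v : Fin (n + 2) → K) : rev v (Fin.last (n + 1)) = v 0 := by
  rw [rev, Fin.rev_last]

theorem lstep_A_false (l : Fin (n + 2) → ℝ) : lstep true false l = bl (rev l) 0 := by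
  show rev (Function.update l (Fin.last (n + 1)) (l (Fin.last (n + 1)) - l 0)) = bl (rev l) 0
  refine ext3 ?_ ?_ ?_
  · rw [bl_zero, rev_zero, rev_zero, rev_last, Function.update_self]
  · rw [bl_last, rev_last, rev_zero, rev_last, Function.update_of_ne zero_ne_last]
    push_cast
    ring
  · intro i h0 h1
    rw [bl_of_ne _ 0 h0 h1]
    show Function.update l _ _ (Fin.rev i) = l (Fin.rev i)
    rw [Function.update_of_ne]
    intro h
    apply h0
    rw [← Fin.rev_rev i, h, Fin.rev_last]

theorem qstep_A_false (q : Fin (n + 2) → ℕ) : qstep true false q = bq (rev q) 0 := by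
  show rev (Function.update q 0 (q 0 + q (Fin.last (n + 1)))) = bq (rev q) 0
  refine ext3 ?_ ?_ ?_
  · rw [bq_zero, rev_zero, rev_zero, Function.update_of_ne zero_ne_last.symm]
    ring
  · rw [bq_last, rev_last, rev_zero, rev_last, Function.update_self]
  · intro i h0 h1
    rw [bq_of_ne _ 0 h0 h1]
    show Function.update q _ _ (Fin.rev i) = q (Fin.rev i)
    rw [Function.update_of_ne]
    intro h
    apply h1
    rw [← Fin.rev_rev i, h, Fin.rev_zero]

theorem lstep_B_false (l : Fin (n + 2) → ℝ) (j : ℕ) :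
    lstep false false (bl l j) = bl l (j + 1) := by
  show Function.update (bl l j) (Fin.last (n + 1)) (bl l j (Fin.last (n + 1)) - bl l j 0) = _
  refine ext3 ?_ ?_ ?_
  · rw [Function.update_of_ne zero_ne_last, bl_zero, bl_zero]
  · rw [Function.update_self, bl_last, bl_zero, bl_last]
    push_cast
    ring
  · intro i h0 h1
    rw [Function.update_of_ne h1, bl_of_ne _ _ h0 h1, bl_of_ne _ _ h0 h1]

theorem qstep_B_false (q : Fin (n + 2) → ℕ) (j : ℕ) :
    qstep false false (bq q j) = bq q (j + 1) := by
  show Function.update (bq q j) 0 (bq q j 0 + bq q j (Fin.last (n + 1))) = _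
  refine ext3 ?_ ?_ ?_
  · rw [Function.update_self, bq_zero, bq_last, bq_zero]
    ring
  · rw [Function.update_of_ne zero_ne_last.symm, bq_last, bq_last]
  · intro i h0 h1
    rw [Function.update_of_ne h0, bq_of_ne _ _ h0 h1, bq_of_ne _ _ h0 h1]

theorem rot_zero {K : Type*} (v : Fin (n + 2) → K) : rot v 0 = v 0 := rfl
theorem rot_one {K : Type*} (v : Fin (n + 2) → K) : rot v 1 = v (Fin.last (n + 1)) := rfl
theorem rot_succ {K : Type*} (v : Fin (n + 2) → K) (j : Fin n) :
    rot v j.succ.succ = v j.castSucc.succ := rfl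

theorem lstep_B_true (l : Fin (n + 2) → ℝ) (j : ℕ) :
    lstep false true (bl l j) = stepL j l := by
  show rot (Function.update (bl l j) 0 (bl l j 0 - bl l j (Fin.last (n + 1)))) = _
  funext β
  revert β
  refine fin_cases3 ?_ ?_ ?_
  · rw [rot_zero, Function.update_self, bl_zero, bl_last, stepL_zero]
  · rw [rot_one, Function.update_of_ne zero_ne_last.symm, bl_last, stepL_one]
  · intro i
    rw [rot_succ, Function.update_of_ne (mid_ne_zero i).symm,
      bl_of_ne _ _ (mid_ne_zero i).symm (mid_ne_last i).symm, stepL_succ]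

theorem qstep_B_true (q : Fin (n + 2) → ℕ) (j : ℕ) :
    qstep false true (bq q j) = stepQ j q := by
  show rot (Function.update (bq q j) (Fin.last (n + 1))
    (bq q j (Fin.last (n + 1)) + bq q j 0)) = _
  funext β
  revert β
  refine fin_cases3 ?_ ?_ ?_
  · rw [rot_zero, Function.update_of_ne zero_ne_last, bq_zero]
    show _ = (j + 1) * q 0 + j * q (Fin.last (n + 1))
    ring
  · rw [rot_one, Function.update_self, bq_last, bq_zero]
    show _ = (j + 2) * q 0 + (j + 1) * q (Fin.last (n + 1))
    ring
  · intro i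
    rw [rot_succ, Function.update_of_ne (mid_ne_last i).symm,
      bq_of_ne _ _ (mid_ne_zero i).symm (mid_ne_last i).symm]
    rfl

/-! ### independence along the path -/

theorem Indep.comp {l : Fin (n + 2) → ℝ} (h : Indep l) (e : Equiv.Perm (Fin (n + 2))) :
    Indep fun i => l (e i) := by
  intro m hm
  have h1 : ∑ i, ((m (e.symm i) : ℤ) : ℝ) * l i = 0 := by
    rw [← hm, ← Equiv.sum_comp e]
    simp
  have h2 := h _ h1
  funext i
  have := congrFun h2 (e i)
  simpa using this

theorem Indep.upd {l : Fin (n + 2) → ℝ} (h : Indep l) {i j : Fin (n + 2)} (hij : i ≠ j) :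
    Indep (Function.update l i (l i - l j)) := by
  intro m hm
  have h1 : ∑ k, ((Function.update m j (m j - m i) k : ℤ) : ℝ) * l k = 0 := by
    rw [← hm]
    have e1 : ∀ k, ((Function.update m j (m j - m i) k : ℤ) : ℝ) * l k =
        m k * l k - (if k = j then (m i : ℝ) * l j else 0) := by
      intro k
      by_cases hk : k = j
      · subst hk
        rw [Function.update_self, if_pos rfl]
        push_cast
        ring
      · rw [Function.update_of_ne hk, if_neg hk]
        ring
    have e2 : ∀ k, (m k : ℝ) * Function.update l i (l i - l j) k =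
        m k * l k - (if k = i then (m i : ℝ) * l j else 0) := by
      intro k
      by_cases hk : k = i
      · subst hk
        rw [Function.update_self, if_pos rfl]
        ring
      · rw [Function.update_of_ne hk, if_neg hk]
        ring
    simp_rw [e1, e2, Finset.sum_sub_distrib]
    simp
  have h2 := h _ h1
  have hi : m i = 0 := by
    have := congrFun h2 i
    rwa [Function.update_of_ne hij] at this
  funext k
  by_cases hk : k = j
  · subst hk
    have := congrFun h2 k
    rw [Function.update_self] at this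
    simp only [Pi.zero_apply] at this ⊢
    omega
  · have := congrFun h2 k
    rwa [Function.update_of_ne hk] at this

theorem Indep.lstep {l : Fin (n + 2) → ℝ} (h : Indep l) (m o : Bool) :
    Indep (lstep m o l) := by
  rw [Meas.lstep_eq]
  refine Indep.comp ?_ _
  rw [Meas.lsub_eq]
  exact h.upd (Meas.lo_ne o).symm

theorem Indep.ne {l : Fin (n + 2) → ℝ} (h : Indep l) : l 0 ≠ l (Fin.last (n + 1)) := by
  intro he
  have h1 : ∑ k, (((Function.update (Function.update (0 : Fin (n + 2) → ℤ) 0 1)
      (Fin.last (n + 1)) (-1)) k : ℤ) : ℝ) * l k = 0 := by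
    have e1 : ∀ k, (((Function.update (Function.update (0 : Fin (n + 2) → ℤ) 0 1)
      (Fin.last (n + 1)) (-1)) k : ℤ) : ℝ) * l k = (if k = 0 then l 0 else 0) -
        (if k = Fin.last (n + 1) then l 0 else 0) := by
      intro k
      by_cases hk : k = Fin.last (n + 1)
      · subst hk
        rw [Function.update_self, if_neg zero_ne_last.symm, if_pos rfl, he]
        push_cast
        ring
      · rw [Function.update_of_ne hk, if_neg hk]
        by_cases hk0 : k = 0
        · subst hk0
          rw [Function.update_self, if_pos rfl]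
          push_cast
          ring
        · rw [Function.update_of_ne hk0, if_neg hk0]
          simp
    simp_rw [e1, Finset.sum_sub_distrib]
    simp
  have h2 := congrFun (h _ h1) (Fin.last (n + 1))
  rw [Function.update_self] at h2
  simp at h2

/-- the lengths of a state are positive and independent -/
def Good (X : St n) : Prop := (∀ i, 0 < X.l i) ∧ Indep X.l

theorem outc_true {l : Fin (n + 2) → ℝ} (h : outc l = true) : l (Fin.last (n + 1)) < l 0 := by
  simpa [outc] using h

theorem outc_false {l : Fin (n + 2) → ℝ} (h : outc l = false) :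
    l 0 ≤ l (Fin.last (n + 1)) := by
  simpa [outc] using h

theorem Good.lt {X : St n} (h : Good X) :
    X.l (Meas.lo (outc X.l)) < X.l (Meas.wi (outc X.l)) := by
  have hne := h.2.ne
  cases ho : outc X.l with
  | true => exact outc_true ho
  | false => exact lt_of_le_of_ne (outc_false ho) hne

theorem Good.next {X : St n} (h : Good X) : Good X.next :=
  ⟨Meas.lstep_pos _ _ h.1 h.lt, h.2.lstep _ _⟩

theorem Good.iter {X : St n} (h : Good X) (i : ℕ) : Good (St.next^[i] X) := by
  induction i with
  | zero => exact h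
  | succ i ih => rw [Function.iterate_succ_apply']; exact ih.next

/-! ### the invariant -/

/-- invariant of the algorithm, relative to a coarse tower `P0` -/
def Inv (P0 : Tow (n + 2) T0 U0 a) (X : St n) : Prop :=
  Good X ∧
  (X.m = true → ∃ (o : Bool) (P : Tow (n + 2) T0 U0 a), IsOrd P o X.l ∧ P.r = X.q ∧
    Nonempty (Refine P0 P)) ∧
  (X.m = false → ∃ (o : Bool) (P : Tow (n + 2) T0 U0 a) (l0 : Fin (n + 2) → ℝ) (j : ℕ),
    IsOrd P o l0 ∧ (∀ i, 0 < l0 i) ∧ X.l = bl l0 j ∧ X.q = bq P.r j ∧ Nonempty (Refine P0 P))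

theorem Inv.next {P0 : Tow (n + 2) T0 U0 a} {X : St n} (h : Inv P0 X) : Inv P0 X.next := by
  obtain ⟨hg, hA, hB⟩ := h
  have hg' := hg.next
  obtain ⟨m, l, q⟩ := X
  refine ⟨hg', ?_, ?_⟩
  · intro hm
    -- mode `B`, outcome `true`
    have hm' : m = false ∧ outc l = true := by
      have : (!m && outc l) = true := hm
      cases m <;> simp_all
    obtain ⟨rfl, ho⟩ := hm'
    obtain ⟨o, P, l0, j, hP, hl0, hl, hq, ⟨R⟩⟩ := hB rfl
    simp only at hl hq
    subst hl hq
    have e1 : (St.next (⟨false, bl l0 j, bq P.r j⟩ : St n)).l = stepL j l0 := by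
      show lstep false (outc (bl l0 j)) (bl l0 j) = _
      rw [ho, lstep_B_true]
    have e2 : (St.next (⟨false, bl l0 j, bq P.r j⟩ : St n)).q = stepQ j P.r := by
      show qstep false (outc (bl l0 j)) (bq P.r j) = _
      rw [ho, qstep_B_true]
    have hpos : ∀ i, 0 < stepL j l0 i := by
      intro i
      have := hg'.1 i
      rwa [e1] at this
    obtain ⟨Q, R', -, hQ, hr⟩ := exists_step hP hl0 j hpos
    refine ⟨o, Q, ?_, ?_, ⟨R.trans R'⟩⟩
    · rw [e1]; exact hQ
    · rw [e2]; exact hr
  · intro hm
    cases m with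
    | true =>
      obtain ⟨o, P, hP, hr, ⟨R⟩⟩ := hA rfl
      simp only at hP hr
      cases ho : outc l with
      | true =>
        refine ⟨o, P, l, 0, hP, hg.1, ?_, ?_, ⟨R⟩⟩
        · show lstep true (outc l) l = _
          rw [ho, lstep_A_true]
        · show qstep true (outc l) q = _
          rw [ho, qstep_A_true, hr]
      | false =>
        refine ⟨!o, P.perm Fin.revPerm, rev l, 0, hP.rev, fun i => hg.1 _, ?_, ?_,
          ⟨R.trans (P.permRefine Fin.revPerm)⟩⟩
        · show lstep true (outc l) l = _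
          rw [ho, lstep_A_false]
        · show qstep true (outc l) q = _
          rw [ho, qstep_A_false, ← hr]
          rfl
    | false =>
      have ho : outc l = false := by
        have : (!false && outc l) = false := hm
        simpa using this
      obtain ⟨o, P, l0, j, hP, hl0, hl, hq, ⟨R⟩⟩ := hB rfl
      simp only at hl hq
      subst hl hq
      refine ⟨o, P, l0, j + 1, hP, hl0, ?_, ?_, ⟨R⟩⟩
      · show lstep false (outc (bl l0 j)) (bl l0 j) = _
        rw [ho, lstep_B_false]
      · show qstep false (outc (bl l0 j)) (bq P.r j) = _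
        rw [ho, qstep_B_false]

theorem Inv.iter {P0 : Tow (n + 2) T0 U0 a} {X : St n} (h : Inv P0 X) (i : ℕ) :
    Inv P0 (St.next^[i] X) := by
  induction i with
  | zero => exact h
  | succ i ih => rw [Function.iterate_succ_apply']; exact ih.next

/-- The tower `P` belongs to the state `X` (of mode `A`). -/
def At (P : Tow (n + 2) T0 U0 a) (X : St n) : Prop :=
  X.m = true ∧ Good X ∧ P.r = X.q ∧ ∃ o, IsOrd P o X.l

theorem At.inv {P : Tow (n + 2) T0 U0 a} {X : St n} (h : At P X) : Inv P X := by
  obtain ⟨hm, hg, hr, o, hP⟩ := h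
  exact ⟨hg, fun _ => ⟨o, P, hP, hr, ⟨P.refl⟩⟩, fun h => by rw [hm] at h; cases h⟩

/-- from a tower to the tower of a later state of mode `A` -/
theorem At.later {P : Tow (n + 2) T0 U0 a} {X : St n} (h : At P X) {i : ℕ}
    (hm : (St.next^[i] X).m = true) :
    ∃ Q : Tow (n + 2) T0 U0 a, At Q (St.next^[i] X) ∧ Nonempty (Refine P Q) := by
  have := h.inv.iter i
  obtain ⟨o, Q, hQ, hr, hR⟩ := this.2.1 hm
  exact ⟨Q, ⟨hm, this.1, hr, o, hQ⟩, hR⟩

/-! ### fixed patterns -/

/-- itineraries of the two composite steps with `k = 0` -/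
def sub (g : Bool) : Fin (n + 2) → List (Fin (n + 2)) :=
  if g then stepW 0 else fun β => (stepW 0 β).flatMap fun α => [Fin.rev α]

/-- itineraries of a composite pattern -/
def total : List Bool → Fin (n + 2) → List (Fin (n + 2))
  | [] => fun β => [β]
  | g :: gs => fun β => (total gs β).flatMap (sub g)

/-- outcomes of a composite pattern -/
def elem : List Bool → List Bool
  | [] => []
  | g :: gs => g :: true :: elem gs

theorem runs_elem {P : Tow (n + 2) T0 U0 a} (γ : List Bool) :
    ∀ {P : Tow (n + 2) T0 U0 a} {X : St n}, At P X → X.Runs (elem γ) →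
    ∃ (Q : Tow (n + 2) T0 U0 a) (R : Refine P Q), R.it = total γ ∧
      At Q (St.next^[(elem γ).length] X) := by
  clear P
  induction γ with
  | nil =>
    intro P X h _
    exact ⟨P, P.refl, rfl, h⟩
  | cons g gs ih =>
    intro P X h hX
    obtain ⟨hm, hg, hr, o, hP⟩ := h
    obtain ⟨m, l, q⟩ := X
    simp only at hm hr hP
    subst hm
    obtain ⟨h1, h2, h3⟩ := hX
    simp only at h1
    have hg1 := hg.next
    have hg2 := hg1.next
    -- one composite step
    have key : ∃ (Q : Tow (n + 2) T0 U0 a) (R : Refine P Q), R.it = sub g ∧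
        At Q (St.next (St.next (⟨true, l, q⟩ : St n))) := by
      cases g with
      | true =>
        have e1 : (St.next (⟨true, l, q⟩ : St n)) = ⟨false, bl l 0, bq q 0⟩ := by
          show (⟨nextMode true (outc l), lstep true (outc l) l, qstep true (outc l) q⟩ : St n) = _
          rw [h1, lstep_A_true, qstep_A_true]
          rfl
        rw [e1] at h2 hg2 ⊢
        have e2 : (St.next (⟨false, bl l 0, bq q 0⟩ : St n)) = ⟨true, stepL 0 l, stepQ 0 q⟩ := by
          show (⟨nextMode false (outc (bl l 0)), lstep false (outc (bl l 0)) (bl l 0),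
            qstep false (outc (bl l 0)) (bq q 0)⟩ : St n) = _
          simp only at h2
          rw [h2, lstep_B_true, qstep_B_true]
          rfl
        rw [e2] at hg2 ⊢
        obtain ⟨Q, R, hR, hQ, hQr⟩ := exists_step hP hg.1 0 hg2.1
        exact ⟨Q, R, hR, rfl, hg2, by rw [hQr, hr], o, hQ⟩
      | false =>
        have e1 : (St.next (⟨true, l, q⟩ : St n)) = ⟨false, bl (rev l) 0, bq (rev q) 0⟩ := by
          show (⟨nextMode true (outc l), lstep true (outc l) l, qstep true (outc l) q⟩ : St n) = _
          rw [h1, lstep_A_false, qstep_A_false]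
          rfl
        rw [e1] at h2 hg2 ⊢
        have e2 : (St.next (⟨false, bl (rev l) 0, bq (rev q) 0⟩ : St n)) =
            ⟨true, stepL 0 (rev l), stepQ 0 (rev q)⟩ := by
          show (⟨nextMode false (outc (bl (rev l) 0)), lstep false (outc (bl (rev l) 0))
            (bl (rev l) 0), qstep false (outc (bl (rev l) 0)) (bq (rev q) 0)⟩ : St n) = _
          simp only at h2
          rw [h2, lstep_B_true, qstep_B_true]
          rfl
        rw [e2] at hg2 ⊢
        obtain ⟨Q, R, hR, hQ, hQr⟩ := exists_step hP.rev (fun i => hg.1 _) 0 hg2.1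
        refine ⟨Q, (P.permRefine Fin.revPerm).trans R, ?_, rfl, hg2, ?_, !o, hQ⟩
        · funext β
          show (R.it β).flatMap (fun β => [Fin.revPerm β]) = _
          rw [hR]
          rfl
        · rw [hQr]
          show stepQ 0 (fun α => P.r (Fin.revPerm α)) = stepQ 0 (rev q)
          rw [← hr]
          rfl
    obtain ⟨Q, R, hR, hQ⟩ := key
    obtain ⟨Q', R', hR', hQ'⟩ := ih hQ h3
    refine ⟨Q', R.trans R', ?_, ?_⟩
    · funext β
      show (R'.it β).flatMap R.it = (total gs β).flatMap (sub g)
      rw [hR, hR']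
    · rw [elem, List.length_cons, List.length_cons, Function.iterate_succ_apply,
        Function.iterate_succ_apply]
      exact hQ'

end Pool.Agent.Helper22.Rev
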