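import Mathlib
import Pool.Agent.Helper22.Rev.PathA

/-!
# A positive pattern
-/

set_option autoImplicit false

open Set

namespace Pool.Agent.Helper22.Rev

variable {n : ℕ}

theorem total_append_single (gs : List Bool) (g : Bool) (β : Fin (n + 2)) :
    total (gs ++ [g]) β = (sub g β).flatMap (total gs) := by
  induction gs generalizing β with
  | nil =>
    show ([β] : List (Fin (n + 2))).flatMap (sub g) = (sub g β).flatMap fun β => [β]
    simp
  | cons h gs ih =>
    show (total (gs ++ [g]) β).flatMap (sub h) =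
      (sub g β).flatMap fun β => (total gs β).flatMap (sub h)
    rw [ih, List.flatMap_assoc]

theorem total_append (gs hs : List Bool) (β : Fin (n + 2)) :
    total (gs ++ hs) β = (total hs β).flatMap (total gs) := by
  induction hs using List.reverseRecOn generalizing β with
  | nil =>
    rw [List.append_nil]
    show _ = ([β] : List (Fin (n + 2))).flatMap (total gs)
    simp
  | append_singleton hs h ih =>
    rw [← List.append_assoc, total_append_single, total_append_single]
    rw [List.flatMap_assoc]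
    congr 1
    funext β
    exact ih β

/-- membership after one more composite step -/
theorem mem_total_append_single {gs : List Bool} {g : Bool} {β α : Fin (n + 2)} :
    α ∈ total (gs ++ [g]) β ↔ ∃ δ ∈ sub g β, α ∈ total gs δ := by
  rw [total_append_single, List.mem_flatMap]

theorem sub_true_zero : (0 : Fin (n + 2)) ∈ sub true (0 : Fin (n + 2)) := by
  show (0 : Fin (n + 2)) ∈ alt 0
  simp [alt]

theorem sub_true_one_zero : (0 : Fin (n + 2)) ∈ sub true (1 : Fin (n + 2)) := by
  show (0 : Fin (n + 2)) ∈ alt 1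
  simp [alt]

theorem sub_true_one_last : Fin.last (n + 1) ∈ sub true (1 : Fin (n + 2)) := by
  show Fin.last (n + 1) ∈ (alt 1 : List (Fin (n + 2)))
  simp [alt]

theorem sub_true_succ (j : Fin n) : j.castSucc.succ ∈ sub true (j.succ.succ : Fin (n + 2)) := by
  show j.castSucc.succ ∈ ([j.castSucc.succ] : List (Fin (n + 2)))
  simp

theorem sub_false_zero : Fin.last (n + 1) ∈ sub false (0 : Fin (n + 2)) := by
  show Fin.last (n + 1) ∈ (alt 0 : List (Fin (n + 2))).flatMap fun α => [Fin.rev α]
  simp [alt]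

theorem sub_ne_nil (g : Bool) (β : Fin (n + 2)) : ∃ δ, δ ∈ sub g β := by
  revert β
  cases g with
  | true =>
    exact fin_cases3 ⟨0, sub_true_zero⟩ ⟨0, sub_true_one_zero⟩ fun j => ⟨_, sub_true_succ j⟩
  | false =>
    have h : ∀ β : Fin (n + 2), ∃ δ, δ ∈ (stepW 0 β : List (Fin (n + 2))) :=
      fin_cases3 ⟨0, sub_true_zero⟩ ⟨0, sub_true_one_zero⟩ fun j => ⟨_, sub_true_succ j⟩
    intro β
    obtain ⟨δ, hδ⟩ := h β
    refine ⟨Fin.rev δ, ?_⟩
    show Fin.rev δ ∈ (stepW 0 β).flatMap fun α => [Fin.rev α]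
    rw [List.mem_flatMap]
    exact ⟨δ, hδ, by simp⟩

/-- every letter survives in some position -/
theorem sub_surj (g : Bool) (δ : Fin (n + 2)) : ∃ β, δ ∈ sub g β := by
  have h : ∀ δ : Fin (n + 2), ∃ β : Fin (n + 2), δ ∈ (stepW 0 β : List (Fin (n + 2))) := by
    intro δ
    by_cases h0 : δ = 0
    · exact ⟨0, h0 ▸ sub_true_zero⟩
    · by_cases h1 : δ = Fin.last (n + 1)
      · exact ⟨1, h1 ▸ sub_true_one_last⟩
      · obtain ⟨j, rfl⟩ : ∃ j : Fin n, δ = j.castSucc.succ := by
          have hv0 : (δ : ℕ) ≠ 0 := fun h => h0 (Fin.ext h)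
          have hv1 : (δ : ℕ) ≠ n + 1 := fun h => h1 (Fin.ext (by simpa using h))
          have hv2 := δ.2
          exact ⟨⟨(δ : ℕ) - 1, by omega⟩, Fin.ext (by simp; omega)⟩
        exact ⟨j.succ.succ, sub_true_succ j⟩
  cases g with
  | true => exact h δ
  | false =>
    obtain ⟨β, hβ⟩ := h (Fin.rev δ)
    refine ⟨β, ?_⟩
    show δ ∈ (stepW 0 β).flatMap fun α => [Fin.rev α]
    rw [List.mem_flatMap]
    exact ⟨_, hβ, by simp⟩

theorem total_surj (gs : List Bool) (α : Fin (n + 2)) : ∃ β, α ∈ total gs β := by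
  induction gs using List.reverseRecOn with
  | nil => exact ⟨α, by show α ∈ [α]; simp⟩
  | append_singleton gs g ih =>
    obtain ⟨β, hβ⟩ := ih
    obtain ⟨γ, hγ⟩ := sub_surj g β
    exact ⟨γ, mem_total_append_single.2 ⟨β, hγ, hβ⟩⟩

/-- the letter `α` occurs in all itineraries -/
def Cov (gs : List Bool) (α : Fin (n + 2)) : Prop := ∀ β, α ∈ total gs β

theorem Cov.append_single {gs : List Bool} {α : Fin (n + 2)} (h : Cov gs α) (g : Bool) :
    Cov (gs ++ [g]) α := by
  intro β
  obtain ⟨δ, hδ⟩ := sub_ne_nil g β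
  exact mem_total_append_single.2 ⟨δ, hδ, h δ⟩

theorem Cov.append {gs : List Bool} {α : Fin (n + 2)} (h : Cov gs α) (hs : List Bool) :
    Cov (gs ++ hs) α := by
  induction hs using List.reverseRecOn with
  | nil => rwa [List.append_nil]
  | append_singleton hs g ih =>
    rw [← List.append_assoc]
    exact ih.append_single g

/-- moving a letter towards the last position -/
theorem bring_step {gs : List Bool} {α : Fin (n + 2)} (j : Fin n)
    (h : α ∈ total gs j.castSucc.succ) : α ∈ total (gs ++ [true]) j.succ.succ :=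
  mem_total_append_single.2 ⟨_, sub_true_succ j, h⟩

theorem bring_last {gs : List Bool} {α : Fin (n + 2)} :
    ∀ (k : ℕ) (β : Fin (n + 2)), (β : ℕ) + k = n + 1 → β ≠ 0 → α ∈ total gs β →
    ∃ hs, α ∈ total (gs ++ hs) (Fin.last (n + 1)) := by
  intro k
  induction k generalizing gs with
  | zero =>
    intro β hβ _ h
    refine ⟨[], ?_⟩
    rw [List.append_nil]
    have : β = Fin.last (n + 1) := Fin.ext (by simpa using hβ)
    rwa [this] at h
  | succ k ih =>
    intro β hβ h0 h
    have hv0 : (β : ℕ) ≠ 0 := fun e => h0 (Fin.ext e)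
    obtain ⟨j, rfl⟩ : ∃ j : Fin n, β = j.castSucc.succ :=
      ⟨⟨(β : ℕ) - 1, by omega⟩, Fin.ext (by simp; omega)⟩
    have h1 := bring_step j h
    obtain ⟨hs, hhs⟩ := ih (gs := gs ++ [true]) j.succ.succ (by simp at hβ ⊢; omega)
      (Fin.succ_ne_zero _) h1
    exact ⟨true :: hs, by rwa [List.append_assoc] at hhs⟩

theorem bring_zero {gs : List Bool} {α : Fin (n + 2)} (β : Fin (n + 2)) (h : α ∈ total gs β) :
    ∃ hs, α ∈ total (gs ++ hs) 0 := by
  by_cases h0 : β = 0
  · refine ⟨[], ?_⟩
    rw [List.append_nil, ← h0]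
    exact h
  · obtain ⟨hs, hhs⟩ := bring_last (n + 1 - (β : ℕ)) β (by have := β.2; omega) h0 h
    refine ⟨hs ++ [false], ?_⟩
    rw [← List.append_assoc]
    exact mem_total_append_single.2 ⟨_, sub_false_zero, hhs⟩

theorem spread_out {gs : List Bool} {α : Fin (n + 2)} (h : α ∈ total gs 0) :
    ∀ k : ℕ, ∀ β : Fin (n + 2), (β : ℕ) ≤ k → α ∈ total (gs ++ List.replicate k true) β := by
  intro k
  induction k with
  | zero =>
    intro β hβ
    have : β = 0 := Fin.ext (by simpa using hβ)
    rw [this]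
    simpa using h
  | succ k ih =>
    intro β hβ
    rw [List.replicate_succ', ← List.append_assoc]
    revert β
    refine fin_cases3 ?_ ?_ ?_
    · intro _
      exact mem_total_append_single.2 ⟨0, sub_true_zero, ih 0 (Nat.zero_le _)⟩
    · intro _
      exact mem_total_append_single.2 ⟨0, sub_true_one_zero, ih 0 (Nat.zero_le _)⟩
    · intro j hj
      refine mem_total_append_single.2 ⟨_, sub_true_succ j, ih _ ?_⟩
      simp at hj ⊢
      omega

theorem exists_cov (gs : List Bool) (α : Fin (n + 2)) : ∃ hs, Cov (gs ++ hs) α := by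
  obtain ⟨β, hβ⟩ := total_surj gs α
  obtain ⟨hs, hhs⟩ := bring_zero β hβ
  refine ⟨hs ++ List.replicate (n + 1) true, fun β => ?_⟩
  rw [← List.append_assoc]
  exact spread_out hhs (n + 1) β (by have := β.2; omega)

theorem exists_cov_all (n : ℕ) : ∃ gs : List Bool, ∀ α : Fin (n + 2), Cov gs α := by
  have key : ∀ s : Finset (Fin (n + 2)), ∃ gs : List Bool, ∀ α ∈ s, Cov gs α := by
    intro s
    induction s using Finset.induction_on with
    | empty => exact ⟨[], by simp⟩
    | insert α s _ ih =>
      obtain ⟨gs, hgs⟩ := ih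
      obtain ⟨hs, hhs⟩ := exists_cov gs α
      refine ⟨gs ++ hs, fun β hβ => ?_⟩
      rw [Finset.mem_insert] at hβ
      rcases hβ with rfl | hβ
      · exact hhs
      · exact (hgs β hβ).append hs
  obtain ⟨gs, hgs⟩ := key Finset.univ
  exact ⟨gs, fun α => hgs α (Finset.mem_univ _)⟩

/-- a pattern all of whose itineraries contain every letter at least twice -/
theorem exists_pattern (n : ℕ) : ∃ γ : List Bool, ∀ β α : Fin (n + 2),
    2 ≤ (total γ β).count α := by
  obtain ⟨gs, hgs⟩ := exists_cov_all n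
  refine ⟨gs ++ gs, fun β α => ?_⟩
  rw [total_append, List.count_flatMap]
  have h1 : ∀ δ ∈ total gs β, 1 ≤ (List.count α ∘ total gs) δ := fun δ _ =>
    List.one_le_count_iff.2 (hgs α δ)
  have h2 : (total gs β).length ≤ ((total gs β).map (List.count α ∘ total gs)).sum := by
    have := List.card_nsmul_le_sum ((total gs β).map (List.count α ∘ total gs)) 1 (by
      intro x hx
      rw [List.mem_map] at hx
      obtain ⟨δ, hδ, rfl⟩ := hx
      exact h1 δ hδ)
    simpa using this
  have h3 : 2 ≤ (total gs β).length := by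
    have h4 : Finset.card (Finset.univ : Finset (Fin (n + 2))) ≤ (total gs β).toFinset.card :=
      Finset.card_le_card fun δ _ => List.mem_toFinset.2 (hgs δ β)
    have h5 := List.toFinset_card_le (total gs β)
    rw [Finset.card_univ, Fintype.card_fin] at h4
    omega
  omega

end Pool.Agent.Helper22.Rev
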