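import Mathlib
import Pool.Agent.Helper22.Rev.PathB

/-!
# The sequence of towers
-/

set_option autoImplicit false

open Set Filter Topology

namespace Pool.Agent.Helper22.Rev

variable {n : ℕ} {T0 : ℝ → ℝ} {a : ℝ}

/-! ### the initial tower -/

theorem half_pos {l : Fin (n + 2) → ℝ} (hl : ∀ i, 0 < l i) : 0 < half l := by
  have : 0 < ∑ i, l i := Finset.sum_pos (fun i _ => hl i) ⟨0, Finset.mem_univ _⟩
  rw [half]
  linarith

/-- the initial tower -/
noncomputable def initTow {l : Fin (n + 2) → ℝ} (hl : ∀ i, 0 < l i) (hT : IsStd l T0) :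
    Tow (n + 2) T0 (Dom l) (half l) where
  lo := left l
  hi := fun α => left l α + l α
  r := fun _ => 1
  sh := fun α i => -(i : ℝ) * (2 * left l α + l α)
  eps := half l
  lt := fun α => by have := hl α; linarith
  lo_ge := left_ge hl
  hi_le := left_add_le_half hl
  eps_le := le_rfl
  total := by
    rw [half, Finset.sum_congr rfl fun α _ => show left l α + l α - left l α = l α by ring]
    ring
  full := by
    rw [half, Finset.sum_congr rfl fun α _ =>
      show ((1 : ℕ) : ℝ) * (left l α + l α - left l α) = l α by push_cast; ring]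
    ring
  r_pos := fun _ => one_pos
  sh_zero := fun α => by simp
  sh_ret := fun α => by push_cast; ring
  reg := fun α i hi x hx => by
    have : i = 0 := by omega
    subst this
    simp only [Dom, mem_iUnion]
    refine ⟨α, ?_⟩
    simpa using hx
  step := fun α i hi x hx => by
    have : i = 0 := by omega
    subst this
    have h1 : x + -((0 : ℕ) : ℝ) * (2 * left l α + l α) = x := by push_cast; ring
    rw [h1, hT α x hx]
    push_cast
    ring
  disj := fun α β i j hi hj hne => by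
    have hi0 : i = 0 := by omega
    have hj0 : j = 0 := by omega
    subst hi0 hj0
    rw [Set.disjoint_left]
    intro z hz hz'
    simp only [Nat.cast_zero, neg_zero, zero_mul, add_zero] at hz hz'
    have hne' : α ≠ β := fun h => hne (by rw [h])
    rcases lt_or_gt_of_ne hne' with h | h
    · have := left_add_le hl h
      linarith [hz.2, hz'.1]
    · have := left_add_le hl h
      linarith [hz'.2, hz.1]

theorem initTow_at {l : Fin (n + 2) → ℝ} (hl : ∀ i, 0 < l i) (hi : Indep l) (hT : IsStd l T0) :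
    At (initTow hl hT) (St.init l) := by
  refine ⟨rfl, ⟨hl, hi⟩, rfl, true, rfl, fun α => ?_⟩
  simp only [if_true]
  exact ⟨rfl, rfl⟩

/-! ### summability -/

theorem pow_sq_bound (Λ : ℕ) (hΛ : 1 ≤ Λ) (θ : ℝ) (h0 : 0 < θ) (h1 : θ < 1) :
    ∃ C : ℝ, 0 ≤ C ∧ ∀ s : ℕ, (Λ : ℝ) ^ (2 * s + 2) * θ ^ (s * s) ≤ C * (1 / 2) ^ s := by
  have hΛ' : (1 : ℝ) ≤ Λ := by exact_mod_cast hΛ
  have hA : (1 : ℝ) ≤ 2 * (Λ : ℝ) ^ 2 := by
    have : (1 : ℝ) ≤ (Λ : ℝ) ^ 2 := one_le_pow₀ hΛ'
    linarith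
  have hlim : Tendsto (fun s : ℕ => 2 * (Λ : ℝ) ^ 2 * θ ^ s) atTop (𝓝 0) := by
    have := (tendsto_pow_atTop_nhds_zero_of_lt_one h0.le h1).const_mul (2 * (Λ : ℝ) ^ 2)
    simpa using this
  obtain ⟨s0, hs0⟩ := (hlim.eventually (gt_mem_nhds (show (0 : ℝ) < 1 by norm_num))).exists_forall_of_atTop
  refine ⟨(Λ : ℝ) ^ 2 * (2 * (Λ : ℝ) ^ 2) ^ s0, by positivity, fun s => ?_⟩
  have hkey : (2 * (Λ : ℝ) ^ 2 * θ ^ s) ^ s ≤ (2 * (Λ : ℝ) ^ 2) ^ s0 := by
    rcases Nat.lt_or_ge s s0 with h | h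
    · calc (2 * (Λ : ℝ) ^ 2 * θ ^ s) ^ s ≤ (2 * (Λ : ℝ) ^ 2 * 1) ^ s := by
            refine pow_le_pow_left₀ (by positivity) ?_ _
            exact mul_le_mul_of_nonneg_left (pow_le_one₀ h0.le h1.le) (by positivity)
        _ = (2 * (Λ : ℝ) ^ 2) ^ s := by rw [mul_one]
        _ ≤ (2 * (Λ : ℝ) ^ 2) ^ s0 := pow_le_pow_right₀ hA h.le
    · calc (2 * (Λ : ℝ) ^ 2 * θ ^ s) ^ s ≤ 1 := pow_le_one₀ (by positivity) (hs0 s h).le
        _ ≤ (2 * (Λ : ℝ) ^ 2) ^ s0 := one_le_pow₀ hA
  have h2 : (Λ : ℝ) ^ (2 * s + 2) * θ ^ (s * s) =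
      (Λ : ℝ) ^ 2 * (2 * (Λ : ℝ) ^ 2 * θ ^ s) ^ s * (1 / 2) ^ s := by
    rw [mul_pow, mul_pow, ← pow_mul, ← pow_mul, one_div, inv_pow, pow_add]
    field_simp
  rw [h2]
  refine mul_le_mul_of_nonneg_right ?_ (by positivity)
  exact mul_le_mul_of_nonneg_left hkey (by positivity)

theorem summable_rho (B k0 Λ : ℕ) (hΛ : 1 ≤ Λ) (θ : ℝ) (h0 : 0 < θ) (h1 : θ < 1) :
    Summable fun m : ℕ => ((B + Λ ^ (2 * Nat.sqrt (k0 + m + 1) + 2) : ℕ) : ℝ) * θ ^ m := by
  obtain ⟨C, hC0, hC⟩ := pow_sq_bound Λ hΛ θ h0 h1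
  have hs1 : Summable fun m : ℕ => (B : ℝ) * θ ^ m :=
    (summable_geometric_of_lt_one h0.le h1).mul_left _
  have hs2 : Summable fun m : ℕ => (Λ : ℝ) ^ (2 * Nat.sqrt (k0 + m + 1) + 2) * θ ^ m := by
    have hb : Summable fun m : ℕ => (C * (θ ^ (k0 + 1))⁻¹) * (1 / 2 : ℝ) ^ Nat.sqrt (k0 + m + 1) := by
      refine Summable.mul_left _ ?_
      have h3 := Meas.summable_sqrt (r := (1 / 2 : ℝ)) (by norm_num) (by norm_num)
      have h4 := (summable_nat_add_iff (k0 + 1)).2 h3
      refine h4.congr fun m => ?_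
      rw [show m + (k0 + 1) = k0 + m + 1 by ring]
    refine Summable.of_nonneg_of_le (fun m => by positivity) (fun m => ?_) hb
    set s := Nat.sqrt (k0 + m + 1) with hs
    have h5 : s * s ≤ k0 + m + 1 := Nat.sqrt_le _
    have h6 : θ ^ (k0 + m + 1) ≤ θ ^ (s * s) := pow_le_pow_of_le_one h0.le h1.le h5
    have h7 : θ ^ m = (θ ^ (k0 + 1))⁻¹ * θ ^ (k0 + m + 1) := by
      rw [show k0 + m + 1 = (k0 + 1) + m by ring, pow_add _ (k0 + 1)]
      field_simp
    calc (Λ : ℝ) ^ (2 * s + 2) * θ ^ m = (θ ^ (k0 + 1))⁻¹ *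
          ((Λ : ℝ) ^ (2 * s + 2) * θ ^ (k0 + m + 1)) := by rw [h7]; ring
      _ ≤ (θ ^ (k0 + 1))⁻¹ * ((Λ : ℝ) ^ (2 * s + 2) * θ ^ (s * s)) := by
          refine mul_le_mul_of_nonneg_left ?_ (by positivity)
          exact mul_le_mul_of_nonneg_left h6 (by positivity)
      _ ≤ (θ ^ (k0 + 1))⁻¹ * (C * (1 / 2) ^ s) :=
          mul_le_mul_of_nonneg_left (hC s) (by positivity)
      _ = C * (θ ^ (k0 + 1))⁻¹ * (1 / 2) ^ s := by ring
  refine (hs1.add hs2).congr fun m => ?_
  push_cast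
  ring

/-! ### lengths of itineraries -/

theorem length_mul_le {d : ℕ} {U0 : Set ℝ} {P Q : Tow d T0 U0 a} (R : Refine P Q) (β : Fin d)
    {c : ℕ} (hc : ∀ α, c ≤ P.r α) : (R.it β).length * c ≤ Q.r β := by
  rw [R.rsum]
  have := List.card_nsmul_le_sum ((R.it β).map P.r) c (by
    intro x hx
    rw [List.mem_map] at hx
    obtain ⟨α, _, rfl⟩ := hx
    exact hc α)
  simpa using this

theorem two_mul_le {d : ℕ} {U0 : Set ℝ} {P Q : Tow d T0 U0 a} (R : Refine P Q) (β α : Fin d)
    (h : 2 ≤ (R.it β).count α) : 2 * P.r α ≤ Q.r β := by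
  have h1 : (R.it β).count α * P.r α ≤ ((R.it β).map P.r).sum := by
    generalize R.it β = w
    induction w with
    | nil => simp
    | cons γ w ih =>
      rw [List.map_cons, List.sum_cons, List.count_cons]
      split_ifs with h2
      · have : γ = α := by simpa using h2
        subst this
        rw [Nat.add_mul, one_mul]
        omega
      · rw [Nat.add_zero]
        omega
  rw [R.rsum]
  exact (Nat.mul_le_mul_right _ h).trans h1

/-- PATH -/
theorem towerSeq_of_occurs (n : ℕ) : ∃ w : List Bool, w ≠ [] ∧ ∀ (Λ : ℕ), 2 ≤ Λ →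
    ∀ l : Fin (n + 2) → ℝ, (∀ i, 0 < l i) → Indep l →
    (∃ k0 : ℕ, ∀ k ≥ k0, ∃ i : ℕ,
      (St.next^[i] (St.init l)).m = true ∧
      Λ ^ scale k ≤ Mx (St.next^[i] (St.init l)).q ∧
      (St.next^[i] (St.init l)).Runs w ∧
      Mx (St.next^[i + w.length] (St.init l)).q < Λ ^ scale (k + 1)) →
    ∀ T0 : ℝ → ℝ, IsStd l T0 → Nonempty (TowerSeq (n + 2) T0 (Dom l) (half l)) := by
  obtain ⟨γ, hγ⟩ := exists_pattern n
  have hγ0 : elem γ ≠ [] := by
    intro h
    have h0 : γ = [] := by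
      cases γ with
      | nil => rfl
      | cons g gs => simp [elem] at h
    have h1 := hγ 0 0
    rw [h0] at h1
    simp [total] at h1
  refine ⟨elem γ, hγ0, ?_⟩
  intro Λ hΛ l hl hi ⟨k0, hocc⟩ T0 hT
  set X : ℕ → St n := fun i => St.next^[i] (St.init l) with hX
  choose! τ hτm hτ1 hτw hτ2 using hocc
  set L := (elem γ).length with hL
  -- times
  set t : ℕ → ℕ := fun m => τ (k0 + m / 2) + (m % 2) * L with ht
  have hXadd : ∀ i j, X (i + j) = St.next^[j] (X i) := by
    intro i j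
    simp only [hX]
    rw [Nat.add_comm, Function.iterate_add_apply]
  have hMmono : ∀ i j, Mx (X i).q ≤ Mx (X (i + j)).q := by
    intro i j
    rw [hXadd]
    exact Meas.Mx_le_iter _ _
  have hMmono' : ∀ i j, Mx (X i).q < Mx (X j).q → i ≤ j := by
    intro i j hij
    by_contra hcon
    push Not at hcon
    obtain ⟨e, rfl⟩ := Nat.exists_eq_add_of_le hcon.le
    exact absurd (hMmono j e) (not_le.2 hij)
  set B : ℕ := Finset.univ.sup fun β : Fin (n + 2) => (total γ β).length with hB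
  -- the property of the tower number m
  let At' : ℕ → Tow (n + 2) T0 (Dom l) (half l) → Prop := fun m P =>
    At P (X (t m)) ∧ (Odd m → ∀ β, Λ ^ scale (k0 + m / 2) ≤ P.r β)
  have hstep : ∀ m, ∀ P : Tow (n + 2) T0 (Dom l) (half l), At' m P →
      ∃ (Q : Tow (n + 2) T0 (Dom l) (half l)) (R : Refine P Q), At' (m + 1) Q ∧
        (Even m → ∀ β, (∀ α, 2 ≤ (R.it β).count α) ∧ (R.it β).length ≤ B) ∧
        ∀ β, (R.it β).length ≤ B + Λ ^ (2 * Nat.sqrt (k0 + m + 1) + 2) := by
    intro m P hP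
    rcases Nat.even_or_odd m with hm | hm
    · -- good step
      obtain ⟨j, rfl⟩ := hm
      have e1 : t (j + j) = τ (k0 + j) := by
        simp only [ht]
        rw [show (j + j) / 2 = j by omega, show (j + j) % 2 = 0 by omega]
        ring
      have e2 : t (j + j + 1) = τ (k0 + j) + L := by
        simp only [ht]
        rw [show (j + j + 1) / 2 = j by omega, show (j + j + 1) % 2 = 1 by omega]
        ring
      obtain ⟨hP1, -⟩ := hP
      rw [e1] at hP1
      obtain ⟨Q, R, hR, hQ⟩ := runs_elem (P := P) γ hP1 (hτw _ (by omega))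
      have hlen : ∀ β, (R.it β).length ≤ B := by
        intro β
        rw [hR, hB]
        exact Finset.le_sup (f := fun β : Fin (n + 2) => (total γ β).length) (Finset.mem_univ β)
      refine ⟨Q, R, ⟨?_, ?_⟩, ?_, ?_⟩
      · rw [e2, hXadd]
        exact hQ
      · intro _ β
        rw [show (j + j + 1) / 2 = j by omega]
        obtain ⟨α, hα⟩ : ∃ α, Mx (X (τ (k0 + j))).q = (X (τ (k0 + j))).q α := by
          obtain ⟨α, -, hα⟩ := Finset.exists_mem_eq_sup Finset.univ ⟨0, Finset.mem_univ _⟩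
            (X (τ (k0 + j))).q
          exact ⟨α, hα⟩
        have h1 := hτ1 (k0 + j) (by omega)
        have h2 := two_mul_le R β α (by rw [hR]; exact hγ β α)
        have h3 : P.r α = (X (τ (k0 + j))).q α := congrFun hP1.2.2.1 α
        have h4 : Λ ^ scale (k0 + j) ≤ P.r α := by
          rw [h3, ← hα]
          exact h1
        omega
      · intro _ β
        exact ⟨fun α => by rw [hR]; exact hγ β α, hlen β⟩
      · intro β
        exact (hlen β).trans (Nat.le_add_right _ _)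
    · -- free step
      obtain ⟨j, rfl⟩ := hm
      have e1 : t (2 * j + 1) = τ (k0 + j) + L := by
        simp only [ht]
        rw [show (2 * j + 1) / 2 = j by omega, show (2 * j + 1) % 2 = 1 by omega]
        ring
      have e2 : t (2 * j + 1 + 1) = τ (k0 + (j + 1)) := by
        simp only [ht]
        rw [show (2 * j + 1 + 1) / 2 = j + 1 by omega, show (2 * j + 1 + 1) % 2 = 0 by omega]
        ring
      obtain ⟨hP1, hP2⟩ := hP
      have hP3 := hP2 ⟨j, rfl⟩
      rw [show (2 * j + 1) / 2 = j by omega] at hP3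
      rw [e1] at hP1
      have h1 := hτ1 (k0 + (j + 1)) (by omega)
      have h2 := hτ2 (k0 + j) (by omega)
      have h3 : τ (k0 + j) + L ≤ τ (k0 + (j + 1)) :=
        hMmono' _ _ (lt_of_lt_of_le h2 (by rw [← Nat.add_assoc] at h1 ⊢; exact h1))
      obtain ⟨e, he⟩ := Nat.exists_eq_add_of_le h3
      have hm : (St.next^[e] (X (τ (k0 + j) + L))).m = true := by
        rw [← hXadd, ← he]
        exact hτm _ (by omega)
      obtain ⟨Q, hQ, ⟨R⟩⟩ := hP1.later hm
      rw [← hXadd, ← he] at hQ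
      have hlen : ∀ β, (R.it β).length ≤ Λ ^ (2 * Nat.sqrt (k0 + (2 * j + 1) + 1) + 2) := by
        intro β
        have h4 := length_mul_le R β hP3
        have h5 : Q.r β = (X (τ (k0 + (j + 1)))).q β := congrFun hQ.2.2.1 β
        have h6 : Q.r β ≤ Λ ^ scale (k0 + j + 2) := by
          rw [h5]
          refine (Meas.le_Mx _ β).trans ?_
          have h7 := hMmono (τ (k0 + (j + 1))) L
          have h8 := hτ2 (k0 + (j + 1)) (by omega)
          rw [show k0 + (j + 1) + 1 = k0 + j + 2 by omega] at h8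
          exact h7.trans h8.le
        have h9 : scale (k0 + j + 2) = scale (k0 + j) +
            ((Nat.sqrt (k0 + j) + 1) + (Nat.sqrt (k0 + j + 1) + 1)) := by
          rw [scale, scale, Finset.sum_range_succ, Finset.sum_range_succ]
          ring
        rw [h9, pow_add] at h6
        have h10 : 0 < Λ ^ scale (k0 + j) := pow_pos (by omega) _
        have h11 : (R.it β).length ≤ Λ ^ ((Nat.sqrt (k0 + j) + 1) + (Nat.sqrt (k0 + j + 1) + 1)) := by
          refine Nat.le_of_mul_le_mul_right (c := Λ ^ scale (k0 + j)) ?_ h10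
          rw [mul_comm (Λ ^ ((Nat.sqrt (k0 + j) + 1) + (Nat.sqrt (k0 + j + 1) + 1)))]
          exact h4.trans h6
        refine h11.trans (Nat.pow_le_pow_right (by omega) ?_)
        have h12 : Nat.sqrt (k0 + j) ≤ Nat.sqrt (k0 + (2 * j + 1) + 1) := Nat.sqrt_le_sqrt (by omega)
        have h13 : Nat.sqrt (k0 + j + 1) ≤ Nat.sqrt (k0 + (2 * j + 1) + 1) :=
          Nat.sqrt_le_sqrt (by omega)
        omega
      refine ⟨Q, R, ⟨?_, ?_⟩, ?_, ?_⟩
      · rw [e2]
        exact hQ
      · intro hodd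
        exfalso
        rw [Nat.odd_iff] at hodd
        omega
      · intro heven
        exfalso
        rw [Nat.even_iff] at heven
        omega
      · intro β
        exact (hlen β).trans (Nat.le_add_left _ _)
  -- the first tower
  have hfirst : ∃ P : Tow (n + 2) T0 (Dom l) (half l), At' 0 P := by
    have h0 := initTow_at hl hi hT
    have hm : (St.next^[τ k0] (St.init l)).m = true := hτm k0 le_rfl
    obtain ⟨Q, hQ, -⟩ := h0.later hm
    refine ⟨Q, ?_, fun h => ?_⟩
    · have e0 : t 0 = τ k0 := by simp [ht]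
      rw [e0]
      exact hQ
    · rw [Nat.odd_iff] at h
      omega
  choose Qf Rf hQf1 hQf2 hQf3 using hstep
  obtain ⟨Pz, hPz⟩ := hfirst
  let seq : ∀ m, {P : Tow (n + 2) T0 (Dom l) (half l) // At' m P} := fun m =>
    Nat.rec ⟨Pz, hPz⟩ (fun m P => ⟨Qf m P.1 P.2, hQf1 m P.1 P.2⟩) m
  exact ⟨{
    P := fun m => (seq m).1
    R := fun m => Rf m (seq m).1 (seq m).2
    B := B
    good := fun m hm β => hQf2 m (seq m).1 (seq m).2 hm β
    rho := fun m => ((B + Λ ^ (2 * Nat.sqrt (k0 + m + 1) + 2) : ℕ) : ℝ)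
    len := fun m β => by exact_mod_cast hQf3 m (seq m).1 (seq m).2 β
    summ := fun θ h0 h1 => summable_rho B k0 Λ (by omega) θ h0 h1 }⟩

end Pool.Agent.Helper22.Rev
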