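import Mathlib
import Pool.Agent.Helper22.Rev.Path

/-!
# The sequence of towers, with a lower bound for the sizes of the bases
-/

set_option autoImplicit false

open Set Filter Topology

namespace Pool.Agent.Helper22.Rev

variable {n : ℕ} {T0 : ℝ → ℝ} {a : ℝ}

namespace Path2

theorem scale_succ (k : ℕ) : scale (k + 1) = scale k + (Nat.sqrt k + 1) := by
  rw [scale, scale, Finset.sum_range_succ]

theorem le_scale (k : ℕ) : k ≤ scale k := by
  induction k with
  | zero => exact Nat.zero_le _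
  | succ k ih =>
    rw [scale_succ]
    omega

theorem scale_mono {j k : ℕ} (h : j ≤ k) : scale j ≤ scale k := by
  obtain ⟨e, rfl⟩ := Nat.exists_eq_add_of_le h
  clear h
  induction e with
  | zero => exact le_rfl
  | succ e ih =>
    rw [← Nat.add_assoc, scale_succ]
    omega

/-- the block of the integer `M` -/
noncomputable def kk (M : ℕ) : ℕ := by
  classical exact Nat.findGreatest (fun k => scale k ≤ M) M

theorem scale_kk (M : ℕ) : scale (kk M) ≤ M := by
  classical
  rw [kk]
  exact Nat.findGreatest_spec (P := fun k => scale k ≤ M) (Nat.zero_le M) (by simp [scale])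

theorem lt_scale_kk (M : ℕ) : M < scale (kk M + 1) := by
  classical
  by_contra hcon
  push Not at hcon
  have h1 : kk M + 1 ≤ M := (le_scale _).trans hcon
  have h2 : kk M + 1 ≤ kk M := by
    conv_rhs => rw [kk]
    exact Nat.le_findGreatest h1 hcon
  omega

theorem le_kk {k M : ℕ} (h : scale k ≤ M) : k ≤ kk M := by
  by_contra hcon
  push Not at hcon
  have := scale_mono (show kk M + 1 ≤ k by omega)
  have := lt_scale_kk M
  omega

theorem kk_le (M : ℕ) : kk M ≤ M := (le_scale _).trans (scale_kk M)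

theorem kk_mono {M N : ℕ} (h : M ≤ N) : kk M ≤ kk N := le_kk ((scale_kk M).trans h)

theorem le_add_sqrt (M : ℕ) : M ≤ scale (kk M) + Nat.sqrt M := by
  have h1 := lt_scale_kk M
  rw [scale_succ] at h1
  have h2 : Nat.sqrt (kk M) ≤ Nat.sqrt M := Nat.sqrt_le_sqrt (kk_le M)
  omega

theorem scale_succ_le (M : ℕ) : scale (kk M + 1) ≤ M + Nat.sqrt M + 1 := by
  have h1 := scale_kk M
  rw [scale_succ]
  have h2 : Nat.sqrt (kk M) ≤ Nat.sqrt M := Nat.sqrt_le_sqrt (kk_le M)
  omega

end Path2

open Path2 in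
/-- PATH2 -/
theorem towerSeq_of_occurs_many (n : ℕ) : ∃ w : List Bool, w ≠ [] ∧ ∀ (Λ : ℕ), 2 ≤ Λ →
    ∀ l : Fin (n + 2) → ℝ, (∀ i, 0 < l i) → Indep l →
    (∃ k0 : ℕ, ∀ k ≥ k0, ∃ i : ℕ → ℕ,
      (∀ j ≤ Nat.sqrt k,
        (St.next^[i j] (St.init l)).m = true ∧
        Λ ^ scale k ≤ Mx (St.next^[i j] (St.init l)).q ∧
        (St.next^[i j] (St.init l)).Runs w ∧
        Mx (St.next^[i j + w.length] (St.init l)).q < Λ ^ scale (k + 1)) ∧
      ∀ j < Nat.sqrt k, i j + w.length ≤ i (j + 1)) →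
    ∀ T0 : ℝ → ℝ, IsStd l T0 → ∃ (Q : TowerSeq (n + 2) T0 (Dom l) (half l)) (c κ : ℝ),
      0 < c ∧ 0 < κ ∧ ∀ m, c * κ ^ m ≤ (Q.P m).eps := by
  obtain ⟨γ, hγ⟩ := exists_pattern n
  have hγ0 : elem γ ≠ [] := by
    intro h
    have h0 : γ = [] := by
      cases γ with
      | nil => rfl
      | cons g gs => simp [elem] at h
    have h1 := hγ 0 0
    rw [h0] at h1
    simp [total] at h1
  refine ⟨elem γ, hγ0, ?_⟩
  intro Λ hΛ l hl hi ⟨k0, hocc⟩ T0 hT
  set X : ℕ → St n := fun i => St.next^[i] (St.init l) with hX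
  choose! ti hti hti2 using hocc
  set L := (elem γ).length with hL
  set S0 := scale k0 with hS0
  have hXadd : ∀ i j, X (i + j) = St.next^[j] (X i) := by
    intro i j
    simp only [hX]
    rw [Nat.add_comm, Function.iterate_add_apply]
  have hMmono : ∀ i j, Mx (X i).q ≤ Mx (X (i + j)).q := by
    intro i j
    rw [hXadd]
    exact Meas.Mx_le_iter _ _
  have hMmono' : ∀ i j, Mx (X i).q < Mx (X j).q → i ≤ j := by
    intro i j hij
    by_contra hcon
    push Not at hcon
    obtain ⟨e, rfl⟩ := Nat.exists_eq_add_of_le hcon.le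
    exact absurd (hMmono j e) (not_le.2 hij)
  -- enumeration of the occurrences
  set τ : ℕ → ℕ := fun N => ti (kk (S0 + N)) (S0 + N - scale (kk (S0 + N))) with hτ
  have hkk : ∀ N, k0 ≤ kk (S0 + N) := fun N => le_kk (Nat.le_add_right _ _)
  have hjj : ∀ N, S0 + N - scale (kk (S0 + N)) ≤ Nat.sqrt (kk (S0 + N)) := by
    intro N
    have h1 := lt_scale_kk (S0 + N)
    rw [scale_succ] at h1
    omega
  have hτm : ∀ N, (X (τ N)).m = true := fun N => (hti _ (hkk N) _ (hjj N)).1
  have hτ1 : ∀ N, Λ ^ scale (kk (S0 + N)) ≤ Mx (X (τ N)).q := fun N =>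
    (hti _ (hkk N) _ (hjj N)).2.1
  have hτw : ∀ N, (X (τ N)).Runs (elem γ) := fun N => (hti _ (hkk N) _ (hjj N)).2.2.1
  have hτ2 : ∀ N, Mx (X (τ N + L)).q < Λ ^ scale (kk (S0 + N) + 1) := fun N =>
    (hti _ (hkk N) _ (hjj N)).2.2.2
  have hτs : ∀ N, τ N + L ≤ τ (N + 1) := by
    intro N
    have hmono : kk (S0 + N) ≤ kk (S0 + (N + 1)) := kk_mono (by omega)
    rcases hmono.eq_or_lt with h | h
    · have h1 : scale (kk (S0 + (N + 1))) ≤ S0 + N := by
        rw [← h]
        exact scale_kk _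
      have h2 : S0 + (N + 1) - scale (kk (S0 + (N + 1))) =
          S0 + N - scale (kk (S0 + N)) + 1 := by
        rw [← h] at h1 ⊢
        omega
      have h3 := hti2 (kk (S0 + N)) (hkk N) (S0 + N - scale (kk (S0 + N))) (by
        have h4 := lt_scale_kk (S0 + (N + 1))
        rw [scale_succ, ← h] at h4
        have h5 := scale_kk (S0 + N)
        omega)
      simp only [hτ]
      rw [h2, ← h]
      exact h3
    · refine hMmono' _ _ ((hτ2 N).trans_le ?_)
      refine (Nat.pow_le_pow_right (by omega) (scale_mono ?_)).trans (hτ1 (N + 1))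
      exact h
  -- times
  set t : ℕ → ℕ := fun m => τ (m / 2) + (m % 2) * L with ht
  set B : ℕ := Finset.univ.sup fun β : Fin (n + 2) => (total γ β).length with hB
  -- the property of the tower number m
  let At' : ℕ → Tow (n + 2) T0 (Dom l) (half l) → Prop := fun m P =>
    At P (X (t m)) ∧ (Odd m → ∀ β, Λ ^ scale (kk (S0 + m / 2)) ≤ P.r β)
  have hstep : ∀ m, ∀ P : Tow (n + 2) T0 (Dom l) (half l), At' m P →
      ∃ (Q : Tow (n + 2) T0 (Dom l) (half l)) (R : Refine P Q), At' (m + 1) Q ∧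
        (Even m → ∀ β, (∀ α, 2 ≤ (R.it β).count α) ∧ (R.it β).length ≤ B) ∧
        ∀ β, (R.it β).length ≤ B + Λ ^ (2 * Nat.sqrt (S0 + m + 1) + 2) := by
    intro m P hP
    rcases Nat.even_or_odd m with hm | hm
    · -- good step
      obtain ⟨j, rfl⟩ := hm
      have e1 : t (j + j) = τ j := by
        simp only [ht]
        rw [show (j + j) / 2 = j by omega, show (j + j) % 2 = 0 by omega]
        ring
      have e2 : t (j + j + 1) = τ j + L := by
        simp only [ht]
        rw [show (j + j + 1) / 2 = j by omega, show (j + j + 1) % 2 = 1 by omega]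
        ring
      obtain ⟨hP1, -⟩ := hP
      rw [e1] at hP1
      obtain ⟨Q, R, hR, hQ⟩ := runs_elem (P := P) γ hP1 (hτw _)
      have hlen : ∀ β, (R.it β).length ≤ B := by
        intro β
        rw [hR, hB]
        exact Finset.le_sup (f := fun β : Fin (n + 2) => (total γ β).length) (Finset.mem_univ β)
      refine ⟨Q, R, ⟨?_, ?_⟩, ?_, ?_⟩
      · rw [e2, hXadd]
        exact hQ
      · intro _ β
        rw [show (j + j + 1) / 2 = j by omega]
        obtain ⟨α, hα⟩ : ∃ α, Mx (X (τ j)).q = (X (τ j)).q α := by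
          obtain ⟨α, -, hα⟩ := Finset.exists_mem_eq_sup Finset.univ ⟨0, Finset.mem_univ _⟩
            (X (τ j)).q
          exact ⟨α, hα⟩
        have h1 := hτ1 j
        have h2 := two_mul_le R β α (by rw [hR]; exact hγ β α)
        have h3 : P.r α = (X (τ j)).q α := congrFun hP1.2.2.1 α
        have h4 : Λ ^ scale (kk (S0 + j)) ≤ P.r α := by
          rw [h3, ← hα]
          exact h1
        omega
      · intro _ β
        exact ⟨fun α => by rw [hR]; exact hγ β α, hlen β⟩
      · intro β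
        exact (hlen β).trans (Nat.le_add_right _ _)
    · -- free step
      obtain ⟨j, rfl⟩ := hm
      have e1 : t (2 * j + 1) = τ j + L := by
        simp only [ht]
        rw [show (2 * j + 1) / 2 = j by omega, show (2 * j + 1) % 2 = 1 by omega]
        ring
      have e2 : t (2 * j + 1 + 1) = τ (j + 1) := by
        simp only [ht]
        rw [show (2 * j + 1 + 1) / 2 = j + 1 by omega, show (2 * j + 1 + 1) % 2 = 0 by omega]
        ring
      obtain ⟨hP1, hP2⟩ := hP
      have hP3 := hP2 ⟨j, rfl⟩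
      rw [show (2 * j + 1) / 2 = j by omega] at hP3
      rw [e1] at hP1
      have h3 : τ j + L ≤ τ (j + 1) := hτs j
      obtain ⟨e, he⟩ := Nat.exists_eq_add_of_le h3
      have hm : (St.next^[e] (X (τ j + L))).m = true := by
        rw [← hXadd, ← he]
        exact hτm _
      obtain ⟨Q, hQ, ⟨R⟩⟩ := hP1.later hm
      rw [← hXadd, ← he] at hQ
      have hlen : ∀ β, (R.it β).length ≤ Λ ^ (2 * Nat.sqrt (S0 + (2 * j + 1) + 1) + 2) := by
        intro β
        have h4 := length_mul_le R β hP3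
        have h5 : Q.r β = (X (τ (j + 1))).q β := congrFun hQ.2.2.1 β
        have h6 : Q.r β ≤ Λ ^ scale (kk (S0 + (j + 1)) + 1) := by
          rw [h5]
          refine (Meas.le_Mx _ β).trans ?_
          have h7 := hMmono (τ (j + 1)) L
          have h8 := hτ2 (j + 1)
          exact h7.trans h8.le
        have h9 : scale (kk (S0 + (j + 1)) + 1) ≤ scale (kk (S0 + j)) +
            (2 * Nat.sqrt (S0 + (2 * j + 1) + 1) + 2) := by
          have a1 := scale_succ_le (S0 + (j + 1))
          have a2 := le_add_sqrt (S0 + j)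
          have a3 : Nat.sqrt (S0 + j) ≤ Nat.sqrt (S0 + (2 * j + 1) + 1) :=
            Nat.sqrt_le_sqrt (by omega)
          have a4 : Nat.sqrt (S0 + (j + 1)) ≤ Nat.sqrt (S0 + (2 * j + 1) + 1) :=
            Nat.sqrt_le_sqrt (by omega)
          omega
        have h6' := h6.trans (Nat.pow_le_pow_right (show 0 < Λ by omega) h9)
        rw [pow_add] at h6'
        have h10 : 0 < Λ ^ scale (kk (S0 + j)) := pow_pos (by omega) _
        refine Nat.le_of_mul_le_mul_right (c := Λ ^ scale (kk (S0 + j))) ?_ h10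
        rw [mul_comm (Λ ^ (2 * Nat.sqrt (S0 + (2 * j + 1) + 1) + 2))]
        exact h4.trans h6'
      refine ⟨Q, R, ⟨?_, ?_⟩, ?_, ?_⟩
      · rw [e2]
        exact hQ
      · intro hodd
        exfalso
        rw [Nat.odd_iff] at hodd
        omega
      · intro heven
        exfalso
        rw [Nat.even_iff] at heven
        omega
      · intro β
        exact (hlen β).trans (Nat.le_add_left _ _)
  -- the first tower
  have hfirst : ∃ P : Tow (n + 2) T0 (Dom l) (half l), At' 0 P := by
    have h0 := initTow_at hl hi hT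
    have hm : (St.next^[τ 0] (St.init l)).m = true := hτm 0
    obtain ⟨Q, hQ, -⟩ := h0.later hm
    refine ⟨Q, ?_, fun h => ?_⟩
    · have e0 : t 0 = τ 0 := by simp [ht]
      rw [e0]
      exact hQ
    · rw [Nat.odd_iff] at h
      omega
  choose Qf Rf hQf1 hQf2 hQf3 using hstep
  obtain ⟨Pz, hPz⟩ := hfirst
  let seq : ∀ m, {P : Tow (n + 2) T0 (Dom l) (half l) // At' m P} := fun m =>
    Nat.rec ⟨Pz, hPz⟩ (fun m P => ⟨Qf m P.1 P.2, hQf1 m P.1 P.2⟩) m
  refine ⟨{
    P := fun m => (seq m).1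
    R := fun m => Rf m (seq m).1 (seq m).2
    B := B
    good := fun m hm β => hQf2 m (seq m).1 (seq m).2 hm β
    rho := fun m => ((B + Λ ^ (2 * Nat.sqrt (S0 + m + 1) + 2) : ℕ) : ℝ)
    len := fun m β => by exact_mod_cast hQf3 m (seq m).1 (seq m).2 β
    summ := fun θ h0 h1 => summable_rho B S0 Λ (by omega) θ h0 h1 },
    half l / (Λ : ℝ) ^ (2 * S0 + 1), 1 / (Λ : ℝ), ?_, ?_, ?_⟩
  · have : (0 : ℝ) < Λ := by exact_mod_cast (show 0 < Λ by omega)
    exact div_pos (half_pos hl) (by positivity)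
  · have : (0 : ℝ) < Λ := by exact_mod_cast (show 0 < Λ by omega)
    positivity
  · intro m
    change half l / (Λ : ℝ) ^ (2 * S0 + 1) * (1 / (Λ : ℝ)) ^ m ≤ ((seq m).1).eps
    obtain ⟨P, hP⟩ := seq m
    change half l / (Λ : ℝ) ^ (2 * S0 + 1) * (1 / (Λ : ℝ)) ^ m ≤ P.eps
    have hΛ0 : (0 : ℝ) < Λ := by exact_mod_cast (show 0 < Λ by omega)
    have hr : ∀ β, P.r β ≤ Λ ^ (2 * S0 + 1 + m) := by
      intro β
      have h1 : P.r β = (X (t m)).q β := congrFun hP.1.2.2.1 β
      rw [h1]
      refine (Meas.le_Mx _ β).trans ?_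
      have h2 : Mx (X (t m)).q ≤ Mx (X (τ (m / 2) + L)).q := by
        rcases Nat.even_or_odd m with hm | hm
        · have e1 : t m = τ (m / 2) := by
            simp only [ht]
            rw [Nat.even_iff.1 hm]
            ring
          rw [e1]
          exact hMmono _ _
        · have e1 : t m = τ (m / 2) + L := by
            simp only [ht]
            rw [Nat.odd_iff.1 hm]
            ring
          rw [e1]
      refine h2.trans ((hτ2 (m / 2)).le.trans (Nat.pow_le_pow_right (by omega) ?_))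
      have h3 := scale_succ_le (S0 + m / 2)
      have h4 := Nat.sqrt_le_self (S0 + m / 2)
      omega
    have h5 : 2 * half l ≤ (Λ : ℝ) ^ (2 * S0 + 1 + m) * (2 * P.eps) := by
      rw [← P.full, ← P.total, Finset.mul_sum]
      refine Finset.sum_le_sum fun β _ => ?_
      refine mul_le_mul_of_nonneg_right ?_ (by linarith [P.lt β])
      exact_mod_cast hr β
    have h6 : half l / (Λ : ℝ) ^ (2 * S0 + 1) * (1 / (Λ : ℝ)) ^ m =
        half l / (Λ : ℝ) ^ (2 * S0 + 1 + m) := by
      rw [pow_add _ (2 * S0 + 1) m, one_div, inv_pow]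
      field_simp
    rw [h6, div_le_iff₀ (by positivity)]
    linarith [h5]

end Pool.Agent.Helper22.Rev
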