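import Mathlib
import Pool.Agent.Helper22.Rev.Core
import Pool.Agent.Helper22.Rev.Iff
import Pool.Agent.Helper22.Rev.IetFacts
import Pool.Agent.Helper22.Rev.HoldB
import Pool.Agent.Helper22.Rev.Meas2
import Pool.Agent.Helper22.Rev.Path2

/-!
# Rigidity of reversible generalised interval exchange maps: assembly (MP_2efe30_an)
-/

set_option autoImplicit false

open Set Filter Topology MeasureTheory

namespace Pool.Agent.Helper22.Rev

theorem qmp_rev (n : ℕ) : Measure.QuasiMeasurePreserving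
    (rev : (Fin (n + 2) → ℝ) → (Fin (n + 2) → ℝ)) volume volume :=
  (Meas.mp_perm (Fin.revPerm : Equiv.Perm (Fin (n + 2)))).quasiMeasurePreserving

theorem core_holder {n : ℕ} {l l' : Fin (n + 2) → ℝ} {T0' T G : ℝ → ℝ}
    (h : IncConj l l' T0' T G) (hi : Indep l')
    (Q : TowerSeq (n + 2) T0' (Dom l') (half l')) {c κ : ℝ} (hc : 0 < c) (hκ : 0 < κ)
    (hlow : ∀ m, c * κ ^ m ≤ (Q.P m).eps) (hr : Reversible l T) :
    ∃ (g : ℝ → ℝ) (K τ : ℝ), 0 < τ ∧ τ ≤ 1 ∧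
      (∀ x ∈ Icc (-half l) (half l), ∀ y ∈ Icc (-half l) (half l),
        |g x - g y| ≤ K * |x - y| ^ τ) ∧
      ∀ x ∈ Icc (-half l) (half l), 0 < g x ∧
        HasDerivWithinAt G (g x) (Icc (-half l) (half l)) x := by
  have hd : 0 < n + 2 := by omega
  obtain ⟨g, hg, hgd⟩ := core h hi Q hr
  obtain ⟨f, f1, f2, C, TS⟩ := tside_exists h
  obtain ⟨σ, σ', Cσ, τ, hσ⟩ := hr
  have hG := sym h hi Q.P (HoldA.tendsto_eps hd Q) hσ
  obtain ⟨Cm, hCm, hmid⟩ := mid_bound h TS hσ hG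
  obtain ⟨K, θ, hK, hθ0, hθ1, hKF⟩ := decay TS hd Q Cm τ hCm hσ.pos
    (fun m α => hmid (Q.P m) α)
  rw [← h.hh] at hg hgd
  obtain ⟨K3, τ3, -, h1, h2, h3⟩ := holder_g TS hd Q hc hκ hlow hK hθ0 hθ1
    (fun m => (hKF m).1) (fun m => (hKF m).2) g hg hgd
  rw [h.hh] at hgd h3
  exact ⟨g, K3, τ3, h1, h2, h3, hgd⟩

theorem main_iff (n : ℕ) : ∀ᵐ l : Fin (n + 2) → ℝ, (∀ i, 0 < l i) →
    ∀ T0 T : ℝ → ℝ, IsStd l T0 → IsGiet l T → TopConj l T T0 →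
      (C1HolderConj l T T0 ↔ Reversible l T) := by
  obtain ⟨w, hw, hpath⟩ := towerSeq_of_occurs_many n
  obtain ⟨Λ, hΛ, hocc⟩ := ae_occurs_many n w hw
  filter_upwards [hocc, (qmp_rev n).ae hocc, indep_ae n, (qmp_rev n).ae (indep_ae n)]
    with l h1 h2 h3 h4 hl T0 T hT0 hT htop
  refine ⟨fun hc => reversible_of_c1HolderConj hl hT0 hT hc, fun hr => ?_⟩
  refine c1HolderConj_of_core hl hT0 hT htop ?_
  rintro l' T0' G (rfl | rfl) hG
  · obtain ⟨Q, c, κ, hc, hκ, hlow⟩ := hpath Λ hΛ l' hl h3 (h1 hl) T0' hG.std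
    exact core_holder hG h3 Q hc hκ hlow hr
  · have hl' : ∀ i, 0 < rev l i := fun i => hl _
    obtain ⟨Q, c, κ, hc, hκ, hlow⟩ := hpath Λ hΛ (rev l) hl' h4 (h2 hl') T0' hG.std
    exact core_holder hG h4 Q hc hκ hlow hr

end Pool.Agent.Helper22.Rev
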